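import Pool.Agent.Lib.MP_6bd702_perc.Grid

/-!
# Planarity (task PlanarA)
-/

set_option autoImplicit false

namespace Pool.Agent.Perc

open Finset

namespace PlanarA

/-! ### Chains on faces -/

/-- The degree at the vertex `z` of a chain of faces. -/
def deg (β : ℤ × ℤ → ZMod 2) (z : ℤ × ℤ) : ZMod 2 :=
  β (z.1, z.2) + β (z.1 - 1, z.2) + β (z.1, z.2 - 1) + β (z.1 - 1, z.2 - 1)

/-- The chain of one face. -/
def one (f : ℤ × ℤ) : ℤ × ℤ → ZMod 2 := fun g => if g = f then 1 else 0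

/-- The indicator function of a vertex. -/
def ind (u z : ℤ × ℤ) : ZMod 2 := if z = u then 1 else 0

theorem zmod_add_self (a : ZMod 2) : a + a = 0 := CharTwo.add_self_eq_zero a

theorem deg_add (β γ : ℤ × ℤ → ZMod 2) (z : ℤ × ℤ) :
    deg (fun f => β f + γ f) z = deg β z + deg γ z := by
  unfold deg; ring

theorem deg_one_slash (x y : ℤ) (z : ℤ × ℤ) (hz : (z.1 + z.2 - (x + y)) % 2 = 0) :
    deg (one (x, y)) z = ind (x, y) z + ind (x + 1, y + 1) z := by
  obtain ⟨a, b⟩ := z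
  simp only [deg, one, ind, Prod.mk.injEq] at *
  by_cases h1 : a = x ∧ b = y
  · obtain ⟨rfl, rfl⟩ := h1
    simp
  by_cases h2 : a = x + 1 ∧ b = y + 1
  · obtain ⟨rfl, rfl⟩ := h2
    simp
  have e1 : ¬ (a - 1 = x ∧ b = y) := by
    rintro ⟨h, h'⟩; omega
  have e2 : ¬ (a = x ∧ b - 1 = y) := by
    rintro ⟨h, h'⟩; omega
  have e3 : ¬ (a - 1 = x ∧ b - 1 = y) := by
    rintro ⟨h, h'⟩; exact h2 ⟨by omega, by omega⟩
  rw [if_neg h1, if_neg e1, if_neg e2, if_neg e3, if_neg h2]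
  simp

theorem deg_one_back (x y : ℤ) (z : ℤ × ℤ) (hz : (z.1 + z.2 - (x + y + 1)) % 2 = 0) :
    deg (one (x, y)) z = ind (x, y + 1) z + ind (x + 1, y) z := by
  obtain ⟨a, b⟩ := z
  simp only [deg, one, ind, Prod.mk.injEq] at *
  by_cases h1 : a = x ∧ b = y + 1
  · obtain ⟨rfl, rfl⟩ := h1
    simp
  by_cases h2 : a = x + 1 ∧ b = y
  · obtain ⟨rfl, rfl⟩ := h2
    simp
  have e0 : ¬ (a = x ∧ b = y) := by
    rintro ⟨h, h'⟩; omega
  have e1 : ¬ (a - 1 = x ∧ b = y) := by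
    rintro ⟨h, h'⟩; exact h2 ⟨by omega, by omega⟩
  have e2 : ¬ (a = x ∧ b - 1 = y) := by
    rintro ⟨h, h'⟩; exact h1 ⟨by omega, by omega⟩
  have e3 : ¬ (a - 1 = x ∧ b - 1 = y) := by
    rintro ⟨h, h'⟩; omega
  rw [if_neg h1, if_neg e0, if_neg e1, if_neg e2, if_neg e3, if_neg h2]
  simp

theorem ind_comm_step (a b c : ZMod 2) : a + b + (b + c) = a + c := by
  have := zmod_add_self b
  linear_combination this

theorem sum_one {x₀ x₁ x y : ℤ} (hx : x₀ ≤ x ∧ x < x₁) (b : ℤ) :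
    ∑ i ∈ Ico x₀ x₁, one (x, y) (i, b) = if b = y then 1 else 0 := by
  unfold one
  by_cases hb : b = y
  · subst hb
    rw [Finset.sum_eq_single x]
    · simp
    · intro i _ hi
      simp [hi]
    · intro h
      exact absurd (Finset.mem_Ico.mpr hx) h
  · rw [if_neg hb]
    apply Finset.sum_eq_zero
    intro i _
    simp [hb]

theorem row_toggle (y b : ℤ) :
    ((if y ≤ b then 1 else 0 : ZMod 2) + if y + 1 ≤ b then 1 else 0) = if b = y then 1 else 0 := by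
  by_cases h : b = y
  · subst h; simp
  · by_cases h' : y ≤ b
    · rw [if_pos h', if_pos (by omega), if_neg h]; exact zmod_add_self 1
    · rw [if_neg h', if_neg (by omega), if_neg h]; simp

theorem mem_RF {x₀ x₁ y₀ y₁ : ℤ} {f : ℤ × ℤ} :
    f ∈ RF x₀ x₁ y₀ y₁ ↔ (x₀ ≤ f.1 ∧ f.1 < x₁) ∧ (y₀ ≤ f.2 ∧ f.2 < y₁) := by
  unfold RF; rw [Finset.mem_product, Finset.mem_Ico, Finset.mem_Ico]

/-- A path gives a chain. -/
theorem exists_chain {ω : Cfg} {x₀ x₁ y₀ y₁ : ℤ} {u w : ℤ × ℤ}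
    (h : Conn ω (RF x₀ x₁ y₀ y₁) u w) : ∃ β : ℤ × ℤ → ZMod 2,
    (∀ f, β f ≠ 0 → f ∈ RF x₀ x₁ y₀ y₁) ∧
    (∀ f, β f ≠ 0 → ∀ z : ℤ × ℤ, (z.1 + z.2 - (u.1 + u.2)) % 2 = 0 →
      (z.1 = f.1 ∨ z.1 = f.1 + 1) → (z.2 = f.2 ∨ z.2 = f.2 + 1) →
        Conn ω (RF x₀ x₁ y₀ y₁) u z) ∧
    (∀ f, β f ≠ 0 → (ω f = true ↔ (f.1 + f.2 - (u.1 + u.2)) % 2 = 0)) ∧
    (∀ z : ℤ × ℤ, (z.1 + z.2 - (u.1 + u.2)) % 2 = 0 → deg β z = ind u z + ind w z) ∧
    (∀ b, ∑ i ∈ Ico x₀ x₁, β (i, b) =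
      (if u.2 ≤ b then 1 else 0) + (if w.2 ≤ b then 1 else 0)) := by
  induction h with
  | refl =>
    refine ⟨fun _ => 0, ?_, ?_, ?_, ?_, ?_⟩
    · intro f hf; exact absurd rfl hf
    · intro f hf; exact absurd rfl hf
    · intro f hf; exact absurd rfl hf
    · intro z _; rw [zmod_add_self]; simp [deg]
    · intro b; rw [zmod_add_self]; simp
  | @tail b c hab hbc ih =>
    obtain ⟨β, h1, h2, h3, h4, h5⟩ := ih
    have hpar := Conn.parity hab
    have hcon : Conn ω (RF x₀ x₁ y₀ y₁) u c := Relation.ReflTransGen.tail hab hbc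
    obtain ⟨x, y, hxy, hb⟩ := hbc
    have hm := mem_RF.mp (Finset.mem_coe.mp hxy)
    have key : (∀ z : ℤ × ℤ, (z.1 + z.2 - (u.1 + u.2)) % 2 = 0 →
        deg (one (x, y)) z = ind b z + ind c z) →
        (∀ r : ℤ, ((if b.2 ≤ r then 1 else 0 : ZMod 2) + if c.2 ≤ r then 1 else 0) =
          if r = y then 1 else 0) →
        (∀ z : ℤ × ℤ, (z.1 + z.2 - (u.1 + u.2)) % 2 = 0 →
          (z.1 = x ∨ z.1 = x + 1) → (z.2 = y ∨ z.2 = y + 1) → z = b ∨ z = c) →
        (ω (x, y) = true ↔ (x + y - (u.1 + u.2)) % 2 = 0) →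
        ∃ β : ℤ × ℤ → ZMod 2,
        (∀ f, β f ≠ 0 → f ∈ RF x₀ x₁ y₀ y₁) ∧
        (∀ f, β f ≠ 0 → ∀ z : ℤ × ℤ, (z.1 + z.2 - (u.1 + u.2)) % 2 = 0 →
          (z.1 = f.1 ∨ z.1 = f.1 + 1) → (z.2 = f.2 ∨ z.2 = f.2 + 1) →
            Conn ω (RF x₀ x₁ y₀ y₁) u z) ∧
        (∀ f, β f ≠ 0 → (ω f = true ↔ (f.1 + f.2 - (u.1 + u.2)) % 2 = 0)) ∧
        (∀ z : ℤ × ℤ, (z.1 + z.2 - (u.1 + u.2)) % 2 = 0 → deg β z = ind u z + ind c z) ∧
        (∀ b, ∑ i ∈ Ico x₀ x₁, β (i, b) =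
          (if u.2 ≤ b then 1 else 0) + (if c.2 ≤ b then 1 else 0)) := by
      intro hd hr hc hω
      have hsplit : ∀ f, β f + one (x, y) f ≠ 0 → β f ≠ 0 ∨ f = (x, y) := by
        intro f hf
        by_cases hfe : f = (x, y)
        · exact Or.inr hfe
        · left
          intro h0
          apply hf
          rw [h0]
          simp [one, hfe]
      refine ⟨fun f => β f + one (x, y) f, ?_, ?_, ?_, ?_, ?_⟩
      · intro f hf
        rcases hsplit f hf with h | h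
        · exact h1 f h
        · rw [h]; exact Finset.mem_coe.mp hxy
      · intro f hf z hz hz1 hz2
        rcases hsplit f hf with h | h
        · exact h2 f h z hz hz1 hz2
        · rw [h] at hz1 hz2
          rcases hc z hz hz1 hz2 with h' | h'
          · rw [h']; exact hab
          · rw [h']; exact hcon
      · intro f hf
        rcases hsplit f hf with h | h
        · exact h3 f h
        · rw [h]; exact hω
      · intro z hz
        rw [deg_add, h4 z hz, hd z hz, ind_comm_step]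
      · intro r
        rw [Finset.sum_add_distrib, h5 r, sum_one hm.1, ← hr r, ind_comm_step]
    rcases hb with ⟨hω, ⟨hb, hc⟩ | ⟨hb, hc⟩⟩ | ⟨hω, ⟨hb, hc⟩ | ⟨hb, hc⟩⟩
    · subst hb; subst hc
      simp only at hpar
      apply key
      · intro z hz
        exact deg_one_slash x y z (by omega)
      · intro r; exact row_toggle y r
      · intro z hz hz1 hz2
        obtain ⟨z1, z2⟩ := z
        simp only at hz hz1 hz2
        rcases hz1 with rfl | rfl <;> rcases hz2 with rfl | rfl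
        · left; rfl
        · exfalso; omega
        · exfalso; omega
        · right; rfl
      · constructor
        · intro _; omega
        · intro _; exact hω
    · subst hb; subst hc
      simp only at hpar
      apply key
      · intro z hz
        rw [add_comm (ind _ z)]
        exact deg_one_slash x y z (by omega)
      · intro r; rw [add_comm]; exact row_toggle y r
      · intro z hz hz1 hz2
        obtain ⟨z1, z2⟩ := z
        simp only at hz hz1 hz2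
        rcases hz1 with rfl | rfl <;> rcases hz2 with rfl | rfl
        · right; rfl
        · exfalso; omega
        · exfalso; omega
        · left; rfl
      · constructor
        · intro _; omega
        · intro _; exact hω
    · subst hb; subst hc
      simp only at hpar
      apply key
      · intro z hz
        exact deg_one_back x y z (by omega)
      · intro r; rw [add_comm]; exact row_toggle y r
      · intro z hz hz1 hz2
        obtain ⟨z1, z2⟩ := z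
        simp only at hz hz1 hz2
        rcases hz1 with rfl | rfl <;> rcases hz2 with rfl | rfl
        · exfalso; omega
        · left; rfl
        · right; rfl
        · exfalso; omega
      · constructor
        · intro h; rw [h] at hω; exact absurd hω (by simp)
        · intro h; exfalso; omega
    · subst hb; subst hc
      simp only at hpar
      apply key
      · intro z hz
        rw [add_comm (ind _ z)]
        exact deg_one_back x y z (by omega)
      · intro r; exact row_toggle y r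
      · intro z hz hz1 hz2
        obtain ⟨z1, z2⟩ := z
        simp only at hz hz1 hz2
        rcases hz1 with rfl | rfl <;> rcases hz2 with rfl | rfl
        · exfalso; omega
        · right; rfl
        · left; rfl
        · exfalso; omega
      · constructor
        · intro h; rw [h] at hω; exact absurd hω (by simp)
        · intro h; exfalso; omega

/-! ### The potential -/

/-- Sum over the faces of a row to the left of `x`. -/
noncomputable def pre (x₀ : ℤ) (β : ℤ × ℤ → ZMod 2) (x b : ℤ) : ZMod 2 := ∑ i ∈ Ico x₀ x, β (i, b)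

theorem pre_of_le {x₀ x : ℤ} (β : ℤ × ℤ → ZMod 2) (b : ℤ) (h : x ≤ x₀) : pre x₀ β x b = 0 := by
  unfold pre
  rw [Finset.Ico_eq_empty (by omega), Finset.sum_empty]

theorem pre_succ {x₀ : ℤ} {β : ℤ × ℤ → ZMod 2} (hβ : ∀ f, β f ≠ 0 → x₀ ≤ f.1) (x b : ℤ) :
    pre x₀ β (x + 1) b = pre x₀ β x b + β (x, b) := by
  by_cases hx : x₀ ≤ x
  · unfold pre
    have : Ico x₀ (x + 1) = insert x (Ico x₀ x) := by
      ext i; simp only [Finset.mem_Ico, Finset.mem_insert]; omega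
    rw [this, Finset.sum_insert (by simp), add_comm]
  · rw [pre_of_le β b (by omega), pre_of_le β b (by omega)]
    have : β (x, b) = 0 := by
      by_contra h
      exact hx (hβ _ h)
    rw [this, add_zero]

theorem pre_agree {x₀ y p : ℤ} {β : ℤ × ℤ → ZMod 2} (hβ : ∀ f, β f ≠ 0 → x₀ ≤ f.1)
    (hdeg : ∀ x : ℤ, (x + y - p) % 2 = 0 → deg β (x, y) = 0) :
    ∀ n : ℕ, ∀ x : ℤ, x = x₀ - 1 + n → (x + y - p) % 2 ≠ 0 →
      pre x₀ β x y = pre x₀ β x (y - 1) := by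
  intro n
  induction n using Nat.strong_induction_on with
  | _ n ih =>
    intro x hx hp
    match n, hx with
    | 0, hx => rw [pre_of_le β _ (by omega), pre_of_le β _ (by omega)]
    | 1, hx => rw [pre_of_le β _ (by omega), pre_of_le β _ (by omega)]
    | n + 2, hx =>
      have h1 := ih n (by omega) (x - 2) (by push_cast at hx; omega) (by omega)
      have h2 := hdeg (x - 1) (by omega)
      have e1 : ∀ b, pre x₀ β x b = pre x₀ β (x - 2) b + β (x - 2, b) + β (x - 1, b) := by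
        intro b
        have a1 := pre_succ hβ (x - 2) b
        have a2 := pre_succ hβ (x - 1) b
        have c1 : x - 2 + 1 = x - 1 := by ring
        have c2 : x - 1 + 1 = x := by ring
        rw [c1] at a1
        rw [c2] at a2
        rw [a2, a1]
      rw [e1 y, e1 (y - 1), h1]
      unfold deg at h2
      have c3 : x - 1 - 1 = x - 2 := by ring
      simp only [c3] at h2
      have h3 := zmod_add_self (β (x - 1, y - 1) + β (x - 2, y - 1))
      linear_combination h2 - h3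

/-- The vertex `z` is a corner of the face `f`. -/
def Cor (z f : ℤ × ℤ) : Prop := (z.1 = f.1 ∨ z.1 = f.1 + 1) ∧ (z.2 = f.2 ∨ z.2 = f.2 + 1)

theorem pre_agree' {x₀ y p : ℤ} {β : ℤ × ℤ → ZMod 2} (hβ : ∀ f, β f ≠ 0 → x₀ ≤ f.1)
    (hdeg : ∀ x : ℤ, (x + y - p) % 2 = 0 → deg β (x, y) = 0) {x : ℤ} (hx : x₀ ≤ x)
    (hgood : (x + y - p) % 2 ≠ 0 ∨ ∀ f, Cor (x, y) f → β f = 0) :
    pre x₀ β x y = pre x₀ β x (y - 1) := by
  by_cases hp : (x + y - p) % 2 ≠ 0
  · exact pre_agree hβ hdeg (x - x₀ + 1).toNat x (by omega) hp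
  · rcases hgood with h | h
    · exact absurd h hp
    · have h1 := pre_agree hβ hdeg (x - x₀).toNat (x - 1) (by omega) (by omega)
      have a1 := pre_succ hβ (x - 1) y
      have a2 := pre_succ hβ (x - 1) (y - 1)
      have c : x - 1 + 1 = x := by ring
      rw [c] at a1 a2
      rw [a1, a2, h1, h (x - 1, y) ⟨Or.inr (by simp), Or.inl rfl⟩,
        h (x - 1, y - 1) ⟨Or.inr (by simp), Or.inr (by simp)⟩]

/-- A path from left to right which does not cross the chain cannot exist. -/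
theorem no_cross {ω : Cfg} {x₀ x₁ y₀ y₁ p : ℤ} (hx : x₀ < x₁) (hy : y₀ < y₁)
    {β : ℤ × ℤ → ZMod 2} (h1 : ∀ f, β f ≠ 0 → f ∈ RF x₀ x₁ y₀ y₁)
    (hdeg : ∀ z : ℤ × ℤ, (z.1 + z.2 - p) % 2 = 0 → y₀ < z.2 → z.2 < y₁ → deg β z = 0)
    (hrow : ∀ b, y₀ ≤ b → b < y₁ → ∑ i ∈ Ico x₀ x₁, β (i, b) = 1)
    {u v : ℤ × ℤ} (hu : u.1 = x₀ ∧ y₀ ≤ u.2 ∧ u.2 ≤ y₁) (hv : v.1 = x₁)
    (h : Conn ω (RF x₀ x₁ y₀ y₁) u v)
    (hgood : ∀ z, Conn ω (RF x₀ x₁ y₀ y₁) u z →
      (z.1 + z.2 - p) % 2 ≠ 0 ∨ ∀ f, Cor z f → β f = 0)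
    (hstep : ∀ z z' x y, Conn ω (RF x₀ x₁ y₀ y₁) u z →
      ((ω (x, y) = true ∧ ((z = (x, y) ∧ z' = (x + 1, y + 1)) ∨
        (z = (x + 1, y + 1) ∧ z' = (x, y)))) ∨
      (ω (x, y) = false ∧ ((z = (x, y + 1) ∧ z' = (x + 1, y)) ∨
        (z = (x + 1, y) ∧ z' = (x, y + 1))))) → β (x, y) = 0) : False := by
  classical
  have hβ : ∀ f, β f ≠ 0 → x₀ ≤ f.1 := fun f hf => (mem_RF.mp (h1 f hf)).1.1
  set Φ : ℤ × ℤ → ZMod 2 := fun z =>
    if z.2 < y₁ then pre x₀ β z.1 z.2 else pre x₀ β z.1 (z.2 - 1) with hΦ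
  have hphi : ∀ z x y, (x, y) ∈ RF x₀ x₁ y₀ y₁ → Cor z (x, y) → β (x, y) = 0 →
      ((z.1 + z.2 - p) % 2 ≠ 0 ∨ ∀ f, Cor z f → β f = 0) → Φ z = pre x₀ β x y := by
    intro z x y hxy hc h0 hg
    obtain ⟨a, b⟩ := z
    have hm := mem_RF.mp hxy
    simp only at hm
    unfold Cor at hc
    simp only at hc hg
    have hx1 : ∀ r, r = y → (a = x ∨ a = x + 1) → pre x₀ β a r = pre x₀ β x y := by
      intro r hr ha
      subst hr
      rcases ha with rfl | rfl
      · rfl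
      · rw [pre_succ hβ, h0, add_zero]
    rw [hΦ]
    simp only
    rcases hc.2 with hb | hb
    · rw [if_pos (by omega)]
      exact hx1 b hb hc.1
    · by_cases hb' : b < y₁
      · rw [if_pos hb']
        rw [pre_agree' (p := p) hβ (fun x' hx' => hdeg (x', b) hx' (by simp only; omega) hb')
          (by omega) hg]
        exact hx1 (b - 1) (by omega) hc.1
      · rw [if_neg hb']
        exact hx1 (b - 1) (by omega) hc.1
  have hconst : ∀ z, Conn ω (RF x₀ x₁ y₀ y₁) u z → Φ z = Φ u := by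
    intro z hz
    induction hz with
    | refl => rfl
    | @tail b c hab hbc ih =>
      rw [← ih]
      have hac : Conn ω (RF x₀ x₁ y₀ y₁) u c := Relation.ReflTransGen.tail hab hbc
      obtain ⟨x, y, hxy, hb⟩ := hbc
      have h0 := hstep b c x y hab hb
      have hcor : Cor b (x, y) ∧ Cor c (x, y) := by
        rcases hb with ⟨_, ⟨hb, hc⟩ | ⟨hb, hc⟩⟩ | ⟨_, ⟨hb, hc⟩ | ⟨hb, hc⟩⟩ <;>
          subst hb <;> subst hc <;> simp [Cor]
      rw [hphi b x y (Finset.mem_coe.mp hxy) hcor.1 h0 (hgood b hab),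
        hphi c x y (Finset.mem_coe.mp hxy) hcor.2 h0 (hgood c hac)]
  have hfin := hconst v h
  have hvr := Conn.mem_rect h ⟨by omega, by omega, hu.2.1, hu.2.2⟩
  have hu0 : Φ u = 0 := by
    rw [hΦ]
    simp only
    split_ifs
    · exact pre_of_le β _ (by omega)
    · exact pre_of_le β _ (by omega)
  have hv1 : Φ v = 1 := by
    rw [hΦ]
    simp only
    split_ifs with h'
    · unfold pre; rw [hv]; exact hrow v.2 (by omega) h'
    · unfold pre; rw [hv]; exact hrow (v.2 - 1) (by omega) (by omega)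
  rw [hu0, hv1] at hfin
  exact one_ne_zero hfin

/-! ### Existence of crossings -/

theorem tele (g : ℤ → ZMod 2) (a : ℤ) (n : ℕ) :
    ∑ y ∈ Ico a (a + n), (g y + g (y + 1)) = g a + g (a + n) := by
  induction n with
  | zero => simp [zmod_add_self]
  | succ n ih =>
    have : Ico a (a + (n + 1 : ℕ)) = insert (a + n) (Ico a (a + n)) := by
      ext i; simp only [Finset.mem_Ico, Finset.mem_insert]; push_cast; omega
    rw [this, Finset.sum_insert (by simp), ih]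
    have h2 := zmod_add_self (g (a + n))
    have e : a + (n : ℤ) + 1 = a + ((n + 1 : ℕ) : ℤ) := by push_cast; ring
    rw [e]
    linear_combination h2

theorem tele' (g : ℤ → ZMod 2) {a b : ℤ} (h : a ≤ b) :
    ∑ y ∈ Ico a b, (g y + g (y + 1)) = g a + g b := by
  have e : b = a + ((b - a).toNat : ℤ) := by omega
  have := tele g a (b - a).toNat
  rw [← e] at this
  exact this

theorem lr_or_bt_aux (c : ℤ) {x₀ x₁ y₀ y₁ : ℤ} (hx : x₀ < x₁) (hy : y₀ < y₁) (ω : Cfg)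
    (hS : ω ∉ LR c x₀ x₁ y₀ y₁) (hK : ω ∉ BT (c + 1) x₀ x₁ y₀ y₁) : False := by
  classical
  set F : Set (ℤ × ℤ) := (RF x₀ x₁ y₀ y₁ : Set (ℤ × ℤ)) with hF
  set inS : ℤ × ℤ → Prop := fun z => (z.1 + z.2 - c) % 2 = 0 ∧
    ∃ u : ℤ × ℤ, u.1 = x₀ ∧ y₀ ≤ u.2 ∧ u.2 ≤ y₁ ∧ Conn ω F u z with hinS
  set inK : ℤ × ℤ → Prop := fun z => (z.1 + z.2 - (c + 1)) % 2 = 0 ∧
    ∃ u : ℤ × ℤ, u.2 = y₀ ∧ x₀ ≤ u.1 ∧ u.1 ≤ x₁ ∧ Conn ω F u z with hinK
  set s : ℤ × ℤ → ZMod 2 := fun z => if inS z then 1 else 0 with hs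
  set k : ℤ × ℤ → ZMod 2 := fun z => if inK z then 1 else 0 with hk
  have hbond : ∀ z z', Bond ω F z z' → s z = s z' ∧ k z = k z' := by
    intro z z' h
    have hzz : Conn ω F z z' := Relation.ReflTransGen.single h
    have hzz' : Conn ω F z' z := Conn.symm hzz
    have hp := Conn.parity hzz
    have hSi : inS z ↔ inS z' := by
      constructor
      · rintro ⟨h1, u, h2, h3, h4, h5⟩; exact ⟨by omega, u, h2, h3, h4, h5.trans hzz⟩
      · rintro ⟨h1, u, h2, h3, h4, h5⟩; exact ⟨by omega, u, h2, h3, h4, h5.trans hzz'⟩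
    have hKi : inK z ↔ inK z' := by
      constructor
      · rintro ⟨h1, u, h2, h3, h4, h5⟩; exact ⟨by omega, u, h2, h3, h4, h5.trans hzz⟩
      · rintro ⟨h1, u, h2, h3, h4, h5⟩; exact ⟨by omega, u, h2, h3, h4, h5.trans hzz'⟩
    constructor
    · simp only [hs]; rw [if_congr hSi rfl rfl]
    · simp only [hk]; rw [if_congr hKi rfl rfl]
  set e : ℤ × ℤ → ℤ × ℤ → ZMod 2 := fun P Q => s P * k Q + s Q * k P with he
  have hface : ∀ x ∈ Ico x₀ x₁, ∀ y ∈ Ico y₀ y₁,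
      (e (x, y) (x + 1, y) + e (x, y + 1) (x + 1, y + 1)) +
        (e (x, y) (x, y + 1) + e (x + 1, y) (x + 1, y + 1)) = 0 := by
    intro x hx' y hy'
    have hm : (x, y) ∈ F := by
      rw [hF, Finset.mem_coe]
      unfold RF
      exact Finset.mem_product.mpr ⟨hx', hy'⟩
    have hid : (e (x, y) (x + 1, y) + e (x, y + 1) (x + 1, y + 1)) +
        (e (x, y) (x, y + 1) + e (x + 1, y) (x + 1, y + 1)) =
        (s (x, y) + s (x + 1, y + 1)) * (k (x + 1, y) + k (x, y + 1)) +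
        (s (x + 1, y) + s (x, y + 1)) * (k (x, y) + k (x + 1, y + 1)) := by
      simp only [he]; ring
    rw [hid]
    by_cases hω : ω (x, y) = true
    · have := hbond (x, y) (x + 1, y + 1) ⟨x, y, hm, Or.inl ⟨hω, Or.inl ⟨rfl, rfl⟩⟩⟩
      rw [this.1, this.2, zmod_add_self, zmod_add_self, zero_mul, mul_zero, add_zero]
    · have := hbond (x, y + 1) (x + 1, y) ⟨x, y, hm, Or.inr ⟨by simpa using hω, Or.inl ⟨rfl, rfl⟩⟩⟩
      rw [this.1, this.2, zmod_add_self, zmod_add_self, zero_mul, mul_zero, add_zero]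
  have hsum : ∑ x ∈ Ico x₀ x₁, ∑ y ∈ Ico y₀ y₁,
      ((e (x, y) (x + 1, y) + e (x, y + 1) (x + 1, y + 1)) +
        (e (x, y) (x, y + 1) + e (x + 1, y) (x + 1, y + 1))) = 0 :=
    Finset.sum_eq_zero fun x hx' => Finset.sum_eq_zero fun y hy' => hface x hx' y hy'
  have hsplit : ∑ x ∈ Ico x₀ x₁, ∑ y ∈ Ico y₀ y₁,
      ((e (x, y) (x + 1, y) + e (x, y + 1) (x + 1, y + 1)) +
        (e (x, y) (x, y + 1) + e (x + 1, y) (x + 1, y + 1))) =
      ∑ x ∈ Ico x₀ x₁, (e (x, y₀) (x + 1, y₀) + e (x, y₁) (x + 1, y₁)) +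
      ∑ y ∈ Ico y₀ y₁, (e (x₀, y) (x₀, y + 1) + e (x₁, y) (x₁, y + 1)) := by
    simp only [Finset.sum_add_distrib]
    have t1 : ∀ x, ∑ y ∈ Ico y₀ y₁, e (x, y) (x + 1, y) +
        ∑ y ∈ Ico y₀ y₁, e (x, y + 1) (x + 1, y + 1) =
        e (x, y₀) (x + 1, y₀) + e (x, y₁) (x + 1, y₁) := by
      intro x
      rw [← Finset.sum_add_distrib]
      exact tele' (fun y => e (x, y) (x + 1, y)) hy.le
    have t2 : ∀ y, ∑ x ∈ Ico x₀ x₁, e (x, y) (x, y + 1) +
        ∑ x ∈ Ico x₀ x₁, e (x + 1, y) (x + 1, y + 1) =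
        e (x₀, y) (x₀, y + 1) + e (x₁, y) (x₁, y + 1) := by
      intro y
      rw [← Finset.sum_add_distrib]
      exact tele' (fun x => e (x, y) (x, y + 1)) hx.le
    have u1 : ∑ x ∈ Ico x₀ x₁, ∑ y ∈ Ico y₀ y₁, e (x, y) (x + 1, y) +
        ∑ x ∈ Ico x₀ x₁, ∑ y ∈ Ico y₀ y₁, e (x, y + 1) (x + 1, y + 1) =
        ∑ x ∈ Ico x₀ x₁, e (x, y₀) (x + 1, y₀) + ∑ x ∈ Ico x₀ x₁, e (x, y₁) (x + 1, y₁) := by
      rw [← Finset.sum_add_distrib, ← Finset.sum_add_distrib]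
      exact Finset.sum_congr rfl fun x _ => t1 x
    have u2 : ∑ x ∈ Ico x₀ x₁, ∑ y ∈ Ico y₀ y₁, e (x, y) (x, y + 1) +
        ∑ x ∈ Ico x₀ x₁, ∑ y ∈ Ico y₀ y₁, e (x + 1, y) (x + 1, y + 1) =
        ∑ y ∈ Ico y₀ y₁, e (x₀, y) (x₀, y + 1) + ∑ y ∈ Ico y₀ y₁, e (x₁, y) (x₁, y + 1) := by
      rw [Finset.sum_comm, Finset.sum_comm (s := Ico x₀ x₁) (t := Ico y₀ y₁)
        (f := fun x y => e (x + 1, y) (x + 1, y + 1)), ← Finset.sum_add_distrib,
        ← Finset.sum_add_distrib]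
      exact Finset.sum_congr rfl fun y _ => t2 y
    rw [u1, u2]
  have hright : ∀ y, y₀ ≤ y → y ≤ y₁ → s (x₁, y) = 0 := by
    intro y h0 h1
    simp only [hs]
    rw [if_neg]
    rintro ⟨hp, u, hu1, hu2, hu3, hu4⟩
    have := Conn.parity hu4
    exact hS ⟨u, (x₁, y), hu1, hu2, hu3, rfl, by simp only at hp this; omega, hu4⟩
  have htop : ∀ x, x₀ ≤ x → x ≤ x₁ → k (x, y₁) = 0 := by
    intro x h0 h1
    simp only [hk]
    rw [if_neg]
    rintro ⟨hp, u, hu1, hu2, hu3, hu4⟩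
    have := Conn.parity hu4
    exact hK ⟨u, (x, y₁), hu1, hu2, hu3, rfl, by simp only at hp this; omega, hu4⟩
  have hsk : ∀ z, (z.1 + z.2 - c) % 2 = 0 → k z = 0 := by
    intro z hz
    simp only [hk]
    rw [if_neg]
    rintro ⟨h, -⟩
    omega
  have hks : ∀ z, (z.1 + z.2 - c) % 2 ≠ 0 → s z = 0 := by
    intro z hz
    simp only [hs]
    rw [if_neg]
    rintro ⟨h, -⟩
    exact hz h
  have hleft1 : ∀ y, y₀ ≤ y → y ≤ y₁ → (x₀ + y - c) % 2 = 0 → s (x₀, y) = 1 := by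
    intro y h0 h1 hp
    simp only [hs]
    rw [if_pos]
    exact ⟨hp, (x₀, y), rfl, h0, h1, Relation.ReflTransGen.refl⟩
  have hbot1 : ∀ x, x₀ ≤ x → x ≤ x₁ → (x + y₀ - c) % 2 ≠ 0 → k (x, y₀) = 1 := by
    intro x h0 h1 hp
    simp only [hk]
    rw [if_pos]
    exact ⟨by simp only; omega, (x, y₀), rfl, h0, h1, Relation.ReflTransGen.refl⟩
  have hV : ∀ y ∈ Ico y₀ y₁, e (x₀, y) (x₀, y + 1) + e (x₁, y) (x₁, y + 1) =
      k (x₀, y) + k (x₀, y + 1) := by
    intro y hy'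
    rw [Finset.mem_Ico] at hy'
    simp only [he]
    rw [hright y hy'.1 (by omega), hright (y + 1) (by omega) (by omega)]
    by_cases hp : (x₀ + y - c) % 2 = 0
    · rw [hleft1 y hy'.1 (by omega) hp, hks (x₀, y + 1) (by simp only; omega),
        hsk (x₀, y) (by simpa using hp)]
      ring
    · rw [hleft1 (y + 1) (by omega) (by omega) (by omega), hks (x₀, y) (by simpa using hp),
        hsk (x₀, y + 1) (by simp only; omega)]
      ring
  have hH : ∀ x ∈ Ico x₀ x₁, e (x, y₀) (x + 1, y₀) + e (x, y₁) (x + 1, y₁) =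
      s (x, y₀) + s (x + 1, y₀) := by
    intro x hx'
    rw [Finset.mem_Ico] at hx'
    simp only [he]
    rw [htop x hx'.1 (by omega), htop (x + 1) (by omega) (by omega)]
    by_cases hp : (x + y₀ - c) % 2 = 0
    · rw [hbot1 (x + 1) (by omega) (by omega) (by omega), hks (x + 1, y₀) (by simp only; omega),
        hsk (x, y₀) (by simpa using hp)]
      ring
    · rw [hbot1 x (by omega) (by omega) hp, hks (x, y₀) (by simpa using hp),
        hsk (x + 1, y₀) (by simp only; omega)]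
      ring
  rw [hsum, Finset.sum_congr rfl hH, Finset.sum_congr rfl hV,
    tele' (fun x => s (x, y₀)) hx.le, tele' (fun y => k (x₀, y)) hy.le,
    hright y₀ le_rfl hy.le, htop x₀ le_rfl hx.le] at hsplit
  by_cases hp : (x₀ + y₀ - c) % 2 = 0
  · rw [hleft1 y₀ le_rfl hy.le hp, hsk (x₀, y₀) (by simpa using hp)] at hsplit
    simp at hsplit
  · rw [hbot1 x₀ le_rfl hx.le hp, hks (x₀, y₀) (by simpa using hp)] at hsplit
    simp at hsplit

end PlanarA

/-- Duality, existence: there is a left-right crossing of parity `c` or a bottom-top crossing of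
the other parity. -/
theorem lr_or_bt (c : ℤ) {x₀ x₁ y₀ y₁ : ℤ} (hx : x₀ < x₁) (hy : y₀ < y₁) (ω : Cfg) :
    ω ∈ LR c x₀ x₁ y₀ y₁ ∨ ω ∈ BT (c + 1) x₀ x₁ y₀ y₁ := by
  by_contra h
  rw [not_or] at h
  exact PlanarA.lr_or_bt_aux c hx hy ω h.1 h.2

/-- Duality, exclusion. -/
theorem not_lr_and_bt (c : ℤ) {x₀ x₁ y₀ y₁ : ℤ} (hx : x₀ < x₁) (hy : y₀ < y₁) (ω : Cfg) :
    ¬ (ω ∈ LR c x₀ x₁ y₀ y₁ ∧ ω ∈ BT (c + 1) x₀ x₁ y₀ y₁) := by
  rintro ⟨⟨u, v, hu1, hu2, hu3, hv, huc, huv⟩, ⟨u', v', hu1', hu2', hu3', hv', huc', huv'⟩⟩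
  obtain ⟨β, h1, h2, h3, h4, h5⟩ := PlanarA.exists_chain huv'
  refine PlanarA.no_cross (p := u'.1 + u'.2) hx hy h1 ?_ ?_ ⟨hu1, hu2, hu3⟩ hv huv ?_ ?_
  · intro z hz hz1 hz2
    rw [h4 z hz]
    have e1 : z ≠ u' := by rintro rfl; omega
    have e2 : z ≠ v' := by rintro rfl; omega
    simp [PlanarA.ind, e1, e2]
  · intro b hb1 hb2
    rw [h5 b, if_pos (by omega), if_neg (by omega), add_zero]
  · intro z hz
    have := Conn.parity hz
    left; omega
  · intro z z' x y hz hb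
    have hp := Conn.parity hz
    by_contra h0
    have h := h3 _ h0
    simp only at h
    rcases hb with ⟨hω, ⟨hb, hc⟩ | ⟨hb, hc⟩⟩ | ⟨hω, ⟨hb, hc⟩ | ⟨hb, hc⟩⟩
    · subst hb; have := h.mp hω; simp only at hp; omega
    · subst hb; have := h.mp hω; simp only at hp; omega
    · subst hb
      simp only at hp
      have := h.mpr (by omega)
      rw [hω] at this
      exact absurd this (by simp)
    · subst hb
      simp only at hp
      have := h.mpr (by omega)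
      rw [hω] at this
      exact absurd this (by simp)

/-- A left-right path and a bottom-top path of the same parity meet. -/
theorem crossings_meet {x₀ x₁ y₀ y₁ : ℤ} (hx : x₀ < x₁) (hy : y₀ < y₁) {ω : Cfg}
    {u v u' v' : ℤ × ℤ} (hu : u.1 = x₀ ∧ y₀ ≤ u.2 ∧ u.2 ≤ y₁) (hv : v.1 = x₁)
    (hu' : u'.2 = y₀ ∧ x₀ ≤ u'.1 ∧ u'.1 ≤ x₁) (hv' : v'.2 = y₁)
    (hpar : (u.1 + u.2) % 2 = (u'.1 + u'.2) % 2)
    (h : Conn ω (RF x₀ x₁ y₀ y₁) u v) (h' : Conn ω (RF x₀ x₁ y₀ y₁) u' v') :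
    Conn ω (RF x₀ x₁ y₀ y₁) u u' := by
  by_contra hn
  obtain ⟨β, h1, h2, h3, h4, h5⟩ := PlanarA.exists_chain h'
  have hz0 : ∀ z f, Conn ω (RF x₀ x₁ y₀ y₁) u z → PlanarA.Cor z f → β f = 0 := by
    intro z f hz hc
    by_contra h0
    have hp := Conn.parity hz
    have := h2 f h0 z (by omega) hc.1 hc.2
    exact hn (hz.trans this.symm)
  refine PlanarA.no_cross (p := u'.1 + u'.2) hx hy h1 ?_ ?_ hu hv h ?_ ?_
  · intro z hz hz1 hz2
    rw [h4 z hz]
    have e1 : z ≠ u' := by rintro rfl; omega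
    have e2 : z ≠ v' := by rintro rfl; omega
    simp [PlanarA.ind, e1, e2]
  · intro b hb1 hb2
    rw [h5 b, if_pos (by omega), if_neg (by omega), add_zero]
  · intro z hz
    right
    intro f hf
    exact hz0 z f hz hf
  · intro z z' x y hz hb
    apply hz0 z (x, y) hz
    rcases hb with ⟨_, ⟨hb, _⟩ | ⟨hb, _⟩⟩ | ⟨_, ⟨hb, _⟩ | ⟨hb, _⟩⟩ <;>
      subst hb <;> simp [PlanarA.Cor]

end Pool.Agent.Perc
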