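import Pool.Agent.Lib.MP_6bd702_perc.AnnDefs

/-!
# States on the cylinder (task AnnA)
-/

set_option autoImplicit false

namespace Pool.Agent.Perc

open Finset Function

variable {N L : ℕ} {s : St}

/-- The case of a marked gap which is not covered. -/
theorem AnnA.marks_eL_of_ne (h : NC N s.1) {i : ℕ} (hi : i + 1 < N) {g : ℕ} (hg : Marks N s g)
    (hgi : g ≠ i + 1) : Marks N (eL i s) g := by
  obtain ⟨h1, h2⟩ := hg
  refine ⟨h1, fun x hx => ?_⟩
  have hii : (i < g ↔ i + 1 < g) := by omega
  have e1 := h2 i (by omega)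
  have e2 := h2 (i + 1) hi
  have e3 := h2 x hx
  have i1 := h.inv i
  have i2 := h.inv (i + 1)
  have i3 := h.inv x
  unfold eL eAct
  dsimp only
  by_cases hx1 : x = i
  · subst hx1
    simp only [true_or, if_true, Bool.false_eq_true, false_iff, not_not]
    exact hii
  · by_cases hx2 : x = i + 1
    · subst hx2
      simp only [or_true, if_true, Bool.false_eq_true, false_iff, not_not,
        if_neg (Nat.succ_ne_self i)]
      exact hii.symm
    · rw [if_neg (by tauto), if_neg hx1, if_neg hx2]
      by_cases hx3 : s.1 x = i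
      · rw [if_pos (Or.inl hx3), if_pos hx3]
        have hx4 : s.1 i = x := by rw [← hx3, i3]
        rw [hx4] at e1
        cases hb : s.2 i <;> cases hb' : s.2 (i + 1) <;>
          rw [hb] at e1 <;> rw [hb'] at e2 <;> simp at e1 e2 ⊢ <;> tauto
      · by_cases hx4 : s.1 x = i + 1
        · rw [if_pos (Or.inr hx4), if_neg hx3, if_pos hx4]
          have hx5 : s.1 (i + 1) = x := by rw [← hx4, i3]
          rw [hx5] at e2
          cases hb : s.2 i <;> cases hb' : s.2 (i + 1) <;>
            rw [hb] at e1 <;> rw [hb'] at e2 <;> simp at e1 e2 ⊢ <;> tauto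
        · rw [if_neg (by tauto), if_neg hx3, if_neg hx4]
          exact e3

theorem marks_eL (h : NC N s.1) {i : ℕ} (hi : i + 1 < N) {g : ℕ} (hg : Marks N s g) :
    Marks N (eL i s) (gmove i s.1 g) := by
  by_cases hgi : g = i + 1
  swap
  · have : gmove i s.1 g = g := by
      unfold gmove
      rw [if_pos hgi]
    rw [this]
    exact AnnA.marks_eL_of_ne h hi hg hgi
  · by_cases hp : s.1 i = i + 1
    · have : gmove i s.1 g = i := by
        unfold gmove
        rw [if_neg (by simp [hgi]), if_pos hp]
      rw [this]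
      obtain ⟨h1, h2⟩ := hg
      refine ⟨by omega, fun x hx => ?_⟩
      have i3 := h.inv x
      have e3 := h2 x hx
      unfold eL eAct
      dsimp only
      by_cases hx1 : x = i
      · subst hx1
        simp
      · by_cases hx2 : x = i + 1
        · subst hx2
          simp
        · have hp' : s.1 (i + 1) = i := by rw [← hp, h.inv]
          have hx3 : s.1 x ≠ i := by
            intro hx3
            rw [hx3, hp] at i3
            exact hx2 i3.symm
          have hx4 : s.1 x ≠ i + 1 := by
            intro hx4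
            rw [hx4, hp'] at i3
            exact hx1 i3.symm
          rw [if_neg (by tauto), if_neg (by tauto), if_neg hx1, if_neg hx2, if_neg hx3,
            if_neg hx4, e3, hgi]
          have a1 : x < i + 1 ↔ x < i := by omega
          have a2 : s.1 x < i + 1 ↔ s.1 x < i := by omega
          rw [a1, a2]
    · have : gmove i s.1 g = s.1 (i + 1) + 1 := by
        unfold gmove
        rw [if_neg (by simp [hgi]), if_neg hp]
      rw [this]
      apply AnnA.marks_eL_of_ne h hi
      · obtain ⟨h1, h2⟩ := hg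
        have hl := h.lt (i + 1) hi
        refine ⟨by omega, fun x hx => ?_⟩
        rw [h2 x hx, hgi, not_iff_not]
        exact h.geq_partner hi x hx
      · intro h3
        have h4 : s.1 (i + 1) = i := by omega
        have h5 := h.inv (i + 1)
        rw [h4] at h5
        exact hp h5

theorem marks_cupL (h : NC L s.1) {g : ℕ} (hg : Marks L s g) :
    Marks (L + 2) (cupL L s) (g + 1) := by
  obtain ⟨h1, h2⟩ := hg
  refine ⟨by omega, fun x hx => ?_⟩
  unfold cupL cupO
  dsimp only
  by_cases hx1 : x = 0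
  · subst hx1
    simp
    omega
  · by_cases hx2 : x = L + 1
    · subst hx2
      simp
      omega
    · have hx3 : x < L + 1 := by omega
      rw [if_neg (by tauto), if_pos hx3, if_neg hx1, if_neg hx2, if_pos hx3,
        h2 (x - 1) (by omega), not_iff_not]
      have a1 : x < g + 1 ↔ x - 1 < g := by omega
      have a2 : s.1 (x - 1) + 1 < g + 1 ↔ s.1 (x - 1) < g := by omega
      rw [a1, a2]

theorem marks_resL (h : NC (L + 2) s.1) (hp : s.1 L = L + 1) (hc : s.2 L = false) {g : ℕ}
    (hg : Marks (L + 2) s g) : Marks L (resL L s) (min g L) := by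
  obtain ⟨h1, h2⟩ := hg
  refine ⟨min_le_right _ _, fun x hx => ?_⟩
  have hp' : s.1 (L + 1) = L := by rw [← hp, h.inv]
  have hl := h.lt x (by omega)
  have i3 := h.inv x
  have hx3 : s.1 x ≠ L := by
    intro hx3
    rw [hx3, hp] at i3
    omega
  have hx4 : s.1 x ≠ L + 1 := by
    intro hx4
    rw [hx4, hp'] at i3
    omega
  unfold resL resP
  dsimp only
  rw [if_pos hx, if_pos hx, h2 x (by omega), not_iff_not]
  have a1 : x < min g L ↔ x < g := by omega
  have a2 : s.1 x < min g L ↔ s.1 x < g := by omega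
  rw [a1, a2]

theorem IsAnn.eL (h : IsAnn N s) {i : ℕ} (hi : i + 1 < N) : IsAnn N (eL i s) := by
  refine ⟨h.nc.eAct hi, fun x hx => ?_, ?_⟩
  · have h1 := h.nc.out x hx
    have h2 := h.out x hx
    unfold Perc.eL
    dsimp only
    rw [if_neg (by omega), if_neg (by omega), h2]
  · obtain ⟨g, hg⟩ := h.mark
    exact ⟨_, marks_eL h.nc hi hg⟩

theorem IsAnn.cupL (h : IsAnn L s) : IsAnn (L + 2) (cupL L s) := by
  refine ⟨h.nc.cupO, fun x hx => ?_, ?_⟩
  · unfold Perc.cupL
    dsimp only
    rw [if_neg (by omega), if_neg (by omega)]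
  · obtain ⟨g, hg⟩ := h.mark
    exact ⟨_, marks_cupL h.nc hg⟩

theorem IsAnn.resL (h : IsAnn (L + 2) s) (hp : s.1 L = L + 1) (hc : s.2 L = false) :
    IsAnn L (resL L s) := by
  refine ⟨h.nc.resP hp, fun x hx => ?_, ?_⟩
  · unfold Perc.resL
    dsimp only
    rw [if_neg (by omega)]
  · obtain ⟨g, hg⟩ := h.mark
    exact ⟨_, marks_resL h.nc hp hc hg⟩

theorem IsAnn.rowL (h : IsAnn (L + 2) s) (w : ℕ → Bool) {k : ℕ} (hk : k ≤ L) :
    IsAnn (L + 2) (rowL w k s) := by
  induction k with
  | zero => exact h
  | succ k ih =>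
    have h1 := ih (by omega)
    unfold Perc.rowL
    split_ifs
    · exact h1.eL (by omega)
    · exact h1

theorem IsAnn.trow (h : IsAnn L s) (w : ℕ → Bool) : IsAnn L (trow L w s) := by
  unfold Perc.trow
  refine IsAnn.resL ((h.cupL.rowL w le_rfl).eL (by omega)) ?_ ?_
  · simp [Perc.eL, eAct]
  · simp [Perc.eL]

theorem isAnn_s0 {L : ℕ} (hL : L % 2 = 0) : IsAnn L (s0 L) := by
  refine ⟨nc_flatE hL, fun _ _ => rfl, 0, Nat.zero_le _, fun x _ => ?_⟩
  simp [s0]

end Pool.Agent.Perc
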