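import Pool.Agent.Lib.MP_6bd702_perc.CylArmDefs
import Pool.Agent.Lib.MP_6bd702_perc.AnnA

/-!
# The cylinder: soundness (task CylArmA)
-/

set_option autoImplicit false

namespace Pool.Agent.Perc

open Finset Filter Topology

namespace CylArmA

/-- Shift by one period to the left. -/
def sh (L : ℕ) (b : Prop) [Decidable b] (u : ℤ × ℤ) : ℤ × ℤ :=
  (u.1 - (if b then (L : ℤ) else 0), u.2)

/-- Equivalence relations invariant under the translation by one period. -/
structure Good (L : ℕ) (R : ℤ × ℤ → ℤ × ℤ → Prop) : Prop where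
  eqv : Equivalence R
  left : ∀ u v, R u v → R (u.1 - L, u.2) (v.1 - L, v.2)
  right : ∀ u v, R u v → R (u.1 + L, u.2) (v.1 + L, v.2)

variable {L N : ℕ} {R : ℤ × ℤ → ℤ × ℤ → Prop}

theorem sh_true {b : Prop} [Decidable b] (hb : b) (u : ℤ × ℤ) : sh L b u = (u.1 - L, u.2) := by
  unfold sh; rw [if_pos hb]

theorem sh_false {b : Prop} [Decidable b] (hb : ¬ b) (u : ℤ × ℤ) : sh L b u = u := by
  unfold sh; rw [if_neg hb, sub_zero]

theorem Good.sh (hR : Good L R) {b b' : Prop} [Decidable b] [Decidable b'] (h : b ↔ b')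
    {u v : ℤ × ℤ} (huv : R u v) : R (CylArmA.sh L b u) (CylArmA.sh L b' v) := by
  by_cases hb : b
  · rw [sh_true hb, sh_true (h.1 hb)]
    exact hR.left _ _ huv
  · rw [sh_false hb, sh_false (fun h' => hb (h.2 h'))]
    exact huv

theorem Good.of_sh (hR : Good L R) {b b' : Prop} [Decidable b] [Decidable b'] (h : b ↔ b')
    {u v : ℤ × ℤ} (huv : R (CylArmA.sh L b u) (CylArmA.sh L b' v)) : R u v := by
  by_cases hb : b
  · rw [sh_true hb, sh_true (h.1 hb)] at huv
    have := hR.right _ _ huv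
    simpa using this
  · rw [sh_false hb, sh_false (fun h' => hb (h.2 h'))] at huv
    exact huv

theorem Good.refl (hR : Good L R) (u : ℤ × ℤ) : R u u := hR.eqv.refl u

theorem Good.trans (hR : Good L R) {u v w : ℤ × ℤ} (h : R u v) (h' : R v w) : R u w :=
  hR.eqv.trans h h'

theorem Good.symm (hR : Good L R) {u v : ℤ × ℤ} (h : R u v) : R v u := hR.eqv.symm h

theorem sh_congr {b b' : Prop} [Decidable b] [Decidable b'] (h : b ↔ b') (u : ℤ × ℤ) :
    sh L b u = sh L b' u := by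
  by_cases hb : b
  · rw [sh_true hb, sh_true (h.1 hb)]
  · rw [sh_false hb, sh_false (fun h' => hb (h.2 h'))]

/-- Change of the marked gap inside its region. -/
theorem regauge (hR : Good L R) {s : St} {g g' : ℕ} {V : ℕ → ℤ × ℤ} (h : SoundT L N R s g V)
    (hg : Geq N s.1 g g') : SoundT L N R s g' V := by
  intro x hx
  have h1 : R (sh L (g ≤ x) (V x)) (sh L (g ≤ s.1 x) (V (s.1 x + 1))) := h x hx
  have h2 := hg x hx
  change R (sh L (g' ≤ x) (V x)) (sh L (g' ≤ s.1 x) (V (s.1 x + 1)))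
  by_cases hab : (g ≤ x ↔ g ≤ s.1 x)
  · have hab' : (g' ≤ x ↔ g' ≤ s.1 x) := by omega
    exact hR.sh hab' (hR.of_sh hab h1)
  · have e1 : (g' ≤ x ↔ g ≤ x) := by omega
    have e2 : (g' ≤ s.1 x ↔ g ≤ s.1 x) := by omega
    rw [sh_congr e1, sh_congr e2]
    exact h1

theorem sound_congr (hR : Good L R) {s : St} {g m : ℕ} {V V' : ℕ → ℤ × ℤ}
    (h : SoundT L N R s g V) (hV : ∀ k, k ≠ m → V' k = V k) (hm : R (V m) (V' m)) :
    SoundT L N R s g V' := by
  have key : ∀ (k : ℕ) (b : Prop) [Decidable b], R (sh L b (V k)) (sh L b (V' k)) := by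
    intro k b _
    by_cases hk : k = m
    · subst hk; exact hR.sh Iff.rfl hm
    · rw [hV k hk]; exact hR.refl _
  intro x hx
  exact hR.trans (hR.symm (key x (g ≤ x))) (hR.trans (h x hx) (key _ (g ≤ s.1 x)))

/-- The action of a face with an empty gap in the middle. -/
theorem sound_eL (hR : Good L R) {s : St} (hs : NC N s.1) {g i : ℕ} (hi : i + 1 < N)
    (hg : g ≠ i + 1) {V V' : ℕ → ℤ × ℤ} (h : SoundT L N R s g V)
    (hV : ∀ k, k ≠ i + 1 → V' k = V k) (hb : R (V i) (V (i + 2))) :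
    SoundT L N R (eL i s) g V' := by
  have hgi : (g ≤ i ↔ g ≤ i + 1) := by omega
  intro x hx
  change R (sh L (g ≤ x) (V' x)) (sh L (g ≤ eAct i s.1 x) (V' (eAct i s.1 x + 1)))
  have hold : ∀ x < N, R (sh L (g ≤ x) (V x)) (sh L (g ≤ s.1 x) (V (s.1 x + 1))) := h
  by_cases hx1 : x = i
  · subst hx1
    have e : eAct x s.1 x = x + 1 := by simp [eAct]
    rw [e, hV x (by omega), hV (x + 1 + 1) (by omega)]
    exact hR.sh hgi hb
  by_cases hx2 : x = i + 1
  · subst hx2
    have e : eAct i s.1 (i + 1) = i := by simp [eAct]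
    rw [e]
    exact hR.sh hgi.symm (hR.refl _)
  by_cases hx3 : s.1 x = i
  · -- `x = a`
    have hxi : s.1 i = x := by rw [← hx3]; exact hs.inv x
    have e : eAct i s.1 x = s.1 (i + 1) := by simp [eAct, hx1, hx2, hx3]
    have hbne : s.1 (i + 1) ≠ i := by
      intro h1
      have := hs.inv (i + 1)
      rw [h1, hxi] at this
      exact hx2 this
    rw [e, hV x hx2, hV (s.1 (i + 1) + 1) (by omega)]
    have h1 := hold x hx
    have h2 := hold (i + 1) hi
    rw [hx3] at h1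
    refine hR.trans h1 (hR.trans ?_ h2)
    exact hR.sh hgi (hR.refl _)
  by_cases hx4 : s.1 x = i + 1
  · -- `x = b`
    have hxi : s.1 (i + 1) = x := by rw [← hx4]; exact hs.inv x
    have e : eAct i s.1 x = s.1 i := by simp [eAct, hx1, hx2, hx4]
    have hane : s.1 i ≠ i := hs.ne i (by omega)
    rw [e, hV x hx2, hV (s.1 i + 1) (by omega)]
    have h1 := hold x hx
    have h2 := hold i (by omega)
    rw [hx4] at h1
    refine hR.trans h1 (hR.trans ?_ h2)
    exact hR.sh hgi.symm (hR.symm hb)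
  · have e : eAct i s.1 x = s.1 x := by simp [eAct, hx1, hx2, hx3, hx4]
    rw [e, hV x hx2, hV (s.1 x + 1) (by omega)]
    exact hold x hx

/-- The action of a face. -/
theorem sound_eL' (hR : Good L R) {s : St} (hs : NC N s.1) {g i : ℕ} (hi : i + 1 < N)
    {V V' : ℕ → ℤ × ℤ} (h : SoundT L N R s g V)
    (hV : ∀ k, k ≠ i + 1 → V' k = V k) (hb : R (V i) (V (i + 2))) :
    SoundT L N R (eL i s) (gmove i s.1 g) V' := by
  by_cases hg : g = i + 1
  · subst hg
    by_cases hp : s.1 i = i + 1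
    · have e : gmove i s.1 (i + 1) = i := by simp [gmove, hp]
      have hp' : s.1 (i + 1) = i := by rw [← hp]; exact hs.inv i
      rw [e]
      intro x hx
      change R (sh L (i ≤ x) (V' x)) (sh L (i ≤ eAct i s.1 x) (V' (eAct i s.1 x + 1)))
      by_cases hx1 : x = i
      · subst hx1
        have e : eAct x s.1 x = x + 1 := by simp [eAct]
        rw [e, hV x (by omega), hV (x + 1 + 1) (by omega)]
        exact hR.sh (by omega) hb
      by_cases hx2 : x = i + 1
      · subst hx2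
        have e : eAct i s.1 (i + 1) = i := by simp [eAct]
        rw [e]
        exact hR.sh (by omega) (hR.refl _)
      have hx3 : s.1 x ≠ i := by
        intro h1
        have := hs.inv x
        rw [h1, hp] at this
        exact hx2 this.symm
      have hx4 : s.1 x ≠ i + 1 := by
        intro h1
        have := hs.inv x
        rw [h1, hp'] at this
        exact hx1 this.symm
      have e : eAct i s.1 x = s.1 x := by simp [eAct, hx1, hx2, hx3, hx4]
      rw [e, hV x hx2, hV (s.1 x + 1) (by omega)]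
      have h1 : R (sh L (i + 1 ≤ x) (V x)) (sh L (i + 1 ≤ s.1 x) (V (s.1 x + 1))) := h x hx
      rw [sh_congr (show i ≤ x ↔ i + 1 ≤ x by omega),
        sh_congr (show i ≤ s.1 x ↔ i + 1 ≤ s.1 x by omega)]
      exact h1
    · have e : gmove i s.1 (i + 1) = s.1 (i + 1) + 1 := by simp [gmove, hp]
      rw [e]
      have hne : s.1 (i + 1) ≠ i := by
        intro h1
        apply hp
        have h2 := hs.inv (i + 1)
        rwa [h1] at h2
      exact sound_eL hR hs hi (by omega) (regauge hR h (hs.geq_partner hi)) hV hb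
  · have e : gmove i s.1 g = g := by simp [gmove, hg]
    rw [e]
    exact sound_eL hR hs hi hg h hV hb

/-- The positions of the gaps after `i` faces of the row `y`. -/
def Vf (L : ℕ) (y : ℤ) (i k : ℕ) : ℤ × ℤ :=
  if k ≤ i then ((k : ℤ), y) else if k ≤ L + 1 then ((k : ℤ) - 1, y + 1) else ((L : ℤ), y)

theorem sound_cupL (hR : Good L R) {s : St} (hs : NC L s.1) {g : ℕ} (hg : g ≤ L) {y : ℤ}
    (h : SoundT L L R s g (fun k => ((k : ℤ), y + 1))) :
    SoundT L (L + 2) R (cupL L s) (g + 1) (Vf L y 0) := by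
  intro x hx
  change R (sh L (g + 1 ≤ x) (Vf L y 0 x))
    (sh L (g + 1 ≤ cupO L s.1 x) (Vf L y 0 (cupO L s.1 x + 1)))
  by_cases hx0 : x = 0
  · subst hx0
    have e : cupO L s.1 0 = L + 1 := by simp [cupO]
    rw [e, sh_false (by omega), sh_true (by omega)]
    have e1 : Vf L y 0 0 = (0, y) := by simp [Vf]
    have e2 : Vf L y 0 (L + 1 + 1) = ((L : ℤ), y) := by simp [Vf]
    rw [e1, e2]
    simp only [sub_self]
    exact hR.refl _
  by_cases hx1 : x = L + 1
  · subst hx1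
    have e : cupO L s.1 (L + 1) = 0 := by simp [cupO]
    rw [e, sh_true (by omega), sh_false (by omega)]
    have e1 : Vf L y 0 (L + 1) = ((L : ℤ), y + 1) := by simp [Vf]
    have e2 : Vf L y 0 (0 + 1) = (0, y + 1) := by simp [Vf]
    rw [e1, e2]
    simp only [sub_self]
    exact hR.refl _
  have hxL : x < L + 1 := by omega
  have e : cupO L s.1 x = s.1 (x - 1) + 1 := by simp [cupO, hx0, hx1, hxL]
  rw [e]
  have h1 : R (sh L (g ≤ x - 1) (((x - 1 : ℕ) : ℤ), y + 1))
    (sh L (g ≤ s.1 (x - 1)) (((s.1 (x - 1) + 1 : ℕ) : ℤ), y + 1)) := h (x - 1) (by omega)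
  have hlt : s.1 (x - 1) < L := hs.lt _ (by omega)
  have e1 : Vf L y 0 x = (((x - 1 : ℕ) : ℤ), y + 1) := by
    unfold Vf
    rw [if_neg (by omega), if_pos (by omega)]
    ext
    · simp only; omega
    · rfl
  have e2 : Vf L y 0 (s.1 (x - 1) + 1 + 1) = (((s.1 (x - 1) + 1 : ℕ) : ℤ), y + 1) := by
    unfold Vf
    rw [if_neg (by omega), if_pos (by omega)]
    ext
    · simp only; omega
    · rfl
  rw [e1, e2, sh_congr (show g + 1 ≤ x ↔ g ≤ x - 1 by omega),
    sh_congr (show g + 1 ≤ s.1 (x - 1) + 1 ↔ g ≤ s.1 (x - 1) by omega)]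
  exact h1

/-- The bonds of the row `y`. -/
def RowB (L : ℕ) (y : ℤ) (R : ℤ × ℤ → ℤ × ℤ → Prop) (w : ℕ → Bool) : Prop :=
  ∀ i < L, (w i = true → R ((i : ℤ), y) ((i : ℤ) + 1, y + 1)) ∧
    (w i = false → R ((i : ℤ), y + 1) ((i : ℤ) + 1, y))

theorem sound_rowL (hR : Good L R) {s : St} (hs : IsAnn L s) {g : ℕ} (hg : Marks L s g) {y : ℤ}
    (h : SoundT L L R s g (fun k => ((k : ℤ), y + 1))) (w : ℕ → Bool) (hw : RowB L y R w) {k : ℕ}
    (hk : k ≤ L) : ∃ g', Marks (L + 2) (rowL w k (cupL L s)) g' ∧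
      SoundT L (L + 2) R (rowL w k (cupL L s)) g' (Vf L y k) := by
  induction k with
  | zero => exact ⟨g + 1, marks_cupL hs.nc hg, sound_cupL hR hs.nc hg.1 h⟩
  | succ k ih =>
    obtain ⟨g', h1, h2⟩ := ih (by omega)
    have hnc : NC (L + 2) (rowL w k (cupL L s)).1 := (IsAnn.rowL hs.cupL w (by omega)).nc
    have hV : ∀ m, m ≠ k + 1 → Vf L y (k + 1) m = Vf L y k m := by
      intro m hm
      unfold Vf
      by_cases h3 : m ≤ k
      · rw [if_pos h3, if_pos (by omega)]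
      · rw [if_neg h3, if_neg (by omega)]
    have e1 : Vf L y k k = ((k : ℤ), y) := by simp [Vf]
    have e2 : Vf L y k (k + 2) = ((k : ℤ) + 1, y + 1) := by
      unfold Vf
      rw [if_neg (by omega)]
      rw [if_pos (by omega)]
      ext
      · simp only; push_cast; ring
      · rfl
    have e3 : Vf L y k (k + 1) = ((k : ℤ), y + 1) := by
      unfold Vf
      rw [if_neg (by omega), if_pos (by omega)]
      ext
      · simp only; push_cast; ring
      · rfl
    have e4 : Vf L y (k + 1) (k + 1) = ((k : ℤ) + 1, y) := by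
      unfold Vf
      rw [if_pos (le_refl _)]
      ext
      · simp only; push_cast; ring
      · rfl
    by_cases hwk : w k = true
    · have e : rowL w (k + 1) (cupL L s) = eL k (rowL w k (cupL L s)) := by simp [rowL, hwk]
      rw [e]
      refine ⟨_, marks_eL hnc (by omega) h1, sound_eL' hR hnc (by omega) h2 hV ?_⟩
      rw [e1, e2]
      exact (hw k (by omega)).1 hwk
    · have e : rowL w (k + 1) (cupL L s) = rowL w k (cupL L s) := by simp [rowL, hwk]
      rw [e]
      refine ⟨g', h1, sound_congr hR h2 hV ?_⟩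
      rw [e3, e4]
      exact (hw k (by omega)).2 (by simpa using hwk)

theorem sound_trow (hR : Good L R) {s : St} (hs : IsAnn L s) {g : ℕ} (hg : Marks L s g) {y : ℤ}
    (h : SoundT L L R s g (fun k => ((k : ℤ), y + 1))) (w : ℕ → Bool) (hw : RowB L y R w) :
    ∃ g', Marks L (trow L w s) g' ∧ SoundT L L R (trow L w s) g' (fun k => ((k : ℤ), y)) := by
  obtain ⟨g', h1, h2⟩ := sound_rowL hR hs hg h w hw le_rfl
  have hann : IsAnn (L + 2) (rowL w L (cupL L s)) := IsAnn.rowL hs.cupL w le_rfl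
  have hnc := hann.nc
  have e1 : Vf L y L L = ((L : ℤ), y) := by simp [Vf]
  have e2 : Vf L y L (L + 2) = ((L : ℤ), y) := by
    unfold Vf
    rw [if_neg (by omega), if_neg (by omega)]
  have h3 := sound_eL' (V' := Vf L y L) hR hnc (show L + 1 < L + 2 by omega) h2 (fun _ _ => rfl)
    (by rw [e1, e2]; exact hR.refl _)
  have h4 := marks_eL hnc (show L + 1 < L + 2 by omega) h1
  have hann' : IsAnn (L + 2) (eL L (rowL w L (cupL L s))) := hann.eL (by omega)
  have hp : (eL L (rowL w L (cupL L s))).1 L = L + 1 := by simp [eL, eAct]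
  have hc : (eL L (rowL w L (cupL L s))).2 L = false := by simp [eL]
  refine ⟨_, marks_resL hann'.nc hp hc h4, ?_⟩
  intro x hx
  have h5 : R (sh L (gmove L (rowL w L (cupL L s)).1 g' ≤ x) (Vf L y L x))
    (sh L (gmove L (rowL w L (cupL L s)).1 g' ≤ (eL L (rowL w L (cupL L s))).1 x)
      (Vf L y L ((eL L (rowL w L (cupL L s))).1 x + 1))) := h3 x (by omega)
  have hlt : (eL L (rowL w L (cupL L s))).1 x < L := by
    have h6 := hann'.nc.lt x (by omega)
    have h7 : (eL L (rowL w L (cupL L s))).1 x ≠ L := by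
      intro h8
      have := hann'.nc.inv x
      rw [h8, hp] at this
      omega
    have h8 : (eL L (rowL w L (cupL L s))).1 x ≠ L + 1 := by
      intro h9
      have h10 := hann'.nc.inv x
      have h11 := hann'.nc.inv L
      rw [hp] at h11
      rw [h9, h11] at h10
      omega
    omega
  have e3 : (trow L w s).1 x = (eL L (rowL w L (cupL L s))).1 x := by
    change (if x < L then _ else _) = _
    rw [if_pos hx]
  have e4 : Vf L y L x = ((x : ℤ), y) := by
    unfold Vf; rw [if_pos (by omega)]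
  have e5 : Vf L y L ((eL L (rowL w L (cupL L s))).1 x + 1)
      = ((((eL L (rowL w L (cupL L s))).1 x + 1 : ℕ) : ℤ), y) := by
    unfold Vf; rw [if_pos (by omega)]
  rw [e4, e5] at h5
  change R (sh L (min _ L ≤ x) ((x : ℤ), y)) (sh L (min _ L ≤ (trow L w s).1 x)
    ((((trow L w s).1 x + 1 : ℕ) : ℤ), y))
  rw [e3]
  rw [sh_congr (show min (gmove L (rowL w L (cupL L s)).1 g') L ≤ x ↔
    gmove L (rowL w L (cupL L s)).1 g' ≤ x by omega),
    sh_congr (show min (gmove L (rowL w L (cupL L s)).1 g') L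
      ≤ (eL L (rowL w L (cupL L s))).1 x ↔
    gmove L (rowL w L (cupL L s)).1 g' ≤ (eL L (rowL w L (cupL L s))).1 x by omega)]
  exact h5

theorem conn_per {M : ℕ} {ω : Cfg} {y : ℤ} {u v : ℤ × ℤ}
    (h : Conn (perC L ω) {f | y ≤ f.2 ∧ f.2 < M} u v) {a : ℤ} (ha : a = L ∨ a = -L) :
    Conn (perC L ω) {f | y ≤ f.2 ∧ f.2 < M} (u.1 + a, u.2) (v.1 + a, v.2) := by
  have e : shiftC a 0 (perC L ω) = perC L ω := by
    funext f
    unfold shiftC perC
    simp only [add_zero]
    congr 2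
    rcases ha with ha | ha
    · rw [ha]; simp
    · rw [ha, ← sub_eq_add_neg]; simp
  have h1 := (conn_shift a 0 (perC L ω) {f | y ≤ f.2 ∧ f.2 < M} u v).1 (by rw [e]; exact h)
  simpa using h1

theorem relT_good (L M : ℕ) (ω : Cfg) (y : ℤ) : Good L (RelT L M ω y) := by
  refine ⟨⟨fun u => Or.inl Relation.ReflTransGen.refl, ?_, ?_⟩, ?_, ?_⟩
  · rintro u v (h | ⟨h, h'⟩)
    · exact Or.inl h.symm
    · exact Or.inr ⟨h', h⟩
  · rintro u v w (h | ⟨h, h'⟩) (h1 | ⟨h1, h1'⟩)
    · exact Or.inl ((conn_equivalence _ _).trans h h1)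
    · obtain ⟨x, hx, hx'⟩ := h1
      exact Or.inr ⟨⟨x, (conn_equivalence _ _).trans h hx, hx'⟩, h1'⟩
    · obtain ⟨x, hx, hx'⟩ := h'
      exact Or.inr ⟨h, ⟨x, (conn_equivalence _ _).trans h1.symm hx, hx'⟩⟩
    · exact Or.inr ⟨h, h1'⟩
  · rintro u v (h | ⟨⟨x, hx, hx'⟩, ⟨z, hz, hz'⟩⟩)
    · left
      have := conn_per h (Or.inr rfl)
      simpa [sub_eq_add_neg] using this
    · right
      refine ⟨⟨(x.1 - L, x.2), ?_, hx'⟩, ⟨(z.1 - L, z.2), ?_, hz'⟩⟩
      · have := conn_per hx (Or.inr rfl)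
        simpa [sub_eq_add_neg] using this
      · have := conn_per hz (Or.inr rfl)
        simpa [sub_eq_add_neg] using this
  · rintro u v (h | ⟨⟨x, hx, hx'⟩, ⟨z, hz, hz'⟩⟩)
    · left
      exact conn_per h (Or.inl rfl)
    · right
      exact ⟨⟨(x.1 + L, x.2), conn_per hx (Or.inl rfl), hx'⟩,
        ⟨(z.1 + L, z.2), conn_per hz (Or.inl rfl), hz'⟩⟩

theorem relT_mono {M : ℕ} {ω : Cfg} {y y' : ℤ} (hy : y' ≤ y) {u v : ℤ × ℤ}
    (h : RelT L M ω y u v) : RelT L M ω y' u v := by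
  have hm : {f : ℤ × ℤ | y ≤ f.2 ∧ f.2 < M} ⊆ {f | y' ≤ f.2 ∧ f.2 < M} :=
    fun f hf => ⟨hy.trans hf.1, hf.2⟩
  rcases h with h | ⟨⟨x, hx, hx'⟩, ⟨z, hz, hz'⟩⟩
  · exact Or.inl (h.mono hm)
  · exact Or.inr ⟨⟨x, hx.mono hm, hx'⟩, ⟨z, hz.mono hm, hz'⟩⟩

theorem rowB_relT {M : ℕ} (ω : Cfg) {y : ℤ} (hy : y < M) :
    RowB L y (RelT L M ω y) (fun i => ω ((i : ℤ), y)) := by
  intro i hi
  have hp : perC L ω ((i : ℤ), y) = ω ((i : ℤ), y) := by
    unfold perC
    simp only
    rw [Int.emod_eq_of_lt (by omega) (by omega)]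
  constructor
  · intro h
    left
    refine Relation.ReflTransGen.single ⟨(i : ℤ), y, ⟨le_rfl, hy⟩, Or.inl ⟨?_, Or.inl ⟨rfl, rfl⟩⟩⟩
    rw [hp]; exact h
  · intro h
    left
    refine Relation.ReflTransGen.single ⟨(i : ℤ), y, ⟨le_rfl, hy⟩, Or.inr ⟨?_, Or.inl ⟨rfl, rfl⟩⟩⟩
    rw [hp]; exact h

end CylArmA

open CylArmA

/-- Soundness after the rows `M - 1, …, M - j`. -/
theorem sound_run {L M : ℕ} (hL : L % 2 = 0) (hL0 : 0 < L) (ω : Cfg) {j : ℕ} (hj : j ≤ M) :
    ∃ (s : St) (g : ℕ), IsAnn L s ∧ Marks L s g ∧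
      SoundT L L (RelT L M ω (M - j)) s g (fun k => ((k : ℤ), (M : ℤ) - j)) ∧
      run L ω M (s0 L) = run L ω (M - j) s := by
  induction j with
  | zero =>
    refine ⟨s0 L, 0, isAnn_s0 hL, ⟨Nat.zero_le _, fun x _ => by simp [s0]⟩, ?_, by simp⟩
    intro x hx
    right
    exact ⟨⟨_, Relation.ReflTransGen.refl, by simp⟩, ⟨_, Relation.ReflTransGen.refl, by simp⟩⟩
  | succ j ih =>
    obtain ⟨s, g, h1, h2, h3, h4⟩ := ih (by omega)
    have hy : (M : ℤ) - (j : ℤ) = (M : ℤ) - ((j + 1 : ℕ) : ℤ) + 1 := by push_cast; ring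
    have hMy : ((M - (j + 1) : ℕ) : ℤ) = (M : ℤ) - ((j + 1 : ℕ) : ℤ) := by omega
    have h3' : SoundT L L (RelT L M ω ((M : ℤ) - ((j + 1 : ℕ) : ℤ))) s g
        (fun k => ((k : ℤ), (M : ℤ) - ((j + 1 : ℕ) : ℤ) + 1)) := by
      intro x hx
      have := h3 x hx
      rw [hy] at this
      exact relT_mono (by omega) this
    obtain ⟨g', h5, h6⟩ := sound_trow (relT_good L M ω _) h1 h2 h3' _
      (rowB_relT ω (show (M : ℤ) - ((j + 1 : ℕ) : ℤ) < M by omega))
    refine ⟨_, g', h1.trow _, h5, h6, ?_⟩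
    rw [h4, show M - j = M - (j + 1) + 1 by omega]
    rw [← hMy]
    rfl

/-- If the gap `0` is not separated from infinity then its cluster winds around the cylinder or
reaches the top. -/
theorem relT_of_v0 {L M : ℕ} (hL : L % 2 = 0) (hL0 : 0 < L) (ω : Cfg)
    (h : (run L ω M (s0 L)).2 = fun _ => false) : RelT L M ω 0 (0, 0) ((L : ℤ), 0) := by
  obtain ⟨s, g, h1, h2, h3, h4⟩ := sound_run (M := M) hL hL0 ω le_rfl
  have h5 : run L ω (M - M) s = s := by rw [Nat.sub_self]; rfl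
  rw [h4, h5] at h
  rw [sub_self] at h3
  have hR := relT_good L M ω 0
  have key : ∀ x < L, RelT L M ω 0 ((x : ℤ), 0) (((s.1 x + 1 : ℕ) : ℤ), 0) := by
    intro x hx
    have h6 := h2.2 x hx
    rw [h] at h6
    have h7 : (g ≤ x ↔ g ≤ s.1 x) := by
      have : ¬ ¬ (x < g ↔ s.1 x < g) := fun h8 => by simpa using h6.2 h8
      omega
    have h8 := h3 x hx
    exact hR.of_sh h7 h8
  have h6 := h1.nc.connected (R := fun k l => RelT L M ω 0 ((k : ℤ), 0) ((l : ℤ), 0))
    ⟨fun k => hR.refl _, fun h => hR.symm h, fun h h' => hR.trans h h'⟩ key (Nat.zero_le L) le_rfl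
    h1.nc.geq_zero
  simpa using h6

end Pool.Agent.Perc
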