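import Pool.Agent.Lib.MP_6bd702_perc.AnnSpinDefs

/-!
# The gauge transformation (task AnnSpinC)
-/

set_option autoImplicit false

namespace Pool.Agent.Perc

open Finset Function

variable {κ : ℂ} {N L : ℕ} {s : St}

namespace AnnSpinC

/-- The gauge factor. -/
noncomputable def Dg (q : ℂ) (L k : ℕ) (σ : ℕ → Bool) : ℂ :=
  -q * ((if σ k then -q ^ 2 else 1) * (if σ (L + 1) then -q else 1))

theorem cube {q : ℂ} (hq : q ^ 2 + q + 1 = 0) : q ^ 3 = 1 := by
  linear_combination (q - 1) * hq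

theorem inv1 {q : ℂ} (hq : q ^ 2 + q + 1 = 0) : (-q)⁻¹ = -q ^ 2 := by
  have h3 := cube hq
  apply inv_eq_of_mul_eq_one_right
  linear_combination h3

theorem inv2 {q : ℂ} (hq : q ^ 2 + q + 1 = 0) : (-q ^ 2)⁻¹ = -q := by
  have h3 := cube hq
  apply inv_eq_of_mul_eq_one_right
  linear_combination h3

theorem upd_self {σ : ℕ → Bool} {k : ℕ} {a b : Bool} (ha : σ k = a) (hb : σ (k + 1) = b) :
    update (update σ k a) (k + 1) b = σ := by
  subst ha; subst hb
  funext j
  by_cases h : j = k + 1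
  · subst h; simp
  · rw [update_of_ne h]
    by_cases h' : j = k
    · subst h'; simp
    · rw [update_of_ne h']

theorem rS_D {q : ℂ} (hq : q ^ 2 + q + 1 = 0) {k : ℕ} (hk : k < L) (X : (ℕ → Bool) → ℂ)
    (σ : ℕ → Bool) :
    rS (-q) k (fun τ => Dg q L k τ * X τ) σ = Dg q L (k + 1) σ * rS (-q ^ 2) k X σ := by
  have h3 := cube hq
  have hD : ∀ a b : Bool, Dg q L k (update (update σ k a) (k + 1) b) =
      -q * ((if a then -q ^ 2 else 1) * (if σ (L + 1) then -q else 1)) := by
    intro a b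
    unfold Dg
    rw [update_of_ne (by omega : k ≠ k + 1), update_self, update_of_ne (by omega : L + 1 ≠ k + 1),
      update_of_ne (by omega : L + 1 ≠ k)]
  unfold rS eS capS
  simp only [hD, inv1 hq, inv2 hq]
  rcases ha : σ k with _ | _ <;> rcases hb : σ (k + 1) with _ | _
  · simp only [sw, Dg, ha, hb, Bool.false_eq_true, if_false, if_true]
    ring
  · rw [upd_self ha hb]
    simp only [sw, Dg, ha, hb, Bool.false_eq_true, if_false, if_true]
    linear_combination (-(1 / 2) * (-q * (if σ (L + 1) = true then -q else 1)) * X σ) * h3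
  · rw [upd_self ha hb]
    simp only [sw, Dg, ha, hb, Bool.true_eq_false, Bool.false_eq_true, if_false, if_true]
    linear_combination ((1 / 2) * (-q * (if σ (L + 1) = true then -q else 1)) * X σ) * h3
  · simp only [sw, Dg, ha, hb, if_true]
    ring

theorem rowS_D {q : ℂ} (hq : q ^ 2 + q + 1 = 0) (Z : (ℕ → Bool) → ℂ) :
    ∀ k : ℕ, k ≤ L → rowS (-q) k (fun τ => Dg q L 0 τ * Z τ) =
      fun σ => Dg q L k σ * rowS (-q ^ 2) k Z σ := by
  intro k
  induction k with
  | zero => intro _; rfl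
  | succ k ih =>
    intro hk
    funext σ
    show rS (-q) k (rowS (-q) k (fun τ => Dg q L 0 τ * Z τ)) σ = _
    rw [ih (by omega)]
    exact rS_D hq (by omega) _ σ

theorem capS_D {q : ℂ} (hq : q ^ 2 + q + 1 = 0) (W : (ℕ → Bool) → ℂ) (σ : ℕ → Bool) :
    capS (-q) L (fun τ => Dg q L L τ * W τ) σ = capS (-q ^ 2) L W σ := by
  have h3 := cube hq
  unfold capS Dg
  simp only [inv1 hq, inv2 hq, update_of_ne (show L ≠ L + 1 by omega), update_self,
    Bool.false_eq_true, if_false, if_true]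
  linear_combination (W (update (update σ L true) (L + 1) false) -
    q * W (update (update σ L false) (L + 1) true)) * h3

theorem tw_eq {q : ℂ} (hq : q ^ 2 + q + 1 = 0) (τ : ℕ → Bool) :
    tw (-q) (τ 0) (τ (L + 1)) = Dg q L 0 τ * sw (-q ^ 2) (τ 0) (τ (L + 1)) := by
  have h3 := cube hq
  unfold tw sw Dg
  rcases ha : τ 0 with _ | _ <;> rcases hb : τ (L + 1) with _ | _
  · simp
  · simp only [Bool.false_eq_true, if_false, if_true]
    ring
  · simp only [Bool.true_eq_false, Bool.false_eq_true, if_false, if_true, inv1 hq]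
    linear_combination (q ^ 2) * h3
  · simp

end AnnSpinC

/-- The gauge transformation. -/
theorem TR_eq_TL {q : ℂ} (hq : q ^ 2 + q + 1 = 0) (L : ℕ) (X : (ℕ → Bool) → ℂ) (σ : ℕ → Bool) :
    TR q L X σ = TL q L X σ := by
  unfold TR TL
  have e : (fun τ : ℕ → Bool => tw (-q) (τ 0) (τ (L + 1)) * X fun k => τ (k + 1)) =
      fun τ => AnnSpinC.Dg q L 0 τ *
        (sw (-q ^ 2) (τ 0) (τ (L + 1)) * X fun k => τ (k + 1)) := by
    funext τ
    rw [AnnSpinC.tw_eq hq]
    ring
  rw [e, AnnSpinC.rowS_D hq _ L le_rfl]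
  exact AnnSpinC.capS_D hq _ σ

end Pool.Agent.Perc
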