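import Pool.Agent.Lib.MP_6bd702_perc.SchurA

/-!
# Schur polynomials: evaluation at 1 (task SchurB)
-/

set_option autoImplicit false

namespace Pool.Agent.Perc

open Finset MvPolynomial

namespace SchurB

/-- `X^b - X^a = (X - 1) (X^a + … + X^(b-1))`. -/
theorem pow_sub_pow_eq {a b : ℕ} (hab : a ≤ b) :
    (Polynomial.X : Polynomial ℂ) ^ b - Polynomial.X ^ a =
      (Polynomial.X - 1) * ∑ k ∈ Ico a b, Polynomial.X ^ k := by
  induction b, hab using Nat.le_induction with
  | base => simp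
  | succ b hb ih =>
    rw [Finset.sum_Ico_succ_top hb, mul_add, ← ih]
    ring

/-- The specialisation `X_i ↦ q^i`. -/
noncomputable def spec : MvPolynomial ℕ ℂ →ₐ[ℂ] Polynomial ℂ :=
  aeval fun i => (Polynomial.X : Polynomial ℂ) ^ i

theorem spec_alt (N : ℕ) (e : ℕ → ℕ) :
    spec (alt N e) = ∏ p ∈ SchurDefs.prs N,
      ((Polynomial.X : Polynomial ℂ) ^ e p.1 - Polynomial.X ^ e p.2) := by
  have h1 : spec (alt N e) =
      (aeval (fun i => (Polynomial.X : Polynomial ℂ) ^ e i) (vdm N)) := by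
    rw [← alt_id, alt, AlgHom.map_det, alt, AlgHom.map_det, ← Matrix.det_transpose]
    congr 1
    ext1 i j
    simp only [AlgHom.mapMatrix_apply, Matrix.transpose_apply, Matrix.map_apply, Matrix.of_apply,
      map_pow, spec, aeval_X]
    rw [← pow_mul, ← pow_mul, mul_comm]
  rw [h1, SchurDefs.vdm_eq_prs, map_prod]
  simp

theorem eval_spec (p : MvPolynomial ℕ ℂ) : (spec p).eval 1 = eval (fun _ => 1) p := by
  have : (Polynomial.evalRingHom (1 : ℂ)).comp spec.toRingHom = eval (fun _ => 1) := by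
    apply MvPolynomial.ringHom_ext
    · intro r; simp [spec]
    · intro i; simp [spec]
  exact DFunLike.congr_fun this p

end SchurB

open SchurB in
/-- Evaluation at `1, …, 1`. -/
theorem eval_one_schur (N : ℕ) {e : ℕ → ℕ} (he : StrictMono e) :
    eval (fun _ => 1) (schur N e) * ∏ j ∈ range N, ∏ i ∈ range j, ((j : ℂ) - i) =
      ∏ j ∈ range N, ∏ i ∈ range j, ((e j : ℂ) - e i) := by
  have key : ∀ e : ℕ → ℕ, StrictMono e → spec (alt N e) =
      (Polynomial.X - 1) ^ (SchurDefs.prs N).card * ∏ p ∈ SchurDefs.prs N,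
        ∑ k ∈ Ico (e p.2) (e p.1), (Polynomial.X : Polynomial ℂ) ^ k := by
    intro e he
    rw [spec_alt, ← Finset.prod_const, ← Finset.prod_mul_distrib]
    exact Finset.prod_congr rfl fun p hp =>
      pow_sub_pow_eq (he.monotone (SchurDefs.mem_prs.1 hp).2.le)
  have ev : ∀ e : ℕ → ℕ, StrictMono e → (∏ p ∈ SchurDefs.prs N,
        ∑ k ∈ Ico (e p.2) (e p.1), (Polynomial.X : Polynomial ℂ) ^ k).eval 1 =
      ∏ j ∈ range N, ∏ i ∈ range j, ((e j : ℂ) - e i) := by
    intro e he
    rw [Polynomial.eval_prod, ← SchurDefs.prod_prs N (fun j i => ((e j : ℂ) - e i))]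
    refine Finset.prod_congr rfl fun p hp => ?_
    have hle := he.monotone (SchurDefs.mem_prs.1 hp).2.le
    simp [Polynomial.eval_finsetSum, Nat.cast_sub hle]
  have h1 := congrArg spec (vdm_mul_schur N e)
  rw [map_mul, ← alt_id, key (fun j => j) strictMono_id, key e he, mul_assoc] at h1
  have hX : ((Polynomial.X : Polynomial ℂ) - 1) ^ (SchurDefs.prs N).card ≠ 0 :=
    pow_ne_zero _ (Polynomial.X_sub_C_ne_zero (1 : ℂ))
  have h2 := congrArg (Polynomial.eval 1) (mul_left_cancel₀ hX h1)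
  rw [Polynomial.eval_mul, ev e he, ev (fun j => j) strictMono_id, eval_spec] at h2
  rw [mul_comm]
  exact h2

end Pool.Agent.Perc
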