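import Pool.Agent.Lib.MP_6bd702_perc.SchurDefs

/-!
# Schur polynomials: top coefficient and value at zero (task SchurC)
-/

set_option autoImplicit false

namespace Pool.Agent.Perc

open Finset MvPolynomial

namespace SchurC

theorem vdm_succ (N : ℕ) :
    vdm (N + 1) = vdm N * ∏ i ∈ range N, (X N - X i : MvPolynomial ℕ ℂ) := by
  rw [vdm, Finset.prod_range_succ, vdm]

/-- The last variable is singled out. -/
noncomputable def phi (N : ℕ) : MvPolynomial ℕ ℂ →ₐ[ℂ] Polynomial (MvPolynomial ℕ ℂ) :=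
  aeval fun k => if k = N then (Polynomial.X : Polynomial (MvPolynomial ℕ ℂ))
    else Polynomial.C (X k)

theorem phi_X_self (N : ℕ) : phi N (X N) = Polynomial.X := by simp [phi]

theorem phi_X_of_lt {N k : ℕ} (hk : k < N) : phi N (X k) = Polynomial.C (X k) := by
  simp [phi, hk.ne]

theorem phi_vdm (N : ℕ) : phi N (vdm N) = Polynomial.C (vdm N) := by
  rw [vdm, map_prod, map_prod]
  refine Finset.prod_congr rfl fun j hj => ?_
  rw [map_prod, map_prod]
  refine Finset.prod_congr rfl fun i hi => ?_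
  rw [mem_range] at hi hj
  rw [map_sub, map_sub, phi_X_of_lt hj, phi_X_of_lt (hi.trans hj)]

theorem phi_vdm_succ (N : ℕ) : phi N (vdm (N + 1)) =
    Polynomial.C (vdm N) * ∏ i ∈ range N, (Polynomial.X - Polynomial.C (X i)) := by
  rw [vdm_succ, map_mul, phi_vdm, map_prod]
  congr 1
  refine Finset.prod_congr rfl fun i hi => ?_
  rw [map_sub, phi_X_self, phi_X_of_lt (mem_range.1 hi)]

theorem phi_alt (N : ℕ) (e : ℕ → ℕ) : phi N (alt (N + 1) e) =
    ∑ j : Fin (N + 1), Polynomial.C ((-1) ^ (N + (j : ℕ)) *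
      (Matrix.of fun i k : Fin N => (X (i : ℕ) : MvPolynomial ℕ ℂ) ^ e (j.succAbove k)).det) *
      Polynomial.X ^ e j := by
  rw [alt, AlgHom.map_det, Matrix.det_succ_row _ (Fin.last N)]
  refine Finset.sum_congr rfl fun j _ => ?_
  have h1 : ((phi N).mapMatrix (Matrix.of fun i j : Fin (N + 1) =>
      (X (i : ℕ) : MvPolynomial ℕ ℂ) ^ e j)) (Fin.last N) j = Polynomial.X ^ e j := by
    simp [phi_X_self]
  have h2 : (((phi N).mapMatrix (Matrix.of fun i j : Fin (N + 1) =>
      (X (i : ℕ) : MvPolynomial ℕ ℂ) ^ e j)).submatrix (Fin.last N).succAbove j.succAbove).det =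
      Polynomial.C (Matrix.of fun i k : Fin N =>
        (X (i : ℕ) : MvPolynomial ℕ ℂ) ^ e (j.succAbove k)).det := by
    rw [RingHom.map_det]
    congr 1
    ext1 i k
    simp only [Matrix.submatrix_apply, AlgHom.mapMatrix_apply, Matrix.map_apply, Matrix.of_apply,
      map_pow, RingHom.mapMatrix_apply, Fin.succAbove_last, Fin.val_castSucc]
    rw [phi_X_of_lt i.2]
  rw [h1, h2, Fin.val_last, map_mul, map_pow, map_neg, map_one]
  ring

theorem natDegree_phi_alt_le (N : ℕ) {e : ℕ → ℕ} (he : StrictMono e) :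
    (phi N (alt (N + 1) e)).natDegree ≤ e N := by
  rw [phi_alt]
  refine Polynomial.natDegree_sum_le_of_forall_le _ _ fun j _ => ?_
  exact (Polynomial.natDegree_C_mul_X_pow_le _ _).trans (he.monotone (Nat.lt_succ_iff.1 j.2))

theorem coeff_phi_alt (N : ℕ) {e : ℕ → ℕ} (he : StrictMono e) :
    (phi N (alt (N + 1) e)).coeff (e N) = alt N e := by
  rw [phi_alt, Polynomial.finsetSum_coeff, Finset.sum_eq_single (Fin.last N)]
  · rw [Polynomial.coeff_C_mul_X_pow, Fin.val_last, if_pos rfl, ← two_mul, pow_mul, neg_one_sq,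
      one_pow, one_mul, alt]
    simp only [Fin.succAbove_last, Fin.val_castSucc]
  · intro j _ hj
    rw [Polynomial.coeff_C_mul_X_pow, if_neg]
    intro h
    exact hj (Fin.ext (he.injective h).symm)
  · intro h
    exact absurd (mem_univ _) h

theorem phi_schur (N : ℕ) (e : ℕ → ℕ) :
    Polynomial.C (vdm N) * (phi N (schur (N + 1) e) *
      ∏ i ∈ range N, (Polynomial.X - Polynomial.C (X i))) = phi N (alt (N + 1) e) := by
  rw [← vdm_mul_schur, map_mul, phi_vdm_succ]
  ring

theorem natDegree_prod (N : ℕ) :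
    (∏ i ∈ range N, (Polynomial.X - Polynomial.C (X i) : Polynomial (MvPolynomial ℕ ℂ))).natDegree
      = N := by
  rw [Polynomial.natDegree_prod_of_monic _ _ fun _ _ => Polynomial.monic_X_sub_C _]
  simp

theorem monic_prod (N : ℕ) :
    (∏ i ∈ range N, (Polynomial.X - Polynomial.C (X i) : Polynomial (MvPolynomial ℕ ℂ))).Monic :=
  Polynomial.monic_prod_of_monic _ _ fun _ _ => Polynomial.monic_X_sub_C _

theorem coeff_phi_schur (N d : ℕ) {e : ℕ → ℕ} (he : StrictMono e) (heN : e N = d + N) :
    (phi N (schur (N + 1) e)).coeff d = schur N e := by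
  have hv : (Polynomial.C (vdm N) : Polynomial (MvPolynomial ℕ ℂ)) ≠ 0 :=
    Polynomial.C_ne_zero.2 (SchurDefs.vdm_ne_zero N)
  have hdeg : (phi N (schur (N + 1) e)).natDegree ≤ d := by
    by_cases h0 : phi N (schur (N + 1) e) = 0
    · rw [h0, Polynomial.natDegree_zero]; exact Nat.zero_le _
    have h1 := natDegree_phi_alt_le N he
    rw [← phi_schur, Polynomial.natDegree_mul hv (mul_ne_zero h0 (monic_prod N).ne_zero),
      Polynomial.natDegree_mul h0 (monic_prod N).ne_zero, natDegree_prod, Polynomial.natDegree_C,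
      heN] at h1
    omega
  have h2 := congrArg (fun p => Polynomial.coeff p (d + N)) (phi_schur N e)
  rw [Polynomial.coeff_C_mul,
    Polynomial.coeff_mul_add_eq_of_natDegree_le hdeg (natDegree_prod N).le, ← heN, coeff_phi_alt N he,
    ← vdm_mul_schur] at h2
  have h3 := mul_left_cancel₀ (SchurDefs.vdm_ne_zero N) h2
  have h4 : (∏ i ∈ range N,
      (Polynomial.X - Polynomial.C (X i) : Polynomial (MvPolynomial ℕ ℂ))).coeff N = 1 := by
    have := (monic_prod N).coeff_natDegree
    rwa [natDegree_prod] at this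
  rwa [h4, mul_one] at h3

/-- The last variable is put to `0`. -/
noncomputable def psi (N : ℕ) : MvPolynomial ℕ ℂ →ₐ[ℂ] MvPolynomial ℕ ℂ :=
  aeval fun k => if k = N then 0 else X k

theorem psi_X_self (N : ℕ) : psi N (X N) = 0 := by simp [psi]

theorem psi_X_of_lt {N k : ℕ} (hk : k < N) : psi N (X k) = X k := by
  simp [psi, hk.ne]

theorem psi_vdm (N : ℕ) : psi N (vdm N) = vdm N := by
  rw [vdm, map_prod]
  refine Finset.prod_congr rfl fun j hj => ?_
  rw [map_prod]
  refine Finset.prod_congr rfl fun i hi => ?_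
  rw [mem_range] at hi hj
  rw [map_sub, psi_X_of_lt hj, psi_X_of_lt (hi.trans hj)]

theorem psi_vdm_succ (N : ℕ) : psi N (vdm (N + 1)) =
    vdm N * ((-1) ^ N * ∏ i ∈ range N, (X i : MvPolynomial ℕ ℂ)) := by
  rw [vdm_succ, map_mul, psi_vdm, map_prod]
  congr 1
  have : ∀ i ∈ range N, psi N (X N - X i) = -1 * (X i : MvPolynomial ℕ ℂ) := by
    intro i hi
    rw [map_sub, psi_X_self, psi_X_of_lt (mem_range.1 hi)]
    ring
  rw [Finset.prod_congr rfl this, Finset.prod_mul_distrib, Finset.prod_const, card_range]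

theorem psi_alt (N : ℕ) {e : ℕ → ℕ} (he : StrictMono e) (he0 : e 0 = 0) :
    psi N (alt (N + 1) e) = (-1) ^ N * ((∏ i ∈ range N, (X i : MvPolynomial ℕ ℂ)) *
      alt N fun j => e (j + 1) - 1) := by
  rw [alt, AlgHom.map_det, Matrix.det_succ_row _ (Fin.last N),
    Finset.sum_eq_single (0 : Fin (N + 1))]
  · have h1 : ((psi N).mapMatrix (Matrix.of fun i j : Fin (N + 1) =>
        (X (i : ℕ) : MvPolynomial ℕ ℂ) ^ e j)) (Fin.last N) 0 = 1 := by
      simp [he0]
    have h2 : (((psi N).mapMatrix (Matrix.of fun i j : Fin (N + 1) =>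
        (X (i : ℕ) : MvPolynomial ℕ ℂ) ^ e j)).submatrix (Fin.last N).succAbove
          (0 : Fin (N + 1)).succAbove).det =
        (Matrix.of fun i k : Fin N => (X (i : ℕ) : MvPolynomial ℕ ℂ) *
          (Matrix.of (fun i k : Fin N => (X (i : ℕ) : MvPolynomial ℕ ℂ) ^ (e (k + 1) - 1)) i k)).det
        := by
      congr 1
      ext1 i k
      simp only [Matrix.submatrix_apply, AlgHom.mapMatrix_apply, Matrix.map_apply, Matrix.of_apply,
        map_pow, Fin.succAbove_last, Fin.val_castSucc, Fin.succAbove_zero, Fin.val_succ]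
      rw [psi_X_of_lt i.2, ← pow_succ']
      congr 1
      have h3 : e 0 < e ((k : ℕ) + 1) := he (Nat.succ_pos (k : ℕ))
      omega
    rw [h1, h2, Matrix.det_mul_column, Fin.val_last, Fin.val_zero, add_zero, mul_one, alt,
      ← Fin.prod_univ_eq_prod_range]
  · intro j _ hj
    have h1 : ((psi N).mapMatrix (Matrix.of fun i j : Fin (N + 1) =>
        (X (i : ℕ) : MvPolynomial ℕ ℂ) ^ e j)) (Fin.last N) j = 0 := by
      have hpos : e j ≠ 0 := by
        have h3 : 0 < (j : ℕ) := Nat.pos_of_ne_zero fun h => hj (Fin.ext h)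
        have := he h3
        omega
      simp [psi_X_self, hpos]
    rw [h1, mul_zero, zero_mul]
  · intro h
    exact absurd (mem_univ _) h

theorem psi_schur (N : ℕ) {e : ℕ → ℕ} (he : StrictMono e) (he0 : e 0 = 0) :
    psi N (schur (N + 1) e) = schur N fun j => e (j + 1) - 1 := by
  have h1 := congrArg (psi N) (vdm_mul_schur (N + 1) e)
  rw [map_mul, psi_vdm_succ, psi_alt N he he0, ← vdm_mul_schur] at h1
  have hne : vdm N * ((-1) ^ N * ∏ i ∈ range N, (X i : MvPolynomial ℕ ℂ)) ≠ 0 := by
    refine mul_ne_zero (SchurDefs.vdm_ne_zero N) (mul_ne_zero (pow_ne_zero _ (by simp)) ?_)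
    exact Finset.prod_ne_zero_iff.2 fun i _ => MvPolynomial.X_ne_zero _
  refine mul_left_cancel₀ hne ?_
  rw [h1]
  ring

end SchurC

open SchurC in
/-- The top coefficient in the last variable. -/
theorem top_schur (N d : ℕ) {e : ℕ → ℕ} (he : StrictMono e) (heN : e N = d + N) (z : ℕ → ℂ) :
    (Polynomial.coeff (aeval (fun k => if k = N then (Polynomial.X : Polynomial ℂ)
      else Polynomial.C (z k)) (schur (N + 1) e)) d) = eval z (schur N e) := by
  have h1 : ∀ p : MvPolynomial ℕ ℂ, aeval (fun k => if k = N then (Polynomial.X : Polynomial ℂ)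
      else Polynomial.C (z k)) p = (phi N p).map (eval z) := by
    intro p
    have : (aeval (fun k => if k = N then (Polynomial.X : Polynomial ℂ)
        else Polynomial.C (z k)) : MvPolynomial ℕ ℂ →ₐ[ℂ] Polynomial ℂ).toRingHom =
        (Polynomial.mapRingHom (eval z)).comp (phi N).toRingHom := by
      apply MvPolynomial.ringHom_ext
      · intro r
        simp [phi, Polynomial.algebraMap_apply, MvPolynomial.algebraMap_eq]
      · intro k
        by_cases hk : k = N
        · simp [phi, hk]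
        · simp [phi, hk]
    exact DFunLike.congr_fun this p
  rw [h1, Polynomial.coeff_map, coeff_phi_schur N d he heN]

open SchurC in
/-- The value at zero of the last variable. -/
theorem zero_schur (N : ℕ) {e : ℕ → ℕ} (he : StrictMono e) (he0 : e 0 = 0) (z : ℕ → ℂ)
    (hz : z N = 0) :
    eval z (schur (N + 1) e) = eval z (schur N fun j => e (j + 1) - 1) := by
  have h1 : (eval z).comp (psi N).toRingHom = eval z := by
    apply MvPolynomial.ringHom_ext
    · intro r
      simp [psi]
    · intro k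
      by_cases hk : k = N
      · simp [psi, hk, hz]
      · simp [psi, hk]
  rw [← psi_schur N he he0]
  exact (DFunLike.congr_fun h1 _).symm

end Pool.Agent.Perc
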