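import Pool.Agent.Lib.MP_6bd702_perc.Spin
import Pool.Agent.Lib.MP_6bd702_perc.SumDefs

/-!
# The relation between the solutions of sizes 2 n + 2 and 2 n in spin space (task SpinRel)
-/

set_option autoImplicit false

namespace Pool.Agent.Perc

open Finset MvPolynomial Function

namespace SpinRel

open scoped Classical

variable {q κ : ℂ} {n N : ℕ} {p : ℕ → ℕ}

lemma q_ne (hq : q ^ 2 + q + 1 = 0) : q ≠ 0 := by
  intro h
  rw [h] at hq
  norm_num at hq

lemma hk1 (hq : q ^ 2 + q + 1 = 0) : (-q) ^ 2 = -q - 1 := by linear_combination hq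

lemma hk2 (hq : q ^ 2 + q + 1 = 0) : (-q ^ 2) ^ 2 = -q ^ 2 - 1 := by
  linear_combination (q ^ 2 - q + 1) * hq

/-! ### one step -/

lemma step_general (hκ : κ ^ 2 = κ - 1) {i : ℕ} (hi : i + 1 < N) (F G : (ℕ → ℕ) → ℂ) (c a b : ℂ)
    (hex : ∀ ρ ∈ pats N, c * G ρ = a * F ρ + b * ∑ p ∈ pats N, if eAct i p = ρ then F p else 0)
    (τ : ℕ → Bool) (h1 : τ i = true) (h2 : τ (i + 1) = false) :
    c * ∑ ρ ∈ pats N, G ρ * Phi κ N ρ τ = (a + b * κ) * ∑ ρ ∈ pats N, F ρ * Phi κ N ρ τ
      + b * ∑ ρ ∈ pats N, F ρ * Phi κ N ρ (update (update τ i false) (i + 1) true) := by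
  have hκ0 : κ ≠ 0 := by
    intro h
    rw [h] at hκ
    norm_num at hκ
  have e1 : c * ∑ ρ ∈ pats N, G ρ * Phi κ N ρ τ
      = ∑ ρ ∈ pats N, (a * F ρ + b * ∑ p ∈ pats N, if eAct i p = ρ then F p else 0) * Phi κ N ρ τ := by
    rw [Finset.mul_sum]
    refine Finset.sum_congr rfl fun ρ hρ => ?_
    rw [← hex ρ hρ]
    ring
  have e2 : ∑ ρ ∈ pats N, (∑ p ∈ pats N, if eAct i p = ρ then F p else 0) * Phi κ N ρ τ
      = ∑ p ∈ pats N, F p * Phi κ N (eAct i p) τ := by
    simp_rw [Finset.sum_mul]
    rw [Finset.sum_comm]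
    refine Finset.sum_congr rfl fun p hp => ?_
    rw [Finset.sum_eq_single (eAct i p)]
    · rw [if_pos rfl]
    · intro b _ hb
      rw [if_neg (Ne.symm hb), zero_mul]
    · intro h
      exact absurd (mem_pats.mpr ((mem_pats.mp hp).eAct hi)) h
  have e3 : ∀ p ∈ pats N, Phi κ N (eAct i p) τ
      = κ * Phi κ N p τ + Phi κ N p (update (update τ i false) (i + 1) true) := by
    intro p hp
    rw [← eS_Phi hκ (mem_pats.mp hp) hi τ]
    unfold eS capS
    have u1 : update (update τ i true) (i + 1) false = τ := by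
      rw [← h1, Function.update_eq_self, ← h2, Function.update_eq_self]
    rw [u1, h1, h2]
    have : sw κ true false = κ := by simp [sw]
    rw [this]
    field_simp
  rw [e1]
  have e4 : ∑ ρ ∈ pats N, (a * F ρ + b * ∑ p ∈ pats N, if eAct i p = ρ then F p else 0) * Phi κ N ρ τ
      = a * ∑ ρ ∈ pats N, F ρ * Phi κ N ρ τ
        + b * ∑ ρ ∈ pats N, (∑ p ∈ pats N, if eAct i p = ρ then F p else 0) * Phi κ N ρ τ := by
    rw [Finset.mul_sum, Finset.mul_sum, ← Finset.sum_add_distrib]
    refine Finset.sum_congr rfl fun ρ _ => ?_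
    ring
  rw [e4, e2]
  have e5 : ∑ p ∈ pats N, F p * Phi κ N (eAct i p) τ
      = κ * ∑ p ∈ pats N, F p * Phi κ N p τ
        + ∑ p ∈ pats N, F p * Phi κ N p (update (update τ i false) (i + 1) true) := by
    rw [Finset.mul_sum, ← Finset.sum_add_distrib]
    refine Finset.sum_congr rfl fun p hp => ?_
    rw [e3 p hp]
    ring
  rw [e5]
  ring

/-! ### the two families -/

/-- exchange relation written with sums -/
lemma exchange_sum (hq : q ^ 2 + q + 1 = 0) {m i : ℕ} (hi : i + 1 < 2 * m) (z : ℕ → ℂ)
    {ρ : ℕ → ℕ} (hρ : ρ ∈ pats (2 * m)) :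
    (q * z (i + 1) - q ^ 2 * z i) * eval (swapV i z) (Psi q m ρ)
      = (q * z i - q ^ 2 * z (i + 1)) * eval z (Psi q m ρ)
        + (z i - z (i + 1)) * ∑ p ∈ pats (2 * m), if eAct i p = ρ then eval z (Psi q m p) else 0 := by
  rw [exchange_Psi hq hi (mem_pats.mp hρ) z]
  congr 2
  unfold PsiV
  rw [Finsupp.mapDomain_finsetSum, Finsupp.finsetSum_apply]
  refine Finset.sum_congr rfl fun p _ => ?_
  rw [Finsupp.mapDomain_single, Finsupp.single_apply]

/-- the last two variables are `y`, `0` -/
noncomputable def gp (n : ℕ) (z : ℕ → ℂ) (k : ℕ) : Polynomial ℂ :=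
  if k = 2 * n then Polynomial.X else if k = 2 * n + 1 then 0 else Polynomial.C (z k)

noncomputable def XiZ (q : ℂ) (n : ℕ) (z : ℕ → ℂ) (π : ℕ → ℕ) : ℂ :=
  (aeval (gp n z) (Psi q (n + 1) π)).coeff n

lemma Xi_eq (q : ℂ) (n : ℕ) (π : ℕ → ℕ) : Xi q n π = XiZ q n (fun _ => 1) π := by
  unfold Xi XiZ
  have h : (gp n fun _ => 1) = fun k => if k = 2 * n then Polynomial.X
      else if k = 2 * n + 1 then 0 else 1 := by
    funext k
    simp [gp]
  rw [h]

/-- the point `(z, y, 0)` -/
noncomputable def zy (n : ℕ) (z : ℕ → ℂ) (y : ℂ) (k : ℕ) : ℂ :=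
  if k = 2 * n then y else if k = 2 * n + 1 then 0 else z k

lemma eval_aeval (z : ℕ → ℂ) (y : ℂ) (P : MvPolynomial ℕ ℂ) :
    (aeval (gp n z) P).eval y = eval (zy n z y) P := by
  induction P using MvPolynomial.induction_on with
  | C a => simp
  | add P Q hP hQ => simp [hP, hQ]
  | mul_X P k hP =>
    rw [map_mul, Polynomial.eval_mul, hP, map_mul, aeval_X, eval_X]
    congr 1
    unfold gp zy
    split_ifs <;> simp

lemma swapV_zy {i : ℕ} (hi : i + 1 < 2 * n) (z : ℕ → ℂ) (y : ℂ) :
    swapV i (zy n z y) = zy n (swapV i z) y := by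
  funext k
  unfold swapV zy
  by_cases h1 : k = i
  · subst h1
    simp only [Equiv.swap_apply_left]
    rw [if_neg (by omega), if_neg (by omega), if_neg (by omega), if_neg (by omega)]
  by_cases h2 : k = i + 1
  · subst h2
    simp only [Equiv.swap_apply_right]
    rw [if_neg (by omega), if_neg (by omega), if_neg (by omega), if_neg (by omega)]
  simp only [Equiv.swap_apply_of_ne_of_ne h1 h2]

lemma XiZ_exchange (hq : q ^ 2 + q + 1 = 0) {i : ℕ} (hi : i + 1 < 2 * n) (z : ℕ → ℂ)
    {ρ : ℕ → ℕ} (hρ : ρ ∈ pats (2 * n + 2)) :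
    (q * z (i + 1) - q ^ 2 * z i) * XiZ q n (swapV i z) ρ
      = (q * z i - q ^ 2 * z (i + 1)) * XiZ q n z ρ
        + (z i - z (i + 1)) * ∑ p ∈ pats (2 * n + 2), if eAct i p = ρ then XiZ q n z p else 0 := by
  have key : Polynomial.C (q * z (i + 1) - q ^ 2 * z i) * aeval (gp n (swapV i z)) (Psi q (n + 1) ρ)
      = Polynomial.C (q * z i - q ^ 2 * z (i + 1)) * aeval (gp n z) (Psi q (n + 1) ρ)
        + Polynomial.C (z i - z (i + 1)) * ∑ p ∈ pats (2 * n + 2),
            if eAct i p = ρ then aeval (gp n z) (Psi q (n + 1) p) else 0 := by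
    refine Polynomial.funext fun y => ?_
    simp only [Polynomial.eval_mul, Polynomial.eval_C, Polynomial.eval_add, eval_aeval,
      Polynomial.eval_finsetSum]
    have h1 := exchange_sum (m := n + 1) hq (by omega : i + 1 < 2 * (n + 1)) (zy n z y) (ρ := ρ)
      (by rw [show 2 * (n + 1) = 2 * n + 2 by ring]; exact hρ)
    have e1 : zy n z y (i + 1) = z (i + 1) := by
      unfold zy
      rw [if_neg (by omega), if_neg (by omega)]
    have e2 : zy n z y i = z i := by
      unfold zy
      rw [if_neg (by omega), if_neg (by omega)]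
    rw [e1, e2, swapV_zy hi, show 2 * (n + 1) = 2 * n + 2 by ring] at h1
    rw [h1]
    congr 2
    refine Finset.sum_congr rfl fun p _ => ?_
    split_ifs with h
    · rw [eval_aeval]
    · simp
  have h2 := congrArg (fun P => Polynomial.coeff P n) key
  simp only [Polynomial.coeff_add, Polynomial.coeff_C_mul, Polynomial.finsetSum_coeff] at h2
  unfold XiZ
  rw [h2]
  congr 2
  refine Finset.sum_congr rfl fun p _ => ?_
  split_ifs with h
  · rfl
  · simp

/-! ### spins -/

/-- the spins of the last two sites -/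
def sg (n : ℕ) (σ : ℕ → Bool) : ℕ → Bool := update (update σ (2 * n) false) (2 * n + 1) true

lemma sg_of_lt {σ : ℕ → Bool} {k : ℕ} (hk : k < 2 * n) : sg n σ k = σ k := by
  unfold sg
  rw [update_of_ne (by omega), update_of_ne (by omega)]

lemma sg_a (σ : ℕ → Bool) : sg n σ (2 * n) = false := by
  unfold sg
  rw [update_of_ne (by omega), update_self]

lemma sg_b (σ : ℕ → Bool) : sg n σ (2 * n + 1) = true := by
  unfold sg
  rw [update_self]

lemma sg_update {i : ℕ} (hi : i < 2 * n) (σ : ℕ → Bool) (b : Bool) :
    update (sg n σ) i b = sg n (update σ i b) := by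
  unfold sg
  rw [update_comm (by omega : (2 * n + 1) ≠ i), update_comm (by omega : (2 * n) ≠ i)]

/-- left side -/
noncomputable def XX (q : ℂ) (n : ℕ) (z : ℕ → ℂ) (σ : ℕ → Bool) : ℂ :=
  ∑ π ∈ pats (2 * n + 2), XiZ q n z π * Phi (-q) (2 * n + 2) π (sg n σ)

noncomputable def WW (q : ℂ) (n : ℕ) (z : ℕ → ℂ) (σ : ℕ → Bool) : ℂ :=
  ∑ π ∈ pats (2 * n), eval z (Psi q n π) * Phi (-q ^ 2) (2 * n) π σ

noncomputable def DD (n : ℕ) (z : ℕ → ℂ) (σ : ℕ → Bool) : ℂ :=
  ∏ J ∈ range (2 * n), if σ J = true then z J else 1

/-- right side -/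
noncomputable def YY (q : ℂ) (n : ℕ) (z : ℕ → ℂ) (σ : ℕ → Bool) : ℂ :=
  (-q ^ 2 / 3) ^ n * (DD n z σ * WW q n z σ)

lemma XX_step (hq : q ^ 2 + q + 1 = 0) {i : ℕ} (hi : i + 1 < 2 * n) (z : ℕ → ℂ) (σ : ℕ → Bool)
    (h1 : σ i = true) (h2 : σ (i + 1) = false) :
    (q * z (i + 1) - q ^ 2 * z i) * XX q n (swapV i z) σ
      = ((q * z i - q ^ 2 * z (i + 1)) + (z i - z (i + 1)) * (-q)) * XX q n z σ
        + (z i - z (i + 1)) * XX q n z (update (update σ i false) (i + 1) true) := by
  have h := step_general (κ := -q) (N := 2 * n + 2) (hk1 hq) (by omega : i + 1 < 2 * n + 2)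
    (XiZ q n z) (XiZ q n (swapV i z)) _ _ _ (fun ρ hρ => XiZ_exchange hq hi z hρ) (sg n σ)
    (by rw [sg_of_lt (by omega)]; exact h1) (by rw [sg_of_lt (by omega)]; exact h2)
  rw [sg_update (by omega), sg_update (by omega)] at h
  exact h

lemma WW_step (hq : q ^ 2 + q + 1 = 0) {i : ℕ} (hi : i + 1 < 2 * n) (z : ℕ → ℂ) (σ : ℕ → Bool)
    (h1 : σ i = true) (h2 : σ (i + 1) = false) :
    (q * z (i + 1) - q ^ 2 * z i) * WW q n (swapV i z) σ
      = ((q * z i - q ^ 2 * z (i + 1)) + (z i - z (i + 1)) * (-q ^ 2)) * WW q n z σ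
        + (z i - z (i + 1)) * WW q n z (update (update σ i false) (i + 1) true) :=
  step_general (κ := -q ^ 2) (N := 2 * n) (hk2 hq) hi
    (fun π => eval z (Psi q n π)) (fun π => eval (swapV i z) (Psi q n π)) _ _ _
    (fun _ hρ => exchange_sum hq hi z hρ) σ h1 h2

/-- the product over the up spins -/
lemma DD_split {i : ℕ} (hi : i + 1 < 2 * n) (z : ℕ → ℂ) (σ : ℕ → Bool) :
    DD n z σ = (if σ i = true then z i else 1) * (if σ (i + 1) = true then z (i + 1) else 1)
      * ∏ J ∈ (range (2 * n)).filter (fun J => J ≠ i ∧ J ≠ i + 1), if σ J = true then z J else 1 := by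
  unfold DD
  have h : range (2 * n) = insert i (insert (i + 1)
      ((range (2 * n)).filter (fun J => J ≠ i ∧ J ≠ i + 1))) := by
    ext J
    simp only [mem_insert, mem_filter, mem_range]
    constructor
    · intro hJ
      by_cases h1 : J = i
      · exact Or.inl h1
      by_cases h2 : J = i + 1
      · exact Or.inr (Or.inl h2)
      exact Or.inr (Or.inr ⟨hJ, h1, h2⟩)
    · rintro (h1 | h1 | h1)
      · omega
      · omega
      · exact h1.1
  conv_lhs => rw [h]
  rw [prod_insert, prod_insert]
  · ring
  · simp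
  · simp

lemma YY_step (hq : q ^ 2 + q + 1 = 0) {i : ℕ} (hi : i + 1 < 2 * n) (z : ℕ → ℂ) (σ : ℕ → Bool)
    (h1 : σ i = true) (h2 : σ (i + 1) = false) :
    (q * z (i + 1) - q ^ 2 * z i) * YY q n (swapV i z) σ
      = ((q * z i - q ^ 2 * z (i + 1)) + (z i - z (i + 1)) * (-q)) * YY q n z σ
        + (z i - z (i + 1)) * YY q n z (update (update σ i false) (i + 1) true) := by
  have hW := WW_step hq hi z σ h1 h2
  unfold YY
  set R := ∏ J ∈ (range (2 * n)).filter (fun J => J ≠ i ∧ J ≠ i + 1), (if σ J = true then z J else 1)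
    with hR
  have d1 : DD n z σ = z i * R := by
    rw [DD_split hi z σ, h1, h2]
    simp [hR]
  have d2 : DD n (swapV i z) σ = z (i + 1) * R := by
    rw [DD_split hi _ σ, h1, h2]
    have e1 : swapV i z i = z (i + 1) := by unfold swapV; rw [Equiv.swap_apply_left]
    have e2 : ∏ J ∈ (range (2 * n)).filter (fun J => J ≠ i ∧ J ≠ i + 1),
        (if σ J = true then swapV i z J else 1) = R := by
      rw [hR]
      refine prod_congr rfl fun J hJ => ?_
      rw [mem_filter] at hJ
      have : swapV i z J = z J := by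
        unfold swapV
        rw [Equiv.swap_apply_of_ne_of_ne hJ.2.1 hJ.2.2]
      rw [this]
    rw [e1, e2]
    simp
  have d3 : DD n z (update (update σ i false) (i + 1) true) = z (i + 1) * R := by
    rw [DD_split hi z _]
    have u1 : update (update σ i false) (i + 1) true i = false := by
      rw [update_of_ne (by omega), update_self]
    have u2 : update (update σ i false) (i + 1) true (i + 1) = true := by rw [update_self]
    have e2 : ∏ J ∈ (range (2 * n)).filter (fun J => J ≠ i ∧ J ≠ i + 1),
        (if update (update σ i false) (i + 1) true J = true then z J else 1) = R := by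
      rw [hR]
      refine prod_congr rfl fun J hJ => ?_
      rw [mem_filter] at hJ
      rw [update_of_ne hJ.2.2, update_of_ne hJ.2.1]
    rw [u1, u2, e2]
    simp
  rw [d1, d2, d3]
  linear_combination ((-q ^ 2 / 3) ^ n * (z (i + 1) * R)) * hW

/-! ### base case -/

lemma card_up {σ : ℕ → Bool} (h : NC N p) (hop : ∀ x < N, σ (p x) = !(σ x)) :
    2 * ((range N).filter fun x => σ x = true).card = N := by
  have h1 : ((range N).filter fun x => σ x = true).card = ((range N).filter fun x => ¬ σ x = true).card := by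
    refine card_nbij' p p ?_ ?_ ?_ ?_
    · intro x hx
      simp only [coe_filter, mem_range, Set.mem_ofPred_eq] at hx ⊢
      refine ⟨h.lt x hx.1, ?_⟩
      rw [hop x hx.1, hx.2]
      simp
    · intro x hx
      simp only [coe_filter, mem_range, Set.mem_ofPred_eq] at hx ⊢
      refine ⟨h.lt x hx.1, ?_⟩
      rw [hop x hx.1]
      simpa using hx.2
    · intro x _
      exact h.inv x
    · intro x _
      exact h.inv x
  have h2 := card_filter_add_card_filter_not (s := range N) (fun x => σ x = true)
  rw [card_range] at h2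
  omega

lemma eq_nest (h : NC (2 * n) p) (hop : ∀ x < 2 * n, (p x < n ↔ ¬ x < n)) : p = nest n := by
  have hdec : ∀ x, x + 1 < n → p (x + 1) < p x := by
    intro x hx
    have h1 : ¬ p x < n := fun h2 => (hop x (by omega)).mp h2 (by omega)
    exact (h.nc x (x + 1) (by omega) (by omega)).2
  have hup : ∀ x, x < n → p x + x ≤ 2 * n - 1 := by
    intro x
    induction x with
    | zero => intro hx; have := h.lt 0 (by omega); omega
    | succ x ih =>
      intro hx
      have := ih (by omega)
      have := hdec x hx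
      omega
  have hlo : ∀ d, d < n → n + d ≤ p (n - 1 - d) := by
    intro d
    induction d with
    | zero =>
      intro hd
      have h1 : ¬ p (n - 1) < n := fun h2 => (hop (n - 1) (by omega)).mp h2 (by omega)
      simpa using not_lt.mp h1
    | succ d ih =>
      intro hd
      have h1 := ih (by omega)
      have h2 := hdec (n - 1 - (d + 1)) (by omega)
      have h3 : n - 1 - (d + 1) + 1 = n - 1 - d := by omega
      rw [h3] at h2
      omega
  have hlow : ∀ x, x < n → p x = 2 * n - 1 - x := by
    intro x hx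
    have h1 := hup x hx
    have h2 := hlo (n - 1 - x) (by omega)
    have h3 : n - 1 - (n - 1 - x) = x := by omega
    rw [h3] at h2
    omega
  funext x
  unfold nest
  split_ifs with hx
  · by_cases hxn : x < n
    · exact hlow x hxn
    · have h1 : p x < n := (hop x hx).mpr hxn
      have h2 := hlow (p x) h1
      rw [h.inv x] at h2
      omega
  · exact h.out x (by omega)

lemma eq_insArc_nest (h : NC (2 * n + 2) p) {τ : ℕ → Bool} (hτ : ∀ x < 2 * n, τ x = true ↔ x < n)
    (ha : τ (2 * n) = false) (hb : τ (2 * n + 1) = true)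
    (hop : ∀ x < 2 * n + 2, τ (p x) = !(τ x)) : p = insArc (2 * n) (nest n) := by
  -- the partner of the last site
  have hbn : p (2 * n + 1) = 2 * n := by
    by_contra hne
    set b := p (2 * n + 1) with hbd
    have hb1 : b < 2 * n + 2 := h.lt _ (by omega)
    have hb2 : b ≠ 2 * n + 1 := h.ne _ (by omega)
    have hb3 : b < 2 * n := by omega
    have hpb : p b = 2 * n + 1 := h.inv _
    have hτb : τ b = false := by rw [hbd, hop _ (by omega), hb]; rfl
    have h4 := h.nc b (2 * n) hb3 (by omega)
    have h5 : p (2 * n) ≠ 2 * n := h.ne _ (by omega)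
    have h6 : p (2 * n) < 2 * n := by omega
    have h7 : τ (p (2 * n)) = true := by rw [hop _ (by omega), ha]; rfl
    have h8 := (hτ _ h6).mp h7
    have h9 : ¬ b < n := fun h10 => by
      have := (hτ b hb3).mpr h10
      rw [hτb] at this
      exact absurd this (by simp)
    omega
  have hbn' : p (2 * n) = 2 * n + 1 := by
    have := h.inv (2 * n + 1)
    rw [hbn] at this
    exact this
  have hlt : ∀ x < 2 * n, p x < 2 * n := by
    intro x hx
    have h1 := h.lt x (by omega)
    by_contra h2
    have h3 : p x = 2 * n ∨ p x = 2 * n + 1 := by omega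
    rcases h3 with h3 | h3
    · have := h.inv x
      rw [h3, hbn'] at this
      omega
    · have := h.inv x
      rw [h3, hbn] at this
      omega
  have hres : resP (2 * n) p = nest n := by
    refine eq_nest (h.resP hbn') fun x hx => ?_
    have h1 : resP (2 * n) p x = p x := by unfold resP; rw [if_pos hx]
    rw [h1, ← hτ _ (hlt x hx), ← hτ x hx, hop x (by omega)]
    simp
  funext x
  unfold insArc
  by_cases h1 : x = 2 * n
  · rw [if_pos h1, h1, hbn']
  by_cases h2 : x = 2 * n + 1
  · rw [if_neg h1, if_pos h2, h2, hbn]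
  rw [if_neg h1, if_neg h2]
  by_cases h3 : x < 2 * n
  · rw [if_pos h3, ← hres]
    have h4 : resP (2 * n) p x = p x := by unfold resP; rw [if_pos h3]
    rw [h4]
    simp only
    rw [if_pos (hlt x h3)]
  · rw [if_neg h3]
    have h4 : nest n (x - 2) = x - 2 := by unfold nest; rw [if_neg (by omega)]
    rw [h4]
    simp only
    rw [if_neg (by omega), h.out x (by omega)]
    omega

lemma Phi_nest {σ : ℕ → Bool} (hσ : ∀ x < 2 * n, σ x = true ↔ x < n) :
    Phi κ (2 * n) (nest n) σ = κ ^ n := by
  unfold Phi
  have h1 : ∀ x ∈ range (2 * n), (if x < nest n x then sw κ (σ x) (σ (nest n x)) else 1)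
      = if x < n then κ else 1 := by
    intro x hx
    rw [mem_range] at hx
    have hn : nest n x = 2 * n - 1 - x := by unfold nest; rw [if_pos hx]
    rw [hn]
    by_cases hxn : x < n
    · rw [if_pos (by omega), if_pos hxn]
      have h2 : σ x = true := (hσ x hx).mpr hxn
      have h3 : σ (2 * n - 1 - x) = false := by
        by_contra h4
        have h5 : σ (2 * n - 1 - x) = true := by simpa using h4
        have h6 := (hσ _ (by omega)).mp h5
        omega
      rw [h2, h3]
      simp [sw]
    · rw [if_neg (by omega), if_neg hxn]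
  rw [prod_congr rfl h1, two_mul, prod_range_add]
  have h2 : ∏ x ∈ range n, (if x < n then κ else 1) = κ ^ n := by
    rw [prod_congr rfl fun x hx => if_pos (mem_range.mp hx), prod_const, card_range]
  have h3 : ∏ x ∈ range n, (if n + x < n then κ else 1) = 1 :=
    prod_eq_one fun x _ => if_neg (by omega)
  rw [h2, h3, mul_one]

/-- the component of the nested pattern with an additional arc -/
lemma XiZ_nest (hq : q ^ 2 + q + 1 = 0) (z : ℕ → ℂ) :
    XiZ q n z (insArc (2 * n) (nest n)) * (-3 * q ^ 2) ^ n
      = q ^ (2 * n) * (∏ j ∈ range n, z j) * eval z (Psi q n (nest n)) := by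
  have key : aeval (gp n z) (Psi q (n + 1) (insArc (2 * n) (nest n))) * Polynomial.C ((-3 * q ^ 2) ^ n)
      = Polynomial.C ((∏ j ∈ range n, (q * z j)) * eval z (Psi q n (nest n)))
        * ∏ j ∈ range n, (Polynomial.C q * Polynomial.X - Polynomial.C (q ^ 2 * z (n + j))) := by
    refine Polynomial.funext fun y => ?_
    simp only [Polynomial.eval_mul, Polynomial.eval_C, eval_aeval, Polynomial.eval_prod,
      Polynomial.eval_sub, Polynomial.eval_X]
    have h1 := eval_Psi_nest_arc hq n z y 0
    have h2 : eval (zy n z y) (Psi q (n + 1) (insArc (2 * n) (nest n)))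
        = eval (insV (2 * n) y 0 z) (Psi q (n + 1) (insArc (2 * n) (nest n))) := by
      refine (wheel_Psi hq (n + 1) _).eval_congr fun k hk => ?_
      unfold zy insV
      by_cases h3 : k < 2 * n
      · rw [if_neg (by omega), if_neg (by omega), if_pos h3]
      · rw [if_neg h3]
        by_cases h4 : k = 2 * n
        · rw [if_pos h4, if_pos h4]
        · rw [if_neg h4, if_neg h4, if_pos (by omega), if_pos (by omega)]
    rw [h2, h1]
    simp only [mul_zero, sub_zero]
    ring
  have h2 := congrArg (fun P => Polynomial.coeff P n) key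
  simp only [Polynomial.coeff_mul_C, Polynomial.coeff_C_mul] at h2
  have h3 : (∏ j ∈ range n, (Polynomial.C q * Polynomial.X - Polynomial.C (q ^ 2 * z (n + j)))).coeff n
      = q ^ n := by
    have h4 := Polynomial.coeff_prod_of_natDegree_le (range n)
      (fun j => Polynomial.C q * Polynomial.X - Polynomial.C (q ^ 2 * z (n + j))) 1 (fun j _ => by
        refine (Polynomial.natDegree_sub_le _ _).trans (max_le ?_ ?_)
        · exact (Polynomial.natDegree_C_mul_le _ _).trans Polynomial.natDegree_X_le
        · exact (Polynomial.natDegree_C _).le.trans (Nat.zero_le _))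
    rw [card_range, mul_one] at h4
    rw [h4]
    have h5 : ∀ j ∈ range n, (Polynomial.C q * Polynomial.X - Polynomial.C (q ^ 2 * z (n + j))).coeff 1
        = q := by
      intro j _
      rw [Polynomial.coeff_sub, Polynomial.coeff_C_mul, Polynomial.coeff_X_one, Polynomial.coeff_C,
        if_neg one_ne_zero, mul_one, sub_zero]
    rw [prod_congr rfl h5, prod_const, card_range]
  rw [h3] at h2
  unfold XiZ
  rw [h2, prod_mul_distrib, prod_const, card_range]
  ring

lemma base_eq (hq : q ^ 2 + q + 1 = 0) (z : ℕ → ℂ) {σ : ℕ → Bool} {k : ℕ}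
    (hσ : ∀ x < 2 * n, σ x = true ↔ x < k) (hk : k ≤ 2 * n) : XX q n z σ = YY q n z σ := by
  have hq0 := q_ne hq
  have hup : ((range (2 * n)).filter fun x => σ x = true).card = k := by
    have : (range (2 * n)).filter (fun x => σ x = true) = range k := by
      ext x
      simp only [mem_filter, mem_range]
      constructor
      · rintro ⟨h1, h2⟩
        exact (hσ x h1).mp h2
      · intro h1
        exact ⟨by omega, (hσ x (by omega)).mpr h1⟩
    rw [this, card_range]
  by_cases hkn : k = n
  · subst hkn
    have hX : XX q k z σ = XiZ q k z (insArc (2 * k) (nest k)) * (-q) ^ k := by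
      unfold XX
      rw [Finset.sum_eq_single (insArc (2 * k) (nest k))]
      · congr 1
        rw [Phi_insArc_last (nc_nest k), sg_a, sg_b, Phi_nest]
        · simp [sw]
        · intro x hx
          rw [sg_of_lt hx]
          exact hσ x hx
      · intro π hπ hne
        by_contra h0
        have h1 : Phi (-q) (2 * k + 2) π (sg k σ) ≠ 0 := right_ne_zero_of_mul h0
        refine hne (eq_insArc_nest (mem_pats.mp hπ) (τ := sg k σ) (fun x hx => ?_) (sg_a σ) (sg_b σ)
          fun x hx => ne_of_Phi_ne_zero (mem_pats.mp hπ) h1 hx)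
        rw [sg_of_lt hx]
        exact hσ x hx
      · intro h
        exact absurd (mem_pats.mpr ((nc_nest k).insArc le_rfl)) h
    have hW : WW q k z σ = eval z (Psi q k (nest k)) * (-q ^ 2) ^ k := by
      unfold WW
      rw [Finset.sum_eq_single (nest k)]
      · rw [Phi_nest hσ]
      · intro π hπ hne
        by_contra h0
        have h1 : Phi (-q ^ 2) (2 * k) π σ ≠ 0 := right_ne_zero_of_mul h0
        refine hne (eq_nest (mem_pats.mp hπ) fun x hx => ?_)
        have h2 := ne_of_Phi_ne_zero (mem_pats.mp hπ) h1 hx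
        rw [← hσ _ ((mem_pats.mp hπ).lt x hx), ← hσ x hx, h2]
        simp
      · intro h
        exact absurd (mem_pats.mpr (nc_nest k)) h
    have hD : DD k z σ = ∏ j ∈ range k, z j := by
      unfold DD
      have h1 : ∀ x ∈ range (2 * k), (if σ x = true then z x else 1) = if x < k then z x else 1 := by
        intro x hx
        by_cases hxk : x < k
        · rw [if_pos ((hσ x (mem_range.mp hx)).mpr hxk), if_pos hxk]
        · rw [if_neg (fun h => hxk ((hσ x (mem_range.mp hx)).mp h)), if_neg hxk]
      rw [prod_congr rfl h1, two_mul, prod_range_add]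
      have h2 : ∏ x ∈ range k, (if x < k then z x else 1) = ∏ j ∈ range k, z j :=
        prod_congr rfl fun x hx => if_pos (mem_range.mp hx)
      have h3 : ∏ x ∈ range k, (if k + x < k then z (k + x) else 1) = 1 :=
        prod_eq_one fun x _ => if_neg (by omega)
      rw [h2, h3, mul_one]
    have h3 : (-3 * q ^ 2) ^ k ≠ 0 := by
      refine pow_ne_zero _ ?_
      simp [hq0]
    have hXi := XiZ_nest (n := k) hq z
    refine mul_right_cancel₀ h3 ?_
    rw [hX]
    unfold YY
    rw [hW, hD]
    have e1 : XiZ q k z (insArc (2 * k) (nest k)) * (-q) ^ k * (-3 * q ^ 2) ^ k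
        = (XiZ q k z (insArc (2 * k) (nest k)) * (-3 * q ^ 2) ^ k) * (-q) ^ k := by ring
    rw [e1, hXi]
    have e2 : (-q ^ 2 / 3) ^ k * ((∏ j ∈ range k, z j) * (eval z (Psi q k (nest k)) * (-q ^ 2) ^ k))
          * (-3 * q ^ 2) ^ k
        = ((-q ^ 2 / 3) * (-q ^ 2) * (-3 * q ^ 2)) ^ k
          * ((∏ j ∈ range k, z j) * eval z (Psi q k (nest k))) := by
      rw [mul_pow ((-q ^ 2 / 3) * (-q ^ 2)) (-3 * q ^ 2) k, mul_pow (-q ^ 2 / 3) (-q ^ 2) k]
      generalize (-q ^ 2 / 3) ^ k = A
      generalize (-q ^ 2) ^ k = B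
      generalize (-3 * q ^ 2) ^ k = C
      ring
    have e3 : q ^ (2 * k) * (∏ j ∈ range k, z j) * eval z (Psi q k (nest k)) * (-q) ^ k
        = (q ^ 2 * (-q)) ^ k * ((∏ j ∈ range k, z j) * eval z (Psi q k (nest k))) := by
      rw [mul_pow (q ^ 2) (-q) k, ← pow_mul q 2 k]
      ring
    rw [e2, e3]
    have hq3 : q ^ 3 = 1 := by linear_combination (q - 1) * hq
    have e4 : q ^ 2 * -q = (-q ^ 2 / 3) * (-q ^ 2) * (-3 * q ^ 2) := by
      linear_combination (q ^ 3) * hq3
    rw [e4]
  · -- both sides vanish
    have hX : XX q n z σ = 0 := by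
      unfold XX
      refine Finset.sum_eq_zero fun π hπ => ?_
      by_contra h0
      have h1 : Phi (-q) (2 * n + 2) π (sg n σ) ≠ 0 := right_ne_zero_of_mul h0
      have h2 := card_up (mem_pats.mp hπ) fun x hx => ne_of_Phi_ne_zero (mem_pats.mp hπ) h1 hx
      have h3 : (range (2 * n + 2)).filter (fun x => sg n σ x = true)
          = insert (2 * n + 1) ((range (2 * n)).filter fun x => σ x = true) := by
        ext x
        simp only [mem_filter, mem_range, mem_insert]
        constructor
        · rintro ⟨h4, h5⟩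
          by_cases h6 : x < 2 * n
          · right
            rw [sg_of_lt h6] at h5
            exact ⟨h6, h5⟩
          · by_cases h7 : x = 2 * n
            · rw [h7, sg_a] at h5
              exact absurd h5 (by simp)
            · left; omega
        · rintro (h4 | h4)
          · rw [h4]
            exact ⟨by omega, sg_b σ⟩
          · exact ⟨by omega, by rw [sg_of_lt h4.1]; exact h4.2⟩
      rw [h3, card_insert_of_notMem (by simp), hup] at h2
      omega
    have hW : WW q n z σ = 0 := by
      unfold WW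
      refine Finset.sum_eq_zero fun π hπ => ?_
      by_contra h0
      have h1 : Phi (-q ^ 2) (2 * n) π σ ≠ 0 := right_ne_zero_of_mul h0
      have h2 := card_up (mem_pats.mp hπ) fun x hx => ne_of_Phi_ne_zero (mem_pats.mp hπ) h1 hx
      rw [hup] at h2
      omega
    rw [hX]
    unfold YY
    rw [hW]
    ring

/-! ### bubble sort -/

lemma exists_sorted {σ : ℕ → Bool} (M : ℕ) (h : ∀ i, i + 1 < M → ¬ (σ i = false ∧ σ (i + 1) = true)) :
    ∃ k, k ≤ M ∧ ∀ x < M, σ x = true ↔ x < k := by
  induction M with
  | zero => exact ⟨0, le_rfl, fun x hx => absurd hx (by omega)⟩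
  | succ M ih =>
    obtain ⟨k, hk, hk'⟩ := ih fun i hi => h i (by omega)
    rcases Bool.eq_false_or_eq_true (σ M) with hM | hM
    · -- up: then everything is up
      have hkM : k = M := by
        by_contra hne
        have h1 : ¬ (M - 1 < k) := by omega
        have h2 : ¬ σ (M - 1) = true := fun h3 => h1 ((hk' _ (by omega)).mp h3)
        refine h (M - 1) (by omega) ⟨by simpa using h2, ?_⟩
        rw [show M - 1 + 1 = M by omega]
        exact hM
      refine ⟨M + 1, le_rfl, fun x hx => ?_⟩
      constructor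
      · intro _; exact hx
      · intro _
        by_cases h3 : x < M
        · exact (hk' x h3).mpr (by omega)
        · rw [show x = M by omega]; exact hM
    · refine ⟨k, by omega, fun x hx => ?_⟩
      by_cases h3 : x < M
      · exact hk' x h3
      · rw [show x = M by omega, hM]
        constructor
        · intro h4; exact absurd h4 (by simp)
        · intro h4; omega

lemma injOn_swap {i M : ℕ} (hi : i + 1 < M) {z : ℕ → ℂ} (hz : ∀ a < M, ∀ b < M, z a = z b → a = b) :
    ∀ a < M, ∀ b < M, swapV i z a = swapV i z b → a = b := by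
  have hlt : ∀ a < M, Equiv.swap i (i + 1) a < M := by
    intro a ha
    by_cases h1 : a = i
    · rw [h1, Equiv.swap_apply_left]; exact hi
    by_cases h2 : a = i + 1
    · rw [h2, Equiv.swap_apply_right]; omega
    rw [Equiv.swap_apply_of_ne_of_ne h1 h2]
    exact ha
  intro a ha b hb hab
  exact (Equiv.swap i (i + 1)).injective (hz _ (hlt a ha) _ (hlt b hb) hab)

lemma main_distinct (hq : q ^ 2 + q + 1 = 0) (K : ℕ) : ∀ (σ : ℕ → Bool),
    (∑ x ∈ range (2 * n), if σ x = true then x else 0) = K → ∀ z : ℕ → ℂ,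
    (∀ a < 2 * n, ∀ b < 2 * n, z a = z b → a = b) → XX q n z σ = YY q n z σ := by
  induction K using Nat.strong_induction_on with
  | _ K ih =>
    intro σ hK z hz
    by_cases hs : ∃ i, i + 1 < 2 * n ∧ σ i = false ∧ σ (i + 1) = true
    · obtain ⟨i, hi, h1, h2⟩ := hs
      set τ := update (update σ i true) (i + 1) false with hτ
      have t1 : τ i = true := by rw [hτ, update_of_ne (by omega), update_self]
      have t2 : τ (i + 1) = false := by rw [hτ, update_self]
      have hστ : update (update τ i false) (i + 1) true = σ := by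
        funext x
        by_cases hx1 : x = i + 1
        · rw [hx1, update_self, h2]
        by_cases hx2 : x = i
        · rw [hx2, update_of_ne (by omega), update_self, h1]
        rw [update_of_ne hx1, update_of_ne hx2, hτ, update_of_ne hx1, update_of_ne hx2]
      have hsum : ∀ ρ : ℕ → Bool, (∑ x ∈ range (2 * n), if ρ x = true then x else 0)
          = (if ρ i = true then i else 0) + (if ρ (i + 1) = true then i + 1 else 0)
            + ∑ x ∈ (range (2 * n)).filter (fun J => J ≠ i ∧ J ≠ i + 1), if ρ x = true then x else 0 := by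
        intro ρ
        have h : range (2 * n) = insert i (insert (i + 1)
            ((range (2 * n)).filter (fun J => J ≠ i ∧ J ≠ i + 1))) := by
          ext J
          simp only [mem_insert, mem_filter, mem_range]
          constructor
          · intro hJ
            by_cases h1 : J = i
            · exact Or.inl h1
            by_cases h2 : J = i + 1
            · exact Or.inr (Or.inl h2)
            exact Or.inr (Or.inr ⟨hJ, h1, h2⟩)
          · rintro (h1 | h1 | h1)
            · omega
            · omega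
            · exact h1.1
        conv_lhs => rw [h]
        rw [sum_insert, sum_insert]
        · ring
        · simp
        · simp
      have hrest : ∑ x ∈ (range (2 * n)).filter (fun J => J ≠ i ∧ J ≠ i + 1), (if τ x = true then x else 0)
          = ∑ x ∈ (range (2 * n)).filter (fun J => J ≠ i ∧ J ≠ i + 1), (if σ x = true then x else 0) := by
        refine sum_congr rfl fun x hx => ?_
        rw [mem_filter] at hx
        rw [hτ, update_of_ne hx.2.2, update_of_ne hx.2.1]
      have hlt : (∑ x ∈ range (2 * n), if τ x = true then x else 0) < K := by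
        rw [← hK, hsum τ, hsum σ, hrest, t1, t2, h1, h2]
        simp
      have i1 := ih _ hlt τ rfl z hz
      have i2 := ih _ hlt τ rfl (swapV i z) (injOn_swap hi hz)
      have sX := XX_step hq hi z τ t1 t2
      have sY := YY_step hq hi z τ t1 t2
      rw [hστ] at sX sY
      rw [i1, i2] at sX
      have hb : z i - z (i + 1) ≠ 0 := by
        intro h0
        have := hz i (by omega) (i + 1) hi (by linear_combination h0)
        omega
      refine mul_left_cancel₀ hb ?_
      linear_combination sY - sX
    · push Not at hs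
      obtain ⟨k, hk, hk'⟩ := exists_sorted (σ := σ) (2 * n) fun i hi h => by
        have := hs i hi h.1
        rw [h.2] at this
        exact this rfl
      exact base_eq hq z hk' hk

/-! ### continuity -/

lemma cont_coeff (P : MvPolynomial ℕ ℂ) : ∀ j : ℕ,
    Continuous fun ε : ℂ => (aeval (gp n fun k => 1 + k * ε) P).coeff j := by
  induction P using MvPolynomial.induction_on with
  | C a =>
    intro j
    simp only [MvPolynomial.aeval_C]
    exact continuous_const
  | add P Q hP hQ =>
    intro j
    simp only [map_add, Polynomial.coeff_add]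
    exact (hP j).add (hQ j)
  | mul_X P k hP =>
    intro j
    simp only [map_mul, aeval_X, Polynomial.coeff_mul]
    refine continuous_finsetSum _ fun x _ => (hP _).mul ?_
    unfold gp
    split_ifs
    · exact continuous_const
    · exact continuous_const
    · simp only [Polynomial.coeff_C]
      split_ifs
      · fun_prop
      · exact continuous_const

end SpinRel

open SpinRel in
/-- The spin relation at `z = 1`. -/
theorem spin_relation {q : ℂ} (hq : q ^ 2 + q + 1 = 0) (n : ℕ) (σ : ℕ → Bool) :
    ∑ π ∈ pats (2 * n + 2), Xi q n π *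
        Phi (-q) (2 * n + 2) π (update (update σ (2 * n) false) (2 * n + 1) true) =
      (-q ^ 2 / 3) ^ n * PhiV (-q ^ 2) (2 * n) (PsiV q n fun _ => 1) σ := by
  have hX : Continuous fun ε : ℂ => XX q n (fun k => 1 + k * ε) σ := by
    unfold XX XiZ
    exact continuous_finsetSum _ fun π _ => (cont_coeff _ n).mul continuous_const
  have hY : Continuous fun ε : ℂ => YY q n (fun k => 1 + k * ε) σ := by
    unfold YY DD WW
    refine continuous_const.mul ((continuous_finsetProd _ fun J _ => ?_).mul
      (continuous_finsetSum _ fun π _ => Continuous.mul ?_ continuous_const))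
    · split_ifs
      · fun_prop
      · exact continuous_const
    · exact (MvPolynomial.continuous_eval _).comp (by fun_prop)
  have hEq : (fun ε : ℂ => XX q n (fun k => 1 + k * ε) σ) = fun ε : ℂ => YY q n (fun k => 1 + k * ε) σ := by
    refine Continuous.ext_on (dense_compl_singleton (0 : ℂ)) hX hY fun ε hε => ?_
    refine main_distinct hq _ σ rfl _ fun a _ b _ hab => ?_
    have h1 : ((a : ℂ) - b) * ε = 0 := by linear_combination hab
    rcases mul_eq_zero.mp h1 with h2 | h2
    · have : (a : ℂ) = b := by linear_combination h2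
      exact_mod_cast this
    · exact absurd h2 hε
  have h0 := congrFun hEq 0
  simp only [mul_zero, add_zero] at h0
  have hl : XX q n (fun _ => 1) σ = ∑ π ∈ pats (2 * n + 2), Xi q n π *
        Phi (-q) (2 * n + 2) π (update (update σ (2 * n) false) (2 * n + 1) true) := by
    unfold XX
    refine sum_congr rfl fun π _ => ?_
    rw [Xi_eq]
    rfl
  have hr : YY q n (fun _ => 1) σ = (-q ^ 2 / 3) ^ n * PhiV (-q ^ 2) (2 * n) (PsiV q n fun _ => 1) σ := by
    unfold YY
    congr 1
    have hD : DD n (fun _ => 1) σ = 1 := by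
      unfold DD
      exact prod_eq_one fun J _ => by split_ifs <;> rfl
    rw [hD, one_mul]
    unfold WW PhiV
    have hsum : PsiV q n (fun _ => 1) = ∑ π ∈ pats (2 * n), Finsupp.single π (eval (fun _ => 1) (Psi q n π)) := rfl
    rw [Finsupp.sum_of_support_subset (s := pats (2 * n))]
    · refine sum_congr rfl fun π hπ => ?_
      rw [PsiV_apply q n _ π (mem_pats.mp hπ)]
    · intro π hπ
      rw [mem_pats]
      by_contra hne
      exact Finsupp.mem_support_iff.mp hπ (PsiV_apply_of_not q n _ π hne)
    · intro π _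
      rw [zero_mul]
  rw [← hl, ← hr]
  exact h0

end Pool.Agent.Perc
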