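import Pool.Agent.Lib.MP_6bd702_perc.AnnSpin
import Pool.Agent.Lib.MP_6bd702_perc.SpinRel

/-!
# The vector of states (task LimitB)
-/

set_option autoImplicit false

namespace Pool.Agent.Perc

open Finset Function

namespace LimitB

variable {q : ℂ} {L : ℕ} {p : ℕ → ℕ}

lemma prod_split {a b : ℕ} (ha : a < L) (hb : b < L) (hab : a ≠ b) (g : ℕ → ℂ) :
    ∏ x ∈ range L, g x = g b * g a * ∏ x ∈ (range L).filter (fun x => x ≠ a ∧ x ≠ b), g x := by
  have h : range L = insert b (insert a ((range L).filter (fun x => x ≠ a ∧ x ≠ b))) := by
    ext x
    simp only [mem_insert, mem_filter, mem_range]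
    constructor
    · intro hx
      by_cases h1 : x = b
      · exact Or.inl h1
      by_cases h2 : x = a
      · exact Or.inr (Or.inl h2)
      exact Or.inr (Or.inr ⟨hx, h2, h1⟩)
    · rintro (h1 | h1 | h1)
      · omega
      · omega
      · exact h1.1
  conv_lhs => rw [h]
  rw [prod_insert, prod_insert]
  · ring
  · simp
  · simp only [mem_insert, mem_filter, mem_range]
    rintro (h1 | h1)
    · exact hab h1.symm
    · exact h1.2.2 rfl

/-- the vector of one pattern -/
lemma exists_vec (hq : q ^ 2 + q + 1 = 0) (h : NC (L + 2) p) :
    ∃ x : St →₀ ℂ, (∀ s ∈ x.support, IsAnn L s) ∧ (x.sum fun _ c => c) = 1 ∧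
      ∀ σ, (x.sum fun s c => c * PhiT (-q) L s σ)
        = Phi (-q) (L + 2) p (update (update σ L false) (L + 1) true) := by
  classical
  have hq0 : q ≠ 0 := by
    intro h0
    rw [h0] at hq
    norm_num at hq
  have hq1 : (1 : ℂ) - q ≠ 0 := by
    intro h0
    have h1 : q = 1 := by linear_combination -h0
    rw [h1] at hq
    norm_num at hq
  have hq3 : q ^ 3 = 1 := by linear_combination (q - 1) * hq
  by_cases hp : p L = L + 1
  · -- the last two sites are connected
    refine ⟨Finsupp.single (resP L p, fun _ => false) 1, ?_, ?_, ?_⟩
    · intro s hs
      have hs' := Finsupp.support_single_subset hs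
      rw [mem_singleton] at hs'
      rw [hs']
      refine ⟨h.resP hp, fun _ _ => rfl, 0, Nat.zero_le _, fun x _ => ?_⟩
      simp
    · rw [Finsupp.sum_single_index rfl]
    · intro σ
      rw [Finsupp.sum_single_index (zero_mul _), one_mul, Phi_resP h hp]
      have e1 : (update (update σ L false) (L + 1) true) L = false := by
        rw [update_of_ne (by omega), update_self]
      have e2 : (update (update σ L false) (L + 1) true) (L + 1) = true := by rw [update_self]
      rw [e1, e2]
      have e3 : Phi (-q) L (resP L p) (update (update σ L false) (L + 1) true)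
          = Phi (-q) L (resP L p) σ :=
        Phi_congr (h.resP hp) fun k hk => by rw [update_of_ne (by omega), update_of_ne (by omega)]
      rw [e3]
      simp [PhiT, Phi, sw]
  · set a := p L with ha
    set b := p (L + 1) with hb
    have pa : p a = L := h.inv L
    have pb : p b = L + 1 := h.inv (L + 1)
    have ha1 : a < L := by
      have h1 := h.lt L (by omega)
      have h2 := h.ne L (by omega)
      omega
    have hb0 : b < L := by
      have h1 := h.lt (L + 1) (by omega)
      have h2 := h.ne (L + 1) (by omega)
      have h3 : b ≠ L := by
        intro h4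
        rw [h4] at pb
        exact hp pb
      omega
    have hba : b < a := by
      have h1 := h.nc b L hb0 (by rw [pb]; omega)
      exact h1.1
    have hother : ∀ x < L, x ≠ a → x ≠ b → p x < L := by
      intro x hx hxa hxb
      have h1 := h.lt x (by omega)
      by_contra h2
      have h3 : p x = L ∨ p x = L + 1 := by omega
      rcases h3 with h3 | h3
      · have := h.inv x
        rw [h3] at this
        exact hxa (by rw [ha, this])
      · have := h.inv x
        rw [h3] at this
        exact hxb (by rw [hb, this])
    have he := h.eAct (i := L) (by omega)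
    have heL : eAct L p L = L + 1 := by unfold eAct; rw [if_pos rfl]
    set r := resP L (eAct L p) with hr
    have hrnc : NC L r := he.resP heL
    have rx : ∀ x < L, r x = eAct L p x := fun x hx => by rw [hr]; unfold resP; rw [if_pos hx]
    have ra : r a = b := by
      rw [rx a ha1]
      unfold eAct
      rw [if_neg (by omega), if_neg (by omega), if_pos pa]
    have rb : r b = a := by
      rw [rx b hb0]
      unfold eAct
      rw [if_neg (by omega), if_neg (by omega), if_neg (by omega), if_pos pb]
    have ro : ∀ x < L, x ≠ a → x ≠ b → r x = p x := by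
      intro x hx hxa hxb
      have h1 := hother x hx hxa hxb
      rw [rx x hx]
      unfold eAct
      rw [if_neg (by omega), if_neg (by omega), if_neg (by omega), if_neg (by omega)]
    set lab : ℕ → Bool := fun x => decide (x = a ∨ x = b) with hlab
    refine ⟨Finsupp.single (r, lab) (1 - q)⁻¹ + Finsupp.single (r, fun _ => false) (-q * (1 - q)⁻¹),
      ?_, ?_, ?_⟩
    · intro s hs
      have hs' := Finsupp.support_add hs
      rw [mem_union] at hs'
      rcases hs' with hs' | hs'
      · have hs'' := Finsupp.support_single_subset hs'
        rw [mem_singleton] at hs''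
        rw [hs'']
        refine ⟨hrnc, fun x hx => ?_, a, ha1.le, fun x hx => ?_⟩
        · simp only [hlab, decide_eq_false_iff_not]
          omega
        · simp only [hlab, decide_eq_true_eq]
          by_cases hxa : x = a
          · rw [hxa, ra]
            simp only [true_or, true_iff, lt_irrefl, false_iff]
            omega
          by_cases hxb : x = b
          · rw [hxb, rb]
            simp only [or_true, true_iff, lt_irrefl, iff_false]
            omega
          rw [ro x hx hxa hxb]
          have h1 := hother x hx hxa hxb
          have h2 : p x ≠ a := by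
            intro h2
            have := h.inv x
            rw [h2, pa] at this
            omega
          constructor
          · rintro (h3 | h3)
            · exact absurd h3 hxa
            · exact absurd h3 hxb
          · intro h3
            exfalso
            apply h3
            constructor
            · intro h4
              by_contra h5
              have h6 := h.nc x a h4 (by omega)
              rw [pa] at h6
              omega
            · intro h4
              by_contra h5
              have h6 := h.nc (p x) a h4 (by rw [h.inv x]; omega)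
              rw [pa, h.inv x] at h6
              omega
      · have hs'' := Finsupp.support_single_subset hs'
        rw [mem_singleton] at hs''
        rw [hs'']
        refine ⟨hrnc, fun _ _ => rfl, 0, Nat.zero_le _, fun x _ => ?_⟩
        simp
    · rw [Finsupp.sum_add_index' (fun _ => rfl) (fun _ _ _ => rfl), Finsupp.sum_single_index rfl,
        Finsupp.sum_single_index rfl]
      field_simp
      ring
    · intro σ
      rw [Finsupp.sum_add_index' (fun _ => zero_mul _) (fun _ _ _ => add_mul _ _ _),
        Finsupp.sum_single_index (zero_mul _), Finsupp.sum_single_index (zero_mul _)]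
      set R : ℂ := ∏ x ∈ (range L).filter (fun x => x ≠ a ∧ x ≠ b),
        (if x < p x then sw (-q) (σ x) (σ (p x)) else 1) with hR
      have p1 : PhiT (-q) L (r, lab) σ = tw (-q) (σ b) (σ a) * R := by
        unfold PhiT
        rw [prod_split ha1 hb0 (by omega)]
        simp only
        rw [ra, rb, if_pos hba, if_neg (by omega : ¬ a < b)]
        have : lab b = true := by simp [hlab]
        rw [this, if_pos rfl, mul_one]
        congr 1
        rw [hR]
        refine prod_congr rfl fun x hx => ?_
        rw [mem_filter, mem_range] at hx
        rw [ro x hx.1 hx.2.1 hx.2.2]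
        have : lab x = false := by
          simp only [hlab, decide_eq_false_iff_not]
          omega
        rw [this]
        simp
      have p2 : PhiT (-q) L (r, fun _ => false) σ = sw (-q) (σ b) (σ a) * R := by
        unfold PhiT
        rw [prod_split ha1 hb0 (by omega)]
        simp only
        rw [ra, rb, if_pos hba, if_neg (by omega : ¬ a < b)]
        simp only [Bool.false_eq_true, if_false, mul_one]
        congr 1
        rw [hR]
        refine prod_congr rfl fun x hx => ?_
        rw [mem_filter, mem_range] at hx
        rw [ro x hx.1 hx.2.1 hx.2.2]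
      have p3 : Phi (-q) (L + 2) p (update (update σ L false) (L + 1) true)
          = sw (-q) (σ b) true * sw (-q) (σ a) false * R := by
        unfold Phi
        set τ := update (update σ L false) (L + 1) true with hτ
        have t1 : τ L = false := by rw [hτ, update_of_ne (by omega), update_self]
        have t2 : τ (L + 1) = true := by rw [hτ, update_self]
        have t3 : ∀ x < L, τ x = σ x := fun x hx => by
          rw [hτ, update_of_ne (by omega), update_of_ne (by omega)]
        rw [prod_range_succ, prod_range_succ, prod_split ha1 hb0 (by omega), ← ha, ← hb,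
          if_neg (by omega : ¬ L < a), if_neg (by omega : ¬ L + 1 < b), pa, pb, if_pos (by omega),
          if_pos (by omega), t1, t2, t3 a ha1, t3 b hb0, mul_one, mul_one]
        congr 1
        rw [hR]
        refine prod_congr rfl fun x hx => ?_
        rw [mem_filter, mem_range] at hx
        rw [t3 x hx.1, t3 (p x) (hother x hx.1 hx.2.1 hx.2.2)]
      rw [p1, p2, p3]
      have hinv : (-q)⁻¹ = -q ^ 2 := by
        refine inv_eq_of_mul_eq_one_right ?_
        linear_combination hq3
      rcases Bool.eq_false_or_eq_true (σ a) with h1 | h1 <;>
        rcases Bool.eq_false_or_eq_true (σ b) with h2 | h2 <;> rw [h1, h2] <;>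
        simp only [tw, sw, if_true, if_false, Bool.false_eq_true, Bool.true_eq_false, zero_mul,
          mul_zero, add_zero, hinv, one_mul]
      · field_simp
        linear_combination 0 * hq3
      · field_simp
        linear_combination 0 * hq3

end LimitB

open LimitB in
/-- The vector of states whose spin vector is proportional to that of `Ψ(1, …, 1)`. -/
theorem exists_state_vector {q : ℂ} (hq : q ^ 2 + q + 1 = 0) (n : ℕ) :
    ∃ x : St →₀ ℂ, (∀ s ∈ x.support, IsAnn (2 * n) s) ∧
      (x.sum fun _ c => c) = ∑ π ∈ pats (2 * n + 2), Xi q n π ∧
      ∀ σ, (x.sum fun s c => c * PhiT (-q) (2 * n) s σ) =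
        (-q ^ 2 / 3) ^ n * PhiV (-q ^ 2) (2 * n) (PsiV q n fun _ => 1) σ := by
  have hex : ∀ π : ℕ → ℕ, ∃ x : St →₀ ℂ, π ∈ pats (2 * n + 2) → ((∀ s ∈ x.support, IsAnn (2 * n) s)
      ∧ (x.sum fun _ c => c) = 1 ∧
      ∀ σ, (x.sum fun s c => c * PhiT (-q) (2 * n) s σ)
        = Phi (-q) (2 * n + 2) π (update (update σ (2 * n) false) (2 * n + 1) true)) := by
    intro π
    by_cases hπ : π ∈ pats (2 * n + 2)
    · obtain ⟨x, hx⟩ := exists_vec hq (mem_pats.mp hπ)
      exact ⟨x, fun _ => hx⟩
    · exact ⟨0, fun h => absurd h hπ⟩
  choose y hy using hex
  have hlin : ∀ (f : St → ℂ), (∑ π ∈ pats (2 * n + 2), Xi q n π • y π).sum (fun s c => c * f s)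
      = ∑ π ∈ pats (2 * n + 2), Xi q n π * (y π).sum (fun s c => c * f s) := by
    intro f
    have h1 : ∀ x : St →₀ ℂ, x.sum (fun s c => c * f s) = Finsupp.linearCombination ℂ f x := by
      intro x
      rw [Finsupp.linearCombination_apply]
      rfl
    simp only [h1, map_sum, map_smul, smul_eq_mul]
  refine ⟨∑ π ∈ pats (2 * n + 2), Xi q n π • y π, ?_, ?_, ?_⟩
  · have hmem : (∑ π ∈ pats (2 * n + 2), Xi q n π • y π)
        ∈ Finsupp.supported ℂ ℂ {s : St | IsAnn (2 * n) s} := by
      refine Submodule.sum_mem _ fun π hπ => Submodule.smul_mem _ _ ?_
      rw [Finsupp.mem_supported]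
      intro s hs
      exact (hy π hπ).1 s hs
    rw [Finsupp.mem_supported] at hmem
    intro s hs
    exact hmem hs
  · have h1 := hlin fun _ => 1
    simp only [mul_one] at h1
    rw [h1]
    refine sum_congr rfl fun π hπ => ?_
    rw [(hy π hπ).2.1, mul_one]
  · intro σ
    rw [hlin, ← spin_relation hq n σ]
    refine sum_congr rfl fun π hπ => ?_
    rw [(hy π hπ).2.2 σ]

end Pool.Agent.Perc
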