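import Pool.Agent.Lib.MP_6bd702_perc.LimitA
import Pool.Agent.Lib.MP_6bd702_perc.LimitB
import Pool.Agent.Lib.MP_6bd702_perc.AnnSpin
import Pool.Agent.Lib.MP_6bd702_perc.Sum

/-!
# The exact formula (task LimitC)
-/

set_option autoImplicit false

namespace Pool.Agent.Perc

open Finset Function Filter Topology

namespace LimitC

lemma exists_q : ∃ q : ℂ, q ^ 2 + q + 1 = 0 := by
  obtain ⟨s, hs⟩ := IsAlgClosed.exists_pow_nat_eq (-3 : ℂ) (n := 2) (by norm_num)
  refine ⟨(-1 + s) / 2, ?_⟩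
  linear_combination (1 / 4 : ℂ) * hs

lemma capS_add (κ : ℂ) (i : ℕ) (X Y : (ℕ → Bool) → ℂ) :
    capS κ i (X + Y) = capS κ i X + capS κ i Y := by
  funext σ
  simp only [capS, Pi.add_apply]
  ring

lemma capS_smul (κ : ℂ) (i : ℕ) (c : ℂ) (X : (ℕ → Bool) → ℂ) :
    capS κ i (c • X) = c • capS κ i X := by
  funext σ
  simp only [capS, Pi.smul_apply, smul_eq_mul]
  ring

lemma rS_add (κ : ℂ) (i : ℕ) (X Y : (ℕ → Bool) → ℂ) :
    rS κ i (X + Y) = rS κ i X + rS κ i Y := by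
  funext σ
  simp only [rS, eS, capS_add, Pi.add_apply]
  ring

lemma rS_smul (κ : ℂ) (i : ℕ) (c : ℂ) (X : (ℕ → Bool) → ℂ) :
    rS κ i (c • X) = c • rS κ i X := by
  funext σ
  simp only [rS, eS, capS_smul, Pi.smul_apply, smul_eq_mul]
  ring

lemma rowS_add (κ : ℂ) (k : ℕ) (X Y : (ℕ → Bool) → ℂ) :
    rowS κ k (X + Y) = rowS κ k X + rowS κ k Y := by
  induction k with
  | zero => rfl
  | succ k ih => rw [rowS, rowS, rowS, ih, rS_add]

lemma rowS_smul (κ : ℂ) (k : ℕ) (c : ℂ) (X : (ℕ → Bool) → ℂ) :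
    rowS κ k (c • X) = c • rowS κ k X := by
  induction k with
  | zero => rfl
  | succ k ih => rw [rowS, rowS, ih, rS_smul]

/-- the transfer operator as a linear map -/
noncomputable def TRl (q : ℂ) (L : ℕ) : ((ℕ → Bool) → ℂ) →ₗ[ℂ] ((ℕ → Bool) → ℂ) where
  toFun := TR q L
  map_add' X Y := by
    have h : (fun τ : ℕ → Bool => tw (-q) (τ 0) (τ (L + 1)) * (X + Y) fun k => τ (k + 1)) =
        (fun τ : ℕ → Bool => tw (-q) (τ 0) (τ (L + 1)) * X fun k => τ (k + 1)) +
        (fun τ : ℕ → Bool => tw (-q) (τ 0) (τ (L + 1)) * Y fun k => τ (k + 1)) := by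
      funext τ
      simp only [Pi.add_apply]
      ring
    funext σ
    simp only [TR, Pi.add_apply]
    have h' := congrFun (congrArg (fun Z => capS (-q) L (rowS (-q) L Z)) h) σ
    simp only [rowS_add, capS_add, Pi.add_apply] at h'
    exact h'
  map_smul' c X := by
    have h : (fun τ : ℕ → Bool => tw (-q) (τ 0) (τ (L + 1)) * (c • X) fun k => τ (k + 1)) =
        c • (fun τ : ℕ → Bool => tw (-q) (τ 0) (τ (L + 1)) * X fun k => τ (k + 1)) := by
      funext τ
      simp only [Pi.smul_apply, smul_eq_mul]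
      ring
    funext σ
    simp only [TR, Pi.smul_apply, smul_eq_mul, RingHom.id_apply]
    have h' := congrFun (congrArg (fun Z => capS (-q) L (rowS (-q) L Z)) h) σ
    simp only [rowS_smul, capS_smul, Pi.smul_apply, smul_eq_mul] at h'
    exact h'

lemma TRl_apply (q : ℂ) (L : ℕ) (X : (ℕ → Bool) → ℂ) : TRl q L X = TR q L X := rfl

/-- the sum over the spins as a linear map -/
noncomputable def sl (N : ℕ) : ((ℕ → Bool) → ℂ) →ₗ[ℂ] ℂ where
  toFun := sumS N
  map_add' X Y := by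
    simp only [sumS, Pi.add_apply, Finset.sum_add_distrib]
  map_smul' c X := by
    simp only [sumS, Pi.smul_apply, smul_eq_mul, RingHom.id_apply, Finset.mul_sum]

lemma sl_apply (N : ℕ) (X : (ℕ → Bool) → ℂ) : sl N X = sumS N X := rfl

lemma kappa (q : ℂ) (hq : q ^ 2 + q + 1 = 0) : (-q) ^ 2 = -q - 1 := by
  linear_combination hq

lemma key {q : ℂ} (hq : q ^ 2 + q + 1 = 0) (n : ℕ) (M : ℕ) : ∀ s : St, IsAnn (2 * n) s →
    (1 - q) ^ n * ((avgL (2 * n))^[M] v0) s =
      sl (2 * n) ((TRl q (2 * n) ^ M) (PhiT (-q) (2 * n) s)) := by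
  induction M with
  | zero =>
    intro s hs
    rw [pow_zero, Module.End.one_apply, sl_apply, sumS_PhiT (kappa q hq) hs]
    have h1 : 2 * n / 2 = n := by omega
    rw [h1, iterate_zero, id_eq]
    ring
  | succ M ih =>
    intro s hs
    rw [iterate_succ_apply', avgL, pow_succ, Module.End.mul_apply, TRl_apply]
    have h1 : TR q (2 * n) (PhiT (-q) (2 * n) s) = ((2 : ℂ) ^ (2 * n))⁻¹ •
        ∑ T ∈ (range (2 * n)).powerset,
          PhiT (-q) (2 * n) (trow (2 * n) (fun k => decide (k ∈ T)) s) := by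
      funext σ
      rw [← avg_PhiT hq hs σ, Pi.smul_apply, Finset.sum_apply, smul_eq_mul, div_eq_inv_mul]
    rw [h1, map_smul, map_smul, map_sum, map_sum, smul_eq_mul, mul_div_assoc', Finset.mul_sum,
      div_eq_inv_mul]
    congr 1
    refine Finset.sum_congr rfl fun T _ => ?_
    exact ih _ (hs.trow _)

lemma PhiV_PsiV (κ q : ℂ) (N m : ℕ) (z : ℕ → ℂ) (σ : ℕ → Bool) :
    PhiV κ N (PsiV q m z) σ =
      ∑ π ∈ pats (2 * m), MvPolynomial.eval z (Psi q m π) * Phi κ N π σ := by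
  rw [PhiV, PsiV, ← Finsupp.sum_finsetSum_index]
  · refine Finset.sum_congr rfl fun π _ => ?_
    rw [Finsupp.sum_single_index]
    rw [zero_mul]
  · intro p; rw [zero_mul]
  · intro p b c; rw [add_mul]

/-- the spin vector of `Ψ(1, …, 1)`, normalised -/
noncomputable def Y (q : ℂ) (n : ℕ) : (ℕ → Bool) → ℂ :=
  ((-q ^ 2 / 3) ^ n) • PhiV (-q ^ 2) (2 * n) (PsiV q n fun _ => 1)

lemma TRl_Y {q : ℂ} (hq : q ^ 2 + q + 1 = 0) (n : ℕ) : TRl q (2 * n) (Y q n) = Y q n := by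
  rw [Y, map_smul]
  congr 1
  funext σ
  rw [TRl_apply, TR_eq_TL hq, TL_PhiV hq]

lemma TRl_pow_Y {q : ℂ} (hq : q ^ 2 + q + 1 = 0) (n M : ℕ) :
    (TRl q (2 * n) ^ M) (Y q n) = Y q n := by
  induction M with
  | zero => rw [pow_zero, Module.End.one_apply]
  | succ M ih => rw [pow_succ, Module.End.mul_apply, TRl_Y hq, ih]

lemma sl_Y {q : ℂ} (n : ℕ) :
    sl (2 * n) (Y q n) = (-q ^ 2 / 3) ^ n * ((1 - q ^ 2) ^ n * sumPsi q n) := by
  rw [Y, map_smul, smul_eq_mul]
  congr 1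
  have h1 : PhiV (-q ^ 2) (2 * n) (PsiV q n fun _ => 1) = ∑ π ∈ pats (2 * n),
      MvPolynomial.eval (fun _ => 1) (Psi q n π) • Phi (-q ^ 2) (2 * n) π := by
    funext σ
    rw [PhiV_PsiV, Finset.sum_apply]
    rfl
  rw [h1, map_sum, sumPsi, Finset.mul_sum]
  refine Finset.sum_congr rfl fun π hπ => ?_
  rw [map_smul, sl_apply, sumS_Phi (mem_pats.mp hπ), smul_eq_mul]
  have h2 : 2 * n / 2 = n := by omega
  rw [h2]
  ring

end LimitC

open LimitC in
/-- The exact formula: the probability that the gap `0` of the half-infinite cylinder of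
circumference `2 n` is not separated from infinity. -/
theorem tendsto_avg {n : ℕ} (hn : 0 < n) :
    Tendsto (fun M => ((avgL (2 * n))^[M] v0) (s0 (2 * n))) atTop
      (𝓝 (∏ k ∈ range n, ((3 * k + 1 : ℂ) / (3 * k + 2)))) := by
  obtain ⟨q, hq⟩ := exists_q
  obtain ⟨x, hx1, hx2, hx3⟩ := exists_state_vector hq n
  have hq3 : q ^ 3 = 1 := by
    have h : q ^ 3 - 1 = (q - 1) * (q ^ 2 + q + 1) := by ring
    rw [hq, mul_zero] at h
    exact sub_eq_zero.mp h
  have hq0 : q ≠ 0 := by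
    rintro rfl
    norm_num at hq
  have hq1 : (1 - q) ≠ 0 := by
    intro h
    have h1 : q = 1 := (sub_eq_zero.mp h).symm
    rw [h1] at hq
    norm_num at hq
  -- the sum of the values against the vector of states
  have hsum : ∀ M, (x.sum fun s c => c * ((avgL (2 * n))^[M] v0) s) = (q / 3) ^ n * sumPsi q n := by
    intro M
    have h1 : (1 - q) ^ n * (x.sum fun s c => c * ((avgL (2 * n))^[M] v0) s) =
        sl (2 * n) ((TRl q (2 * n) ^ M) (Y q n)) := by
      have h2 : Y q n = x.sum fun s c => c • PhiT (-q) (2 * n) s := by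
        funext σ
        have h3 := hx3 σ
        rw [Y, Pi.smul_apply, smul_eq_mul, ← h3, Finsupp.sum, Finsupp.sum, Finset.sum_apply]
        rfl
      rw [h2, Finsupp.sum, Finsupp.sum, map_sum, map_sum, Finset.mul_sum]
      refine Finset.sum_congr rfl fun s hs => ?_
      rw [map_smul, map_smul, smul_eq_mul, ← key hq n M s (hx1 s hs)]
      ring
    rw [TRl_pow_Y hq, sl_Y] at h1
    refine mul_left_cancel₀ (pow_ne_zero n hq1) ?_
    rw [h1, ← mul_assoc, ← mul_assoc, ← mul_pow, ← mul_pow]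
    congr 2
    linear_combination (q / 3) * hq3
  set S : ℂ := x.sum fun _ c => c with hS
  have hS1 : S * (3 * q ^ 2) ^ n =
      (∏ k ∈ range n, ((3 * k + 2 : ℂ) / (3 * k + 1))) * sumPsi q n := by
    rw [hx2]; exact sum_Xi hq n
  have hne1 : ∀ k : ℕ, (3 * k + 1 : ℂ) ≠ 0 := fun k => by
    have : ((3 * k + 1 : ℕ) : ℂ) ≠ 0 := Nat.cast_ne_zero.mpr (by omega)
    push_cast at this
    exact this
  have hne2 : ∀ k : ℕ, (3 * k + 2 : ℂ) ≠ 0 := fun k => by
    have : ((3 * k + 2 : ℕ) : ℂ) ≠ 0 := Nat.cast_ne_zero.mpr (by omega)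
    push_cast at this
    exact this
  have hprod : (∏ k ∈ range n, ((3 * k + 2 : ℂ) / (3 * k + 1))) ≠ 0 :=
    Finset.prod_ne_zero_iff.mpr fun k _ => div_ne_zero (hne2 k) (hne1 k)
  have hS0 : S ≠ 0 := by
    intro h
    rw [h, zero_mul] at hS1
    exact mul_ne_zero hprod (SS_ne_zero hq n) hS1.symm
  -- the difference tends to zero
  have hann0 : IsAnn (2 * n) (s0 (2 * n)) := isAnn_s0 (by omega)
  have hlt : (1 - 1 / 2 ^ (2 * n) : ℝ) < 1 := by
    have : (0 : ℝ) < 1 / 2 ^ (2 * n) := by positivity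
    linarith
  have hnn : (0 : ℝ) ≤ 1 - 1 / 2 ^ (2 * n) := by
    have : (1 : ℝ) / 2 ^ (2 * n) ≤ 1 := by
      rw [div_le_one (by positivity)]
      exact one_le_pow₀ (by norm_num)
    linarith
  have hD : Tendsto (fun M => (q / 3) ^ n * sumPsi q n - S * ((avgL (2 * n))^[M] v0) (s0 (2 * n)))
      atTop (𝓝 0) := by
    have hb : ∀ M, ‖(q / 3) ^ n * sumPsi q n - S * ((avgL (2 * n))^[M] v0) (s0 (2 * n))‖ ≤
        (∑ s ∈ x.support, ‖x s‖) * (1 - 1 / 2 ^ (2 * n)) ^ M := by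
      intro M
      rw [← hsum M, hS, Finsupp.sum, Finsupp.sum, Finset.sum_mul, ← Finset.sum_sub_distrib,
        Finset.sum_mul]
      refine (norm_sum_le _ _).trans (Finset.sum_le_sum fun s hs => ?_)
      rw [← mul_sub, norm_mul]
      exact mul_le_mul_of_nonneg_left (avgL_iterate_sub_le (hx1 s hs) hann0 M) (norm_nonneg _)
    refine squeeze_zero_norm hb ?_
    have h1 := (tendsto_pow_atTop_nhds_zero_of_lt_one hnn hlt).const_mul
      (∑ s ∈ x.support, ‖x s‖)
    rwa [mul_zero] at h1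
  have hlim : Tendsto (fun M => ((avgL (2 * n))^[M] v0) (s0 (2 * n))) atTop
      (𝓝 (S⁻¹ * ((q / 3) ^ n * sumPsi q n - 0))) := by
    have h1 := (tendsto_const_nhds (x := (q / 3) ^ n * sumPsi q n)).sub hD
    have h2 := h1.const_mul S⁻¹
    refine h2.congr fun M => ?_
    field_simp
    ring
  have hval : S⁻¹ * ((q / 3) ^ n * sumPsi q n - 0) = ∏ k ∈ range n, ((3 * k + 1 : ℂ) / (3 * k + 2)) := by
    rw [sub_zero]
    have h1 : (∏ k ∈ range n, ((3 * k + 1 : ℂ) / (3 * k + 2))) *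
        (∏ k ∈ range n, ((3 * k + 2 : ℂ) / (3 * k + 1))) = 1 := by
      rw [← Finset.prod_mul_distrib]
      refine Finset.prod_eq_one fun k _ => ?_
      have h3 := hne1 k
      have h4 := hne2 k
      field_simp
    have h2 : (q / 3) ^ n * (3 * q ^ 2) ^ n = 1 := by
      rw [← mul_pow]
      have h3 : q / 3 * (3 * q ^ 2) = 1 := by linear_combination hq3
      rw [h3, one_pow]
    refine mul_left_cancel₀ hS0 ?_
    rw [mul_inv_cancel_left₀ hS0]
    refine mul_right_cancel₀ hprod ?_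
    have h5 : (3 * q ^ 2 : ℂ) ^ n ≠ 0 := by
      intro h; rw [h, mul_zero] at h2; exact zero_ne_one h2
    refine mul_right_cancel₀ h5 ?_
    linear_combination (sumPsi q n * ∏ k ∈ range n, ((3 * k + 2 : ℂ) / (3 * k + 1))) * h2 -
      (S * (3 * q ^ 2) ^ n) * h1 - hS1
  rw [← hval]
  exact hlim

end Pool.Agent.Perc
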