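import Pool.Agent.Lib.MP_6bd702_perc.CylArmDefs
import Pool.Agent.Lib.MP_6bd702_perc.CylArmA
import Pool.Agent.Lib.MP_6bd702_perc.LimitC

/-!
# From the cylinder to the half-plane (task CylArmB)
-/

set_option autoImplicit false

namespace Pool.Agent.Perc

open Finset Filter Topology

namespace CylArmB

theorem rowL_congr {w w' : ℕ → Bool} (s : St) {k : ℕ} (h : ∀ i < k, w i = w' i) :
    rowL w k s = rowL w' k s := by
  induction k with
  | zero => rfl
  | succ k ih =>
    simp only [rowL]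
    rw [ih (fun i hi => h i (by omega)), h k (by omega)]

theorem trow_congr {L : ℕ} {w w' : ℕ → Bool} (s : St) (h : ∀ i < L, w i = w' i) :
    trow L w s = trow L w' s := by
  unfold trow
  rw [rowL_congr _ h]

theorem run_congr {L : ℕ} {ω ω' : Cfg} {M : ℕ}
    (h : ∀ i < L, ∀ m < M, ω ((i : ℤ), (m : ℤ)) = ω' ((i : ℤ), (m : ℤ))) (s : St) :
    run L ω M s = run L ω' M s := by
  induction M generalizing s with
  | zero => rfl
  | succ M ih =>
    simp only [run]
    rw [ih (fun i hi m hm => h i hi m (by omega)),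
      trow_congr s (fun i hi => h i hi M (by omega))]

/-- A row of faces. -/
def row (M : ℕ) (T : Finset ℕ) : Finset (ℤ × ℤ) := T.image (fun k : ℕ => ((k : ℤ), (M : ℤ)))

theorem mem_row {M : ℕ} {T : Finset ℕ} {f : ℤ × ℤ} :
    f ∈ row M T ↔ ∃ k ∈ T, ((k : ℤ), (M : ℤ)) = f := by
  unfold row
  rw [mem_image]

theorem nat_mem_row {M : ℕ} {T : Finset ℕ} {k : ℕ} : ((k : ℤ), (M : ℤ)) ∈ row M T ↔ k ∈ T := by
  rw [mem_row]
  constructor
  · rintro ⟨k', hk', h⟩
    have h1 := congrArg Prod.fst h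
    simp only [Nat.cast_inj] at h1
    rwa [← h1]
  · intro h; exact ⟨k, h, rfl⟩

theorem mem_RF {x₀ x₁ y₀ y₁ : ℤ} {f : ℤ × ℤ} :
    f ∈ RF x₀ x₁ y₀ y₁ ↔ (x₀ ≤ f.1 ∧ f.1 < x₁) ∧ y₀ ≤ f.2 ∧ f.2 < y₁ := by
  unfold RF
  rw [mem_product, mem_Ico, mem_Ico]

theorem RF_succ (L M : ℕ) :
    RF 0 L 0 ((M + 1 : ℕ) : ℤ) = RF 0 L 0 M ∪ row M (range L) := by
  ext f
  rw [mem_union, mem_RF, mem_RF, mem_row]
  constructor
  · rintro ⟨⟨h1, h2⟩, h3, h4⟩
    by_cases h5 : f.2 < M
    · exact Or.inl ⟨⟨h1, h2⟩, h3, h5⟩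
    · right
      refine ⟨f.1.toNat, by rw [mem_range]; omega, ?_⟩
      ext
      · simp only; omega
      · simp only; push_cast at h4; omega
  · rintro (⟨⟨h1, h2⟩, h3, h4⟩ | ⟨k, hk, rfl⟩)
    · exact ⟨⟨h1, h2⟩, h3, by push_cast; omega⟩
    · rw [mem_range] at hk
      exact ⟨⟨by simp, by simp only; omega⟩, by simp, by simp only; push_cast; omega⟩

theorem card_RF (L M : ℕ) : (RF 0 L 0 M).card = L * M := by
  unfold RF
  rw [card_product, Int.card_Ico, Int.card_Ico]
  simp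

theorem ex_row (L M : ℕ) (g : Cfg → ℂ) :
    ex (RF 0 L 0 ((M + 1 : ℕ) : ℤ)) g = (∑ T ∈ (range L).powerset,
      ex (RF 0 L 0 M) (fun ω => g (fun f => ω f || decide (f ∈ row M T)))) / 2 ^ L := by
  unfold ex
  rw [card_RF, card_RF, ← sum_div, div_div]
  have h2 : (2 : ℂ) ^ (L * (M + 1)) = 2 ^ (L * M) * 2 ^ L := by rw [mul_add, mul_one, pow_add]
  rw [h2]
  congr 1
  rw [← sum_product']
  refine sum_nbij' (fun T => ((range L).filter (fun k : ℕ => ((k : ℤ), (M : ℤ)) ∈ T),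
    T ∩ RF 0 L 0 M)) (fun X => X.2 ∪ row M X.1) ?_ ?_ ?_ ?_ ?_
  · intro T _
    rw [mem_product, mem_powerset, mem_powerset]
    exact ⟨filter_subset _ _, inter_subset_right⟩
  · rintro ⟨T1, T2⟩ hT
    rw [mem_product, mem_powerset, mem_powerset] at hT
    rw [mem_powerset, RF_succ]
    refine union_subset_union hT.2 ?_
    exact image_subset_image hT.1
  · intro T hT
    rw [mem_powerset, RF_succ] at hT
    ext f
    simp only [mem_union, mem_inter, mem_row, mem_filter, mem_range]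
    constructor
    · rintro (⟨h1, _⟩ | ⟨k, ⟨_, hk⟩, rfl⟩)
      · exact h1
      · exact hk
    · intro hf
      rcases mem_union.1 (hT hf) with h1 | h1
      · exact Or.inl ⟨hf, h1⟩
      · obtain ⟨k, hk, rfl⟩ := mem_row.1 h1
        exact Or.inr ⟨k, ⟨mem_range.1 hk, hf⟩, rfl⟩
  · rintro ⟨T1, T2⟩ hT
    rw [mem_product, mem_powerset, mem_powerset] at hT
    have hd : ∀ f ∈ RF 0 L 0 M, f ∉ row M T1 := by
      intro f hf hf'
      obtain ⟨k, _, rfl⟩ := mem_row.1 hf'
      have := (mem_RF.1 hf).2.2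
      simp at this
    refine Prod.ext ?_ ?_
    · ext k
      simp only [mem_filter, mem_range, mem_union, nat_mem_row]
      constructor
      · rintro ⟨_, h1 | h1⟩
        · exact absurd (mem_RF.1 (hT.2 h1)).2.2 (by simp)
        · exact h1
      · intro h1
        exact ⟨mem_range.1 (hT.1 h1), Or.inr h1⟩
    · ext f
      simp only [mem_inter, mem_union]
      constructor
      · rintro ⟨h1 | h1, h2⟩
        · exact h1
        · exact absurd h1 (hd f h2)
      · intro h1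
        exact ⟨Or.inl h1, hT.2 h1⟩
  · intro T hT
    rw [mem_powerset, RF_succ] at hT
    congr 1
    funext f
    unfold cfg
    rw [← Bool.decide_or]
    apply decide_eq_decide.2
    simp only [mem_inter, mem_row, mem_filter, mem_range]
    constructor
    · intro hf
      rcases mem_union.1 (hT hf) with h1 | h1
      · exact Or.inl ⟨hf, h1⟩
      · obtain ⟨k, hk, rfl⟩ := mem_row.1 h1
        exact Or.inr ⟨k, ⟨mem_range.1 hk, hf⟩, rfl⟩
    · rintro (⟨h1, _⟩ | ⟨k, ⟨_, hk⟩, rfl⟩)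
      · exact h1
      · exact hk

theorem ex_congr {S : Finset (ℤ × ℤ)} {g g' : Cfg → ℂ} (h : ∀ T ⊆ S, g (cfg T) = g' (cfg T)) :
    ex S g = ex S g' := by
  unfold ex
  congr 1
  exact sum_congr rfl (fun T hT => h T (mem_powerset.1 hT))

end CylArmB

open CylArmB

theorem ex_run {L : ℕ} (M : ℕ) (f : St → ℂ) (s : St) :
    ex (RF 0 L 0 M) (fun ω => f (run L ω M s)) = ((avgL L)^[M] f) s := by
  induction M generalizing s with
  | zero =>
    unfold ex
    have e : RF 0 L 0 ((0 : ℕ) : ℤ) = ∅ := by simp [RF]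
    rw [e]
    simp [run]
  | succ M ih =>
    rw [Function.iterate_succ_apply', ex_row]
    unfold avgL
    congr 1
    refine sum_congr rfl (fun T _ => ?_)
    change _ = ((avgL L)^[M] f) _
    rw [← ih]
    apply ex_congr
    intro T2 hT2
    simp only [run]
    congr 1
    have hT2' : ∀ i : ℕ, ((i : ℤ), (M : ℤ)) ∉ T2 := fun i hi => by
      have := (mem_RF.1 (hT2 hi)).2.2
      simp at this
    rw [trow_congr s (w := fun i => cfg T2 ((i : ℤ), (M : ℤ)) || decide (((i : ℤ), (M : ℤ)) ∈ row M T))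
      (w' := fun k => decide (k ∈ T))]
    · apply run_congr
      intro i _ m hm
      have : ((i : ℤ), (m : ℤ)) ∉ row M T := by
        intro h
        obtain ⟨k, _, hk⟩ := mem_row.1 h
        have := congrArg Prod.snd hk
        simp only [Nat.cast_inj] at this
        omega
      simp [this]
    · intro i _
      simp [cfg, hT2', nat_mem_row]

theorem avg_le_pArm {r M : ℕ} (hr : 0 < r) (hM : r ≤ M) :
    (((avgL (2 * r))^[M] v0) (s0 (2 * r))).re ≤ pArm r := by
  rw [← ex_run]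
  rw [ex_indicator {ω : Cfg | (run (2 * r) ω M (s0 (2 * r))).2 = fun _ => false}
    (fun ω => v0 (run (2 * r) ω M (s0 (2 * r))))
    (fun ω hω => if_pos hω) (fun ω hω => if_neg hω)]
  rw [Complex.ofReal_re]
  have h1 : pr (RF 0 ((2 * r : ℕ) : ℤ) 0 M) {ω : Cfg | (run (2 * r) ω M (s0 (2 * r))).2 = fun _ => false}
      ≤ pr (RF 0 ((2 * r : ℕ) : ℤ) 0 M)
        {ω : Cfg | (fun x : ℤ × ℤ => ω (x.1 % ((2 * r : ℕ) : ℤ), x.2)) ∈ hpArm r} := by
    apply pr_mono
    intro ω hω
    have h2 := relT_of_v0 (L := 2 * r) (M := M) (by omega) (by omega) ω hω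
    change perC (2 * r) ω ∈ hpArm r
    have key : ∀ v : ℤ × ℤ, Conn (perC (2 * r) ω) {f | (0 : ℤ) ≤ f.2 ∧ f.2 < M} (0, 0) v →
        ¬ (-(r : ℤ) < v.1 ∧ v.1 < r ∧ v.2 < r) → perC (2 * r) ω ∈ hpArm r := by
      intro v hv hv'
      obtain ⟨w, h3, h4⟩ := hv.toSides (x₀ := -(r : ℤ)) (x₁ := r) (y₀ := 0) (y₁ := r)
        (fun f hf => hf.1) ⟨by simp, by simp, by simp, by simp⟩ hv'
      exact ⟨w, h3.mono Set.inter_subset_right, h4⟩
    rcases h2 with h2 | ⟨⟨x, hx, hx'⟩, _⟩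
    · refine key _ h2 (fun h => ?_)
      have := h.2.1
      simp only at this
      push_cast at this
      omega
    · refine key _ hx (fun h => ?_)
      have := h.2.2
      omega
  refine h1.trans (le_of_eq ?_)
  refine pr_comp (S := RF (-(r : ℤ)) r 0 r) (S' := RF 0 ((2 * r : ℕ) : ℤ) 0 M)
    (f := fun x : ℤ × ℤ => (x.1 % ((2 * r : ℕ) : ℤ), x.2)) ?_ ?_ (depOn_hpArm r)
  · intro x hx x' hx' h
    rw [mem_coe, mem_RF] at hx hx'
    simp only [Prod.mk.injEq] at h
    obtain ⟨h3, h4⟩ := h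
    ext
    · have h5 := Int.emod_emod_of_dvd x.1 (dvd_refl ((2 * r : ℕ) : ℤ))
      have h6 : ((2 * r : ℕ) : ℤ) ∣ x.1 - x'.1 := by
        exact Int.dvd_of_emod_eq_zero (by rw [Int.sub_emod, h3]; simp)
      obtain ⟨c, hc⟩ := h6
      push_cast at hc
      have hc0 : c = 0 := by
        by_contra hne
        rcases lt_or_gt_of_ne hne with h7 | h7
        · nlinarith
        · nlinarith
      rw [hc0] at hc
      omega
    · exact h4
  · intro x hx
    rw [mem_RF] at hx ⊢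
    refine ⟨⟨Int.emod_nonneg _ (by omega), Int.emod_lt_of_pos _ (by omega)⟩, hx.2.1, ?_⟩
    have := hx.2.2
    simp only
    omega

/-- The exact lower bound for the half-plane arm. -/
theorem pArm_ge {r : ℕ} (hr : 0 < r) :
    ∏ k ∈ range r, ((3 * k + 1 : ℝ) / (3 * k + 2)) ≤ pArm r := by
  have h1 := tendsto_avg hr
  have h2 := (Complex.continuous_re.tendsto _).comp h1
  have h3 : (∏ k ∈ range r, ((3 * k + 1 : ℂ) / (3 * k + 2))).re
      = ∏ k ∈ range r, ((3 * k + 1 : ℝ) / (3 * k + 2)) := by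
    rw [← Complex.ofReal_re (∏ k ∈ range r, ((3 * k + 1 : ℝ) / (3 * k + 2)))]
    congr 1
    push_cast
    rfl
  rw [h3] at h2
  refine le_of_tendsto h2 ?_
  filter_upwards [eventually_ge_atTop r] with M hM
  exact avg_le_pArm hr hM

end Pool.Agent.Perc
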