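import Pool.Agent.Lib.MP_6bd702_perc.CylArmDefs

/-!
# A product (task CylArmC)
-/

set_option autoImplicit false

namespace Pool.Agent.Perc

open Finset Filter Topology

theorem CylArmC.cube_ge {r : ℕ} (hr : 0 < r) :
    1 / (4 * (3 * (r : ℝ) - 1)) ≤ (∏ k ∈ range r, ((3 * k + 1 : ℝ) / (3 * k + 2))) ^ 3 := by
  induction r, hr using Nat.le_induction with
  | base => norm_num
  | succ r hr ih =>
    have hr1 : (1 : ℝ) ≤ r := by exact_mod_cast hr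
    rw [prod_range_succ, mul_pow]
    have h1 : (3 * (r : ℝ) - 1) / (3 * r + 2) ≤ ((3 * (r : ℝ) + 1) / (3 * r + 2)) ^ 3 := by
      rw [div_pow, div_le_div_iff₀ (by positivity) (by positivity)]
      have h2 : (3 * (r : ℝ) - 1) * (3 * r + 2) ^ 2 ≤ (3 * (r : ℝ) + 1) ^ 3 := by nlinarith
      have h3 : (0 : ℝ) ≤ 3 * r + 2 := by positivity
      nlinarith [mul_le_mul_of_nonneg_right h2 h3]
    have h4 : 0 < 3 * (r : ℝ) - 1 := by linarith
    have h5 : 1 / (4 * (3 * ((r + 1 : ℕ) : ℝ) - 1)) =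
        1 / (4 * (3 * (r : ℝ) - 1)) * ((3 * (r : ℝ) - 1) / (3 * r + 2)) := by
      push_cast
      have h6 : (3 * ((r : ℝ) + 1) - 1) = 3 * r + 2 := by ring
      rw [h6]
      field_simp
    rw [h5]
    exact mul_le_mul ih h1 (by positivity) (by positivity)

theorem prod_ge {r : ℕ} (hr : 0 < r) :
    (1 / (4 * (3 * (r : ℝ) - 1))) ^ (1 / 3 : ℝ) ≤ ∏ k ∈ range r, ((3 * k + 1 : ℝ) / (3 * k + 2)) := by
  have h0 : 0 ≤ ∏ k ∈ range r, ((3 * k + 1 : ℝ) / (3 * k + 2)) :=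
    prod_nonneg fun k _ => by positivity
  have hr1 : (1 : ℝ) ≤ r := by exact_mod_cast hr
  have h1 := CylArmC.cube_ge hr
  have h2 : 0 ≤ 1 / (4 * (3 * (r : ℝ) - 1)) := by
    have : 0 < 3 * (r : ℝ) - 1 := by linarith
    positivity
  calc (1 / (4 * (3 * (r : ℝ) - 1))) ^ (1 / 3 : ℝ)
      ≤ ((∏ k ∈ range r, ((3 * k + 1 : ℝ) / (3 * k + 2))) ^ 3) ^ (1 / 3 : ℝ) :=
        Real.rpow_le_rpow h2 h1 (by norm_num)
    _ = ∏ k ∈ range r, ((3 * k + 1 : ℝ) / (3 * k + 2)) := by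
        rw [← Real.rpow_natCast, ← Real.rpow_mul h0]
        norm_num

end Pool.Agent.Perc
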