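import Pool.Agent.Lib.MP_6bd702_perc.PlanarA

/-!
# Squares (task PlanarB)
-/

set_option autoImplicit false

namespace Pool.Agent.Perc

open Finset

namespace PlanarB

theorem mem_RF {x₀ x₁ y₀ y₁ : ℤ} {f : ℤ × ℤ} :
    f ∈ RF x₀ x₁ y₀ y₁ ↔ (x₀ ≤ f.1 ∧ f.1 < x₁) ∧ (y₀ ≤ f.2 ∧ f.2 < y₁) := by
  unfold RF
  rw [Finset.mem_product, Finset.mem_Ico, Finset.mem_Ico]

/-- Transposition. -/
def tr (x₀ y₀ : ℤ) (u : ℤ × ℤ) : ℤ × ℤ := (x₀ + (u.2 - y₀), y₀ + (u.1 - x₀))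

theorem conn_tr {x₀ y₀ : ℤ} {k : ℕ} {ω : Cfg} {u v : ℤ × ℤ}
    (h : Conn (fun f => ω (tr x₀ y₀ f)) (RF x₀ (x₀ + k) y₀ (y₀ + k)) u v) :
    Conn ω (RF x₀ (x₀ + k) y₀ (y₀ + k)) (tr x₀ y₀ u) (tr x₀ y₀ v) := by
  refine Relation.ReflTransGen.lift (r := Bond _ _) (p := Bond _ _) _ ?_ _ _ h
  rintro a b ⟨x, y, hxy, hb⟩
  change Bond _ _ _ _
  rw [Finset.mem_coe, mem_RF] at hxy
  dsimp only at hxy
  refine ⟨x₀ + (y - y₀), y₀ + (x - x₀), ?_, ?_⟩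
  · rw [Finset.mem_coe, mem_RF]
    refine ⟨⟨?_, ?_⟩, ?_, ?_⟩ <;> dsimp only <;> omega
  · rcases hb with ⟨h1, h2⟩ | ⟨h1, h2⟩
    · left
      refine ⟨h1, ?_⟩
      rcases h2 with ⟨rfl, rfl⟩ | ⟨rfl, rfl⟩
      · left
        refine ⟨rfl, ?_⟩
        unfold tr
        ext <;> dsimp only <;> ring
      · right
        refine ⟨?_, rfl⟩
        unfold tr
        ext <;> dsimp only <;> ring
    · right
      refine ⟨h1, ?_⟩
      rcases h2 with ⟨rfl, rfl⟩ | ⟨rfl, rfl⟩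
      · right
        constructor <;>
        · unfold tr
          ext <;> dsimp only <;> ring
      · left
        constructor <;>
        · unfold tr
          ext <;> dsimp only <;> ring

theorem tr_tr (x₀ y₀ : ℤ) (u : ℤ × ℤ) : tr x₀ y₀ (tr x₀ y₀ u) = u := by
  unfold tr
  ext <;> dsimp only <;> ring

theorem conn_tr' {x₀ y₀ : ℤ} {k : ℕ} {ω : Cfg} {u v : ℤ × ℤ}
    (h : Conn ω (RF x₀ (x₀ + k) y₀ (y₀ + k)) u v) :
    Conn (fun f => ω (tr x₀ y₀ f)) (RF x₀ (x₀ + k) y₀ (y₀ + k)) (tr x₀ y₀ u) (tr x₀ y₀ v) := by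
  apply conn_tr (ω := fun f => ω (tr x₀ y₀ f))
  have : (fun f => (fun f => ω (tr x₀ y₀ f)) (tr x₀ y₀ f)) = ω := by
    funext f
    simp only [tr_tr]
  rw [this]
  exact h

theorem pr_LR (c : ℤ) (k : ℕ) (x₀ y₀ : ℤ) :
    pr (RF x₀ (x₀ + k) y₀ (y₀ + k)) (BT c x₀ (x₀ + k) y₀ (y₀ + k)) =
      pr (RF x₀ (x₀ + k) y₀ (y₀ + k)) (LR c x₀ (x₀ + k) y₀ (y₀ + k)) := by
  have h := pr_comp (S := RF x₀ (x₀ + k) y₀ (y₀ + k)) (S' := RF x₀ (x₀ + k) y₀ (y₀ + k))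
    (A := LR c x₀ (x₀ + k) y₀ (y₀ + k)) (f := tr x₀ y₀) (by
      intro a _ b _ hab
      rw [← tr_tr x₀ y₀ a, hab, tr_tr]) (by
      intro f hf
      rw [mem_RF] at hf ⊢
      unfold tr
      refine ⟨⟨?_, ?_⟩, ?_, ?_⟩ <;> dsimp only <;> omega) (depOn_LR _ _ _ _ _)
  rw [← h]
  apply pr_congr
  intro T _
  constructor
  · rintro ⟨u, v, h1, h2, h3, h4, h5, h6⟩
    refine ⟨tr x₀ y₀ u, tr x₀ y₀ v, ?_, ?_, ?_, ?_, ?_, conn_tr' h6⟩
    · unfold tr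
      dsimp only
      omega
    · unfold tr
      dsimp only
      omega
    · unfold tr
      dsimp only
      omega
    · unfold tr
      dsimp only
      omega
    · unfold tr
      dsimp only
      have : x₀ + (u.2 - y₀) + (y₀ + (u.1 - x₀)) - c = u.1 + u.2 - c := by ring
      rw [this]
      exact h5
  · rintro ⟨u, v, h1, h2, h3, h4, h5, h6⟩
    refine ⟨tr x₀ y₀ u, tr x₀ y₀ v, ?_, ?_, ?_, ?_, ?_, conn_tr h6⟩
    · unfold tr
      dsimp only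
      omega
    · unfold tr
      dsimp only
      omega
    · unfold tr
      dsimp only
      omega
    · unfold tr
      dsimp only
      omega
    · unfold tr
      dsimp only
      have : x₀ + (u.2 - y₀) + (y₀ + (u.1 - x₀)) - c = u.1 + u.2 - c := by ring
      rw [this]
      exact h5

/-- Reflection of vertices. -/
def rv (x₀ : ℤ) (k : ℕ) (u : ℤ × ℤ) : ℤ × ℤ := (2 * x₀ + k - u.1, u.2)

/-- Reflection of faces. -/
def rf (x₀ : ℤ) (k : ℕ) (u : ℤ × ℤ) : ℤ × ℤ := (2 * x₀ + k - 1 - u.1, u.2)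

theorem rf_rf (x₀ : ℤ) (k : ℕ) (u : ℤ × ℤ) : rf x₀ k (rf x₀ k u) = u := by
  unfold rf
  ext
  · dsimp only
    ring
  · rfl

theorem rv_rv (x₀ : ℤ) (k : ℕ) (u : ℤ × ℤ) : rv x₀ k (rv x₀ k u) = u := by
  unfold rv
  ext
  · dsimp only
    ring
  · rfl

theorem conn_rf {x₀ y₀ : ℤ} {k : ℕ} {ω : Cfg} {u v : ℤ × ℤ}
    (h : Conn (flip (fun _ => true) (fun f => ω (rf x₀ k f))) (RF x₀ (x₀ + k) y₀ (y₀ + k)) u v) :
    Conn ω (RF x₀ (x₀ + k) y₀ (y₀ + k)) (rv x₀ k u) (rv x₀ k v) := by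
  refine Relation.ReflTransGen.lift (r := Bond _ _) (p := Bond _ _) _ ?_ _ _ h
  rintro a b ⟨x, y, hxy, hb⟩
  change Bond _ _ _ _
  rw [Finset.mem_coe, mem_RF] at hxy
  dsimp only at hxy
  unfold flip at hb
  refine ⟨2 * x₀ + k - 1 - x, y, ?_, ?_⟩
  · rw [Finset.mem_coe, mem_RF]
    refine ⟨⟨?_, ?_⟩, ?_, ?_⟩ <;> dsimp only <;> omega
  · rcases hb with ⟨h1, h2⟩ | ⟨h1, h2⟩
    · right
      refine ⟨?_, ?_⟩
      · simpa [rf] using h1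
      rcases h2 with ⟨rfl, rfl⟩ | ⟨rfl, rfl⟩
      · right
        unfold rv
        constructor <;> ext <;> dsimp only <;> ring
      · left
        unfold rv
        constructor <;> ext <;> dsimp only <;> ring
    · left
      refine ⟨?_, ?_⟩
      · simpa [rf] using h1
      rcases h2 with ⟨rfl, rfl⟩ | ⟨rfl, rfl⟩
      · right
        unfold rv
        constructor <;> ext <;> dsimp only <;> ring
      · left
        unfold rv
        constructor <;> ext <;> dsimp only <;> ring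

theorem conn_rf' {x₀ y₀ : ℤ} {k : ℕ} {ω : Cfg} {u v : ℤ × ℤ}
    (h : Conn ω (RF x₀ (x₀ + k) y₀ (y₀ + k)) u v) :
    Conn (flip (fun _ => true) (fun f => ω (rf x₀ k f))) (RF x₀ (x₀ + k) y₀ (y₀ + k))
      (rv x₀ k u) (rv x₀ k v) := by
  apply conn_rf (ω := flip (fun _ => true) (fun f => ω (rf x₀ k f)))
  have : flip (fun _ => true) (fun f => (flip (fun _ => true) (fun f => ω (rf x₀ k f)))
      (rf x₀ k f)) = ω := by
    funext f
    unfold flip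
    simp only [rf_rf, Bool.true_xor, Bool.not_not]
  rw [this]
  exact h

theorem pr_BT_succ (c : ℤ) {k : ℕ} (hk : k % 2 = 1) (x₀ y₀ : ℤ) :
    pr (RF x₀ (x₀ + k) y₀ (y₀ + k)) (BT c x₀ (x₀ + k) y₀ (y₀ + k)) =
      pr (RF x₀ (x₀ + k) y₀ (y₀ + k)) (BT (c + 1) x₀ (x₀ + k) y₀ (y₀ + k)) := by
  have hd : DepOn (RF x₀ (x₀ + k) y₀ (y₀ + k) : Set (ℤ × ℤ))
      {ω | flip (fun _ => true) ω ∈ BT (c + 1) x₀ (x₀ + k) y₀ (y₀ + k)} := by
    intro ω ω' hω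
    apply depOn_BT (c + 1) x₀ (x₀ + k) y₀ (y₀ + k) _ _
    intro f hf
    unfold flip
    rw [hω f hf]
  have h := pr_comp (S := RF x₀ (x₀ + k) y₀ (y₀ + k)) (S' := RF x₀ (x₀ + k) y₀ (y₀ + k))
    (A := {ω | flip (fun _ => true) ω ∈ BT (c + 1) x₀ (x₀ + k) y₀ (y₀ + k)}) (f := rf x₀ k) (by
      intro a _ b _ hab
      rw [← rf_rf x₀ k a, hab, rf_rf]) (by
      intro f hf
      rw [mem_RF] at hf ⊢
      unfold rf
      refine ⟨⟨?_, ?_⟩, ?_, ?_⟩ <;> dsimp only <;> omega) hd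
  rw [pr_flip _ (depOn_BT (c + 1) x₀ (x₀ + k) y₀ (y₀ + k))] at h
  rw [← h]
  apply pr_congr
  intro T _
  constructor
  · rintro ⟨u, v, h1, h2, h3, h4, h5, h6⟩
    refine ⟨rv x₀ k u, rv x₀ k v, ?_, ?_, ?_, ?_, ?_, conn_rf' h6⟩
    · exact h1
    · unfold rv
      dsimp only
      omega
    · unfold rv
      dsimp only
      omega
    · exact h4
    · unfold rv
      dsimp only
      omega
  · rintro ⟨u, v, h1, h2, h3, h4, h5, h6⟩
    refine ⟨rv x₀ k u, rv x₀ k v, ?_, ?_, ?_, ?_, ?_, conn_rf h6⟩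
    · exact h1
    · unfold rv
      dsimp only
      omega
    · unfold rv
      dsimp only
      omega
    · exact h4
    · unfold rv
      dsimp only
      omega

end PlanarB

/-- Squares of odd size are crossed with probability `1/2`. -/
theorem pr_BT_square (c : ℤ) {k : ℕ} (hk : k % 2 = 1) (x₀ y₀ : ℤ) :
    pr (RF x₀ (x₀ + k) y₀ (y₀ + k)) (BT c x₀ (x₀ + k) y₀ (y₀ + k)) = 1 / 2 := by
  have h1 := PlanarB.pr_LR c k x₀ y₀
  have h2 := PlanarB.pr_BT_succ c hk x₀ y₀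
  have h3 : pr (RF x₀ (x₀ + k) y₀ (y₀ + k)) (LR c x₀ (x₀ + k) y₀ (y₀ + k)) =
      1 - pr (RF x₀ (x₀ + k) y₀ (y₀ + k)) (BT (c + 1) x₀ (x₀ + k) y₀ (y₀ + k)) := by
    rw [← pr_compl]
    apply pr_congr
    intro T _
    have hx : x₀ < x₀ + k := by omega
    have hy : y₀ < y₀ + k := by omega
    have e1 := lr_or_bt c hx hy (cfg T)
    have e2 := not_lr_and_bt c hx hy (cfg T)
    constructor
    · intro h h'
      exact e2 ⟨h, h'⟩
    · intro h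
      exact e1.resolve_right h
  linarith

namespace PlanarB

theorem right_part {ω : Cfg} {n : ℕ} {w : ℤ × ℤ}
    (h : Conn ω (RF (-(n + 1)) (n + 1) 0 n) (0, 0) w) (hw : 1 ≤ w.1) :
    ∃ z : ℤ × ℤ, z.1 = 1 ∧ 0 ≤ z.2 ∧ z.2 ≤ n ∧ Conn ω (RF (-(n + 1)) (n + 1) 0 n) (0, 0) z ∧
      Conn ω (RF 1 (1 + n) 0 (0 + n)) z w := by
  induction h with
  | refl =>
    exfalso
    dsimp only at hw
    omega
  | @tail a b hab hb ih =>
    obtain ⟨x, y, hxy, hb2⟩ := hb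
    rw [Finset.mem_coe, mem_RF] at hxy
    dsimp only at hxy
    by_cases ha : 1 ≤ a.1
    · obtain ⟨z, h1, h2, h3, h4, h5⟩ := ih ha
      refine ⟨z, h1, h2, h3, h4, h5.tail ⟨x, y, ?_, hb2⟩⟩
      rw [Finset.mem_coe, mem_RF]
      have : 1 ≤ x := by
        rcases hb2 with ⟨_, ⟨rfl, rfl⟩ | ⟨rfl, rfl⟩⟩ | ⟨_, ⟨rfl, rfl⟩ | ⟨rfl, rfl⟩⟩
        · exact ha
        · exact hw
        · exact ha
        · exact hw
      dsimp only
      omega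
    · have hc : Conn ω (RF (-(n + 1)) (n + 1) 0 n) (0, 0) b := hab.tail ⟨x, y, by
        rw [Finset.mem_coe, mem_RF]
        exact hxy, hb2⟩
      have hm := Conn.mem_rect hc (by
        refine ⟨?_, ?_, ?_, ?_⟩ <;> dsimp only <;> omega)
      refine ⟨b, ?_, hm.2.2.1, hm.2.2.2, hc, Relation.ReflTransGen.refl⟩
      rcases hb2 with ⟨_, ⟨rfl, rfl⟩ | ⟨rfl, rfl⟩⟩ | ⟨_, ⟨rfl, rfl⟩ | ⟨rfl, rfl⟩⟩ <;>
        dsimp only at ha hw ⊢ <;> omega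

theorem left_part {ω : Cfg} {n : ℕ} {w : ℤ × ℤ}
    (h : Conn ω (RF (-(n + 1)) (n + 1) 0 n) (0, 0) w) (hw : w.1 ≤ -1) :
    ∃ z : ℤ × ℤ, z.1 = -1 ∧ 0 ≤ z.2 ∧ z.2 ≤ n ∧ Conn ω (RF (-(n + 1)) (n + 1) 0 n) (0, 0) z ∧
      Conn ω (RF (-(n + 1)) (-(n + 1) + n) 0 (0 + n)) z w := by
  induction h with
  | refl =>
    exfalso
    dsimp only at hw
    omega
  | @tail a b hab hb ih =>
    obtain ⟨x, y, hxy, hb2⟩ := hb
    rw [Finset.mem_coe, mem_RF] at hxy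
    dsimp only at hxy
    by_cases ha : a.1 ≤ -1
    · obtain ⟨z, h1, h2, h3, h4, h5⟩ := ih ha
      refine ⟨z, h1, h2, h3, h4, h5.tail ⟨x, y, ?_, hb2⟩⟩
      rw [Finset.mem_coe, mem_RF]
      have : x + 1 ≤ -1 := by
        rcases hb2 with ⟨_, ⟨rfl, rfl⟩ | ⟨rfl, rfl⟩⟩ | ⟨_, ⟨rfl, rfl⟩ | ⟨rfl, rfl⟩⟩
        · exact hw
        · exact ha
        · exact hw
        · exact ha
      dsimp only
      omega
    · have hc : Conn ω (RF (-(n + 1)) (n + 1) 0 n) (0, 0) b := hab.tail ⟨x, y, by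
        rw [Finset.mem_coe, mem_RF]
        exact hxy, hb2⟩
      have hm := Conn.mem_rect hc (by
        refine ⟨?_, ?_, ?_, ?_⟩ <;> dsimp only <;> omega)
      refine ⟨b, ?_, hm.2.2.1, hm.2.2.2, hc, Relation.ReflTransGen.refl⟩
      rcases hb2 with ⟨_, ⟨rfl, rfl⟩ | ⟨rfl, rfl⟩⟩ | ⟨_, ⟨rfl, rfl⟩ | ⟨rfl, rfl⟩⟩ <;>
        dsimp only at ha hw ⊢ <;> omega

theorem depOn_inter {S : Set (ℤ × ℤ)} {A B : Set Cfg} (hA : DepOn S A) (hB : DepOn S B) :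
    DepOn S (A ∩ B) := by
  intro ω ω' h
  exact and_congr (hA ω ω' h) (hB ω ω' h)

theorem depOn_mono {S S' : Set (ℤ × ℤ)} {A : Set Cfg} (hA : DepOn S A) (h : S ⊆ S') :
    DepOn S' A := fun ω ω' h' => hA ω ω' fun f hf => h' f (h hf)

theorem incD_inter {D : ℤ × ℤ → Bool} {A B : Set Cfg} (hA : IncD D A) (hB : IncD D B) :
    IncD D (A ∩ B) := fun ω ω' h h' => ⟨hA ω ω' h h'.1, hB ω ω' h h'.2⟩

theorem incD_BT (c x₀ x₁ y₀ y₁ : ℤ) : IncD (parD c) (BT c x₀ x₁ y₀ y₁) := by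
  rintro ω ω' h ⟨u, v, h1, h2, h3, h4, h5, h6⟩
  exact ⟨u, v, h1, h2, h3, h4, h5, incD_conn c _ h5 ω ω' h h6⟩

theorem incD_hpArm (r : ℤ) : IncD (parD 0) (hpArm r) := by
  rintro ω ω' h ⟨v, h1, h2⟩
  exact ⟨v, incD_conn 0 _ (by simp) ω ω' h h1, h2⟩

theorem geom {n : ℕ} (hn : 0 < n) {ω : Cfg} (hA : ω ∈ hpArm (n + 1))
    (hR : ω ∈ BT 0 1 (1 + n) 0 (0 + n)) (hL : ω ∈ BT 0 (-(n + 1)) (-(n + 1) + n) 0 (0 + n)) :
    ∃ v, Conn ω (RF (-(n + 1)) (n + 1) 0 n) (0, 0) v ∧ v.2 = n := by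
  obtain ⟨v, hv, hv2⟩ := hA
  obtain ⟨w, hw, hw2⟩ := Conn.toSides (x₀ := -((n : ℤ) + 1)) (x₁ := (n : ℤ) + 1) (y₀ := 0)
    (y₁ := n) hv (by
      intro f hf
      rw [Finset.mem_coe, mem_RF] at hf
      exact hf.2.1) (by
      refine ⟨?_, ?_, ?_, ?_⟩ <;> dsimp only <;> omega) (by
      rintro ⟨e1, e2, e3⟩
      omega)
  have hw' : Conn ω (RF (-(n + 1)) (n + 1) 0 n) (0, 0) w := Conn.mono Set.inter_subset_right hw
  have hm := Conn.mem_rect hw' (by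
        refine ⟨?_, ?_, ?_, ?_⟩ <;> dsimp only <;> omega)
  have hpar : ∀ z, Conn ω (RF (-(n + 1)) (n + 1) 0 n) (0, 0) z → (z.1 + z.2) % 2 = 0 := by
    intro z hz
    have := Conn.parity hz
    dsimp only at this
    omega
  have hsub1 : (RF 1 (1 + n) 0 (0 + n) : Set (ℤ × ℤ)) ⊆ RF (-(n + 1)) (n + 1) 0 n := by
    intro f hf
    rw [Finset.mem_coe, mem_RF] at hf ⊢
    omega
  have hsub2 : (RF (-(n + 1)) (-(n + 1) + n) 0 (0 + n) : Set (ℤ × ℤ)) ⊆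
      RF (-(n + 1)) (n + 1) 0 n := by
    intro f hf
    rw [Finset.mem_coe, mem_RF] at hf ⊢
    omega
  rcases hw2 with h1 | h1 | h1
  · obtain ⟨z, z1, z2, z3, z4, z5⟩ := left_part hw' (by omega)
    obtain ⟨u', v', b1, b2, b3, b4, b5, b6⟩ := hL
    have hmeet := crossings_meet (x₀ := -((n : ℤ) + 1)) (x₁ := -((n : ℤ) + 1) + n) (y₀ := 0)
      (y₁ := 0 + n) (by omega) (by omega) (u := w) (v := z) (u' := u') (v' := v')
      ⟨h1, by omega, by omega⟩ (by omega) ⟨b1, by omega, by omega⟩ b4 (by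
        have := hpar w hw'
        omega) z5.symm b6
    refine ⟨v', ?_, by omega⟩
    exact hw'.trans ((Conn.mono hsub2 hmeet).trans (Conn.mono hsub2 b6))
  · obtain ⟨z, z1, z2, z3, z4, z5⟩ := right_part hw' (by omega)
    obtain ⟨u', v', b1, b2, b3, b4, b5, b6⟩ := hR
    have hmeet := crossings_meet (x₀ := 1) (x₁ := 1 + n) (y₀ := 0)
      (y₁ := 0 + n) (by omega) (by omega) (u := z) (v := w) (u' := u') (v' := v')
      ⟨z1, by omega, by omega⟩ (by omega) ⟨b1, by omega, by omega⟩ b4 (by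
        have := hpar z z4
        omega) z5 b6
    refine ⟨v', ?_, by omega⟩
    exact z4.trans ((Conn.mono hsub1 hmeet).trans (Conn.mono hsub1 b6))
  · exact ⟨w, hw', h1⟩

end PlanarB

/-- Connection to the top of a strip of odd height `n`: at least `1/4` of the probability of the
half-plane arm to distance `n + 1`. -/
theorem pr_top_ge {n : ℕ} (hn : n % 2 = 1) :
    pArm (n + 1) / 4 ≤ pr (RF (-(n + 1)) (n + 1) 0 n)
      {ω | ∃ v, Conn ω (RF (-(n + 1)) (n + 1) 0 n) (0, 0) v ∧ v.2 = n} := by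
  set S : Finset (ℤ × ℤ) := RF (-((n : ℤ) + 1)) (n + 1) 0 (n + 1) with hS
  set S₀ : Finset (ℤ × ℤ) := RF (-((n : ℤ) + 1)) (n + 1) 0 n with hS₀
  set A : Set Cfg := hpArm (n + 1) with hA
  set VR : Set Cfg := BT 0 1 (1 + n) 0 (0 + n) with hVR
  set VL : Set Cfg := BT 0 (-((n : ℤ) + 1)) (-(n + 1) + n) 0 (0 + n) with hVL
  have hsR : (RF 1 (1 + n) 0 (0 + n) : Finset (ℤ × ℤ)) ⊆ S := by
    intro f hf
    rw [hS, PlanarB.mem_RF]
    rw [PlanarB.mem_RF] at hf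
    omega
  have hsL : (RF (-((n : ℤ) + 1)) (-(n + 1) + n) 0 (0 + n) : Finset (ℤ × ℤ)) ⊆ S := by
    intro f hf
    rw [hS, PlanarB.mem_RF]
    rw [PlanarB.mem_RF] at hf
    omega
  have hs0 : S₀ ⊆ S := by
    intro f hf
    rw [hS, PlanarB.mem_RF]
    rw [hS₀, PlanarB.mem_RF] at hf
    omega
  have dR : DepOn S VR := PlanarB.depOn_mono (depOn_BT _ _ _ _ _) (Finset.coe_subset.2 hsR)
  have dL : DepOn S VL := PlanarB.depOn_mono (depOn_BT _ _ _ _ _) (Finset.coe_subset.2 hsL)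
  have dA : DepOn S A := depOn_hpArm _
  have pR : pr S VR = 1 / 2 := by
    rw [pr_eq_of_depOn (depOn_BT 0 1 (1 + n) 0 (0 + n)) hsR]
    exact pr_BT_square 0 hn 1 0
  have pL : pr S VL = 1 / 2 := by
    rw [pr_eq_of_depOn (depOn_BT 0 (-((n : ℤ) + 1)) (-(n + 1) + n) 0 (0 + n)) hsL]
    exact pr_BT_square 0 hn (-((n : ℤ) + 1)) 0
  have h1 : pr S VR * pr S VL ≤ pr S (VR ∩ VL) :=
    harris (parD 0) dR dL (PlanarB.incD_BT _ _ _ _ _) (PlanarB.incD_BT _ _ _ _ _)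
  have h2 : pr S A * pr S (VR ∩ VL) ≤ pr S (A ∩ (VR ∩ VL)) :=
    harris (parD 0) dA (PlanarB.depOn_inter dR dL) (PlanarB.incD_hpArm _)
      (PlanarB.incD_inter (PlanarB.incD_BT _ _ _ _ _) (PlanarB.incD_BT _ _ _ _ _))
  have dT : DepOn (S₀ : Set (ℤ × ℤ)) {ω | ∃ v, Conn ω S₀ (0, 0) v ∧ v.2 = n} := by
    intro ω ω' h
    constructor
    · rintro ⟨v, h1, h2⟩
      exact ⟨v, (depOn_conn _ _ v ω ω' h).1 h1, h2⟩
    · rintro ⟨v, h1, h2⟩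
      exact ⟨v, (depOn_conn _ _ v ω ω' h).2 h1, h2⟩
  rw [← pr_eq_of_depOn dT hs0]
  have h3 : pr S (A ∩ (VR ∩ VL)) ≤ pr S {ω | ∃ v, Conn ω S₀ (0, 0) v ∧ v.2 = n} := by
    apply pr_mono
    rintro ω ⟨e1, e2, e3⟩
    exact PlanarB.geom (by omega) e1 e2 e3
  have h4 : 0 ≤ pr S A := pr_nonneg _ _
  have h5 : pArm (n + 1) = pr S A := rfl
  rw [h5]
  rw [pR, pL] at h1
  nlinarith [mul_le_mul_of_nonneg_left h1 h4]

end Pool.Agent.Perc
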