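import Pool.Agent.Lib.MP_6bd702_perc.Rect
import Pool.Agent.Lib.MP_6bd702_perc.Planar
import Pool.Agent.Lib.MP_6bd702_perc.CylArm

/-!
# The two-arm probability in the plane (task TwoArm)
-/

set_option autoImplicit false

namespace Pool.Agent.Perc

open Finset

namespace TwoArm

theorem mem_RF {x₀ x₁ y₀ y₁ : ℤ} {f : ℤ × ℤ} :
    f ∈ RF x₀ x₁ y₀ y₁ ↔ (x₀ ≤ f.1 ∧ f.1 < x₁) ∧ (y₀ ≤ f.2 ∧ f.2 < y₁) := by
  unfold RF
  rw [Finset.mem_product, Finset.mem_Ico, Finset.mem_Ico]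

/-- Translation of an event. -/
theorem pr_shift {S S' : Finset (ℤ × ℤ)} {A : Set Cfg} (hA : DepOn S A) (a b : ℤ)
    (h : ∀ x ∈ S, (x.1 + a, x.2 + b) ∈ S') : pr S' {ω | shiftC a b ω ∈ A} = pr S A := by
  have := pr_comp (S := S) (S' := S') (A := A) (f := fun x => (x.1 + a, x.2 + b))
    (by
      intro x _ y _ hxy
      simp only [Prod.mk.injEq] at hxy
      exact Prod.ext (by omega) (by omega)) h hA
  exact this

/-- The connection to the top. -/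
def top (n : ℕ) : Set Cfg :=
  {ω | ∃ v, Conn ω (RF (-(n + 1)) (n + 1) 0 n) (0, 0) v ∧ v.2 = n}

theorem depOn_top (n : ℕ) : DepOn (RF (-(n + 1)) (n + 1) 0 n : Set (ℤ × ℤ)) (top n) := by
  intro ω ω' h
  constructor
  · rintro ⟨v, h1, h2⟩
    exact ⟨v, (depOn_conn _ _ v ω ω' h).1 h1, h2⟩
  · rintro ⟨v, h1, h2⟩
    exact ⟨v, (depOn_conn _ _ v ω ω' h).2 h1, h2⟩

theorem top_le {n W x : ℕ} (hn : n % 2 = 1) (h1 : n ≤ x) (h2 : x + n + 2 ≤ W) :
    pArm (n + 1) / 4 ≤ pr (RF 0 W 0 n)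
      {ω | ∃ v, Conn ω (RF 0 W 0 n) ((x : ℤ) + 1, 0) v ∧ v.2 = n} := by
  refine (pr_top_ge hn).trans ?_
  have h3 := pr_shift (depOn_top n) ((x : ℤ) + 1) 0 (S' := RF 0 W 0 n) (by
    intro f hf
    rw [mem_RF] at hf ⊢
    refine ⟨⟨?_, ?_⟩, ?_, ?_⟩ <;> dsimp only <;> omega)
  change pr _ (top n) ≤ _
  rw [← h3]
  apply pr_mono
  rintro ω ⟨v, hv, hv2⟩
  refine ⟨(v.1 + ((x : ℤ) + 1), v.2 + 0), ?_, ?_⟩
  · rw [conn_shift] at hv
    have h4 : ((0, 0) : ℤ × ℤ).1 + ((x : ℤ) + 1) = (x : ℤ) + 1 := by simp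
    have h5 : ((0, 0) : ℤ × ℤ).2 + 0 = (0 : ℤ) := by simp
    rw [h4, h5] at hv
    refine Conn.mono ?_ hv
    intro f hf
    simp only [Set.mem_ofPred_eq, Finset.mem_coe] at hf ⊢
    rw [mem_RF] at hf ⊢
    dsimp only at hf
    refine ⟨⟨?_, ?_⟩, ?_, ?_⟩ <;> omega
  · dsimp only
    omega

theorem two_le {R W i : ℕ} (hR : 0 < R) (h1 : R ≤ i) (h2 : i + R ≤ W) :
    pr (RF 0 W 0 ((2 * R + 1 : ℕ) : ℤ)) {ω | ToBd 0 W 0 ((2 * R + 1 : ℕ) : ℤ) ω ((i : ℤ), (R : ℤ)) ∧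
        ToBd 0 W 0 ((2 * R + 1 : ℕ) : ℤ) ω ((i : ℤ) + 1, (R : ℤ))} ≤ p2 R := by
  unfold p2
  have h3 := pr_shift (depOn_twoArm R) (i : ℤ) (R : ℤ) (S' := RF 0 W 0 ((2 * R + 1 : ℕ) : ℤ)) (by
    intro f hf
    rw [mem_RF] at hf ⊢
    refine ⟨⟨?_, ?_⟩, ?_, ?_⟩ <;> dsimp only <;> omega)
  rw [← h3]
  apply pr_mono
  rintro ω ⟨ha, hb⟩
  have key : ∀ u : ℤ × ℤ, ToBd 0 W 0 ((2 * R + 1 : ℕ) : ℤ) ω (u.1 + i, u.2 + R) →
      (-(R : ℤ) ≤ u.1 ∧ u.1 ≤ R ∧ -(R : ℤ) ≤ u.2 ∧ u.2 ≤ R) →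
      ToBd (-(R : ℤ)) R (-(R : ℤ)) R (shiftC i R ω) u := by
    rintro u ⟨v, hv, hv'⟩ hu
    unfold OnBd at hv'
    obtain ⟨w, hw, hw'⟩ := Conn.toBd (x₀ := (i : ℤ) - R) (x₁ := (i : ℤ) + R) (y₀ := 0)
      (y₁ := 2 * (R : ℤ)) hv (by
        refine ⟨?_, ?_, ?_, ?_⟩ <;> dsimp only <;> omega) (by
        rintro ⟨e1, e2, e3, e4⟩
        push_cast at hv'
        omega)
    unfold OnBd at hw'
    refine ⟨(w.1 - i, w.2 - R), ?_, ?_⟩
    · rw [conn_shift]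
      have h4 : ((w.1 - (i : ℤ), w.2 - (R : ℤ)) : ℤ × ℤ).1 + (i : ℤ) = w.1 := by simp
      have h5 : ((w.1 - (i : ℤ), w.2 - (R : ℤ)) : ℤ × ℤ).2 + (R : ℤ) = w.2 := by simp
      rw [h4, h5]
      refine Conn.mono ?_ hw
      intro f hf
      have hf2 := hf.2
      simp only [Set.mem_ofPred_eq, Finset.mem_coe] at hf2 ⊢
      rw [mem_RF] at hf2 ⊢
      refine ⟨⟨?_, ?_⟩, ?_, ?_⟩ <;> dsimp only <;> omega
    · unfold OnBd
      dsimp only
      omega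
  constructor
  · apply key
    · simpa using ha
    · refine ⟨?_, ?_, ?_, ?_⟩ <;> dsimp only <;> omega
  · apply key
    · have : ((1, 0) : ℤ × ℤ).1 + (i : ℤ) = (i : ℤ) + 1 := by
        dsimp only
        ring
      rw [this]
      simpa using hb
    · refine ⟨?_, ?_, ?_, ?_⟩ <;> dsimp only <;> omega

theorem sum_top_ge {n m : ℕ} (hn : n % 2 = 1) (hm : n + 1 ≤ m) :
    ((m : ℝ) - (n + 1)) * (pArm (n + 1) / 4) ≤
      ∑ x ∈ (range (2 * m)).filter (fun x => x % 2 = 0),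
        pr (RF 0 ((2 * m : ℕ) : ℤ) 0 n)
          {ω | ∃ v, Conn ω (RF 0 ((2 * m : ℕ) : ℤ) 0 n) ((x : ℤ) + 1, 0) v ∧ v.2 = n} := by
  set f : ℕ → ℝ := fun x => pr (RF 0 ((2 * m : ℕ) : ℤ) 0 n)
          {ω | ∃ v, Conn ω (RF 0 ((2 * m : ℕ) : ℤ) 0 n) ((x : ℤ) + 1, 0) v ∧ v.2 = n} with hf
  set s : Finset ℕ := (Ico ((n + 1) / 2) (m - (n + 1) / 2)).image (fun j => 2 * j) with hs
  have hcard : s.card = m - (n + 1) := by
    rw [hs, Finset.card_image_of_injective _ (fun a b (h : 2 * a = 2 * b) => by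
      omega), Nat.card_Ico]
    omega
  have hsub : s ⊆ (range (2 * m)).filter (fun x => x % 2 = 0) := by
    intro x hx
    rw [hs, Finset.mem_image] at hx
    obtain ⟨j, hj, rfl⟩ := hx
    rw [Finset.mem_Ico] at hj
    rw [Finset.mem_filter, Finset.mem_range]
    omega
  calc ((m : ℝ) - (n + 1)) * (pArm (n + 1) / 4) = s.card • (pArm (n + 1) / 4) := by
        rw [hcard, nsmul_eq_mul, Nat.cast_sub hm]
        push_cast
        ring
    _ ≤ ∑ x ∈ s, f x := by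
        apply Finset.card_nsmul_le_sum
        intro x hx
        rw [hs, Finset.mem_image] at hx
        obtain ⟨j, hj, rfl⟩ := hx
        rw [Finset.mem_Ico] at hj
        exact top_le hn (by omega) (by omega)
    _ ≤ _ := Finset.sum_le_sum_of_subset_of_nonneg hsub fun x _ _ => pr_nonneg _ _

theorem sum_two_le {R W : ℕ} (hR : 0 < R) :
    ∑ i ∈ range W, pr (RF 0 W 0 ((2 * R + 1 : ℕ) : ℤ))
        {ω | ToBd 0 W 0 ((2 * R + 1 : ℕ) : ℤ) ω ((i : ℤ), (R : ℤ)) ∧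
        ToBd 0 W 0 ((2 * R + 1 : ℕ) : ℤ) ω ((i : ℤ) + 1, (R : ℤ))} ≤ W * p2 R + 2 * R := by
  have h0 : 0 ≤ p2 R := pr_nonneg _ _
  calc _ ≤ ∑ i ∈ range W, (p2 R + if i < R ∨ W < i + R then (1 : ℝ) else 0) := by
        apply Finset.sum_le_sum
        intro i hi
        by_cases hc : i < R ∨ W < i + R
        · rw [if_pos hc]
          linarith [pr_le_one (RF 0 W 0 ((2 * R + 1 : ℕ) : ℤ))
            {ω | ToBd 0 W 0 ((2 * R + 1 : ℕ) : ℤ) ω ((i : ℤ), (R : ℤ)) ∧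
        ToBd 0 W 0 ((2 * R + 1 : ℕ) : ℤ) ω ((i : ℤ) + 1, (R : ℤ))}]
        · rw [if_neg hc, add_zero]
          exact two_le hR (by omega) (by omega)
    _ = W * p2 R + (((range W).filter fun i => i < R ∨ W < i + R).card : ℝ) := by
        rw [Finset.sum_add_distrib, Finset.sum_const, Finset.card_range, nsmul_eq_mul,
          Finset.sum_boole]
    _ ≤ _ := by
        have : ((range W).filter fun i => i < R ∨ W < i + R).card ≤ 2 * R := by
          have h1 : ((range W).filter fun i => i < R ∨ W < i + R) ⊆ range R ∪ Ico (W + 1 - R) W := by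
            intro i hi
            rw [Finset.mem_filter, Finset.mem_range] at hi
            rw [Finset.mem_union, Finset.mem_range, Finset.mem_Ico]
            omega
          refine (Finset.card_le_card h1).trans ((Finset.card_union_le _ _).trans ?_)
          rw [Finset.card_range, Nat.card_Ico]
          omega
        have h2 : (((range W).filter fun i => i < R ∨ W < i + R).card : ℝ) ≤ 2 * R := by
          exact_mod_cast this
        linarith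

theorem main_ineq {R m : ℕ} (hR : 0 < R) (hm : 2 * R + 2 ≤ m) :
    Real.sqrt 3 * (((m : ℝ) - (2 * R + 2)) * (pArm (2 * R + 2) / 4)) - 2 * (2 * R + 1) ≤
      2 * m * p2 R + 2 * R := by
  have h1 := flux_ineq (W := 2 * m) (n := 2 * R + 1) (h := R) (by omega) (by omega) (by omega)
  have h2 := sum_two_le (W := 2 * m) hR
  have h3 := sum_top_ge (n := 2 * R + 1) (m := m) (by omega) (by omega)
  have h4 : 0 ≤ Real.sqrt 3 := Real.sqrt_nonneg 3
  have h5 := mul_le_mul_of_nonneg_left h3 h4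
  have h6 : ((2 * R + 1 : ℕ) : ℤ) + 1 = 2 * (R : ℤ) + 2 := by
    push_cast
    ring
  rw [h6] at h5
  push_cast at h1 h2 h5
  have h7 : (m : ℝ) - (2 * R + 1 + 1) = (m : ℝ) - (2 * R + 2) := by ring
  rw [h7] at h5
  linarith

end TwoArm

theorem p2_ge_pArm {R : ℕ} (hR : 0 < R) : Real.sqrt 3 / 8 * pArm (2 * R + 2) ≤ p2 R := by
  by_contra hcon
  rw [not_le] at hcon
  set δ := Real.sqrt 3 / 8 * pArm (2 * R + 2) - p2 R with hδ
  have hδ0 : 0 < δ := by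
    rw [hδ]
    linarith
  obtain ⟨k, hk⟩ := exists_nat_gt ((Real.sqrt 3 * ((2 * R + 2) * (pArm (2 * R + 2) / 4)) +
    2 * (2 * R + 1) + 2 * R) / (2 * δ))
  rw [div_lt_iff₀ (by linarith)] at hk
  have h1 := TwoArm.main_ineq (R := R) (m := k + (2 * R + 2)) hR (by omega)
  push_cast at h1
  have h2 : 0 ≤ p2 R := pr_nonneg _ _
  have h3 : 0 ≤ pArm (2 * R + 2) := pr_nonneg _ _
  have h4 : (0 : ℝ) ≤ k := Nat.cast_nonneg _
  have h5 : (0 : ℝ) ≤ R := Nat.cast_nonneg _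
  have h6 : p2 R ≤ Real.sqrt 3 / 8 * pArm (2 * R + 2) := hcon.le
  have h7 : (0 : ℝ) ≤ (2 * R + 2) := by linarith
  have h8 := mul_le_mul_of_nonneg_left h6 h7
  have h9 : (k : ℝ) * (2 * δ) = 2 * k * (Real.sqrt 3 / 8 * pArm (2 * R + 2)) - 2 * k * p2 R := by
    rw [hδ]
    ring
  rw [h9] at hk
  nlinarith

theorem TwoArm.aux {R : ℕ} (hR : 0 < R) :
    (1 / 44 : ℝ) ^ (1 / 3 : ℝ) * (R : ℝ) ^ (-(1 / 3 : ℝ)) ≤ pArm (2 * R + 2) := by
  have hR' : (1 : ℝ) ≤ R := by exact_mod_cast hR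
  have h1 := (prod_ge (r := 2 * R + 2) (by omega)).trans (pArm_ge (r := 2 * R + 2) (by omega))
  have h2 : ((2 * R + 2 : ℕ) : ℤ) = 2 * (R : ℤ) + 2 := by
    push_cast
    ring
  rw [h2] at h1
  refine le_trans ?_ h1
  rw [Real.rpow_neg (by linarith), ← Real.inv_rpow (by linarith), ← Real.mul_rpow (by norm_num)
    (by positivity)]
  apply Real.rpow_le_rpow (by positivity)
  · push_cast
    rw [← one_div, div_mul_div_comm, one_mul]
    apply one_div_le_one_div_of_le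
    · linarith
    · linarith
  · norm_num

/-- The two-arm probability is at least a constant times `R ^ (-1/3)`. -/
theorem p2_ge : ∃ c : ℝ, 0 < c ∧ ∀ R : ℕ, 0 < R → c * (R : ℝ) ^ (-(1 / 3 : ℝ)) ≤ p2 R := by
  refine ⟨Real.sqrt 3 / 8 * (1 / 44 : ℝ) ^ (1 / 3 : ℝ), by positivity, fun R hR => ?_⟩
  refine le_trans ?_ (p2_ge_pArm hR)
  rw [mul_assoc]
  exact mul_le_mul_of_nonneg_left (TwoArm.aux hR) (by positivity)

end Pool.Agent.Perc
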