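import Pool.Agent.Lib.MP_6bd702_perc.AnnDefs
import Pool.Agent.Lib.MP_6bd702_perc.AnnA

/-!
# Reset and loss of memory (task AnnB)
-/

set_option autoImplicit false

namespace Pool.Agent.Perc

open Finset Function

variable {N L : ℕ} {s : St}

namespace AnnB

/-- site `x` is matched as in `flatE` and has label `false` -/
def Good (x : ℕ) (t : St) : Prop := t.1 x = (if x % 2 = 0 then x + 1 else x - 1) ∧ t.2 x = false

lemma good_eL {i x : ℕ} {t : St} (hi : i % 2 = 0) (hx : x < i) (h : Good x t) : Good x (eL i t) := by
  obtain ⟨h1, h2⟩ := h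
  have h3 : t.1 x < i := by
    rw [h1]
    split_ifs with h <;> omega
  unfold Good eL eAct
  simp only
  constructor
  · rw [if_neg (by omega), if_neg (by omega), if_neg (by omega), if_neg (by omega), h1]
  · rw [if_neg (by omega), if_neg (by omega), h2]

lemma good_new {i x : ℕ} {t : St} (hi : i % 2 = 0) (hx : i ≤ x) (hx2 : x < i + 2) :
    Good x (eL i t) := by
  unfold Good eL eAct
  simp only
  have hcase : x = i ∨ x = i + 1 := by omega
  rcases hcase with rfl | rfl
  · rw [if_pos rfl, if_pos hi, if_pos (Or.inl rfl)]
    exact ⟨rfl, rfl⟩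
  · rw [if_neg (by omega), if_pos rfl, if_neg (by omega), if_pos (Or.inr rfl)]
    exact ⟨by omega, rfl⟩

lemma good_rowL (t : St) (k : ℕ) : ∀ x, x < k → Good x (rowL (fun k => decide (k % 2 = 0)) k t) := by
  -- sites below `k` rounded up to an even number
  have h : ∀ k x, x < k + k % 2 → Good x (rowL (fun k => decide (k % 2 = 0)) k t) := by
    intro k
    induction k with
    | zero => intro x hx; omega
    | succ k ih =>
      intro x hx
      simp only [rowL]
      by_cases hk : k % 2 = 0
      · rw [if_pos (by simpa using hk)]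
        rcases lt_or_ge x k with hxk | hxk
        · exact good_eL hk hxk (ih x (by omega))
        · exact good_new hk hxk (by omega)
      · rw [if_neg (by simpa using hk)]
        exact ih x (by omega)
  intro x hx
  exact h k x (by omega)

lemma rowL_congr {w w' : ℕ → Bool} {k : ℕ} (h : ∀ j < k, w j = w' j) (t : St) :
    rowL w k t = rowL w' k t := by
  induction k with
  | zero => rfl
  | succ k ih =>
    simp only [rowL]
    rw [ih fun j hj => h j (by omega), h k (by omega)]

lemma trow_congr {w w' : ℕ → Bool} (h : ∀ j < L, w j = w' j) (t : St) :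
    trow L w t = trow L w' t := by
  unfold trow
  rw [rowL_congr h]

end AnnB

open AnnB

/-- The alternating row resets the state. -/
theorem trow_reset (h : IsAnn L s) :
    trow L (fun k => decide (k % 2 = 0)) s = s0 L := by
  have hL : L % 2 = 0 := h.nc.even
  have hg : ∀ x, x < L → Good x (eL L (rowL (fun k => decide (k % 2 = 0)) L (cupL L s))) :=
    fun x hx => good_eL hL hx (good_rowL _ L x hx)
  unfold trow resL s0
  refine Prod.ext ?_ ?_
  · funext x
    unfold resP flatE
    simp only
    split_ifs with h1 h2 h3 h4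
    · omega
    · have := (hg x h1).1
      rwa [if_pos h3] at this
    · have := (hg x h1).1
      rwa [if_neg h3] at this
    · rfl
    · omega
    · omega
  · funext x
    simp only
    split_ifs with h1
    · exact (hg x h1).2
    · rfl

namespace AnnB

lemma norm_v0_sub_le (s s' : St) : ‖v0 s - v0 s'‖ ≤ 1 := by
  unfold v0
  split_ifs <;> simp

end AnnB

/-- Doeblin's argument: the dependence on the initial state is forgotten. -/
theorem avgL_iterate_sub_le {s s' : St} (h : IsAnn L s) (h' : IsAnn L s') (M : ℕ) :
    ‖((avgL L)^[M] v0) s - ((avgL L)^[M] v0) s'‖ ≤ (1 - 1 / 2 ^ L) ^ M := by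
  induction M generalizing s s' with
  | zero => simpa using norm_v0_sub_le s s'
  | succ M ih =>
    rw [Function.iterate_succ_apply']
    set f := (avgL L)^[M] v0 with hf
    unfold avgL
    rw [← sub_div, ← Finset.sum_sub_distrib]
    set T0 : Finset ℕ := (range L).filter (fun k => k % 2 = 0) with hT0
    have hT0m : T0 ∈ (range L).powerset := by
      rw [Finset.mem_powerset]
      exact Finset.filter_subset _ _
    have hreset : ∀ t : St, IsAnn L t → trow L (fun k => decide (k ∈ T0)) t = s0 L := by
      intro t ht
      rw [← trow_reset ht]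
      refine trow_congr (fun j hj => ?_) t
      simp [hT0, hj]
    have hpow : (0 : ℝ) ≤ 1 - 1 / 2 ^ L := by
      rw [sub_nonneg, div_le_one (by positivity)]
      exact one_le_pow₀ (by norm_num)
    rw [norm_div]
    have h2 : ‖(2 : ℂ) ^ L‖ = 2 ^ L := by simp
    rw [h2, div_le_iff₀ (by positivity)]
    have h3 : ‖∑ T ∈ (range L).powerset, (f (trow L (fun k => decide (k ∈ T)) s)
        - f (trow L (fun k => decide (k ∈ T)) s'))‖
        ≤ ∑ T ∈ (range L).powerset, if T = T0 then (0 : ℝ) else (1 - 1 / 2 ^ L) ^ M := by
      refine (norm_sum_le _ _).trans (Finset.sum_le_sum fun T _ => ?_)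
      split_ifs with hT
      · rw [hT, hreset s h, hreset s' h', sub_self, norm_zero]
      · exact ih (h.trow _) (h'.trow _)
    refine h3.trans (le_of_eq ?_)
    rw [← Finset.sum_erase_add _ _ hT0m, if_pos rfl, add_zero]
    have h4 : ∀ T ∈ (range L).powerset.erase T0, (if T = T0 then (0 : ℝ) else (1 - 1 / 2 ^ L) ^ M)
        = (1 - 1 / 2 ^ L) ^ M := fun T hT => if_neg (Finset.ne_of_mem_erase hT)
    rw [Finset.sum_congr rfl h4, Finset.sum_const, Finset.card_erase_of_mem hT0m, Finset.card_powerset,
      Finset.card_range, nsmul_eq_mul, pow_succ, Nat.cast_sub Nat.one_le_two_pow]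
    push_cast
    have : (2 : ℝ) ^ L ≠ 0 := by positivity
    field_simp

end Pool.Agent.Perc
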