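import Pool.Agent.Lib.MP_6bd702_perc.Spin

/-!
# Link patterns on the half-infinite cylinder: definitions

A state is a link pattern together with a label of the arcs: the arc of `x` has the label `true` if
it separates the seam (the gap `0`) from the point at infinity of the cylinder. The point at
infinity lies in the region of some gap `g`, and the arcs with label `true` are those which enclose
`g`.
-/

set_option autoImplicit false

namespace Pool.Agent.Perc

open Finset Function

/-- States: a link pattern and the labels. -/
abbrev St := (ℕ → ℕ) × (ℕ → Bool)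

/-- The Temperley-Lieb generator on states. -/
def eL (i : ℕ) (s : St) : St :=
  (eAct i s.1, fun x => if x = i ∨ x = i + 1 then false
    else if s.1 x = i ∨ s.1 x = i + 1 then xor (s.2 i) (s.2 (i + 1)) else s.2 x)

/-- A new strand across the seam. -/
def cupL (L : ℕ) (s : St) : St :=
  (cupO L s.1, fun x => if x = 0 ∨ x = L + 1 then true
    else if x < L + 1 then s.2 (x - 1) else false)

/-- Forget the last two sites. -/
def resL (L : ℕ) (s : St) : St := (resP L s.1, fun x => if x < L then s.2 x else false)

/-- The faces `0, …, k - 1` of a row; `w i = true` if the face `i` acts by `e_i`. -/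
def rowL (w : ℕ → Bool) : ℕ → St → St
  | 0, s => s
  | k + 1, s => if w k then eL k (rowL w k s) else rowL w k s

/-- One row of the cylinder of circumference `L`. -/
def trow (L : ℕ) (w : ℕ → Bool) (s : St) : St := resL L (eL L (rowL w L (cupL L s)))

/-- The gap `g` marks the region of the point at infinity. -/
def Marks (N : ℕ) (s : St) (g : ℕ) : Prop :=
  g ≤ N ∧ ∀ x < N, (s.2 x = true ↔ ¬ (x < g ↔ s.1 x < g))

structure IsAnn (N : ℕ) (s : St) : Prop where
  nc : NC N s.1
  out : ∀ x, N ≤ x → s.2 x = false
  mark : ∃ g, Marks N s g

open Classical in
/-- `1` if the gap `0` is not separated from infinity. -/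
noncomputable def v0 (s : St) : ℂ := if s.2 = fun _ => false then 1 else 0

/-- Average over the configurations of a row. -/
noncomputable def avgL (L : ℕ) (f : St → ℂ) (s : St) : ℂ :=
  (∑ T ∈ (range L).powerset, f (trow L (fun k => decide (k ∈ T)) s)) / 2 ^ L

/-- The initial state. -/
def s0 (L : ℕ) : St := (flatE L, fun _ => false)

/-- How the marked gap moves under `e_i`. -/
def gmove (i : ℕ) (p : ℕ → ℕ) (g : ℕ) : ℕ :=
  if g ≠ i + 1 then g else if p i = i + 1 then i else p (i + 1) + 1

end Pool.Agent.Perc
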