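import Pool.Agent.Lib.MP_6bd702_perc.BoxDefs2

/-!
# Elementary facts on the clusters of the box (used in BoxA, BoxB, BoxC)
-/

set_option autoImplicit false

namespace Pool.Agent.Perc.BoxAux

open Finset

lemma adjT_symm {T : Finset Edg} {u v : ℤ × ℤ} (h : AdjT T u v) : AdjT T v u := by
  obtain ⟨e, he, h | h⟩ := h
  · exact ⟨e, he, Or.inr h⟩
  · exact ⟨e, he, Or.inl h⟩

lemma mem_clV_self (T : Finset Edg) (u : ℤ × ℤ) : u ∈ clV T u := Relation.ReflTransGen.refl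

lemma clV_symm {T : Finset Edg} {u v : ℤ × ℤ} (h : v ∈ clV T u) : u ∈ clV T v := by
  induction h with
  | refl => exact Relation.ReflTransGen.refl
  | tail _ h ih => exact Relation.ReflTransGen.head (adjT_symm h) ih

lemma clV_eq {T : Finset Edg} {u v : ℤ × ℤ} (h : v ∈ clV T u) : clV T v = clV T u := by
  ext w
  exact ⟨fun hw => Relation.ReflTransGen.trans h hw,
    fun hw => Relation.ReflTransGen.trans (clV_symm h) hw⟩

lemma clS_eq {T : Finset Edg} {u v : ℤ × ℤ} (h : v ∈ clV T u) : clS T v = clS T u := by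
  unfold clS
  rw [clV_eq h]

lemma outer_eq {T : Finset Edg} {u v : ℤ × ℤ} (h : v ∈ clV T u) (f : ℤ × ℤ) :
    Outer T v f ↔ Outer T u f := by
  unfold Outer
  rw [clS_eq h]

lemma perim_eq {T : Finset Edg} {u v : ℤ × ℤ} (h : v ∈ clV T u) : perim T v = perim T u := by
  unfold perim Outer
  rw [clS_eq h, clV_eq h]

lemma adj_of_mem {T : Finset Edg} {e : Edg} (he : e ∈ T) : AdjT T (tl e) (hd e) :=
  ⟨e, he, Or.inl ⟨rfl, rfl⟩⟩

lemma tl_mem_iff {T : Finset Edg} {e : Edg} (he : e ∈ T) {u : ℤ × ℤ} :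
    tl e ∈ clV T u ↔ hd e ∈ clV T u :=
  ⟨fun h => Relation.ReflTransGen.tail h (adj_of_mem he),
    fun h => Relation.ReflTransGen.tail h (adjT_symm (adj_of_mem he))⟩

lemma adjT_mono {T T' : Finset Edg} (h : T ⊆ T') {u v : ℤ × ℤ} (h1 : AdjT T u v) : AdjT T' u v := by
  obtain ⟨e, he, h2⟩ := h1
  exact ⟨e, h he, h2⟩

lemma clV_mono {T T' : Finset Edg} (h : T ⊆ T') (u : ℤ × ℤ) : clV T u ⊆ clV T' u := by
  intro w hw
  induction hw with
  | refl => exact Relation.ReflTransGen.refl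
  | tail _ h1 ih => exact Relation.ReflTransGen.tail ih (adjT_mono h h1)

lemma mem_clS {T : Finset Edg} {u : ℤ × ℤ} {z : ℂ} : z ∈ clS T u ↔
    (∃ w ∈ clV T u, toC w = z) ∨ ∃ e ∈ T, tl e ∈ clV T u ∧ z ∈ segment ℝ (toC (tl e)) (toC (hd e)) := by
  unfold clS
  simp only [Set.mem_union, Set.mem_image, Set.mem_iUnion, exists_prop]

lemma clS_mono {T T' : Finset Edg} (h : T ⊆ T') (u : ℤ × ℤ) : clS T u ⊆ clS T' u := by
  intro z hz
  rw [mem_clS] at hz ⊢
  rcases hz with ⟨w, hw, h1⟩ | ⟨e, he, h1, h2⟩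
  · exact Or.inl ⟨w, clV_mono h u hw, h1⟩
  · exact Or.inr ⟨e, h he, clV_mono h u h1, h2⟩

lemma mem_boxE {n : ℕ} {e : Edg} : e ∈ boxE n ↔ tl e ∈ Box n ∧ hd e ∈ Box n := by
  unfold boxE Box tl
  simp only [mem_filter, mem_product, mem_Icc, mem_univ, and_true]

lemma clV_subset_box {n : ℕ} {T : Finset Edg} (hT : T ⊆ boxE n) {v : ℤ × ℤ} (hv : v ∈ Box n) :
    clV T v ⊆ (Box n : Set (ℤ × ℤ)) := by
  intro w hw
  induction hw with
  | refl => exact hv
  | tail _ h _ =>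
    obtain ⟨e, he, ⟨_, h1⟩ | ⟨h1, _⟩⟩ := h
    · rw [← h1]; exact (mem_boxE.mp (hT he)).2
    · rw [← h1]; exact (mem_boxE.mp (hT he)).1

lemma clV_finite {n : ℕ} {T : Finset Edg} (hT : T ⊆ boxE n) {v : ℤ × ℤ} (hv : v ∈ Box n) :
    (clV T v).Finite := (Box n).finite_toSet.subset (clV_subset_box hT hv)

lemma clS_bounded {n : ℕ} {T : Finset Edg} (hT : T ⊆ boxE n) {v : ℤ × ℤ} (hv : v ∈ Box n) :
    Bornology.IsBounded (clS T v) := by
  unfold clS
  refine ((clV_finite hT hv).image _).isBounded.union ?_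
  refine (Bornology.isBounded_biUnion_finset T).mpr fun e _ => ?_
  refine Bornology.IsBounded.subset ?_ (Set.iUnion_subset fun _ => subset_rfl)
  rw [segment_eq_image]
  exact (isCompact_Icc.image (by fun_prop)).isBounded

lemma small_mono {n : ℕ} {T T' : Finset Edg} (h : T ⊆ T') (hT' : T' ⊆ boxE n) (hs : Small n T') :
    Small n T := by
  intro v hv
  exact (Metric.diam_mono (clS_mono h v) (clS_bounded hT' hv)).trans_lt (hs v hv)

end Pool.Agent.Perc.BoxAux
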