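import Pool.Agent.Lib.MP_6bd702_perc.BoxDefs2
import Pool.Agent.Lib.MP_6bd702_perc.BoxAux

/-!
# Perimeters and outer vertices (task BoxB)
-/

set_option autoImplicit false

namespace Pool.Agent.Perc

open Finset

namespace BoxB

open BoxAux

lemma outer_move {T : Finset Edg} {u f f' : ℤ × ℤ} (h : Outer T u f)
    (hseg : segment ℝ (ctr f) (ctr f') ⊆ (clS T u)ᶜ) : Outer T u f' := by
  have h1 : IsPreconnected (segment ℝ (ctr f) (ctr f')) := (convex_segment _ _).isPreconnected
  have h2 := h1.subset_connectedComponentIn (left_mem_segment ℝ _ _) hseg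
  have h3 := connectedComponentIn_eq (h2 (right_mem_segment ℝ _ _))
  unfold Outer at h ⊢
  rwa [← h3]

/-- the points of the cluster -/
lemma clS_coord {T : Finset Edg} {u : ℤ × ℤ} {z : ℂ} (hz : z ∈ clS T u) :
    (∃ a b : ℤ, z.re = a ∧ z.im = b) ∨
    (∃ a b : ℤ, (a, b, true) ∈ T ∧ z.re = a ∧ (b : ℝ) ≤ z.im ∧ z.im ≤ b + 1) ∨
    (∃ a b : ℤ, (a, b, false) ∈ T ∧ z.im = b ∧ (a : ℝ) ≤ z.re ∧ z.re ≤ a + 1) := by
  rw [mem_clS] at hz
  rcases hz with ⟨w, _, h⟩ | ⟨⟨a, b, c⟩, he, _, h⟩
  · left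
    refine ⟨w.1, w.2, ?_, ?_⟩ <;> rw [← h] <;> simp [toC]
  · right
    rw [segment_eq_image] at h
    obtain ⟨t, ⟨ht0, ht1⟩, rfl⟩ := h
    cases c
    · right
      refine ⟨a, b, he, ?_⟩
      simp only [tl, hd, toC]
      simp
      constructor
      · ring
      · constructor <;> nlinarith
    · left
      refine ⟨a, b, he, ?_⟩
      simp only [tl, hd, toC]
      simp
      constructor
      · ring
      · constructor <;> nlinarith

/-- crossing a vertical edge -/
lemma seg_vert {T : Finset Edg} {u : ℤ × ℤ} {x y : ℤ} (h : (x, y, true) ∉ T) :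
    segment ℝ (ctr (x - 1, y)) (ctr (x, y)) ⊆ (clS T u)ᶜ := by
  intro z hz hz'
  rw [segment_eq_image] at hz
  obtain ⟨t, ⟨ht0, ht1⟩, rfl⟩ := hz
  have hre : ((1 - t) • ctr (x - 1, y) + t • ctr (x, y)).re = x - 1 / 2 + t := by
    simp [ctr, toC]; ring
  have him : ((1 - t) • ctr (x - 1, y) + t • ctr (x, y)).im = y + 1 / 2 := by
    simp [ctr, toC]; ring
  have hc := clS_coord hz'
  simp only at hc
  rw [hre, him] at hc
  rcases hc with ⟨a, b, _, h2⟩ | ⟨a, b, h1, h2, h3, h4⟩ | ⟨a, b, _, h2, _, _⟩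
  · have : ((2 * (b - y) : ℤ) : ℝ) = 1 := by push_cast; linarith
    have h5 : 2 * (b - y) = 1 := by exact_mod_cast this
    omega
  · have hb : b = y := by
      have e1 : (b : ℝ) < ((y + 1 : ℤ) : ℝ) := by push_cast; linarith
      have e2 : (y : ℝ) < ((b + 1 : ℤ) : ℝ) := by push_cast; linarith
      have e3 : b < y + 1 := by exact_mod_cast e1
      have e4 : y < b + 1 := by exact_mod_cast e2
      omega
    have ha : a = x := by
      have e1 : ((x - 1 : ℤ) : ℝ) < (a : ℝ) := by push_cast; linarith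
      have e2 : (a : ℝ) < ((x + 1 : ℤ) : ℝ) := by push_cast; linarith
      have e3 : x - 1 < a := by exact_mod_cast e1
      have e4 : a < x + 1 := by exact_mod_cast e2
      omega
    rw [ha, hb] at h1
    exact h h1
  · have : ((2 * (b - y) : ℤ) : ℝ) = 1 := by push_cast; linarith
    have h5 : 2 * (b - y) = 1 := by exact_mod_cast this
    omega

/-- crossing a horizontal edge -/
lemma seg_hor {T : Finset Edg} {u : ℤ × ℤ} {x y : ℤ} (h : (x, y, false) ∉ T) :
    segment ℝ (ctr (x, y - 1)) (ctr (x, y)) ⊆ (clS T u)ᶜ := by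
  intro z hz hz'
  rw [segment_eq_image] at hz
  obtain ⟨t, ⟨ht0, ht1⟩, rfl⟩ := hz
  have hre : ((1 - t) • ctr (x, y - 1) + t • ctr (x, y)).re = x + 1 / 2 := by
    simp [ctr, toC]; ring
  have him : ((1 - t) • ctr (x, y - 1) + t • ctr (x, y)).im = y - 1 / 2 + t := by
    simp [ctr, toC]; ring
  have hc := clS_coord hz'
  simp only at hc
  rw [hre, him] at hc
  rcases hc with ⟨a, b, h2, _⟩ | ⟨a, b, _, h2, _, _⟩ | ⟨a, b, h1, h2, h3, h4⟩
  · have : ((2 * (a - x) : ℤ) : ℝ) = 1 := by push_cast; linarith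
    have h5 : 2 * (a - x) = 1 := by exact_mod_cast this
    omega
  · have : ((2 * (a - x) : ℤ) : ℝ) = 1 := by push_cast; linarith
    have h5 : 2 * (a - x) = 1 := by exact_mod_cast this
    omega
  · have ha : a = x := by
      have e1 : (a : ℝ) < ((x + 1 : ℤ) : ℝ) := by push_cast; linarith
      have e2 : (x : ℝ) < ((a + 1 : ℤ) : ℝ) := by push_cast; linarith
      have e3 : a < x + 1 := by exact_mod_cast e1
      have e4 : x < a + 1 := by exact_mod_cast e2
      omega
    have hb : b = y := by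
      have e1 : ((y - 1 : ℤ) : ℝ) < (b : ℝ) := by push_cast; linarith
      have e2 : (b : ℝ) < ((y + 1 : ℤ) : ℝ) := by push_cast; linarith
      have e3 : y - 1 < b := by exact_mod_cast e1
      have e4 : b < y + 1 := by exact_mod_cast e2
      omega
    rw [ha, hb] at h1
    exact h h1

/-- going around the vertex `v` -/
lemma exists_side {T : Finset Edg} {v : ℤ × ℤ} (ho : Outer T v v)
    (hne : ∃ e ∈ T, tl e = v ∨ hd e = v) :
    ∃ e ∈ T, ∃ b : Bool, (tl e = v ∨ hd e = v) ∧ Outer T v (side e b) := by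
  obtain ⟨x, y⟩ := v
  by_cases h1 : (x, y, true) ∈ T
  · exact ⟨_, h1, true, Or.inl rfl, ho⟩
  have o1 : Outer T (x, y) (x - 1, y) := by
    refine outer_move ho ?_
    rw [segment_symm]
    exact seg_vert h1
  by_cases h2 : (x - 1, y, false) ∈ T
  · refine ⟨_, h2, true, Or.inr ?_, o1⟩
    simp [hd]
  have o2 : Outer T (x, y) (x - 1, y - 1) := by
    refine outer_move o1 ?_
    rw [segment_symm]
    exact seg_hor h2
  by_cases h3 : (x, y - 1, true) ∈ T
  · refine ⟨_, h3, false, Or.inr ?_, o2⟩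
    simp [hd]
  have o3 : Outer T (x, y) (x, y - 1) := outer_move o2 (seg_vert h3)
  by_cases h4 : (x, y, false) ∈ T
  · exact ⟨_, h4, false, Or.inl rfl, o3⟩
  exfalso
  obtain ⟨⟨a, b, c⟩, he, h5⟩ := hne
  cases c
  · rcases h5 with h5 | h5
    · simp only [tl, Prod.mk.injEq] at h5
      obtain ⟨rfl, rfl⟩ := h5
      exact h4 he
    · simp only [hd, Prod.mk.injEq, Bool.false_eq_true, if_false] at h5
      obtain ⟨h6, rfl⟩ := h5
      have : a = x - 1 := by omega
      rw [this] at he
      exact h2 he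
  · rcases h5 with h5 | h5
    · simp only [tl, Prod.mk.injEq] at h5
      obtain ⟨rfl, rfl⟩ := h5
      exact h1 he
    · simp only [hd, Prod.mk.injEq, if_true] at h5
      obtain ⟨rfl, h6⟩ := h5
      have : b = y - 1 := by omega
      rw [this] at he
      exact h3 he

/-- a cluster of positive diameter has an edge at each of its vertices -/
lemma exists_edge {T : Finset Edg} {v : ℤ × ℤ} (h : 0 < Metric.diam (clS T v)) :
    ∃ e ∈ T, tl e = v ∨ hd e = v := by
  by_contra hcon
  push Not at hcon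
  have h1 : clV T v = {v} := by
    apply Set.Subset.antisymm
    · intro z hz
      induction hz with
      | refl => rfl
      | tail _ h2 ih =>
        rw [Set.mem_singleton_iff] at ih
        subst ih
        obtain ⟨e, he, h2⟩ := h2
        have := hcon e he
        rcases h2 with ⟨h, _⟩ | ⟨_, h⟩
        · exact absurd h this.1
        · exact absurd h this.2
    · rintro z rfl
      exact mem_clV_self _ _
  have h2 : clS T v ⊆ {toC v} := by
    intro z hz
    rw [mem_clS, h1] at hz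
    rcases hz with ⟨u, hu, hz'⟩ | ⟨e, he, h2, _⟩
    · rw [Set.mem_singleton_iff] at hu
      rw [Set.mem_singleton_iff, ← hz', hu]
    · exact absurd h2 (hcon e he).1
  have h3 := Metric.diam_subsingleton (Set.subsingleton_singleton.anti h2)
  linarith

/-- every cluster has a distinguished vertex -/
lemma exists_rep {n : ℕ} {T : Finset Edg} (hT : T ⊆ boxE n) {v : ℤ × ℤ} (hv : v ∈ Box n) :
    ∃ r ∈ Box n, IsRep n T r ∧ r ∈ clV T v := by
  classical
  have hne : ((clV_finite hT hv).toFinset).Nonempty :=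
    ⟨v, (clV_finite hT hv).mem_toFinset.mpr (mem_clV_self _ _)⟩
  obtain ⟨r, hr, hmin⟩ := Finset.exists_min_image _ (fun w : ℤ × ℤ => toLex (w.1, w.2)) hne
  rw [Set.Finite.mem_toFinset] at hr
  refine ⟨r, clV_subset_box hT hv hr, ⟨clV_subset_box hT hv hr, fun w hw => ?_⟩, hr⟩
  have hw' : w ∈ clV T v := by
    rw [← clV_eq hr]; exact hw
  have h1 := hmin w ((clV_finite hT hv).mem_toFinset.mpr hw')
  rw [Prod.Lex.toLex_le_toLex] at h1
  exact h1

end BoxB

open BoxB BoxAux in
open Classical in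
/-- B2: the perimeters are bounded below by the number of vertices next to the unbounded
component. -/
theorem bigPerim_ge (n : ℕ) (hn : 8 ≤ n) (T : Finset Edg) (hT : T ⊆ boxE n) :
    (((Box n).filter fun v => (n : ℝ) / 8 ≤ Metric.diam (clS T v) ∧ Outer T v v).card : ℝ) / 2 ≤
      bigPerim n T := by
  set V := (Box n).filter fun v => (n : ℝ) / 8 ≤ Metric.diam (clS T v) ∧ Outer T v v with hV
  set Q : Finset (Edg × Bool) := (T ×ˢ (univ : Finset Bool)).filter fun x =>
    (n : ℝ) / 8 ≤ Metric.diam (clS T (tl x.1)) ∧ Outer T (tl x.1) (side x.1 x.2) with hQ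
  have hn' : (8 : ℝ) ≤ n := by exact_mod_cast hn
  -- each vertex has a counted side
  have hex : ∀ v ∈ V, ∃ x ∈ Q, tl x.1 = v ∨ hd x.1 = v := by
    intro v hv
    rw [hV, mem_filter] at hv
    obtain ⟨hv1, hv2, hv3⟩ := hv
    obtain ⟨e, he, b, h1, h2⟩ := exists_side hv3 (exists_edge (by linarith))
    refine ⟨(e, b), ?_, h1⟩
    have h3 : tl e ∈ clV T v := by
      rcases h1 with h1 | h1
      · rw [h1]; exact mem_clV_self _ _
      · rw [tl_mem_iff he, h1]; exact mem_clV_self _ _
    rw [hQ, mem_filter, mem_product]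
    refine ⟨⟨he, mem_univ _⟩, ?_, ?_⟩
    · show (n : ℝ) / 8 ≤ Metric.diam (clS T (tl e))
      rw [clS_eq h3]; exact hv2
    · exact (outer_eq h3 _).mpr h2
  -- counting
  have hcount : V.card ≤ Q.card * 2 := by
    have hsub : V ⊆ Q.biUnion fun x => {tl x.1, hd x.1} := by
      intro v hv
      obtain ⟨x, hx, h1⟩ := hex v hv
      rw [mem_biUnion]
      refine ⟨x, hx, ?_⟩
      rw [mem_insert, mem_singleton]
      rcases h1 with h1 | h1
      · exact Or.inl h1.symm
      · exact Or.inr h1.symm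
    refine (card_le_card hsub).trans ?_
    refine card_biUnion_le_card_mul _ _ _ fun x _ => ?_
    exact (card_insert_le _ _).trans (by simp)
  have hQle : Q.card ≤ bigPerim n T := by
    unfold bigPerim perim
    have hsub : Q ⊆ ((Box n).filter fun v => IsRep n T v ∧
        (n : ℝ) / 8 ≤ Metric.diam (clS T v)).biUnion fun r =>
          (T ×ˢ (univ : Finset Bool)).filter fun x => tl x.1 ∈ clV T r ∧
            Outer T r (side x.1 x.2) := by
      intro x hx
      rw [hQ, mem_filter, mem_product] at hx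
      obtain ⟨⟨hx1, _⟩, hx2, hx3⟩ := hx
      obtain ⟨r, hr, hrep, hr1⟩ := exists_rep hT (mem_boxE.mp (hT hx1)).1
      rw [mem_biUnion]
      refine ⟨r, ?_, ?_⟩
      · rw [mem_filter, clS_eq hr1]
        exact ⟨hr, hrep, hx2⟩
      · rw [mem_filter, mem_product, outer_eq hr1]
        exact ⟨⟨hx1, mem_univ _⟩, clV_symm hr1, hx3⟩
    exact (card_le_card hsub).trans card_biUnion_le
  have h1 : (V.card : ℝ) ≤ (Q.card : ℝ) * 2 := by exact_mod_cast hcount
  have h2 : (Q.card : ℝ) ≤ (bigPerim n T : ℝ) := by exact_mod_cast hQle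
  linarith

end Pool.Agent.Perc
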