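import Pool.Agent.Lib.MP_6bd702_perc.BoxDefs2
import Pool.Agent.Lib.MP_6bd702_perc.BoxAux

/-!
# Positivity for small boxes (task BoxC)
-/

set_option autoImplicit false

namespace Pool.Agent.Perc

open Finset

namespace BoxC

open BoxAux

/-- the first edge -/
def e0 : Edg := (0, 0, false)

lemma tl_e0 : tl e0 = (0, 0) := rfl
lemma hd_e0 : hd e0 = (1, 0) := rfl

lemma e0_mem {n : ℕ} (hn : 0 < n) : e0 ∈ boxE n := by
  rw [mem_boxE, tl_e0, hd_e0]
  unfold Box
  simp only [mem_product, mem_Icc]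
  omega

lemma toC_zero : toC (0, 0) = 0 := by unfold toC; simp
lemma toC_one : toC (1, 0) = 1 := by unfold toC; simp

lemma clV_e0 : clV {e0} (0, 0) = {(0, 0), (1, 0)} := by
  apply Set.Subset.antisymm
  · intro w hw
    induction hw with
    | refl => exact Or.inl rfl
    | tail _ h1 _ =>
      obtain ⟨e, he, h2⟩ := h1
      rw [mem_singleton] at he
      subst he
      rw [tl_e0, hd_e0] at h2
      rcases h2 with ⟨_, h⟩ | ⟨h, _⟩
      · exact Or.inr h.symm
      · exact Or.inl h.symm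
  · rintro w (rfl | rfl)
    · exact mem_clV_self _ _
    · exact Relation.ReflTransGen.single ⟨e0, mem_singleton_self _, Or.inl ⟨rfl, rfl⟩⟩

lemma clV_other {w : ℤ × ℤ} (h0 : w ≠ (0, 0)) (h1 : w ≠ (1, 0)) : clV {e0} w = {w} := by
  apply Set.Subset.antisymm
  · intro z hz
    induction hz with
    | refl => rfl
    | tail _ h2 ih =>
      rw [Set.mem_singleton_iff] at ih
      subst ih
      obtain ⟨e, he, h2⟩ := h2
      rw [mem_singleton] at he
      subst he
      rw [tl_e0, hd_e0] at h2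
      rcases h2 with ⟨h, _⟩ | ⟨_, h⟩
      · exact absurd h.symm h0
      · exact absurd h.symm h1
  · rintro z rfl
    exact mem_clV_self _ _

lemma clS_im {z : ℂ} (hz : z ∈ clS {e0} (0, 0)) : z.im = 0 := by
  rw [mem_clS] at hz
  rcases hz with ⟨w, hw, h⟩ | ⟨e, he, _, h⟩
  · rw [clV_e0] at hw
    rcases hw with rfl | rfl
    · rw [← h, toC_zero]; simp
    · rw [← h, toC_one]; simp
  · rw [mem_singleton] at he
    subst he
    rw [tl_e0, hd_e0, toC_zero, toC_one, segment_eq_image] at h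
    obtain ⟨t, _, rfl⟩ := h
    simp

lemma zero_mem : (0 : ℂ) ∈ clS {e0} (0, 0) :=
  mem_clS.mpr (Or.inl ⟨(0, 0), mem_clV_self _ _, toC_zero⟩)

lemma one_mem : (1 : ℂ) ∈ clS {e0} (0, 0) :=
  mem_clS.mpr (Or.inl ⟨(1, 0), by rw [clV_e0]; exact Or.inr rfl, toC_one⟩)

lemma diam_other {w : ℤ × ℤ} (h0 : w ≠ (0, 0)) (h1 : w ≠ (1, 0)) :
    Metric.diam (clS {e0} w) = 0 := by
  have h : clS {e0} w ⊆ {toC w} := by
    intro z hz
    rw [mem_clS, clV_other h0 h1] at hz
    rcases hz with ⟨u, hu, h⟩ | ⟨e, he, h2, _⟩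
    · rw [Set.mem_singleton_iff] at hu
      subst hu
      exact h.symm
    · rw [mem_singleton] at he
      subst he
      rw [Set.mem_singleton_iff, tl_e0] at h2
      exact absurd h2.symm h0
  exact Metric.diam_subsingleton (Set.subsingleton_singleton.anti h)

/-- the square above the edge is in the unbounded component -/
lemma outer_e0 : Outer {e0} (0, 0) (side e0 true) := by
  unfold Outer
  have hs : side e0 true = (0, 0) := rfl
  rw [hs]
  set ray : Set ℂ := (fun t : ℝ => (1 / 2 : ℂ) + t * Complex.I) '' Set.Ici (1 / 2) with hray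
  have hc : ctr (0, 0) ∈ ray := by
    refine ⟨1 / 2, Set.mem_Ici.mpr le_rfl, ?_⟩
    unfold ctr
    rw [toC_zero]
    push_cast
    ring
  have hconn : IsPreconnected ray :=
    isPreconnected_Ici.image _ (Continuous.continuousOn (by fun_prop))
  have hsub : ray ⊆ (clS {e0} (0, 0))ᶜ := by
    rintro z ⟨t, ht, rfl⟩ hz
    have h1 := clS_im hz
    simp at h1
    rw [Set.mem_Ici] at ht
    linarith
  have h2 := hconn.subset_connectedComponentIn hc hsub
  intro hb
  have h3 := hb.subset h2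
  obtain ⟨C, hC⟩ := h3.exists_norm_le
  have h4 := hC ((1 / 2 : ℂ) + ((|C| + 1 : ℝ) : ℂ) * Complex.I) ⟨|C| + 1, by
    rw [Set.mem_Ici]; have := abs_nonneg C; linarith, rfl⟩
  have h5 := Complex.abs_im_le_norm ((1 / 2 : ℂ) + ((|C| + 1 : ℝ) : ℂ) * Complex.I)
  have h6 : ((1 / 2 : ℂ) + ((|C| + 1 : ℝ) : ℂ) * Complex.I).im = |C| + 1 := by simp
  rw [h6, abs_of_nonneg (by positivity)] at h5
  have := le_abs_self C
  linarith

end BoxC

open BoxC BoxAux in
/-- The expected perimeter of the largest cluster is positive. -/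
theorem exB_perim_pos (n : ℕ) (hn : 0 < n) (sel : Finset Edg → ℤ × ℤ)
    (hsel : ∀ T ⊆ boxE n, sel T ∈ Box n ∧
      ∀ v ∈ Box n, Metric.diam (clS T v) ≤ Metric.diam (clS T (sel T))) :
    1 / 2 ^ (boxE n).card ≤ exB n (fun T => (perim T (sel T) : ℝ)) := by
  classical
  have hT0 : ({e0} : Finset Edg) ⊆ boxE n := by
    rw [singleton_subset_iff]; exact e0_mem hn
  have hv0 : ((0, 0) : ℤ × ℤ) ∈ Box n := by
    have := (mem_boxE.mp (e0_mem hn)).1
    rwa [tl_e0] at this
  have hdiam : 1 ≤ Metric.diam (clS {e0} (0, 0)) := by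
    have := Metric.dist_le_diam_of_mem (clS_bounded hT0 hv0) one_mem zero_mem
    simpa using this
  have hsel0 : sel {e0} ∈ clV {e0} (0, 0) := by
    have h1 := (hsel {e0} hT0).2 _ hv0
    rw [clV_e0]
    by_contra hc
    have h2 : sel {e0} ≠ (0, 0) := fun h => hc (Or.inl h)
    have h3 : sel {e0} ≠ (1, 0) := fun h => hc (Or.inr h)
    rw [diam_other h2 h3] at h1
    linarith
  have hperim : 1 ≤ perim {e0} (sel {e0}) := by
    rw [perim_eq hsel0]
    unfold perim
    rw [Nat.one_le_iff_ne_zero, ← Nat.pos_iff_ne_zero, card_pos]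
    refine ⟨(e0, true), ?_⟩
    rw [mem_filter, mem_product]
    exact ⟨⟨mem_singleton_self _, mem_univ _⟩, mem_clV_self _ _, outer_e0⟩
  unfold exB
  refine div_le_div_of_nonneg_right ?_ (by positivity)
  calc (1 : ℝ) ≤ (perim {e0} (sel {e0}) : ℝ) := by exact_mod_cast hperim
    _ ≤ _ := Finset.single_le_sum (f := fun T => (perim T (sel T) : ℝ)) (fun T _ => by positivity)
        (mem_powerset.mpr hT0)

end Pool.Agent.Perc
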