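import Pool.Agent.Lib.MP_6bd702_perc.BoxDefs2
import Pool.Agent.Lib.MP_6bd702_perc.BoxAux

/-!
# Conditioning on a large cluster (task BoxA)
-/

set_option autoImplicit false

namespace Pool.Agent.Perc

open Finset

namespace BoxA

open BoxAux

open Classical in
/-- the edges of the cluster -/
noncomputable def FF (T : Finset Edg) (v : ℤ × ℤ) : Finset Edg := T.filter fun e => tl e ∈ clV T v

open Classical in
/-- the edges of the box which do not touch the cluster -/
noncomputable def EE (n : ℕ) (T : Finset Edg) (v : ℤ × ℤ) : Finset Edg :=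
  (boxE n).filter fun e => tl e ∉ clV T v ∧ hd e ∉ clV T v

/-- replace the configuration away from the cluster -/
noncomputable def RR (n : ℕ) (v : ℤ × ℤ) (T S : Finset Edg) : Finset Edg :=
  FF T v ∪ (S ∩ EE n T v)

lemma mem_FF {T : Finset Edg} {v : ℤ × ℤ} {e : Edg} : e ∈ FF T v ↔ e ∈ T ∧ tl e ∈ clV T v := by
  classical
  unfold FF
  rw [mem_filter]

lemma mem_EE {n : ℕ} {T : Finset Edg} {v : ℤ × ℤ} {e : Edg} :
    e ∈ EE n T v ↔ e ∈ boxE n ∧ tl e ∉ clV T v ∧ hd e ∉ clV T v := by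
  classical
  unfold EE
  rw [mem_filter]

lemma mem_RR {n : ℕ} {v : ℤ × ℤ} {T S : Finset Edg} {e : Edg} :
    e ∈ RR n v T S ↔ (e ∈ T ∧ tl e ∈ clV T v) ∨
      (e ∈ S ∧ e ∈ boxE n ∧ tl e ∉ clV T v ∧ hd e ∉ clV T v) := by
  unfold RR
  rw [mem_union, mem_inter, mem_FF, mem_EE]

lemma RR_self {n : ℕ} {v : ℤ × ℤ} {T : Finset Edg} (hT : T ⊆ boxE n) : RR n v T T = T := by
  ext e
  rw [mem_RR]
  constructor
  · rintro (h | h)
    · exact h.1
    · exact h.1
  · intro he
    by_cases h : tl e ∈ clV T v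
    · exact Or.inl ⟨he, h⟩
    · exact Or.inr ⟨he, hT he, h, fun h' => h ((tl_mem_iff he).mpr h')⟩

lemma clV_RR (n : ℕ) (v : ℤ × ℤ) (T S : Finset Edg) : clV (RR n v T S) v = clV T v := by
  apply Set.Subset.antisymm
  · intro w hw
    induction hw with
    | refl => exact mem_clV_self _ _
    | tail _ h1 ih =>
      obtain ⟨e, he, h2⟩ := h1
      rw [mem_RR] at he
      rcases he with ⟨h3, h4⟩ | ⟨_, _, h3, h4⟩
      · rcases h2 with ⟨h5, h6⟩ | ⟨h5, h6⟩
        · rw [← h6]; exact (tl_mem_iff h3).mp h4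
        · rw [← h5]; exact h4
      · exfalso
        rcases h2 with ⟨h5, h6⟩ | ⟨h5, h6⟩
        · rw [h5] at h3; exact h3 ih
        · rw [h6] at h4; exact h4 ih
  · intro w hw
    have key : w ∈ clV T v ∧ w ∈ clV (RR n v T S) v := by
      induction hw with
      | refl => exact ⟨mem_clV_self _ _, mem_clV_self _ _⟩
      | tail h0 h1 ih =>
        refine ⟨Relation.ReflTransGen.tail ih.1 h1, Relation.ReflTransGen.tail ih.2 ?_⟩
        obtain ⟨e, he, h2⟩ := h1
        refine ⟨e, mem_RR.mpr (Or.inl ⟨he, ?_⟩), h2⟩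
        rcases h2 with ⟨h5, h6⟩ | ⟨h5, h6⟩
        · rw [h5]; exact ih.1
        · rw [tl_mem_iff he, h6]; exact ih.1
    exact key.2

lemma FF_RR (n : ℕ) (v : ℤ × ℤ) (T S : Finset Edg) : FF (RR n v T S) v = FF T v := by
  ext e
  rw [mem_FF, mem_FF, clV_RR, mem_RR]
  constructor
  · rintro ⟨h | h, h1⟩
    · exact h
    · exact absurd h1 h.2.2.1
  · intro h
    exact ⟨Or.inl h, h.2⟩

lemma EE_RR (n : ℕ) (v : ℤ × ℤ) (T S : Finset Edg) : EE n (RR n v T S) v = EE n T v := by
  ext e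
  rw [mem_EE, mem_EE, clV_RR]

lemma clS_FF (T : Finset Edg) (v : ℤ × ℤ) :
    clS T v = toC '' clV T v ∪ ⋃ e ∈ FF T v, segment ℝ (toC (tl e)) (toC (hd e)) := by
  ext z
  rw [mem_clS]
  simp only [Set.mem_union, Set.mem_image, Set.mem_iUnion, exists_prop, mem_FF, and_assoc]

lemma clS_RR (n : ℕ) (v : ℤ × ℤ) (T S : Finset Edg) : clS (RR n v T S) v = clS T v := by
  rw [clS_FF, clS_FF, FF_RR, clV_RR]

open Classical in
lemma perim_FF (T : Finset Edg) (v : ℤ × ℤ) : perim T v
    = ((FF T v ×ˢ (univ : Finset Bool)).filter fun x => Outer T v (side x.1 x.2)).card := by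
  unfold perim
  congr 1
  ext x
  simp only [mem_filter, mem_product, mem_univ, and_true, mem_FF]
  tauto

lemma perim_RR (n : ℕ) (v : ℤ × ℤ) (T S : Finset Edg) : perim (RR n v T S) v = perim T v := by
  classical
  rw [perim_FF, perim_FF, FF_RR]
  unfold Outer
  rw [clS_RR]

/-- the partner configuration -/
noncomputable def SS (n : ℕ) (v : ℤ × ℤ) (T S : Finset Edg) : Finset Edg :=
  (T ∩ EE n T v) ∪ (S \ EE n T v)

lemma RR_inter (n : ℕ) (v : ℤ × ℤ) (T S : Finset Edg) :
    RR n v T S ∩ EE n T v = S ∩ EE n T v := by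
  ext e
  rw [mem_inter, mem_inter, mem_RR, mem_EE]
  constructor
  · rintro ⟨h | h, h1⟩
    · exact absurd h.2 h1.2.1
    · exact ⟨h.1, h1⟩
  · rintro ⟨h, h1⟩
    exact ⟨Or.inr ⟨h, h1⟩, h1⟩

lemma RR_RR {n : ℕ} (v : ℤ × ℤ) {T : Finset Edg} (hT : T ⊆ boxE n) (S : Finset Edg) :
    RR n v (RR n v T S) (SS n v T S) = T := by
  have h1 : SS n v T S ∩ EE n T v = T ∩ EE n T v := by
    unfold SS
    ext e
    simp only [mem_inter, mem_union, mem_sdiff]
    tauto
  have h2 : RR n v (RR n v T S) (SS n v T S) = FF T v ∪ (SS n v T S ∩ EE n T v) := by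
    conv_lhs => unfold RR
    rw [show FF T v ∪ S ∩ EE n T v = RR n v T S from rfl, FF_RR, EE_RR]
  rw [h2, h1]
  exact RR_self hT

lemma SS_RR (n : ℕ) (v : ℤ × ℤ) (T S : Finset Edg) :
    SS n v (RR n v T S) (SS n v T S) = S := by
  have h2 : SS n v (RR n v T S) (SS n v T S)
      = (RR n v T S ∩ EE n T v) ∪ (SS n v T S \ EE n T v) := by
    conv_lhs => unfold SS
    rw [show T ∩ EE n T v ∪ S \ EE n T v = SS n v T S from rfl, EE_RR]
  rw [h2, RR_inter]
  unfold SS
  ext e
  simp only [mem_inter, mem_union, mem_sdiff]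
  tauto

lemma RR_sub {n : ℕ} {v : ℤ × ℤ} {T S : Finset Edg} (hT : T ⊆ boxE n) : RR n v T S ⊆ boxE n := by
  intro e he
  rw [mem_RR] at he
  rcases he with h | h
  · exact hT h.1
  · exact h.2.1

lemma SS_sub {n : ℕ} {v : ℤ × ℤ} {T S : Finset Edg} (hT : T ⊆ boxE n) (hS : S ⊆ boxE n) :
    SS n v T S ⊆ boxE n := by
  unfold SS
  intro e he
  rw [mem_union, mem_inter, mem_sdiff] at he
  rcases he with h | h
  · exact hT h.1
  · exact hS h.1

lemma sum_swap (n : ℕ) (v : ℤ × ℤ) (h : Finset Edg → Finset Edg → ℝ) :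
    ∑ x ∈ (boxE n).powerset ×ˢ (boxE n).powerset, h x.1 x.2
      = ∑ x ∈ (boxE n).powerset ×ˢ (boxE n).powerset, h (RR n v x.1 x.2) (SS n v x.1 x.2) := by
  refine (Finset.sum_nbij' (fun x => (RR n v x.1 x.2, SS n v x.1 x.2))
    (fun x => (RR n v x.1 x.2, SS n v x.1 x.2)) ?_ ?_ ?_ ?_ ?_).symm
  · intro x hx
    rw [mem_product, mem_powerset, mem_powerset] at hx ⊢
    exact ⟨RR_sub hx.1, SS_sub hx.1 hx.2⟩
  · intro x hx
    rw [mem_product, mem_powerset, mem_powerset] at hx ⊢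
    exact ⟨RR_sub hx.1, SS_sub hx.1 hx.2⟩
  · intro x hx
    rw [mem_product, mem_powerset, mem_powerset] at hx
    exact Prod.ext (RR_RR v hx.1 _) (SS_RR n v _ _)
  · intro x hx
    rw [mem_product, mem_powerset, mem_powerset] at hx
    exact Prod.ext (RR_RR v hx.1 _) (SS_RR n v _ _)
  · intro x _
    rfl

open Classical in
/-- the contribution of the distinguished vertex `v` -/
noncomputable def gg (n : ℕ) (v : ℤ × ℤ) (T : Finset Edg) : ℝ :=
  if IsRep n T v ∧ (n : ℝ) / 8 ≤ Metric.diam (clS T v) then (perim T v : ℝ) else 0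

lemma gg_nonneg (n : ℕ) (v : ℤ × ℤ) (T : Finset Edg) : 0 ≤ gg n v T := by
  unfold gg
  split_ifs
  · positivity
  · exact le_rfl

lemma gg_RR (n : ℕ) (v : ℤ × ℤ) (T S : Finset Edg) : gg n v (RR n v T S) = gg n v T := by
  unfold gg IsRep
  rw [clV_RR, clS_RR, perim_RR]

open Classical in
/-- indicator of `Small` -/
noncomputable def ind (n : ℕ) (T : Finset Edg) : ℝ := if Small n T then 1 else 0

lemma ind_nonneg (n : ℕ) (T : Finset Edg) : 0 ≤ ind n T := by
  unfold ind
  split_ifs <;> norm_num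

lemma ind_mono {n : ℕ} {T T' : Finset Edg} (h : T ⊆ T') (hT' : T' ⊆ boxE n) :
    ind n T' ≤ ind n T := by
  unfold ind
  by_cases h1 : Small n T'
  · rw [if_pos h1, if_pos (small_mono h hT' h1)]
  · rw [if_neg h1]
    split_ifs <;> norm_num

lemma one_vertex (n : ℕ) (v : ℤ × ℤ) :
    (∑ S ∈ (boxE n).powerset, ind n S) * ∑ T ∈ (boxE n).powerset, gg n v T
      ≤ ((boxE n).powerset.card : ℝ)
        * ∑ T ∈ (boxE n).powerset, gg n v T * ind n (T ∩ EE n T v) := by
  have h1 : (∑ S ∈ (boxE n).powerset, ind n S) * ∑ T ∈ (boxE n).powerset, gg n v T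
      = ∑ x ∈ (boxE n).powerset ×ˢ (boxE n).powerset, gg n v x.1 * ind n x.2 := by
    rw [Finset.sum_product, mul_comm, Finset.sum_mul_sum]
  have h2 : ((boxE n).powerset.card : ℝ)
        * ∑ T ∈ (boxE n).powerset, gg n v T * ind n (T ∩ EE n T v)
      = ∑ x ∈ (boxE n).powerset ×ˢ (boxE n).powerset, gg n v x.1 * ind n (x.1 ∩ EE n x.1 v) := by
    rw [Finset.sum_product, Finset.mul_sum]
    refine Finset.sum_congr rfl fun T _ => ?_
    dsimp only
    rw [Finset.sum_const, nsmul_eq_mul]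
  rw [h1, h2, sum_swap n v fun T _ => gg n v T * ind n (T ∩ EE n T v)]
  refine Finset.sum_le_sum fun x hx => ?_
  rw [mem_product, mem_powerset, mem_powerset] at hx
  rw [gg_RR, EE_RR, RR_inter]
  exact mul_le_mul_of_nonneg_left (ind_mono inter_subset_left hx.2) (gg_nonneg _ _ _)

lemma clS_other {n : ℕ} {T : Finset Edg} (hT : T ⊆ boxE n) {v w : ℤ × ℤ} (hw : w ∉ clV T v) :
    clS T w ⊆ clS (T ∩ EE n T v) w := by
  have hnot : ∀ z ∈ clV T w, z ∉ clV T v := by
    intro z hz hz'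
    exact hw (by
      have h1 : clV T z = clV T v := clV_eq hz'
      rw [← h1]
      exact clV_symm hz)
  have hE : ∀ e ∈ T, tl e ∈ clV T w → e ∈ T ∩ EE n T v := by
    intro e he h
    rw [mem_inter, mem_EE]
    exact ⟨he, hT he, hnot _ h, hnot _ ((tl_mem_iff he).mp h)⟩
  have hV : ∀ z ∈ clV T w, z ∈ clV (T ∩ EE n T v) w := by
    intro z hz
    have key : z ∈ clV T w ∧ z ∈ clV (T ∩ EE n T v) w := by
      induction hz with
      | refl => exact ⟨mem_clV_self _ _, mem_clV_self _ _⟩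
      | tail h0 h1 ih =>
        refine ⟨Relation.ReflTransGen.tail ih.1 h1, Relation.ReflTransGen.tail ih.2 ?_⟩
        obtain ⟨e, he, h2⟩ := h1
        refine ⟨e, hE e he ?_, h2⟩
        rcases h2 with ⟨h5, h6⟩ | ⟨h5, h6⟩
        · rw [h5]; exact ih.1
        · rw [tl_mem_iff he, h6]; exact ih.1
    exact key.2
  intro z hz
  rw [mem_clS] at hz ⊢
  rcases hz with ⟨u, hu, h1⟩ | ⟨e, he, h1, h2⟩
  · exact Or.inl ⟨u, hV u hu, h1⟩
  · exact Or.inr ⟨e, hE e he h1, hV _ h1, h2⟩

/-- the distinguished cluster is the one selected by `sel` -/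
lemma sel_mem {n : ℕ} {T : Finset Edg} (hT : T ⊆ boxE n) {v w : ℤ × ℤ} (hv : v ∈ Box n)
    (hw : w ∈ Box n) (hmax : ∀ v ∈ Box n, Metric.diam (clS T v) ≤ Metric.diam (clS T w))
    (hbig : (n : ℝ) / 8 ≤ Metric.diam (clS T v)) (hs : Small n (T ∩ EE n T v)) : w ∈ clV T v := by
  by_contra hcon
  have h1 := Metric.diam_mono (clS_other hT hcon)
    (clS_bounded (inter_subset_left.trans hT) hw)
  have h2 := hs w hw
  have h3 := hmax v hv
  linarith

lemma sum_le (n : ℕ) {T : Finset Edg} (hT : T ⊆ boxE n) {w : ℤ × ℤ} (hw : w ∈ Box n)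
    (hmax : ∀ v ∈ Box n, Metric.diam (clS T v) ≤ Metric.diam (clS T w)) :
    ∑ v ∈ Box n, gg n v T * ind n (T ∩ EE n T v) ≤ perim T w := by
  classical
  by_cases hex : ∃ v ∈ Box n, gg n v T * ind n (T ∩ EE n T v) ≠ 0
  · have key : ∀ v ∈ Box n, gg n v T * ind n (T ∩ EE n T v) ≠ 0 →
        IsRep n T v ∧ w ∈ clV T v ∧ gg n v T * ind n (T ∩ EE n T v) = perim T w := by
      intro v hv h
      have h1 : gg n v T ≠ 0 := left_ne_zero_of_mul h
      have h2 : ind n (T ∩ EE n T v) ≠ 0 := right_ne_zero_of_mul h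
      have h3 : IsRep n T v ∧ (n : ℝ) / 8 ≤ Metric.diam (clS T v) := by
        by_contra hc
        exact h1 (by unfold gg; rw [if_neg hc])
      have h4 : Small n (T ∩ EE n T v) := by
        by_contra hc
        exact h2 (by unfold ind; rw [if_neg hc])
      have h5 := sel_mem hT hv hw hmax h3.2 h4
      refine ⟨h3.1, h5, ?_⟩
      unfold gg ind
      rw [if_pos h3, if_pos h4, mul_one, perim_eq h5]
    obtain ⟨v0, hv0, h0⟩ := hex
    obtain ⟨k1, k2, k3⟩ := key v0 hv0 h0
    rw [Finset.sum_eq_single v0, k3]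
    · intro v hv hne
      by_contra hc
      obtain ⟨l1, l2, _⟩ := key v hv hc
      have h6 : v ∈ clV T v0 := by
        rw [← clV_eq k2]
        exact clV_symm l2
      have h7 : v0 ∈ clV T v := clV_symm h6
      have h8 := k1.2 v h6
      have h9 := l1.2 v0 h7
      apply hne
      ext
      · omega
      · omega
    · intro h
      exact absurd hv0 h
  · push Not at hex
    rw [Finset.sum_eq_zero hex]
    positivity

end BoxA

open BoxA in
/-- B1: conditioning on a large cluster, all the others are small with probability at least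
`P(Small)`. -/
theorem exB_perim_ge (n : ℕ) (sel : Finset Edg → ℤ × ℤ)
    (hsel : ∀ T ⊆ boxE n, sel T ∈ Box n ∧
      ∀ v ∈ Box n, Metric.diam (clS T v) ≤ Metric.diam (clS T (sel T))) :
    prB n {T | Small n T} * exB n (fun T => (bigPerim n T : ℝ)) ≤
      exB n (fun T => (perim T (sel T) : ℝ)) := by
  classical
  have hcard : ((boxE n).powerset.card : ℝ) = 2 ^ (boxE n).card := by
    rw [card_powerset]
    push_cast
    ring
  have hind : ∑ S ∈ (boxE n).powerset, ind n S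
      = (((boxE n).powerset.filter fun T => T ∈ {T | Small n T}).card : ℝ) := by
    unfold ind
    rw [Finset.sum_ite, Finset.sum_const_zero, add_zero, Finset.sum_const, nsmul_eq_mul, mul_one]
    rfl
  have hbig : ∀ T, (bigPerim n T : ℝ) = ∑ v ∈ Box n, gg n v T := by
    intro T
    unfold bigPerim gg
    push_cast
    rw [Finset.sum_filter]
  have h1 : (∑ S ∈ (boxE n).powerset, ind n S) * ∑ T ∈ (boxE n).powerset, (bigPerim n T : ℝ)
      ≤ 2 ^ (boxE n).card * ∑ T ∈ (boxE n).powerset, (perim T (sel T) : ℝ) := by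
    calc (∑ S ∈ (boxE n).powerset, ind n S) * ∑ T ∈ (boxE n).powerset, (bigPerim n T : ℝ)
        = ∑ v ∈ Box n, (∑ S ∈ (boxE n).powerset, ind n S) * ∑ T ∈ (boxE n).powerset, gg n v T := by
          rw [← Finset.mul_sum, Finset.sum_comm]
          congr 1
          exact Finset.sum_congr rfl fun T _ => hbig T
      _ ≤ ∑ v ∈ Box n, ((boxE n).powerset.card : ℝ)
            * ∑ T ∈ (boxE n).powerset, gg n v T * ind n (T ∩ EE n T v) :=
          Finset.sum_le_sum fun v _ => one_vertex n v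
      _ = 2 ^ (boxE n).card * ∑ T ∈ (boxE n).powerset,
            ∑ v ∈ Box n, gg n v T * ind n (T ∩ EE n T v) := by
          rw [← Finset.mul_sum, Finset.sum_comm, hcard]
      _ ≤ _ := by
          refine mul_le_mul_of_nonneg_left (Finset.sum_le_sum fun T hT => ?_) (by positivity)
          rw [mem_powerset] at hT
          exact sum_le n hT (hsel T hT).1 (hsel T hT).2
  unfold prB exB
  rw [← hind, div_mul_div_comm, div_le_div_iff₀ (by positivity) (by positivity)]
  have hp : (0 : ℝ) < 2 ^ (boxE n).card := by positivity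
  calc (∑ S ∈ (boxE n).powerset, ind n S) * (∑ T ∈ (boxE n).powerset, (bigPerim n T : ℝ))
        * 2 ^ (boxE n).card
      ≤ (2 ^ (boxE n).card * ∑ T ∈ (boxE n).powerset, (perim T (sel T) : ℝ))
        * 2 ^ (boxE n).card := mul_le_mul_of_nonneg_right h1 hp.le
    _ = _ := by ring

end Pool.Agent.Perc
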