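import Mathlib

/-!
# Bond percolation in the box `{0, …, n}²`: definitions of the final theorem
-/

set_option autoImplicit false

namespace Pool.Agent.Perc

open Finset

/-- Edges of `ℤ²`: `(x, y, false)` joins `(x, y)` and `(x + 1, y)`, `(x, y, true)` joins `(x, y)`
and `(x, y + 1)`. -/
abbrev Edg := ℤ × ℤ × Bool

/-- One end point of an edge. -/
def tl (e : Edg) : ℤ × ℤ := (e.1, e.2.1)

/-- The other end point of an edge. -/
def hd (e : Edg) : ℤ × ℤ := if e.2.2 then (e.1, e.2.1 + 1) else (e.1 + 1, e.2.1)

/-- The box `{0, …, n}²`. -/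
noncomputable def Box (n : ℕ) : Finset (ℤ × ℤ) := Icc 0 (n : ℤ) ×ˢ Icc 0 (n : ℤ)

/-- The edges with both end points in the box. -/
noncomputable def boxE (n : ℕ) : Finset Edg :=
  (Icc 0 (n : ℤ) ×ˢ (Icc 0 (n : ℤ) ×ˢ (univ : Finset Bool))).filter fun e => hd e ∈ Box n

/-- `u` and `v` are joined by an open edge (`T` is the set of open edges). -/
def AdjT (T : Finset Edg) (u v : ℤ × ℤ) : Prop :=
  ∃ e ∈ T, (tl e = u ∧ hd e = v) ∨ (tl e = v ∧ hd e = u)

/-- The vertices of the cluster of `u`. -/
def clV (T : Finset Edg) (u : ℤ × ℤ) : Set (ℤ × ℤ) := {v | Relation.ReflTransGen (AdjT T) u v}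

/-- The point of the plane. -/
noncomputable def toC (v : ℤ × ℤ) : ℂ := (v.1 : ℂ) + (v.2 : ℂ) * Complex.I

/-- The cluster of `u` as a closed subset of the plane: its vertices and its closed edges. -/
noncomputable def clS (T : Finset Edg) (u : ℤ × ℤ) : Set ℂ :=
  toC '' clV T u ∪ ⋃ e ∈ T, ⋃ (_ : tl e ∈ clV T u), segment ℝ (toC (tl e)) (toC (hd e))

/-- The centre of the unit square with lower left corner `f`. -/
noncomputable def ctr (f : ℤ × ℤ) : ℂ := toC f + (1 / 2 + 1 / 2 * Complex.I)

/-- The unit square with lower left corner `f` lies in the unbounded component of the complement of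
the cluster of `u`. -/
def Outer (T : Finset Edg) (u : ℤ × ℤ) (f : ℤ × ℤ) : Prop :=
  ¬ Bornology.IsBounded (connectedComponentIn (clS T u)ᶜ (ctr f))

/-- The two unit squares at an edge (given by their lower left corners). -/
def side (e : Edg) (b : Bool) : ℤ × ℤ :=
  if b then tl e else if e.2.2 then (e.1 - 1, e.2.1) else (e.1, e.2.1 - 1)

open Classical in
/-- The number of edges of the closed lattice path along the edges of the cluster of `u` which
traces the boundary of the unbounded component of its complement: every edge of the cluster is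
traversed once for each of its two sides which lies in the unbounded component. -/
noncomputable def perim (T : Finset Edg) (u : ℤ × ℤ) : ℕ :=
  ((T ×ˢ (univ : Finset Bool)).filter fun x => tl x.1 ∈ clV T u ∧ Outer T u (side x.1 x.2)).card

/-- Uniform expectation over the configurations of the box. -/
noncomputable def exB (n : ℕ) (g : Finset Edg → ℝ) : ℝ :=
  (∑ T ∈ (boxE n).powerset, g T) / 2 ^ (boxE n).card

open Classical in
/-- Uniform probability over the configurations of the box. -/
noncomputable def prB (n : ℕ) (A : Set (Finset Edg)) : ℝ :=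
  (((boxE n).powerset.filter fun T => T ∈ A).card : ℝ) / 2 ^ (boxE n).card

end Pool.Agent.Perc
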