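import Pool.Agent.Lib.MP_6bd702_perc.BoxDefs

/-!
# Auxiliary definitions for the largest cluster
-/

set_option autoImplicit false

namespace Pool.Agent.Perc

open Finset

/-- All clusters of the box have diameter less than `n / 8`. -/
def Small (n : ℕ) (T : Finset Edg) : Prop := ∀ v ∈ Box n, Metric.diam (clS T v) < n / 8

/-- `v` is the distinguished vertex of its cluster (the smallest one in the lexicographic order). -/
def IsRep (n : ℕ) (T : Finset Edg) (v : ℤ × ℤ) : Prop :=
  v ∈ Box n ∧ ∀ w ∈ clV T v, v.1 < w.1 ∨ (v.1 = w.1 ∧ v.2 ≤ w.2)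

open Classical in
/-- The sum of the perimeters of all clusters of diameter at least `n / 8`. -/
noncomputable def bigPerim (n : ℕ) (T : Finset Edg) : ℕ :=
  ∑ v ∈ (Box n).filter fun v => IsRep n T v ∧ (n : ℝ) / 8 ≤ Metric.diam (clS T v), perim T v

end Pool.Agent.Perc
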