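import Pool.Agent.Lib.MP_6bd702_perc.Ann
import Pool.Agent.Lib.MP_6bd702_perc.Grid

/-!
# From the cylinder to the half-plane: definitions
-/

set_option autoImplicit false

namespace Pool.Agent.Perc

open Finset Filter Topology

/-- Run the rows `M - 1, …, 0` of the cylinder of circumference `L`, the top row first. -/
def run (L : ℕ) (ω : Cfg) : ℕ → St → St
  | 0, s => s
  | M + 1, s => run L ω M (trow L (fun i => ω ((i : ℤ), (M : ℤ))) s)

/-- The periodic extension of a configuration. -/
def perC (L : ℕ) (ω : Cfg) : Cfg := fun f => ω (f.1 % (L : ℤ), f.2)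

/-- `u` and `v` are connected in the periodic configuration above height `y`, where all the
vertices of height `M` are identified. -/
def RelT (L M : ℕ) (ω : Cfg) (y : ℤ) (u v : ℤ × ℤ) : Prop :=
  Conn (perC L ω) {f | y ≤ f.2 ∧ f.2 < M} u v ∨
    ((∃ u', Conn (perC L ω) {f | y ≤ f.2 ∧ f.2 < M} u u' ∧ u'.2 = M) ∧
      ∃ v', Conn (perC L ω) {f | y ≤ f.2 ∧ f.2 < M} v v' ∧ v'.2 = M)

/-- Soundness at a state with marked gap `g` and gap positions `V`: the left gap of `s` and the
right gap of its partner are connected; the sites to the right of the marked gap are shifted by one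
period to the left. -/
def SoundT (L : ℕ) (N : ℕ) (R : ℤ × ℤ → ℤ × ℤ → Prop) (s : St) (g : ℕ) (V : ℕ → ℤ × ℤ) : Prop :=
  ∀ x < N, R ((V x).1 - (if g ≤ x then (L : ℤ) else 0), (V x).2)
    ((V (s.1 x + 1)).1 - (if g ≤ s.1 x then (L : ℤ) else 0), (V (s.1 x + 1)).2)

end Pool.Agent.Perc
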