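import Pool.Agent.Lib.MP_6bd702_perc.DictDefs

/-!
# The dictionary: the primal arm (task DictB)
-/

set_option autoImplicit false

namespace Pool.Agent.Perc

open Finset

namespace DictB

theorem mem_Box {n : ℕ} {v : ℤ × ℤ} :
    v ∈ Box n ↔ (0 ≤ v.1 ∧ v.1 ≤ n) ∧ (0 ≤ v.2 ∧ v.2 ≤ n) := by
  unfold Box
  rw [Finset.mem_product, Finset.mem_Icc, Finset.mem_Icc]

theorem mem_boxE {n : ℕ} {e : Edg} : e ∈ boxE n ↔ tl e ∈ Box n ∧ hd e ∈ Box n := by
  unfold boxE
  rw [Finset.mem_filter, Finset.mem_product, Finset.mem_product, mem_Box (v := tl e),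
    Finset.mem_Icc, Finset.mem_Icc]
  simp only [Finset.mem_univ, and_true]
  exact Iff.rfl

theorem mem_cfgE {n : ℕ} {ω : Cfg} {e : Edg} :
    e ∈ cfgE n ω ↔ e ∈ boxE n ∧ ω (phiE e) = !e.2.2 := by
  unfold cfgE
  rw [Finset.mem_filter]

theorem cfgE_subset (n : ℕ) (ω : Cfg) : cfgE n ω ⊆ boxE n := Finset.filter_subset _ _

theorem clV_box {n : ℕ} {T : Finset Edg} (hT : T ⊆ boxE n) {v w : ℤ × ℤ} (hv : v ∈ Box n)
    (hw : w ∈ clV T v) : w ∈ Box n := by
  unfold clV at hw
  simp only [Set.mem_ofPred_eq] at hw
  induction hw with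
  | refl => exact hv
  | tail _ h _ =>
    obtain ⟨e, he, h1 | h1⟩ := h
    · rw [← h1.2]
      exact (mem_boxE.1 (hT he)).2
    · rw [← h1.1]
      exact (mem_boxE.1 (hT he)).1

/-- Every point of the cluster lies in the square. -/
theorem clS_box {n : ℕ} {T : Finset Edg} (hT : T ⊆ boxE n) {v : ℤ × ℤ} (hv : v ∈ Box n)
    {p : ℂ} (hp : p ∈ clS T v) : (0 ≤ p.re ∧ p.re ≤ n) ∧ (0 ≤ p.im ∧ p.im ≤ n) := by
  have key : ∀ w ∈ Box n, (0 ≤ (toC w).re ∧ (toC w).re ≤ n) ∧ (0 ≤ (toC w).im ∧ (toC w).im ≤ n) := by
    intro w hw
    rw [mem_Box] at hw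
    obtain ⟨⟨h1, h2⟩, h3, h4⟩ := hw
    have e1 : (toC w).re = w.1 := by simp [toC]
    have e2 : (toC w).im = w.2 := by simp [toC]
    rw [e1, e2]
    refine ⟨⟨by exact_mod_cast h1, by exact_mod_cast h2⟩, by exact_mod_cast h3, by exact_mod_cast h4⟩
  unfold clS at hp
  rcases hp with hp | hp
  · obtain ⟨w, hw, rfl⟩ := hp
    exact key w (clV_box hT hv hw)
  · simp only [Set.mem_iUnion] at hp
    obtain ⟨e, he, h1, h2⟩ := hp
    have k1 := key _ (mem_boxE.1 (hT he)).1
    have k2 := key _ (mem_boxE.1 (hT he)).2
    obtain ⟨a, b, ha, hb, hab, rfl⟩ := h2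
    obtain ⟨⟨a1, a2⟩, a3, a4⟩ := k1
    obtain ⟨⟨b1, b2⟩, b3, b4⟩ := k2
    simp only [Complex.add_re, Complex.add_im, Complex.real_smul, Complex.mul_re, Complex.mul_im,
      Complex.ofReal_re, Complex.ofReal_im, zero_mul, sub_zero, add_zero]
    have hb' : b = 1 - a := by linarith
    subst hb'
    refine ⟨⟨by positivity, ?_⟩, by positivity, ?_⟩
    · nlinarith
    · nlinarith

theorem clS_bounded {n : ℕ} {T : Finset Edg} (hT : T ⊆ boxE n) {v : ℤ × ℤ} (hv : v ∈ Box n) :
    Bornology.IsBounded (clS T v) := by
  refine (Metric.isBounded_closedBall (x := (0 : ℂ)) (r := (n : ℝ) + n)).subset fun p hp => ?_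
  obtain ⟨⟨h1, h2⟩, h3, h4⟩ := clS_box hT hv hp
  rw [Metric.mem_closedBall, dist_zero_right]
  refine (Complex.norm_le_abs_re_add_abs_im p).trans ?_
  rw [abs_of_nonneg h1, abs_of_nonneg h3]
  exact add_le_add h2 h4

end DictB

open DictB

/-- The primal arm. -/
theorem diam_ge_of_twoArmAt {n : ℕ} {R : ℤ} (hR : 2 * (n : ℤ) < R) {v : ℤ × ℤ} {ω : Cfg}
    (hω : ω ∈ twoArmAt R v) (hv : v ∈ Box n) {d : ℕ}
    (hd : (d : ℤ) ≤ v.1 ∧ (d : ℤ) ≤ n - v.1 ∧ (d : ℤ) ≤ v.2 ∧ (d : ℤ) ≤ n - v.2) :
    (d : ℝ) ≤ Metric.diam (clS (cfgE n ω) v) := by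
  have hv' := mem_Box.1 hv
  -- the invariant
  have inv : ∀ (F : Set (ℤ × ℤ)) (z : ℤ × ℤ), Conn ω F (phiV v) z →
      (∃ w, z = phiV w ∧ w ∈ Box n ∧ w ∈ clV (cfgE n ω) v) ∨
        (∃ u ∈ clV (cfgE n ω) v, u ∈ Box n ∧ (u.1 = 0 ∨ u.1 = n ∨ u.2 = 0 ∨ u.2 = n)) := by
    intro F z hz
    induction hz with
    | refl => exact Or.inl ⟨v, rfl, hv, Relation.ReflTransGen.refl⟩
    | @tail z z' _ h ih =>
      rcases ih with ⟨w, rfl, hw, hwc⟩ | ih
      · have hw' := mem_Box.1 hw
        -- it is enough to find the edge
        have key : ∀ (e : Edg) (w' : ℤ × ℤ), ((tl e = w ∧ Perc.hd e = w') ∨ (tl e = w' ∧ Perc.hd e = w)) →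
            ω (phiE e) = !e.2.2 → z' = phiV w' →
            (∃ w, z' = phiV w ∧ w ∈ Box n ∧ w ∈ clV (cfgE n ω) v) ∨
            (∃ u ∈ clV (cfgE n ω) v, u ∈ Box n ∧ (u.1 = 0 ∨ u.1 = n ∨ u.2 = 0 ∨ u.2 = n)) := by
          intro e w' he hst hz'
          by_cases hwb : w' ∈ Box n
          · left
            refine ⟨w', hz', hwb, ?_⟩
            have heb : e ∈ cfgE n ω := by
              rw [mem_cfgE, mem_boxE]
              refine ⟨?_, hst⟩
              rcases he with ⟨h1, h2⟩ | ⟨h1, h2⟩
              · rw [h1, h2]
                exact ⟨hw, hwb⟩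
              · rw [h1, h2]
                exact ⟨hwb, hw⟩
            exact Relation.ReflTransGen.tail hwc ⟨e, heb, he⟩
          · right
            refine ⟨w, hwc, hw, ?_⟩
            by_contra hcon
            push Not at hcon
            apply hwb
            rw [mem_Box]
            obtain ⟨a, b, c⟩ := e
            cases c
            · simp only [tl, Perc.hd, Bool.false_eq_true, if_false] at he
              rcases he with ⟨h1, h2⟩ | ⟨h1, h2⟩
              · have e1 := congrArg Prod.fst h1
                have e2 := congrArg Prod.snd h1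
                have e3 := congrArg Prod.fst h2
                have e4 := congrArg Prod.snd h2
                simp only at e1 e2 e3 e4
                omega
              · have e1 := congrArg Prod.fst h1
                have e2 := congrArg Prod.snd h1
                have e3 := congrArg Prod.fst h2
                have e4 := congrArg Prod.snd h2
                simp only at e1 e2 e3 e4
                omega
            · simp only [tl, Perc.hd, if_true] at he
              rcases he with ⟨h1, h2⟩ | ⟨h1, h2⟩
              · have e1 := congrArg Prod.fst h1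
                have e2 := congrArg Prod.snd h1
                have e3 := congrArg Prod.fst h2
                have e4 := congrArg Prod.snd h2
                simp only at e1 e2 e3 e4
                omega
              · have e1 := congrArg Prod.fst h1
                have e2 := congrArg Prod.snd h1
                have e3 := congrArg Prod.fst h2
                have e4 := congrArg Prod.snd h2
                simp only at e1 e2 e3 e4
                omega
        obtain ⟨x, y, _, h⟩ := h
        rcases h with ⟨hs, ⟨h1, h2⟩ | ⟨h1, h2⟩⟩ | ⟨hs, ⟨h1, h2⟩ | ⟨h1, h2⟩⟩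
        · -- `w` is the lower left corner, edge `(w.1, w.2, false)`
          have e1 := congrArg Prod.fst h1
          have e2 := congrArg Prod.snd h1
          simp only [phiV] at e1 e2
          refine key (w.1, w.2, false) (w.1 + 1, w.2) (Or.inl ⟨by simp [tl], by simp [Perc.hd]⟩) ?_ ?_
          · have : phiE (w.1, w.2, false) = (x, y) := by
              simp [phiE, e1, e2]
            rw [this, hs]
            rfl
          · rw [h2]
            simp only [phiV]
            ext
            · simp only
              omega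
            · simp only
              omega
        · have e1 := congrArg Prod.fst h1
          have e2 := congrArg Prod.snd h1
          simp only [phiV] at e1 e2
          refine key (w.1 - 1, w.2, false) (w.1 - 1, w.2) (Or.inr ⟨by simp [tl], by simp [Perc.hd]⟩) ?_ ?_
          · have : phiE (w.1 - 1, w.2, false) = (x, y) := by
              simp only [phiE, Bool.false_eq_true, if_false]
              ext
              · simp only
                omega
              · simp only
                omega
            rw [this, hs]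
            rfl
          · rw [h2]
            simp only [phiV]
            ext
            · simp only
              omega
            · simp only
              omega
        · have e1 := congrArg Prod.fst h1
          have e2 := congrArg Prod.snd h1
          simp only [phiV] at e1 e2
          refine key (w.1, w.2, true) (w.1, w.2 + 1) (Or.inl ⟨by simp [tl], by simp [Perc.hd]⟩) ?_ ?_
          · have : phiE (w.1, w.2, true) = (x, y) := by
              simp only [phiE, if_true]
              ext
              · simp only
                omega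
              · simp only
                omega
            rw [this, hs]
            rfl
          · rw [h2]
            simp only [phiV]
            ext
            · simp only
              omega
            · simp only
              omega
        · have e1 := congrArg Prod.fst h1
          have e2 := congrArg Prod.snd h1
          simp only [phiV] at e1 e2
          refine key (w.1, w.2 - 1, true) (w.1, w.2 - 1) (Or.inr ⟨by simp [tl], by simp [Perc.hd]⟩) ?_ ?_
          · have : phiE (w.1, w.2 - 1, true) = (x, y) := by
              simp only [phiE, if_true]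
              ext
              · simp only
                omega
              · simp only
                omega
            rw [this, hs]
            rfl
          · rw [h2]
            simp only [phiV]
            ext
            · simp only
              omega
            · simp only
              omega
      · exact Or.inr ih
  -- a vertex of the cluster on the boundary of the box
  have hu : ∃ u ∈ clV (cfgE n ω) v, u ∈ Box n ∧ (u.1 = 0 ∨ u.1 = n ∨ u.2 = 0 ∨ u.2 = n) := by
    obtain ⟨z, hz, hzb⟩ := hω.1
    rcases inv _ z hz with ⟨w, rfl, hw, _⟩ | h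
    · exfalso
      have hw' := mem_Box.1 hw
      obtain ⟨h1, h2, h3, h4, h5⟩ := hzb
      simp only [phiV] at h1 h2 h3 h4 h5
      omega
    · exact h
  obtain ⟨u, huc, hub, hu⟩ := hu
  have h1 : toC v ∈ clS (cfgE n ω) v :=
    Or.inl ⟨v, Relation.ReflTransGen.refl, rfl⟩
  have h2 : toC u ∈ clS (cfgE n ω) v := Or.inl ⟨u, huc, rfl⟩
  refine le_trans ?_ (Metric.dist_le_diam_of_mem (clS_bounded (cfgE_subset n ω) hv) h1 h2)
  rw [dist_eq_norm]
  have e1 : (toC v - toC u).re = ((v.1 - u.1 : ℤ) : ℝ) := by simp [toC]
  have e2 : (toC v - toC u).im = ((v.2 - u.2 : ℤ) : ℝ) := by simp [toC]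
  have n1 := Complex.abs_re_le_norm (toC v - toC u)
  have n2 := Complex.abs_im_le_norm (toC v - toC u)
  rw [e1] at n1
  rw [e2] at n2
  have hdd : (d : ℤ) ≤ |v.1 - u.1| ∨ (d : ℤ) ≤ |v.2 - u.2| := by
    rcases hu with h | h | h | h
    · left
      rw [h]
      exact le_abs.2 (Or.inl (by omega))
    · left
      rw [h]
      exact le_abs.2 (Or.inr (by omega))
    · right
      rw [h]
      exact le_abs.2 (Or.inl (by omega))
    · right
      rw [h]
      exact le_abs.2 (Or.inr (by omega))
  rcases hdd with h | h
  · refine le_trans ?_ n1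
    have : ((d : ℤ) : ℝ) ≤ ((|v.1 - u.1| : ℤ) : ℝ) := by exact_mod_cast h
    rw [Int.cast_abs] at this
    exact_mod_cast this
  · refine le_trans ?_ n2
    have : ((d : ℤ) : ℝ) ≤ ((|v.2 - u.2| : ℤ) : ℝ) := by exact_mod_cast h
    rw [Int.cast_abs] at this
    exact_mod_cast this

end Pool.Agent.Perc
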