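import Pool.Agent.Lib.MP_6bd702_perc.DictDefs
import Pool.Agent.Lib.MP_6bd702_perc.DictB

/-!
# The dictionary: the dual arm (task DictC)
-/

set_option autoImplicit false

namespace Pool.Agent.Perc

open Finset

namespace DictC

open DictB

/-- The vertex of the face grid of the unit square with lower left corner `f`. -/
def phiF (f : ℤ × ℤ) : ℤ × ℤ := (f.1 + f.2 + 1, f.1 - f.2)

theorem toC_re (v : ℤ × ℤ) : (toC v).re = v.1 := by simp [toC]

theorem toC_im (v : ℤ × ℤ) : (toC v).im = v.2 := by simp [toC]

theorem ctr_re (f : ℤ × ℤ) : (ctr f).re = f.1 + 1 / 2 := by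
  simp [ctr, toC]

theorem ctr_im (f : ℤ × ℤ) : (ctr f).im = f.2 + 1 / 2 := by
  simp [ctr, toC]

theorem int_eq_of {a b : ℤ} {x : ℝ} (h1 : (a : ℝ) - 1 < x) (h2 : x < a + 1) (h3 : x = b) :
    b = a := by
  subst h3
  have h1' : a - 1 < b := by exact_mod_cast h1
  have h2' : b < a + 1 := by exact_mod_cast h2
  omega

/-- A point of the plane on the segment of a horizontal edge. -/
theorem seg_h {a b : ℤ} {p : ℂ} (hp : p ∈ segment ℝ (toC (a, b)) (toC (a + 1, b))) :
    (a : ℝ) ≤ p.re ∧ p.re ≤ a + 1 ∧ p.im = b := by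
  obtain ⟨s, t, hs, ht, hst, rfl⟩ := hp
  simp only [Complex.add_re, Complex.add_im, Complex.real_smul, Complex.mul_re, Complex.mul_im,
      Complex.ofReal_re, Complex.ofReal_im, zero_mul, sub_zero, add_zero, toC_re, toC_im]
  have : s = 1 - t := by linarith
  subst this
  push_cast
  refine ⟨by nlinarith, by nlinarith, by ring⟩

/-- A point of the plane on the segment of a vertical edge. -/
theorem seg_v {a b : ℤ} {p : ℂ} (hp : p ∈ segment ℝ (toC (a, b)) (toC (a, b + 1))) :
    p.re = a ∧ (b : ℝ) ≤ p.im ∧ p.im ≤ b + 1 := by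
  obtain ⟨s, t, hs, ht, hst, rfl⟩ := hp
  simp only [Complex.add_re, Complex.add_im, Complex.real_smul, Complex.mul_re, Complex.mul_im,
      Complex.ofReal_re, Complex.ofReal_im, zero_mul, sub_zero, add_zero, toC_re, toC_im]
  have : s = 1 - t := by linarith
  subst this
  push_cast
  refine ⟨by ring, by nlinarith, by nlinarith⟩

/-- The points of the cluster: at least one coordinate is an integer; precisely a point lies on an
open edge or is a vertex. -/
theorem clS_cases {T : Finset Edg} {v : ℤ × ℤ} {p : ℂ} (hp : p ∈ clS T v) :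
    (∃ w : ℤ × ℤ, p.re = w.1 ∧ p.im = w.2) ∨
    (∃ a b : ℤ, (a, b, false) ∈ T ∧ (a : ℝ) ≤ p.re ∧ p.re ≤ a + 1 ∧ p.im = b) ∨
    (∃ a b : ℤ, (a, b, true) ∈ T ∧ p.re = a ∧ (b : ℝ) ≤ p.im ∧ p.im ≤ b + 1) := by
  unfold clS at hp
  rcases hp with ⟨w, _, rfl⟩ | hp
  · exact Or.inl ⟨w, toC_re w, toC_im w⟩
  · simp only [Set.mem_iUnion] at hp
    obtain ⟨⟨a, b, c⟩, he, _, h⟩ := hp
    cases c
    · right
      left
      have h' : p ∈ segment ℝ (toC (a, b)) (toC (a + 1, b)) := by simpa [tl, hd] using h
      exact ⟨a, b, he, seg_h h'⟩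
    · right
      right
      have h' : p ∈ segment ℝ (toC (a, b)) (toC (a, b + 1)) := by simpa [tl, hd] using h
      exact ⟨a, b, he, seg_v h'⟩

theorem half_ne (a b : ℤ) : ((a : ℝ) + 1 / 2) ≠ b := by
  intro h
  have : ((2 * a + 1 : ℤ) : ℝ) = ((2 * b : ℤ) : ℝ) := by
    push_cast
    linarith
  have := Int.cast_injective (α := ℝ) this
  omega

/-- The horizontal segment between the centres of two squares is disjoint from the cluster if the
edge between them is closed. -/
theorem seg_ctr_h {T : Finset Edg} {v : ℤ × ℤ} {a b : ℤ} (he : (a + 1, b, true) ∉ T) :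
    segment ℝ (ctr (a, b)) (ctr (a + 1, b)) ⊆ (clS T v)ᶜ := by
  intro p hp hcl
  have hp' : (a : ℝ) + 1 / 2 ≤ p.re ∧ p.re ≤ a + 1 + 1 / 2 ∧ p.im = b + 1 / 2 := by
    obtain ⟨s, t, hs, ht, hst, rfl⟩ := hp
    simp only [Complex.add_re, Complex.add_im, Complex.real_smul, Complex.mul_re, Complex.mul_im,
      Complex.ofReal_re, Complex.ofReal_im, zero_mul, sub_zero, add_zero, ctr_re, ctr_im]
    have : s = 1 - t := by linarith
    subst this
    push_cast
    refine ⟨by nlinarith, by nlinarith, by ring⟩
  obtain ⟨h1, h2, h3⟩ := hp'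
  rcases clS_cases hcl with ⟨w, hw1, hw2⟩ | ⟨c, d, _, _, _, h6⟩ | ⟨c, d, hT, h4, h5, h6⟩
  · exact half_ne b w.2 (by rw [← h3, hw2])
  · exact half_ne b d (by rw [← h3, h6])
  · have hc : c = a + 1 := by
      refine int_eq_of (x := p.re) ?_ ?_ h4
      · push_cast
        linarith
      · push_cast
        linarith
    have hd : d = b := by
      rw [h3] at h5 h6
      have h5' : ((2 * d : ℤ) : ℝ) ≤ ((2 * b + 1 : ℤ) : ℝ) := by
        push_cast
        linarith
      have h6' : ((2 * b + 1 : ℤ) : ℝ) ≤ ((2 * d + 2 : ℤ) : ℝ) := by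
        push_cast
        linarith
      have h5'' := Int.cast_le.1 h5'
      have h6'' := Int.cast_le.1 h6'
      omega
    subst hc
    subst hd
    exact he hT

/-- The vertical segment between the centres of two squares. -/
theorem seg_ctr_v {T : Finset Edg} {v : ℤ × ℤ} {a b : ℤ} (he : (a, b + 1, false) ∉ T) :
    segment ℝ (ctr (a, b)) (ctr (a, b + 1)) ⊆ (clS T v)ᶜ := by
  intro p hp hcl
  have hp' : p.re = a + 1 / 2 ∧ (b : ℝ) + 1 / 2 ≤ p.im ∧ p.im ≤ b + 1 + 1 / 2 := by
    obtain ⟨s, t, hs, ht, hst, rfl⟩ := hp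
    simp only [Complex.add_re, Complex.add_im, Complex.real_smul, Complex.mul_re, Complex.mul_im,
      Complex.ofReal_re, Complex.ofReal_im, zero_mul, sub_zero, add_zero, ctr_re, ctr_im]
    have : s = 1 - t := by linarith
    subst this
    push_cast
    refine ⟨by ring, by nlinarith, by nlinarith⟩
  obtain ⟨h1, h2, h3⟩ := hp'
  rcases clS_cases hcl with ⟨w, hw1, hw2⟩ | ⟨c, d, hT, h4, h5, h6⟩ | ⟨c, d, _, h4, _, _⟩
  · exact half_ne a w.1 (by rw [← h1, hw1])
  · have hd : d = b + 1 := by
      refine int_eq_of (x := p.im) ?_ ?_ h6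
      · push_cast
        linarith
      · push_cast
        linarith
    have hc : c = a := by
      rw [h1] at h4 h5
      have h5' : ((2 * c : ℤ) : ℝ) ≤ ((2 * a + 1 : ℤ) : ℝ) := by
        push_cast
        linarith
      have h6' : ((2 * a + 1 : ℤ) : ℝ) ≤ ((2 * c + 2 : ℤ) : ℝ) := by
        push_cast
        linarith
      have h5'' := Int.cast_le.1 h5'
      have h6'' := Int.cast_le.1 h6'
      omega
    subst hc
    subst hd
    exact he hT
  · exact half_ne a c (by rw [← h1, h4])

theorem ctr_notMem (T : Finset Edg) (v f : ℤ × ℤ) : ctr f ∈ (clS T v)ᶜ := by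
  intro hcl
  rcases clS_cases hcl with ⟨w, hw1, hw2⟩ | ⟨c, d, hT, h4, h5, h6⟩ | ⟨c, d, _, h4, _, _⟩
  · rw [ctr_re] at hw1
    exact half_ne _ _ hw1
  · rw [ctr_im] at h6
    exact half_ne _ _ h6
  · rw [ctr_re] at h4
    exact half_ne _ _ h4

/-- Moving along a segment in the complement. -/
theorem comp_of_seg {K : Set ℂ} {x y z : ℂ} (hy : y ∈ connectedComponentIn Kᶜ x)
    (h : segment ℝ y z ⊆ Kᶜ) : z ∈ connectedComponentIn Kᶜ x := by
  rw [connectedComponentIn_eq hy]
  exact (convex_segment y z).isPreconnected.subset_connectedComponentIn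
    (left_mem_segment ℝ y z) h (right_mem_segment ℝ y z)

end DictC

open DictB DictC

/-- The dual arm. -/
theorem outer_of_twoArmAt {n : ℕ} {R : ℤ} (hR : 2 * (n : ℤ) < R) {v : ℤ × ℤ} {ω : Cfg}
    (hω : ω ∈ twoArmAt R v) (hv : v ∈ Box n) : Outer (cfgE n ω) v v := by
  have hv' := mem_Box.1 hv
  set K := clS (cfgE n ω) v with hK
  -- the invariant
  have inv : ∀ (F : Set (ℤ × ℤ)) (z : ℤ × ℤ), Conn ω F (phiF v) z →
      ∃ f, z = phiF f ∧ ctr f ∈ connectedComponentIn Kᶜ (ctr v) := by
    intro F z hz
    induction hz with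
    | refl => exact ⟨v, rfl, mem_connectedComponentIn (ctr_notMem _ _ _)⟩
    | @tail z z' _ h ih =>
      obtain ⟨f, rfl, hf⟩ := ih
      obtain ⟨x, y, _, h⟩ := h
      rcases h with ⟨hs, ⟨h1, h2⟩ | ⟨h1, h2⟩⟩ | ⟨hs, ⟨h1, h2⟩ | ⟨h1, h2⟩⟩
      · have e1 := congrArg Prod.fst h1
        have e2 := congrArg Prod.snd h1
        simp only [phiF] at e1 e2
        refine ⟨(f.1 + 1, f.2), ?_, comp_of_seg hf (seg_ctr_h ?_)⟩
        · rw [h2]
          simp only [phiF]
          ext
          · simp only
            omega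
          · simp only
            omega
        · intro he
          have h3 := (mem_cfgE.1 he).2
          have : phiE (f.1 + 1, f.2, true) = (x, y) := by
            simp only [phiE, if_true]
            ext
            · simp only
              omega
            · simp only
              omega
          rw [this, hs] at h3
          simp at h3
      · have e1 := congrArg Prod.fst h1
        have e2 := congrArg Prod.snd h1
        simp only [phiF] at e1 e2
        refine ⟨(f.1 - 1, f.2), ?_, comp_of_seg hf ?_⟩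
        · rw [h2]
          simp only [phiF]
          ext
          · simp only
            omega
          · simp only
            omega
        · rw [segment_symm]
          have h4 : ctr f = ctr (f.1 - 1 + 1, f.2) := by
            congr 1
            ext <;> simp
          rw [h4]
          refine seg_ctr_h ?_
          intro he
          have h3 := (mem_cfgE.1 he).2
          have : phiE (f.1 - 1 + 1, f.2, true) = (x, y) := by
            simp only [phiE, if_true]
            ext
            · simp only
              omega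
            · simp only
              omega
          rw [this, hs] at h3
          simp at h3
      · have e1 := congrArg Prod.fst h1
        have e2 := congrArg Prod.snd h1
        simp only [phiF] at e1 e2
        refine ⟨(f.1, f.2 + 1), ?_, comp_of_seg hf (seg_ctr_v ?_)⟩
        · rw [h2]
          simp only [phiF]
          ext
          · simp only
            omega
          · simp only
            omega
        · intro he
          have h3 := (mem_cfgE.1 he).2
          have : phiE (f.1, f.2 + 1, false) = (x, y) := by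
            simp only [phiE, Bool.false_eq_true, if_false]
            ext
            · simp only
              omega
            · simp only
              omega
          rw [this, hs] at h3
          simp at h3
      · have e1 := congrArg Prod.fst h1
        have e2 := congrArg Prod.snd h1
        simp only [phiF] at e1 e2
        refine ⟨(f.1, f.2 - 1), ?_, comp_of_seg hf ?_⟩
        · rw [h2]
          simp only [phiF]
          ext
          · simp only
            omega
          · simp only
            omega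
        · rw [segment_symm]
          have h4 : ctr f = ctr (f.1, f.2 - 1 + 1) := by
            congr 1
            ext <;> simp
          rw [h4]
          refine seg_ctr_v ?_
          intro he
          have h3 := (mem_cfgE.1 he).2
          have : phiE (f.1, f.2 - 1 + 1, false) = (x, y) := by
            simp only [phiE, Bool.false_eq_true, if_false]
            ext
            · simp only
              omega
            · simp only
              omega
          rw [this, hs] at h3
          simp at h3
  -- a square outside the box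
  obtain ⟨f, hf, hfo⟩ : ∃ f : ℤ × ℤ, ctr f ∈ connectedComponentIn Kᶜ (ctr v) ∧
      (f.1 < 0 ∨ n ≤ f.1 ∨ f.2 < 0 ∨ n ≤ f.2) := by
    obtain ⟨z, hz, hzb⟩ := hω.2
    have h0 : ((phiV v).1 + 1, (phiV v).2) = phiF v := rfl
    rw [h0] at hz
    obtain ⟨f, rfl, hf⟩ := inv _ z hz
    refine ⟨f, hf, ?_⟩
    by_contra hcon
    push Not at hcon
    obtain ⟨h1, h2, h3, h4, h5⟩ := hzb
    simp only [phiV, phiF] at h1 h2 h3 h4 h5
    omega
  -- the ray
  have hray : ∃ u : ℂ, ‖u‖ = 1 ∧ ∀ t : ℝ, 0 ≤ t → ctr f + t • u ∈ Kᶜ := by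
    have out : ∀ p : ℂ, (p.re < 0 ∨ (n : ℝ) < p.re ∨ p.im < 0 ∨ (n : ℝ) < p.im) → p ∈ Kᶜ := by
      intro p hp hcl
      obtain ⟨⟨h1, h2⟩, h3, h4⟩ := clS_box (cfgE_subset n ω) hv hcl
      rcases hp with h | h | h | h <;> linarith
    rcases hfo with h | h | h | h
    · refine ⟨-1, by simp, fun t ht => out _ (Or.inl ?_)⟩
      have h' : (f.1 : ℝ) ≤ -1 := by exact_mod_cast (by omega : f.1 ≤ -1)
      simp only [Complex.add_re, Complex.real_smul, Complex.mul_re, Complex.ofReal_re,
        Complex.ofReal_im, zero_mul, sub_zero, ctr_re, Complex.neg_re, Complex.one_re]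
      linarith
    · refine ⟨1, by simp, fun t ht => out _ (Or.inr (Or.inl ?_))⟩
      have h' : (n : ℝ) ≤ f.1 := by exact_mod_cast h
      simp only [Complex.add_re, Complex.real_smul, Complex.mul_re, Complex.ofReal_re,
        Complex.ofReal_im, zero_mul, sub_zero, ctr_re, Complex.one_re]
      linarith
    · refine ⟨-Complex.I, by simp, fun t ht => out _ (Or.inr (Or.inr (Or.inl ?_)))⟩
      have h' : (f.2 : ℝ) ≤ -1 := by exact_mod_cast (by omega : f.2 ≤ -1)
      simp only [Complex.add_im, Complex.real_smul, Complex.mul_im, Complex.ofReal_re,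
        Complex.ofReal_im, zero_mul, add_zero, ctr_im, Complex.neg_im, Complex.I_im]
      linarith
    · refine ⟨Complex.I, by simp, fun t ht => out _ (Or.inr (Or.inr (Or.inr ?_)))⟩
      have h' : (n : ℝ) ≤ f.2 := by exact_mod_cast h
      simp only [Complex.add_im, Complex.real_smul, Complex.mul_im, Complex.ofReal_re,
        Complex.ofReal_im, zero_mul, add_zero, ctr_im, Complex.I_im]
      linarith
  obtain ⟨u, hu1, hu⟩ := hray
  intro hb
  obtain ⟨C, hC⟩ := hb.exists_norm_le
  have hmem : ∀ t : ℝ, 0 ≤ t → ctr f + t • u ∈ connectedComponentIn Kᶜ (ctr v) := by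
    intro t ht
    refine comp_of_seg hf ?_
    intro p hp
    rw [segment_eq_image'] at hp
    obtain ⟨s, ⟨hs0, _⟩, rfl⟩ := hp
    have : ctr f + s • (ctr f + t • u - ctr f) = ctr f + (s * t) • u := by
      rw [add_sub_cancel_left, smul_smul]
    simp only [this]
    exact hu _ (by positivity)
  have hn : 0 ≤ ‖ctr f‖ + |C| + 1 := by positivity
  have h1 := hC _ (hmem (‖ctr f‖ + |C| + 1) hn)
  have h2 : ‖(‖ctr f‖ + |C| + 1) • u‖ = ‖ctr f‖ + |C| + 1 := by
    rw [norm_smul, hu1, mul_one, Real.norm_of_nonneg hn]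
  have h3 := norm_sub_le (ctr f + (‖ctr f‖ + |C| + 1) • u) (ctr f)
  rw [add_sub_cancel_left, h2] at h3
  have h4 := le_abs_self C
  linarith

end Pool.Agent.Perc
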