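import Pool.Agent.Lib.MP_6bd702_perc.DictDefs

/-!
# The dictionary: laws (task DictA)
-/

set_option autoImplicit false

namespace Pool.Agent.Perc

open Finset

theorem phiE_injective : Function.Injective phiE := by
  rintro ⟨x, y, b⟩ ⟨x', y', b'⟩ h
  cases b <;> cases b' <;> simp only [phiE, Prod.mk.injEq, if_true, if_false, Bool.false_eq_true] at h ⊢
  · refine ⟨by omega, by omega, trivial⟩
  · omega
  · omega
  · refine ⟨by omega, by omega, trivial⟩

namespace DictA

open Classical in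
/-- the inverse map: the window faces with value `true` -/
noncomputable def jU (n : ℕ) (U : Finset Edg) : Finset (ℤ × ℤ) :=
  ((boxE n).filter fun e => decide (e ∈ U) = !e.2.2).image phiE

lemma mem_jU {n : ℕ} {U : Finset Edg} {e : Edg} (he : e ∈ boxE n) :
    phiE e ∈ jU n U ↔ decide (e ∈ U) = !e.2.2 := by
  classical
  rw [jU, Finset.mem_image]
  constructor
  · rintro ⟨e', he', h⟩
    rw [← phiE_injective h]
    exact (Finset.mem_filter.1 he').2
  · intro h
    exact ⟨e, Finset.mem_filter.2 ⟨he, h⟩, rfl⟩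

lemma mem_cfgE {n : ℕ} {T : Finset (ℤ × ℤ)} {e : Edg} :
    e ∈ cfgE n (cfg T) ↔ e ∈ boxE n ∧ decide (phiE e ∈ T) = !e.2.2 := by
  rw [cfgE, Finset.mem_filter]
  rfl

lemma right_inv {n : ℕ} {U : Finset Edg} (hU : U ⊆ boxE n) : cfgE n (cfg (jU n U)) = U := by
  ext e
  rw [mem_cfgE]
  constructor
  · rintro ⟨he, h⟩
    by_contra hcon
    have h1 := mem_jU (U := U) he
    rw [decide_eq_false hcon] at h1
    cases hb : e.2.2
    · rw [hb] at h1 h
      simp only [Bool.not_false, decide_eq_true_eq] at h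
      exact absurd (h1.1 h) (by simp)
    · rw [hb] at h1 h
      simp only [Bool.not_true, decide_eq_false_iff_not] at h
      exact h (h1.2 (by simp))
  · intro he
    refine ⟨hU he, ?_⟩
    have h1 := mem_jU (U := U) (hU he)
    rw [decide_eq_true he] at h1
    cases hb : e.2.2
    · rw [hb] at h1
      simpa using h1
    · rw [hb] at h1
      simpa using h1

lemma left_inv {n : ℕ} {T : Finset (ℤ × ℤ)} (hT : T ⊆ (boxE n).image phiE) :
    jU n (cfgE n (cfg T)) = T := by
  classical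
  have key : ∀ e ∈ boxE n, (phiE e ∈ jU n (cfgE n (cfg T)) ↔ phiE e ∈ T) := by
    intro e he
    rw [mem_jU he]
    by_cases h : phiE e ∈ T
    · cases hb : e.2.2
      · have : e ∈ cfgE n (cfg T) := mem_cfgE.2 ⟨he, by rw [hb]; simpa using h⟩
        simp [this, h]
      · have : e ∉ cfgE n (cfg T) := fun h' => by
          have := (mem_cfgE.1 h').2
          rw [hb] at this
          simp [h] at this
        simp [this, h]
    · cases hb : e.2.2
      · have : e ∉ cfgE n (cfg T) := fun h' => by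
          have := (mem_cfgE.1 h').2
          rw [hb] at this
          simp [h] at this
        simp [this, h]
      · have : e ∈ cfgE n (cfg T) := mem_cfgE.2 ⟨he, by rw [hb]; simpa using h⟩
        simp [this, h]
  ext f
  constructor
  · intro hf
    have hf' := hf
    rw [jU, Finset.mem_image] at hf'
    obtain ⟨e, he, rfl⟩ := hf'
    exact (key e (Finset.mem_filter.1 he).1).1 hf
  · intro hf
    obtain ⟨e, he, rfl⟩ := Finset.mem_image.1 (hT hf)
    exact (key e he).2 hf

lemma depOn_cfgE (n : ℕ) (A : Set (Finset Edg)) :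
    DepOn ((boxE n).image phiE : Finset (ℤ × ℤ)) {ω | cfgE n ω ∈ A} := by
  intro ω ω' h
  have : cfgE n ω = cfgE n ω' := by
    rw [cfgE, cfgE]
    refine Finset.filter_congr fun e he => ?_
    rw [h (phiE e) (Finset.mem_coe.2 (Finset.mem_image_of_mem _ he))]
  show cfgE n ω ∈ A ↔ cfgE n ω' ∈ A
  rw [this]

lemma rf_shift (x₀ x₁ y₀ y₁ a b : ℤ) :
    {f : ℤ × ℤ | (f.1 - a, f.2 - b) ∈ (RF x₀ x₁ y₀ y₁ : Set (ℤ × ℤ))} =
      (RF (x₀ + a) (x₁ + a) (y₀ + b) (y₁ + b) : Set (ℤ × ℤ)) := by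
  ext f
  simp only [RF, Set.mem_ofPred_eq, Finset.coe_product, Set.mem_prod, Finset.coe_Ico, Set.mem_Ico]
  constructor
  · rintro ⟨⟨h1, h2⟩, h3, h4⟩
    exact ⟨⟨by linarith, by linarith⟩, by linarith, by linarith⟩
  · rintro ⟨⟨h1, h2⟩, h3, h4⟩
    exact ⟨⟨by linarith, by linarith⟩, by linarith, by linarith⟩

lemma toBd_shift (x₀ x₁ y₀ y₁ a b : ℤ) (ω : Cfg) (u : ℤ × ℤ) :
    ToBd x₀ x₁ y₀ y₁ (shiftC a b ω) u ↔
      ToBd (x₀ + a) (x₁ + a) (y₀ + b) (y₁ + b) ω (u.1 + a, u.2 + b) := by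
  constructor
  · rintro ⟨v, hv, h1, h2, h3, h4, h5⟩
    rw [conn_shift, rf_shift] at hv
    refine ⟨_, hv, ?_, ?_, ?_, ?_, ?_⟩
    · rcases h1 with h | h | h | h
      · exact Or.inl (by show v.1 + a = _; rw [h])
      · exact Or.inr (Or.inl (by show v.1 + a = _; rw [h]))
      · exact Or.inr (Or.inr (Or.inl (by show v.2 + b = _; rw [h])))
      · exact Or.inr (Or.inr (Or.inr (by show v.2 + b = _; rw [h])))
    all_goals simp only
    all_goals linarith
  · rintro ⟨v, hv, h1, h2, h3, h4, h5⟩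
    have e : v = ((v.1 - a, v.2 - b).1 + a, (v.1 - a, v.2 - b).2 + b) := by
      ext <;> simp
    rw [e, ← rf_shift, ← conn_shift] at hv
    refine ⟨_, hv, ?_, ?_, ?_, ?_, ?_⟩
    · rcases h1 with h | h | h | h
      · exact Or.inl (by show v.1 - a = _; rw [h]; ring)
      · exact Or.inr (Or.inl (by show v.1 - a = _; rw [h]; ring))
      · exact Or.inr (Or.inr (Or.inl (by show v.2 - b = _; rw [h]; ring)))
      · exact Or.inr (Or.inr (Or.inr (by show v.2 - b = _; rw [h]; ring)))
    all_goals simp only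
    all_goals linarith

end DictA

/-- The law of the open edges is uniform. -/
theorem pr_cfgE (n : ℕ) {S : Finset (ℤ × ℤ)} (hS : ∀ e ∈ boxE n, phiE e ∈ S)
    (A : Set (Finset Edg)) : pr S {ω | cfgE n ω ∈ A} = prB n A := by
  classical
  have hsub : (boxE n).image phiE ⊆ S := by
    intro f hf
    obtain ⟨e, he, rfl⟩ := Finset.mem_image.1 hf
    exact hS e he
  rw [pr_eq_of_depOn (DictA.depOn_cfgE n A) hsub, pr, prB, Finset.card_image_of_injective _
    phiE_injective]
  congr 2
  refine Finset.card_bij' (fun T _ => cfgE n (cfg T)) (fun U _ => DictA.jU n U) ?_ ?_ ?_ ?_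
  · intro T hT
    rw [Finset.mem_filter] at hT ⊢
    exact ⟨Finset.mem_powerset.2 (Finset.filter_subset _ _), hT.2⟩
  · intro U hU
    rw [Finset.mem_filter, Finset.mem_powerset] at hU
    rw [Finset.mem_filter, Finset.mem_powerset]
    refine ⟨Finset.image_subset_image (Finset.filter_subset _ _), ?_⟩
    show cfgE n (cfg (DictA.jU n U)) ∈ A
    rw [DictA.right_inv hU.1]
    exact hU.2
  · intro T hT
    rw [Finset.mem_filter, Finset.mem_powerset] at hT
    exact DictA.left_inv hT.1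
  · intro U hU
    rw [Finset.mem_filter, Finset.mem_powerset] at hU
    exact DictA.right_inv hU.1

theorem pr_twoArmAt {R : ℤ} (v : ℤ × ℤ) {S : Finset (ℤ × ℤ)}
    (hS : RF ((phiV v).1 - R) ((phiV v).1 + R) ((phiV v).2 - R) ((phiV v).2 + R) ⊆ S) :
    pr S (twoArmAt R v) = p2 R := by
  set a := (phiV v).1 with ha
  set b := (phiV v).2 with hb
  have h1 : twoArmAt R v = {ω : Cfg | (fun x : ℤ × ℤ => ω (x.1 + a, x.2 + b)) ∈ twoArm R} := by
    ext ω
    show (ToBd (a - R) (a + R) (b - R) (b + R) ω (phiV v) ∧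
      ToBd (a - R) (a + R) (b - R) (b + R) ω (a + 1, b)) ↔
      (ToBd (-R) R (-R) R (shiftC a b ω) (0, 0) ∧ ToBd (-R) R (-R) R (shiftC a b ω) (1, 0))
    rw [DictA.toBd_shift, DictA.toBd_shift]
    have e1 : -R + a = a - R := by ring
    have e2 : R + a = a + R := by ring
    have e3 : -R + b = b - R := by ring
    have e4 : R + b = b + R := by ring
    have e6 : ((1, 0) : ℤ × ℤ).1 + a = a + 1 := by show (1 : ℤ) + a = a + 1; ring
    have e7 : ((1, 0) : ℤ × ℤ).2 + b = b := by show (0 : ℤ) + b = b; ring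
    have e8 : ((0, 0) : ℤ × ℤ).1 + a = a := by show (0 : ℤ) + a = a; ring
    rw [e1, e2, e3, e4, e6, e7, e8]
  rw [h1, p2]
  refine pr_comp (S := RF (-R) R (-R) R) (S' := S) (f := fun x : ℤ × ℤ => (x.1 + a, x.2 + b))
    ?_ ?_ (depOn_twoArm R)
  · intro x _ y _ h
    simp only [Prod.mk.injEq, add_left_inj] at h
    exact Prod.ext h.1 h.2
  · intro x hx
    apply hS
    simp only [RF, Finset.mem_product, Finset.mem_Ico] at hx ⊢
    refine ⟨⟨by linarith [hx.1.1], by linarith [hx.1.2]⟩, by linarith [hx.2.1], by linarith [hx.2.2]⟩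

end Pool.Agent.Perc
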