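import Pool.Agent.Lib.MP_6bd702_perc.BoxDefs2
import Pool.Agent.Lib.MP_6bd702_perc.Grid

/-!
# The dictionary between the square lattice and the face grid: definitions

The vertex `(a, b)` of the square lattice is the vertex `(a + b, a - b)` of the face grid, the unit
square with lower left corner `(a, b)` is the vertex `(a + b + 1, a - b)`.
-/

set_option autoImplicit false

namespace Pool.Agent.Perc

open Finset

/-- The face of an edge. -/
def phiE (e : Edg) : ℤ × ℤ := if e.2.2 then (e.1 + e.2.1, e.1 - e.2.1 - 1) else (e.1 + e.2.1, e.1 - e.2.1)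

/-- The vertex of the face grid. -/
def phiV (v : ℤ × ℤ) : ℤ × ℤ := (v.1 + v.2, v.1 - v.2)

/-- The open edges of the box. -/
noncomputable def cfgE (n : ℕ) (ω : Cfg) : Finset Edg :=
  (boxE n).filter fun e => ω (phiE e) = !e.2.2

/-- Two arms of `v` and of its upper right square. -/
def twoArmAt (R : ℤ) (v : ℤ × ℤ) : Set Cfg :=
  {ω | ToBd ((phiV v).1 - R) ((phiV v).1 + R) ((phiV v).2 - R) ((phiV v).2 + R) ω (phiV v) ∧
    ToBd ((phiV v).1 - R) ((phiV v).1 + R) ((phiV v).2 - R) ((phiV v).2 + R) ω
      ((phiV v).1 + 1, (phiV v).2)}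

end Pool.Agent.Perc
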