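import Pool.Agent.Lib.MP_6bd702_perc.FluxDefs

/-!
# The conserved current: commutation (task FluxA)
-/

set_option autoImplicit false

namespace Pool.Agent.Perc

open Finset Function

namespace FluxA

/-- The configuration with the spins `i`, `i + 1` replaced. -/
def tt (σ : ℕ → Bool) (i : ℕ) (a b : Bool) : ℕ → Bool := update (update σ i a) (i + 1) b

theorem tt_self (σ : ℕ → Bool) (i : ℕ) : tt σ i (σ i) (σ (i + 1)) = σ := by
  funext k
  unfold tt
  by_cases h1 : k = i + 1
  · subst h1; simp
  · by_cases h2 : k = i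
    · subst h2; simp
    · simp [h1, h2]

theorem tt_left (σ : ℕ → Bool) (i : ℕ) (a b : Bool) : tt σ i a b i = a := by
  simp [tt]

theorem tt_right (σ : ℕ → Bool) (i : ℕ) (a b : Bool) : tt σ i a b (i + 1) = b := by
  simp [tt]

theorem tt_of_ne {σ : ℕ → Bool} {i : ℕ} {a b : Bool} {k : ℕ} (h : k ≠ i) (h' : k ≠ i + 1) :
    tt σ i a b k = σ k := by
  simp [tt, h, h']

theorem update_tt_left (σ : ℕ → Bool) (i : ℕ) (a b c : Bool) :
    update (tt σ i a b) i c = tt σ i c b := by
  funext k
  by_cases h1 : k = i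
  · subst h1; simp [tt]
  · by_cases h2 : k = i + 1
    · subst h2; simp [tt]
    · simp [tt, h1, h2]

theorem update_tt_right (σ : ℕ → Bool) (i : ℕ) (a b c : Bool) :
    update (tt σ i a b) (i + 1) c = tt σ i a c := by
  simp [tt]

theorem tt_tt (σ : ℕ → Bool) (i : ℕ) (a b c d : Bool) :
    tt (tt σ i a b) i c d = tt σ i c d := by
  rw [tt, update_tt_left, update_tt_right]

theorem update_tt_of_ne {σ : ℕ → Bool} {i : ℕ} {a b c : Bool} {j : ℕ} (h : j ≠ i)
    (h' : j ≠ i + 1) : update (tt σ i a b) j c = tt (update σ j c) i a b := by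
  funext k
  by_cases h1 : k = j
  · subst h1; simp [tt, h, h']
  · by_cases h2 : k = i + 1
    · subst h2; simp [tt, h1]
    · by_cases h3 : k = i
      · subst h3; simp [tt, h1]
      · simp [tt, h1, h2, h3]

theorem sum_tt (σ : ℕ → Bool) (i : ℕ) (a b : Bool) (s : Finset ℕ) :
    ∑ k ∈ s, sgn (tt σ i a b k) = ∑ k ∈ s, sgn (σ k) +
      ((if i ∈ s then sgn a - sgn (σ i) else 0) +
        (if i + 1 ∈ s then sgn b - sgn (σ (i + 1)) else 0)) := by
  have h : ∀ k, sgn (tt σ i a b k) = sgn (σ k) +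
      ((if k = i then sgn a - sgn (σ i) else 0) +
        (if k = i + 1 then sgn b - sgn (σ (i + 1)) else 0)) := by
    intro k
    by_cases h1 : k = i
    · subst h1
      rw [tt_left]
      simp
    · by_cases h2 : k = i + 1
      · subst h2
        rw [tt_right]
        simp
      · rw [tt_of_ne h1 h2]
        simp [h1, h2]
  rw [sum_congr rfl fun k _ => h k, sum_add_distrib, sum_add_distrib, sum_ite_eq', sum_ite_eq']

/-- Exchanging an opposite pair of spins does not change the exponents at the other sites. -/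
theorem Sj_tt {N i j : ℕ} {σ : ℕ → Bool} {a b : Bool} (hi : i + 1 < N) (h : j ≠ i)
    (h' : j ≠ i + 1) (hs : σ i ≠ σ (i + 1)) (hab : a ≠ b) : Sj N j (tt σ i a b) = Sj N j σ := by
  have h0 : sgn a - sgn (σ i) + (sgn b - sgn (σ (i + 1))) = 0 := by
    revert hs hab
    cases a <;> cases b <;> cases σ i <;> cases σ (i + 1) <;> simp [sgn]
  unfold Sj
  rw [sum_tt, sum_tt]
  rcases lt_or_gt_of_ne h with h1 | h1
  · have e1 : i ∉ range j := by simp; omega
    have e2 : i + 1 ∉ range j := by simp; omega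
    have e3 : i ∈ Ico (j + 1) N := by rw [mem_Ico]; omega
    have e4 : i + 1 ∈ Ico (j + 1) N := by rw [mem_Ico]; omega
    rw [if_neg e1, if_neg e2, if_pos e3, if_pos e4, h0]
    ring
  · have e1 : i ∈ range j := by rw [mem_range]; omega
    have e2 : i + 1 ∈ range j := by rw [mem_range]; omega
    have e3 : i ∉ Ico (j + 1) N := by rw [mem_Ico]; omega
    have e4 : i + 1 ∉ Ico (j + 1) N := by rw [mem_Ico]; omega
    rw [if_pos e1, if_pos e2, if_neg e3, if_neg e4, h0]
    ring

/-- The exponent without the two sites. -/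
def cc (N i : ℕ) (σ : ℕ → Bool) : ℤ :=
  ∑ k ∈ range i, sgn (σ k) - ∑ k ∈ Ico (i + 2) N, sgn (σ k)

theorem Sj_left {N i : ℕ} (hi : i + 1 < N) (σ : ℕ → Bool) :
    Sj N i σ = cc N i σ - sgn (σ (i + 1)) := by
  unfold Sj cc
  rw [sum_eq_sum_Ico_succ_bot hi]
  ring

theorem Sj_right (N i : ℕ) (σ : ℕ → Bool) :
    Sj N (i + 1) σ = cc N i σ + sgn (σ i) := by
  unfold Sj cc
  rw [sum_range_succ]
  ring

theorem cc_tt (N i : ℕ) (σ : ℕ → Bool) (a b : Bool) : cc N i (tt σ i a b) = cc N i σ := by
  unfold cc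
  rw [sum_tt, sum_tt]
  simp

/-- The terms of the current. -/
noncomputable def ff (q : ℂ) (N : ℕ) (z : ℕ → ℂ) (X : (ℕ → Bool) → ℂ) (σ : ℕ → Bool) (j : ℕ) :
    ℂ := if σ j then 0 else z j * q ^ (Sj N j σ) * X (update σ j true)

theorem rS_eq (κ : ℂ) (i : ℕ) (X : (ℕ → Bool) → ℂ) (σ : ℕ → Bool) :
    rS κ i X σ = (X σ + sw κ (σ i) (σ (i + 1)) *
      (X (tt σ i true false) + κ⁻¹ * X (tt σ i false true))) / 2 := rfl

theorem split_sum {N i : ℕ} (hi : i + 1 < N) (f : ℕ → ℂ) :
    ∑ j ∈ range N, f j = (f i + f (i + 1)) + ∑ j ∈ ((range N).erase i).erase (i + 1), f j := by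
  rw [← add_sum_erase (range N) f (mem_range.2 (by omega : i < N)),
    ← add_sum_erase ((range N).erase i) f (by simp; omega : i + 1 ∈ (range N).erase i), add_assoc]

end FluxA

open FluxA

/-- Face operators commute with the current up to an exchange of the parameters. -/
theorem rS_cur {q : ℂ} (hq : q ^ 2 + q + 1 = 0) {N i : ℕ} (hi : i + 1 < N) {z z' : ℕ → ℂ}
    (h1 : z i = -q ^ 2) (h2 : z (i + 1) = 1) (h1' : z' i = 1) (h2' : z' (i + 1) = -q ^ 2)
    (hz : ∀ k, k ≠ i → k ≠ i + 1 → z' k = z k) (X : (ℕ → Bool) → ℂ) (σ : ℕ → Bool) :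
    rS (-q ^ 2) i (cur q N z X) σ = cur q N z' (rS (-q ^ 2) i X) σ := by
  have hq0 : q ≠ 0 := by
    rintro rfl
    simp at hq
  have e1 : rS (-q ^ 2) i (cur q N z X) σ = ∑ j ∈ range N, (ff q N z X σ j +
      sw (-q ^ 2) (σ i) (σ (i + 1)) * (ff q N z X (tt σ i true false) j +
        (-q ^ 2)⁻¹ * ff q N z X (tt σ i false true) j)) / 2 := by
    rw [rS_eq, ← sum_div, sum_add_distrib, ← mul_sum, sum_add_distrib, ← mul_sum]
    rfl
  have e2 : cur q N z' (rS (-q ^ 2) i X) σ = ∑ j ∈ range N, ff q N z' (rS (-q ^ 2) i X) σ j := rfl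
  rw [e1, e2, split_sum hi, split_sum hi]
  congr 1
  · -- the two sites
    have hc1 : Sj N i (tt σ i true false) = cc N i σ + 1 := by
      rw [Sj_left hi, cc_tt, tt_right]; simp [sgn]
    have hc2 : Sj N i (tt σ i false true) = cc N i σ - 1 := by
      rw [Sj_left hi, cc_tt, tt_right]; simp [sgn]
    have hc3 : Sj N (i + 1) (tt σ i true false) = cc N i σ + 1 := by
      rw [Sj_right, cc_tt, tt_left]; simp [sgn]
    have hc4 : Sj N (i + 1) (tt σ i false true) = cc N i σ - 1 := by
      rw [Sj_right, cc_tt, tt_left]; simp [sgn]; ring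
    have hself := tt_self σ i
    unfold ff
    rw [rS_eq, rS_eq]
    rw [hc1, hc2, hc3, hc4, Sj_left hi, Sj_right, h1, h2, h1', h2']
    simp only [tt_left, tt_right, update_tt_left, update_tt_right]
    rcases hs1 : σ i with _ | _ <;> rcases hs2 : σ (i + 1) with _ | _
    · rw [hs1, hs2] at hself
      have u1 : update σ i true = tt σ i true false := by
        conv_lhs => rw [← hself]
        rw [update_tt_left]
      have u2 : update σ (i + 1) true = tt σ i false true := by
        conv_lhs => rw [← hself]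
        rw [update_tt_right]
      rw [u1, u2]
      simp only [tt_left, tt_right, tt_tt, sw, sgn]
      simp only [zpow_sub₀ hq0, zpow_add₀ hq0, zpow_one]
      simp
      field_simp
      ring
    · rw [hs1, hs2] at hself
      have u1 : update σ i true = tt σ i true true := by
        conv_lhs => rw [← hself]
        rw [update_tt_left]
      rw [u1]
      simp only [tt_left, tt_right, tt_tt, sw, sgn]
      simp only [zpow_sub₀ hq0, zpow_add₀ hq0, zpow_one]
      simp
      field_simp
      ring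
    · rw [hs1, hs2] at hself
      have u2 : update σ (i + 1) true = tt σ i true true := by
        conv_lhs => rw [← hself]
        rw [update_tt_right]
      rw [u2]
      simp only [tt_left, tt_right, tt_tt, sw, sgn]
      simp only [zpow_sub₀ hq0, zpow_add₀ hq0, zpow_one]
      simp
      field_simp
      ring
    · simp [sw]
  · refine sum_congr rfl fun j hj => ?_
    rw [mem_erase, mem_erase, mem_range] at hj
    obtain ⟨hj1, hj2, hj3⟩ := hj
    unfold ff
    rw [rS_eq, tt_of_ne hj2 hj1, tt_of_ne hj2 hj1, hz j hj2 hj1]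
    rcases hs : σ j with _ | _
    · simp only [Bool.false_eq_true, if_false]
      rw [update_tt_of_ne hj2 hj1, update_tt_of_ne hj2 hj1]
      have v1 : update σ j true i = σ i := by rw [update_of_ne (Ne.symm hj2)]
      have v2 : update σ j true (i + 1) = σ (i + 1) := by rw [update_of_ne (Ne.symm hj1)]
      rw [v1, v2]
      by_cases hss : σ i = σ (i + 1)
      · simp [sw, hss]
        ring
      · rw [Sj_tt hi hj2 hj1 hss (by simp), Sj_tt hi hj2 hj1 hss (by simp)]
        ring
    · simp

end Pool.Agent.Perc
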