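import Pool.Agent.Lib.MP_6bd702_perc.FluxDefs
import Pool.Agent.Lib.MP_6bd702_perc.FluxA

/-!
# The conserved current: moving a face (task FluxB)
-/

set_option autoImplicit false

namespace Pool.Agent.Perc

open Finset Function

/-- The sum of the matrix elements. -/
theorem sum_Tj {q : ℂ} (hq : q ^ 2 + q + 1 = 0) (N : ℕ) (z : ℕ → ℂ) (α β : ℕ → ℕ) :
    ∑ j ∈ range N, z j * Tj q N j α β =
      sumS N (fun σ => Phi (-q ^ 2) (N + 1) α (update σ N true) *
        cur q N z (fun τ => Phi (-q ^ 2) (N + 1) β (update τ N false)) σ) /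
          (-q ^ 2) ^ ((N + 1) / 2) := by
  unfold Tj sumS cur
  simp_rw [mul_div_assoc', mul_sum]
  rw [← sum_div, sum_comm]
  congr 1
  refine sum_congr rfl fun T _ => sum_congr rfl fun j _ => ?_
  split_ifs
  · simp
  · ring

namespace FluxB

theorem eS_update {κ : ℂ} {N i : ℕ} (hi : i + 1 < N) (X : (ℕ → Bool) → ℂ) (b : Bool)
    (σ : ℕ → Bool) :
    eS κ i (fun τ => X (update τ N b)) σ = eS κ i X (update σ N b) := by
  have h1 : (update σ N b) i = σ i := update_of_ne (by omega) _ _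
  have h2 : (update σ N b) (i + 1) = σ (i + 1) := update_of_ne (by omega) _ _
  have h3 : ∀ a c : Bool, update (update (update σ i a) (i + 1) c) N b =
      update (update (update σ N b) i a) (i + 1) c := by
    intro a c
    rw [update_comm (by omega : i + 1 ≠ N), update_comm (by omega : i ≠ N)]
  unfold eS capS
  rw [h1, h2]
  simp only [h3]

theorem cur_add (q : ℂ) (N : ℕ) (z : ℕ → ℂ) (X Y : (ℕ → Bool) → ℂ) (σ : ℕ → Bool) :
    cur q N z (fun τ => X τ + Y τ) σ = cur q N z X σ + cur q N z Y σ := by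
  unfold cur
  rw [← sum_add_distrib]
  refine sum_congr rfl fun j _ => ?_
  split_ifs
  · simp
  · ring

theorem cur_two_mul (q : ℂ) (N : ℕ) (z : ℕ → ℂ) (X : (ℕ → Bool) → ℂ) (σ : ℕ → Bool) :
    cur q N z (fun τ => 2 * X τ) σ = 2 * cur q N z X σ := by
  unfold cur
  rw [mul_sum]
  refine sum_congr rfl fun j _ => ?_
  split_ifs
  · simp
  · ring

theorem sumS_add (N : ℕ) (X Y : (ℕ → Bool) → ℂ) :
    sumS N X + sumS N Y = sumS N (fun σ => X σ + Y σ) := by
  unfold sumS
  rw [sum_add_distrib]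

end FluxB

open FluxB

/-- Moving one face from one side to the other: the average over the state of a face at `i`. -/
theorem face_move {q : ℂ} (hq : q ^ 2 + q + 1 = 0) {N i : ℕ} (hi : i + 1 < N) {z z' : ℕ → ℂ}
    (h1 : z i = -q ^ 2) (h2 : z (i + 1) = 1) (h1' : z' i = 1) (h2' : z' (i + 1) = -q ^ 2)
    (hz : ∀ k, k ≠ i → k ≠ i + 1 → z' k = z k) {α β : ℕ → ℕ} (hα : NC (N + 1) α)
    (hβ : NC (N + 1) β) :
    ∑ j ∈ range N, z j * (Tj q N j α β + Tj q N j (eAct i α) β) =
      ∑ j ∈ range N, z' j * (Tj q N j α β + Tj q N j α (eAct i β)) := by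
  have hq0 : q ≠ 0 := by
    rintro rfl
    simp at hq
  have hκ0 : (-q ^ 2 : ℂ) ≠ 0 := by simpa using hq0
  have hκ : (-q ^ 2 : ℂ) ^ 2 = -q ^ 2 - 1 := by
    have : (-q ^ 2 : ℂ) ^ 2 - (-q ^ 2 - 1) = (q ^ 2 + q + 1) * (q ^ 2 - q + 1) := by ring
    rw [hq, zero_mul] at this
    exact sub_eq_zero.1 this
  simp_rw [mul_add, sum_add_distrib]
  rw [sum_Tj hq, sum_Tj hq, sum_Tj hq, sum_Tj hq, ← add_div, ← add_div, sumS_add, sumS_add]
  congr 1
  set A : (ℕ → Bool) → ℂ := fun σ => Phi (-q ^ 2) (N + 1) α (update σ N true) with hA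
  set B : (ℕ → Bool) → ℂ := fun τ => Phi (-q ^ 2) (N + 1) β (update τ N false) with hB
  have eA : ∀ σ, Phi (-q ^ 2) (N + 1) (eAct i α) (update σ N true) = eS (-q ^ 2) i A σ := by
    intro σ
    rw [hA, eS_update hi, eS_Phi hκ hα (by omega)]
  have eB : (fun τ => Phi (-q ^ 2) (N + 1) (eAct i β) (update τ N false)) =
      fun τ => eS (-q ^ 2) i B τ := by
    funext τ
    rw [hB, eS_update hi, eS_Phi hκ hβ (by omega)]
  have e1 : sumS N (fun σ => A σ * cur q N z B σ +
      Phi (-q ^ 2) (N + 1) (eAct i α) (update σ N true) * cur q N z B σ) =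
      sumS N (fun σ => A σ * (2 * rS (-q ^ 2) i (cur q N z B) σ)) := by
    have e2 : (fun σ => A σ * cur q N z B σ +
      Phi (-q ^ 2) (N + 1) (eAct i α) (update σ N true) * cur q N z B σ) =
      fun σ => A σ * cur q N z B σ + eS (-q ^ 2) i A σ * cur q N z B σ := by
      funext σ
      rw [eA]
    rw [e2, ← sumS_add, ← sumS_eS hκ0 hi, sumS_add]
    congr 1
    funext σ
    unfold rS
    ring
  have e3 : sumS N (fun σ => A σ * cur q N z' B σ +
      A σ * cur q N z' (fun τ => Phi (-q ^ 2) (N + 1) (eAct i β) (update τ N false)) σ) =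
      sumS N (fun σ => A σ * (2 * cur q N z' (rS (-q ^ 2) i B) σ)) := by
    congr 1
    funext σ
    rw [eB, ← mul_add, ← cur_add, ← cur_two_mul]
    congr 2
    funext τ
    unfold rS
    ring
  rw [e1, e3]
  congr 1
  funext σ
  rw [rS_cur hq hi h1 h2 h1' h2' hz]

end Pool.Agent.Perc
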