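import Pool.Agent.Lib.MP_6bd702_perc.Spin

/-!
# The conserved current: definitions

`q ^ 2 + q + 1 = 0`, `κ = - q ^ 2`. A pattern with a defect is a link pattern of `N + 1` sites; the
partner of the last site `N` is the position of the defect.
-/

set_option autoImplicit false

namespace Pool.Agent.Perc

open Finset Function

/-- The total spin to the left minus the total spin to the right of `j`. -/
def Sj (N j : ℕ) (σ : ℕ → Bool) : ℤ :=
  ∑ k ∈ range j, sgn (σ k) - ∑ k ∈ Ico (j + 1) N, sgn (σ k)

/-- The current. -/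
noncomputable def cur (q : ℂ) (N : ℕ) (z : ℕ → ℂ) (X : (ℕ → Bool) → ℂ) (σ : ℕ → Bool) : ℂ :=
  ∑ j ∈ range N, if σ j then 0 else z j * q ^ (Sj N j σ) * X (update σ j true)

/-- The matrix element of the `j`-th term of the current. -/
noncomputable def Tj (q : ℂ) (N j : ℕ) (α β : ℕ → ℕ) : ℂ :=
  sumS N (fun σ => if σ j then 0 else Phi (-q ^ 2) (N + 1) α (update σ N true) * q ^ (Sj N j σ) *
    Phi (-q ^ 2) (N + 1) β (update (update σ j true) N false)) / (-q ^ 2) ^ ((N + 1) / 2)

end Pool.Agent.Perc
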