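import Pool.Agent.Lib.MP_6bd702_perc.GridDefs

/-!
# Percolation on the face grid: basic facts (task GridA)
-/

set_option autoImplicit false
set_option linter.unnecessarySeqFocus false

namespace Pool.Agent.Perc

open Finset

variable {ω : Cfg} {F F' : Set (ℤ × ℤ)}

theorem Bond.symm {u v : ℤ × ℤ} (h : Bond ω F u v) : Bond ω F v u := by
  obtain ⟨x, y, hF, h | h⟩ := h
  · exact ⟨x, y, hF, Or.inl ⟨h.1, h.2.symm.imp And.symm And.symm⟩⟩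
  · exact ⟨x, y, hF, Or.inr ⟨h.1, h.2.symm.imp And.symm And.symm⟩⟩

theorem Conn.symm {u v : ℤ × ℤ} (h : Conn ω F u v) : Conn ω F v u := by
  induction h with
  | refl => exact Relation.ReflTransGen.refl
  | tail _ hb ih => exact Relation.ReflTransGen.head (Bond.symm hb) ih

namespace GridA

theorem conn_lift {ω ω' : Cfg} {F F' : Set (ℤ × ℤ)} (f : ℤ × ℤ → ℤ × ℤ)
    (h : ∀ a b, Bond ω F a b → Bond ω' F' (f a) (f b)) {u v : ℤ × ℤ} (hc : Conn ω F u v) :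
    Conn ω' F' (f u) (f v) := by
  induction hc with
  | refl => exact Relation.ReflTransGen.refl
  | tail _ hb ih => exact Relation.ReflTransGen.tail ih (h _ _ hb)

end GridA

theorem conn_equivalence (ω : Cfg) (F : Set (ℤ × ℤ)) : Equivalence (Conn ω F) :=
  ⟨fun _ => Relation.ReflTransGen.refl, fun h => Conn.symm h,
    fun h h' => Relation.ReflTransGen.trans h h'⟩

theorem Conn.mono (hF : F ⊆ F') {u v : ℤ × ℤ} (h : Conn ω F u v) : Conn ω F' u v :=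
  GridA.conn_lift id (fun _ _ hb => by
    obtain ⟨x, y, hm, hh⟩ := hb
    exact ⟨x, y, hF hm, hh⟩) h

namespace GridA

theorem bond_parity {u v : ℤ × ℤ} (h : Bond ω F u v) : (u.1 + u.2) % 2 = (v.1 + v.2) % 2 := by
  obtain ⟨x, y, -, ⟨-, ⟨rfl, rfl⟩ | ⟨rfl, rfl⟩⟩ | ⟨-, ⟨rfl, rfl⟩ | ⟨rfl, rfl⟩⟩⟩ := h <;>
    simp only <;> omega

end GridA

theorem Conn.parity {u v : ℤ × ℤ} (h : Conn ω F u v) :
    (u.1 + u.2) % 2 = (v.1 + v.2) % 2 := by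
  induction h with
  | refl => rfl
  | tail _ hb ih => rw [ih, GridA.bond_parity hb]

/-- A connection which is not trivial stays in the rectangle. -/
theorem Conn.mem_rect {x₀ x₁ y₀ y₁ : ℤ} {u v : ℤ × ℤ} (h : Conn ω (RF x₀ x₁ y₀ y₁) u v)
    (hu : x₀ ≤ u.1 ∧ u.1 ≤ x₁ ∧ y₀ ≤ u.2 ∧ u.2 ≤ y₁) :
    x₀ ≤ v.1 ∧ v.1 ≤ x₁ ∧ y₀ ≤ v.2 ∧ v.2 ≤ y₁ := by
  induction h with
  | refl => exact hu
  | tail _ hb ih =>
    obtain ⟨x, y, hm, ⟨-, ⟨rfl, rfl⟩ | ⟨rfl, rfl⟩⟩ | ⟨-, ⟨rfl, rfl⟩ | ⟨rfl, rfl⟩⟩⟩ := hb <;>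
      simp only [RF, coe_product, Set.mem_prod, coe_Ico, Set.mem_Ico] at hm <;>
      simp only <;> omega

theorem conn_shift (a b : ℤ) (ω : Cfg) (F : Set (ℤ × ℤ)) (u v : ℤ × ℤ) :
    Conn (shiftC a b ω) F u v ↔
      Conn ω {f | (f.1 - a, f.2 - b) ∈ F} (u.1 + a, u.2 + b) (v.1 + a, v.2 + b) := by
  constructor
  · intro h
    refine GridA.conn_lift (fun w : ℤ × ℤ => (w.1 + a, w.2 + b)) ?_ h
    rintro w w' ⟨x, y, hm, hh⟩
    refine ⟨x + a, y + b, by simpa using hm, ?_⟩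
    have e : shiftC a b ω (x, y) = ω (x + a, y + b) := rfl
    rw [e] at hh
    rcases hh with ⟨h1, ⟨rfl, rfl⟩ | ⟨rfl, rfl⟩⟩ | ⟨h1, ⟨rfl, rfl⟩ | ⟨rfl, rfl⟩⟩
    · exact Or.inl ⟨h1, Or.inl ⟨rfl, by ext <;> dsimp only <;> ring⟩⟩
    · exact Or.inl ⟨h1, Or.inr ⟨by ext <;> dsimp only <;> ring, rfl⟩⟩
    · exact Or.inr ⟨h1, Or.inl ⟨by ext <;> dsimp only <;> ring,
        by ext <;> dsimp only <;> ring⟩⟩
    · exact Or.inr ⟨h1, Or.inr ⟨by ext <;> dsimp only <;> ring,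
        by ext <;> dsimp only <;> ring⟩⟩
  · intro h
    have h2 := GridA.conn_lift (ω' := shiftC a b ω) (F' := F)
      (fun w : ℤ × ℤ => (w.1 - a, w.2 - b)) ?_ h
    · simpa using h2
    · rintro w w' ⟨x, y, hm, hh⟩
      refine ⟨x - a, y - b, hm, ?_⟩
      have e : shiftC a b ω (x - a, y - b) = ω (x, y) := by simp [shiftC]
      rw [e]
      rcases hh with ⟨h1, ⟨rfl, rfl⟩ | ⟨rfl, rfl⟩⟩ | ⟨h1, ⟨rfl, rfl⟩ | ⟨rfl, rfl⟩⟩
      · exact Or.inl ⟨h1, Or.inl ⟨rfl, by ext <;> dsimp only <;> ring⟩⟩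
      · exact Or.inl ⟨h1, Or.inr ⟨by ext <;> dsimp only <;> ring, rfl⟩⟩
      · exact Or.inr ⟨h1, Or.inl ⟨by ext <;> dsimp only <;> ring,
          by ext <;> dsimp only <;> ring⟩⟩
      · exact Or.inr ⟨h1, Or.inr ⟨by ext <;> dsimp only <;> ring,
          by ext <;> dsimp only <;> ring⟩⟩

/-- A path which leaves a rectangle: restriction up to the first boundary point. -/
theorem Conn.toBd {x₀ x₁ y₀ y₁ : ℤ} {u v : ℤ × ℤ} (h : Conn ω F u v)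
    (hu : x₀ ≤ u.1 ∧ u.1 ≤ x₁ ∧ y₀ ≤ u.2 ∧ u.2 ≤ y₁)
    (hv : ¬ (x₀ < v.1 ∧ v.1 < x₁ ∧ y₀ < v.2 ∧ v.2 < y₁)) :
    ∃ w, Conn ω (F ∩ (RF x₀ x₁ y₀ y₁ : Set (ℤ × ℤ))) u w ∧ OnBd x₀ x₁ y₀ y₁ w := by
  revert hu
  induction h using Relation.ReflTransGen.head_induction_on with
  | refl =>
    intro hu
    refine ⟨v, Relation.ReflTransGen.refl, ?_⟩
    unfold OnBd
    omega
  | @head a c hb hcv ih =>
    intro hu
    by_cases hbd : OnBd x₀ x₁ y₀ y₁ a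
    · exact ⟨a, Relation.ReflTransGen.refl, hbd⟩
    · obtain ⟨x, y, hm, hh⟩ := hb
      have hface : (x, y) ∈ (RF x₀ x₁ y₀ y₁ : Set (ℤ × ℤ)) ∧
          (x₀ ≤ c.1 ∧ c.1 ≤ x₁ ∧ y₀ ≤ c.2 ∧ c.2 ≤ y₁) := by
        clear ih
        unfold OnBd at hbd
        simp only [RF, coe_product, Set.mem_prod, coe_Ico, Set.mem_Ico]
        rcases hh with ⟨-, ⟨rfl, rfl⟩ | ⟨rfl, rfl⟩⟩ | ⟨-, ⟨rfl, rfl⟩ | ⟨rfl, rfl⟩⟩ <;>
          simp only at hu hbd ⊢ <;> omega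
      obtain ⟨w, hw, hw'⟩ := ih hface.2
      exact ⟨w, Relation.ReflTransGen.head ⟨x, y, ⟨hm, hface.1⟩, hh⟩ hw, hw'⟩

/-- The same with a free bottom side: the path starts in `[x₀, x₁] × [y₀, y₁]` and its faces are in
the half-plane `y ≥ y₀`. -/
theorem Conn.toSides {x₀ x₁ y₀ y₁ : ℤ} {u v : ℤ × ℤ} (h : Conn ω F u v)
    (hF : ∀ f ∈ F, y₀ ≤ f.2)
    (hu : x₀ ≤ u.1 ∧ u.1 ≤ x₁ ∧ y₀ ≤ u.2 ∧ u.2 ≤ y₁)
    (hv : ¬ (x₀ < v.1 ∧ v.1 < x₁ ∧ v.2 < y₁)) :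
    ∃ w, Conn ω (F ∩ (RF x₀ x₁ y₀ y₁ : Set (ℤ × ℤ))) u w ∧ (w.1 = x₀ ∨ w.1 = x₁ ∨ w.2 = y₁) := by
  revert hu
  induction h using Relation.ReflTransGen.head_induction_on with
  | refl =>
    intro hu
    refine ⟨v, Relation.ReflTransGen.refl, ?_⟩
    omega
  | @head a c hb hcv ih =>
    intro hu
    by_cases hbd : a.1 = x₀ ∨ a.1 = x₁ ∨ a.2 = y₁
    · exact ⟨a, Relation.ReflTransGen.refl, hbd⟩
    · obtain ⟨x, y, hm, hh⟩ := hb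
      have hy : y₀ ≤ y := hF _ hm
      have hface : (x, y) ∈ (RF x₀ x₁ y₀ y₁ : Set (ℤ × ℤ)) ∧
          (x₀ ≤ c.1 ∧ c.1 ≤ x₁ ∧ y₀ ≤ c.2 ∧ c.2 ≤ y₁) := by
        clear ih
        simp only [RF, coe_product, Set.mem_prod, coe_Ico, Set.mem_Ico]
        rcases hh with ⟨-, ⟨rfl, rfl⟩ | ⟨rfl, rfl⟩⟩ | ⟨-, ⟨rfl, rfl⟩ | ⟨rfl, rfl⟩⟩ <;>
          simp only at hu hbd ⊢ <;> omega
      obtain ⟨w, hw, hw'⟩ := ih hface.2
      exact ⟨w, Relation.ReflTransGen.head ⟨x, y, ⟨hm, hface.1⟩, hh⟩ hw, hw'⟩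

namespace GridA

theorem conn_congr {ω ω' : Cfg} (F : Set (ℤ × ℤ)) (h : ∀ f ∈ F, ω f = ω' f) {u v : ℤ × ℤ}
    (hc : Conn ω F u v) : Conn ω' F u v :=
  conn_lift id (fun _ _ hb => by
    obtain ⟨x, y, hm, hh⟩ := hb
    rw [h _ hm] at hh
    exact ⟨x, y, hm, hh⟩) hc

theorem conn_iff {ω ω' : Cfg} (F : Set (ℤ × ℤ)) (h : ∀ f ∈ F, ω f = ω' f) (u v : ℤ × ℤ) :
    Conn ω F u v ↔ Conn ω' F u v :=
  ⟨conn_congr F h, conn_congr F fun f hf => (h f hf).symm⟩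

end GridA

theorem depOn_conn (F : Set (ℤ × ℤ)) (u v : ℤ × ℤ) : DepOn F {ω | Conn ω F u v} :=
  fun _ _ h => GridA.conn_iff F h u v

theorem depOn_hpArm (r : ℤ) : DepOn (RF (-r) r 0 r : Set (ℤ × ℤ)) (hpArm r) := by
  intro ω ω' h
  simp only [hpArm, Set.mem_ofPred_eq, GridA.conn_iff _ h]

theorem depOn_twoArm (R : ℤ) : DepOn (RF (-R) R (-R) R : Set (ℤ × ℤ)) (twoArm R) := by
  intro ω ω' h
  simp only [twoArm, ToBd, Set.mem_ofPred_eq, GridA.conn_iff _ h]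

theorem depOn_LR (c x₀ x₁ y₀ y₁ : ℤ) : DepOn (RF x₀ x₁ y₀ y₁ : Set (ℤ × ℤ)) (LR c x₀ x₁ y₀ y₁) := by
  intro ω ω' h
  simp only [LR, Set.mem_ofPred_eq, GridA.conn_iff _ h]

theorem depOn_BT (c x₀ x₁ y₀ y₁ : ℤ) : DepOn (RF x₀ x₁ y₀ y₁ : Set (ℤ × ℤ)) (BT c x₀ x₁ y₀ y₁) := by
  intro ω ω' h
  simp only [BT, Set.mem_ofPred_eq, GridA.conn_iff _ h]

theorem incD_conn (c : ℤ) (F : Set (ℤ × ℤ)) {u v : ℤ × ℤ} (hu : (u.1 + u.2 - c) % 2 = 0) :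
    IncD (parD c) {ω | Conn ω F u v} := by
  intro ω ω' h hc
  have key : ∀ w, Conn ω F u w → Conn ω' F u w := by
    intro w hw
    induction hw with
    | refl => exact Relation.ReflTransGen.refl
    | @tail a b hab hb ih =>
      refine Relation.ReflTransGen.tail ih ?_
      have hp := Conn.parity hab
      obtain ⟨x, y, hm, hh⟩ := hb
      refine ⟨x, y, hm, ?_⟩
      have hf := h (x, y)
      simp only [flip, parD] at hf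
      rcases hh with ⟨h1, h2⟩ | ⟨h1, h2⟩
      · left
        refine ⟨?_, h2⟩
        have hpar : (x + y - c) % 2 = 0 := by
          rcases h2 with ⟨rfl, -⟩ | ⟨rfl, -⟩ <;> simp only at hp <;> omega
        simpa [hpar, h1] using hf
      · right
        refine ⟨?_, h2⟩
        have hpar : (x + y - c) % 2 ≠ 0 := by
          rcases h2 with ⟨rfl, -⟩ | ⟨rfl, -⟩ <;> simp only at hp <;> omega
        have hpar' : decide ((x + y - c) % 2 ≠ 0) = true := decide_eq_true hpar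
        simp only [hpar', h1] at hf
        simpa using hf
  exact key v hc

end Pool.Agent.Perc
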