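import Pool.Agent.Lib.MP_6bd702_perc.Psi

/-!
# Stationarity of the homogeneous solution (task Stat)
-/

set_option autoImplicit false

namespace Pool.Agent.Perc

open Finset

/-- One face: the average of the two states. -/
noncomputable def rP (i : ℕ) (f : (ℕ → ℕ) →₀ ℂ) : (ℕ → ℕ) →₀ ℂ :=
  (1 / 2 : ℂ) • (f + f.mapDomain (eAct i))

/-- The faces `0, …, k - 1` of a row. -/
noncomputable def rowP : ℕ → ((ℕ → ℕ) →₀ ℂ) → ((ℕ → ℕ) →₀ ℂ)
  | 0, f => f
  | k + 1, f => rP k (rowP k f)

namespace Stat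

theorem rP_smul (i : ℕ) (c : ℂ) (f : (ℕ → ℕ) →₀ ℂ) : rP i (c • f) = c • rP i f := by
  unfold rP
  rw [Finsupp.mapDomain_smul, ← smul_add, smul_comm]

theorem rowP_smul (k : ℕ) (c : ℂ) (f : (ℕ → ℕ) →₀ ℂ) : rowP k (c • f) = c • rowP k f := by
  induction k with
  | zero => rfl
  | succ k ih =>
    change rP k (rowP k (c • f)) = c • rP k (rowP k f)
    rw [ih, rP_smul]

/-- The point with `-q ^ 2` at `k` and `-q` at the last place. -/
def apt (q : ℂ) (n k : ℕ) : ℕ → ℂ := fun j =>
  if j = k then -q ^ 2 else if j = 2 * n + 1 then -q else 1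

variable {q : ℂ}

theorem q3 (hq : q ^ 2 + q + 1 = 0) : q ^ 3 = 1 := by linear_combination (q - 1) * hq

theorem swap_apt (n k : ℕ) (hk : k < 2 * n) : swapV k (apt q n k) = apt q n (k + 1) := by
  ext j
  unfold swapV apt
  by_cases h1 : j = k
  · subst h1
    rw [Equiv.swap_apply_left, if_neg (by omega), if_neg (by omega), if_neg (by omega),
      if_neg (by omega)]
  · by_cases h2 : j = k + 1
    · subst h2
      rw [Equiv.swap_apply_right, if_pos rfl, if_pos rfl]
    · rw [Equiv.swap_apply_of_ne_of_ne h1 h2, if_neg h1, if_neg h2]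

theorem apt_step (hq : q ^ 2 + q + 1 = 0) (n k : ℕ) (hk : k < 2 * n) :
    PsiV q (n + 1) (apt q n (k + 1)) = rP k (PsiV q (n + 1) (apt q n k)) := by
  have hq0 := PsiB.q_ne_zero hq
  have h := exchange hq (m := n + 1) (i := k) (by omega) (apt q n k)
  have hz : apt q n k k = -q ^ 2 := if_pos rfl
  have hz' : apt q n k (k + 1) = 1 := by
    unfold apt
    rw [if_neg (by omega), if_neg (by omega)]
  rw [swap_apt n k hk, hz, hz'] at h
  have e1 : q * 1 - q ^ 2 * -q ^ 2 = 2 * q := by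
    linear_combination q * q3 hq
  have e2 : q * -q ^ 2 - q ^ 2 * 1 = q := by
    linear_combination -q3 hq - hq
  have e3 : -q ^ 2 - 1 = q := by linear_combination -hq
  rw [e1, e2, e3] at h
  have h2 : (2 * q : ℂ) ≠ 0 := mul_ne_zero two_ne_zero hq0
  have h3 : PsiV q (n + 1) (apt q n (k + 1)) = (2 * q)⁻¹ • ((2 * q) •
      PsiV q (n + 1) (apt q n (k + 1))) := by
    rw [smul_smul, inv_mul_cancel₀ h2, one_smul]
  rw [h3, h, ← smul_add, smul_smul]
  unfold rP
  congr 1
  field_simp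

theorem apt_row (hq : q ^ 2 + q + 1 = 0) (n k : ℕ) (hk : k ≤ 2 * n) :
    PsiV q (n + 1) (apt q n k) = rowP k (PsiV q (n + 1) (apt q n 0)) := by
  induction k with
  | zero => rfl
  | succ k ih =>
    rw [apt_step hq n k (by omega), ih (by omega)]
    rfl

/-- The constant. -/
noncomputable def cst (q : ℂ) (n : ℕ) : ℂ := 2 ^ (2 * n) / (3 * q ^ 2) ^ n

theorem cst_ne (hq : q ^ 2 + q + 1 = 0) (n : ℕ) : cst q n ≠ 0 := by
  have hq0 := PsiB.q_ne_zero hq
  exact div_ne_zero (pow_ne_zero _ two_ne_zero)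
    (pow_ne_zero _ (mul_ne_zero (by norm_num) (pow_ne_zero _ hq0)))

theorem ins_one (hq : q ^ 2 + q + 1 = 0) (n i : ℕ) (hi : i ≤ 2 * n) :
    PsiV q (n + 1) (insV i (q ^ 2 * -q ^ 2) (-q ^ 2) fun _ => 1) =
      cst q n • (PsiV q n fun _ => 1).mapDomain (insArc i) := by
  rw [PsiV_insV hq hi]
  congr 1
  unfold cst
  have : ∀ k ∈ range (2 * n), ((1 : ℂ) - q * -q ^ 2) = 2 := fun k _ => by
    linear_combination q3 hq
  rw [Finset.prod_congr rfl this, Finset.prod_const, Finset.card_range]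

theorem apt_zero (hq : q ^ 2 + q + 1 = 0) (n : ℕ) :
    PsiV q (n + 1) (apt q n 0) = cst q n • (PsiV q n fun _ => 1).mapDomain (cupO (2 * n)) := by
  have h1 : ∀ k < 2 * (n + 1), apt q n 0 k =
      rotV (2 * (n + 1)) (insV 0 (q ^ 2 * -q ^ 2) (-q ^ 2) fun _ => 1) k := by
    intro k hk
    unfold apt rotV insV
    by_cases h1 : k = 0
    · subst h1
      rw [if_pos rfl, if_pos (by omega), if_neg (by omega), if_neg (by omega), if_pos (by omega)]
    · rw [if_neg h1]
      by_cases h2 : k = 2 * n + 1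
      · rw [if_pos h2, if_neg (by omega), if_pos (by omega), if_neg (by omega), if_pos rfl]
        linear_combination q * q3 hq
      · rw [if_neg h2, if_pos (by omega), if_neg (by omega), if_neg (by omega),
          if_neg (by omega)]
  rw [PsiV_congr hq h1, PsiV_rot hq, ins_one hq n 0 (Nat.zero_le _), Finsupp.mapDomain_smul,
    ← Finsupp.mapDomain_comp]
  congr 1
  rw [PsiA.mapDomain_PsiV, PsiA.mapDomain_PsiV]
  refine Finset.sum_congr rfl fun p hp => ?_
  rw [Function.comp_apply, show 2 * (n + 1) = 2 * n + 2 by ring,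
    rotP_insArc_zero (mem_pats.mp hp)]

theorem apt_last (hq : q ^ 2 + q + 1 = 0) (n : ℕ) :
    (PsiV q (n + 1) (apt q n (2 * n))).mapDomain (eAct (2 * n)) =
      cst q n • (PsiV q n fun _ => 1).mapDomain (insArc (2 * n)) := by
  have hq0 := PsiB.q_ne_zero hq
  have h := exchange hq (m := n + 1) (i := 2 * n) (by omega) (apt q n (2 * n))
  have hz : apt q n (2 * n) (2 * n) = -q ^ 2 := if_pos rfl
  have hz' : apt q n (2 * n) (2 * n + 1) = -q := by
    unfold apt
    rw [if_neg (by omega), if_pos rfl]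
  have h1 : ∀ k < 2 * (n + 1), swapV (2 * n) (apt q n (2 * n)) k =
      insV (2 * n) (q ^ 2 * -q ^ 2) (-q ^ 2) (fun _ => 1) k := by
    intro k hk
    unfold swapV insV
    by_cases h1 : k = 2 * n
    · subst h1
      rw [Equiv.swap_apply_left, hz', if_neg (lt_irrefl _), if_pos rfl]
      linear_combination q * q3 hq
    · by_cases h2 : k = 2 * n + 1
      · subst h2
        rw [Equiv.swap_apply_right, hz, if_neg (by omega), if_neg (by omega), if_pos rfl]
      · rw [Equiv.swap_apply_of_ne_of_ne h1 h2]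
        unfold apt
        rw [if_neg h1, if_neg h2, if_pos (by omega)]
  rw [PsiV_congr hq h1, ins_one hq n (2 * n) le_rfl, hz, hz'] at h
  have e1 : q * -q - q ^ 2 * -q ^ 2 = q - q ^ 2 := by
    linear_combination q * q3 hq
  have e2 : q * -q ^ 2 - q ^ 2 * -q = 0 := by ring
  have e3 : -q ^ 2 - -q = q - q ^ 2 := by ring
  rw [e1, e2, e3, zero_smul, zero_add] at h
  have h2 : q - q ^ 2 ≠ 0 := by
    intro h0
    have h4 : q * (1 - q) = 0 := by linear_combination h0
    rcases mul_eq_zero.mp h4 with h5 | h5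
    · exact hq0 h5
    · have h6 : q = 1 := by linear_combination -h5
      rw [h6] at hq
      norm_num at hq
  have h3 := congrArg (fun f => (q - q ^ 2)⁻¹ • f) h
  simp only [smul_smul _ (q - q ^ 2), inv_mul_cancel₀ h2, one_smul] at h3
  exact h3.symm

end Stat

/-- Stationarity: the row-to-row transfer operator fixes `Ψ(1, …, 1)`. -/
theorem stationary {q : ℂ} (hq : q ^ 2 + q + 1 = 0) (n : ℕ) :
    (rowP (2 * n) ((PsiV q n fun _ => 1).mapDomain (cupO (2 * n)))).mapDomain (eAct (2 * n)) =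
      (PsiV q n fun _ => 1).mapDomain (insArc (2 * n)) := by
  have h := Stat.apt_last hq n
  rw [Stat.apt_row hq n (2 * n) le_rfl, Stat.apt_zero hq n, Stat.rowP_smul,
    Finsupp.mapDomain_smul] at h
  have h3 := congrArg (fun f => (Stat.cst q n)⁻¹ • f) h
  simp only [smul_smul, inv_mul_cancel₀ (Stat.cst_ne hq n), one_smul] at h3
  exact h3

end Pool.Agent.Perc
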