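import Pool.Agent.Lib.MP_6bd702_perc.AnnSpin
import Pool.Agent.Lib.MP_6bd702_perc.Stat

/-!
# The untwisted transfer operator (task LimitA)
-/

set_option autoImplicit false

namespace Pool.Agent.Perc

open Finset Function

namespace LimitA

variable {κ : ℂ} {N L : ℕ}

theorem suppNC_mapDomain {M : ℕ} {f : (ℕ → ℕ) →₀ ℂ} (hf : SuppNC N f) {F : (ℕ → ℕ) → (ℕ → ℕ)}
    (hF : ∀ p, NC N p → NC M (F p)) : SuppNC M (f.mapDomain F) := by
  classical
  intro p hp
  have h1 := Finsupp.mapDomain_support hp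
  rw [Finset.mem_image] at h1
  obtain ⟨r, hr, rfl⟩ := h1
  exact hF r (hf r hr)

theorem suppNC_rP {f : (ℕ → ℕ) →₀ ℂ} (hf : SuppNC N f) {i : ℕ} (hi : i + 1 < N) :
    SuppNC N (rP i f) := by
  classical
  intro p hp
  unfold rP at hp
  have h1 := Finsupp.support_smul hp
  have h2 := Finsupp.support_add h1
  rw [Finset.mem_union] at h2
  rcases h2 with h | h
  · exact hf p h
  · exact suppNC_mapDomain hf (fun p hp => hp.eAct hi) p h

theorem suppNC_rowP {f : (ℕ → ℕ) →₀ ℂ} (hf : SuppNC N f) :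
    ∀ k : ℕ, k < N → SuppNC N (rowP k f) := by
  intro k
  induction k with
  | zero => intro _; exact hf
  | succ k ih => intro hk; exact suppNC_rP (ih (by omega)) hk

theorem PhiV_rP (hκ : κ ^ 2 = κ - 1) {f : (ℕ → ℕ) →₀ ℂ} (hf : SuppNC N f) {i : ℕ}
    (hi : i + 1 < N) : PhiV κ N (rP i f) = rS κ i (PhiV κ N f) := by
  funext σ
  unfold rP
  rw [PhiV_smul, PhiV_add, PhiV_mapDomain_eAct hκ hf hi]
  unfold rS
  ring

theorem PhiV_rowP (hκ : κ ^ 2 = κ - 1) {f : (ℕ → ℕ) →₀ ℂ} (hf : SuppNC N f) :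
    ∀ k : ℕ, k < N → PhiV κ N (rowP k f) = rowS κ k (PhiV κ N f) := by
  intro k
  induction k with
  | zero => intro _; rfl
  | succ k ih =>
    intro hk
    show PhiV κ N (rP k (rowP k f)) = rS κ k (rowS κ k (PhiV κ N f))
    rw [PhiV_rP hκ (suppNC_rowP hf k (by omega)) hk, ih (by omega)]

theorem suppNC_PsiV (q : ℂ) (m : ℕ) (z : ℕ → ℂ) : SuppNC (2 * m) (PsiV q m z) := by
  intro p hp
  by_contra h
  rw [Finsupp.mem_support_iff] at hp
  exact hp (PsiV_apply_of_not q m z p h)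

theorem PhiV_congr {f : (ℕ → ℕ) →₀ ℂ} (hf : SuppNC N f) {σ τ : ℕ → Bool}
    (h : ∀ k < N, σ k = τ k) : PhiV κ N f σ = PhiV κ N f τ := by
  unfold PhiV
  apply Finsupp.sum_congr
  intro p hp
  rw [Phi_congr (hf p hp) h]

theorem upd_upd (σ : ℕ → Bool) (L : ℕ) (a b c d : Bool) :
    update (update (update (update σ L a) (L + 1) b) L c) (L + 1) d =
      update (update σ L c) (L + 1) d := by
  funext j
  by_cases h : j = L + 1
  · subst h; simp
  · by_cases h' : j = L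
    · subst h'; simp
    · simp [h, h']

end LimitA

/-- The untwisted transfer operator fixes the spin vector of `Ψ(1, …, 1)`. -/
theorem TL_PhiV {q : ℂ} (hq : q ^ 2 + q + 1 = 0) (n : ℕ) (σ : ℕ → Bool) :
    TL q (2 * n) (PhiV (-q ^ 2) (2 * n) (PsiV q n fun _ => 1)) σ =
      PhiV (-q ^ 2) (2 * n) (PsiV q n fun _ => 1) σ := by
  have hκ : (-q ^ 2) ^ 2 = -q ^ 2 - 1 := by
    linear_combination (q ^ 2 - q + 1) * hq
  have hκ0 : (-q ^ 2 : ℂ) ≠ 0 := by
    intro h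
    rw [h] at hκ
    norm_num at hκ
  set L := 2 * n with hL
  set Ψ := PsiV q n fun _ => 1 with hΨ
  have hs : SuppNC L Ψ := LimitA.suppNC_PsiV q n _
  have hs2 : SuppNC (L + 2) (Ψ.mapDomain (cupO L)) :=
    LimitA.suppNC_mapDomain hs fun p hp => hp.cupO
  set σ' : ℕ → Bool := update (update σ L true) (L + 1) false with hσ'
  have h1 := congrArg (fun f => PhiV (-q ^ 2) (L + 2) f σ') (stationary hq n)
  simp only at h1
  rw [← hL, ← hΨ] at h1
  rw [PhiV_mapDomain_insArc_last hs, PhiV_mapDomain_eAct hκ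
    (LimitA.suppNC_rowP hs2 L (by omega)) (by omega), LimitA.PhiV_rowP hκ hs2 L (by omega)] at h1
  have h2 : PhiV (-q ^ 2) (L + 2) (Ψ.mapDomain (cupO L)) = fun τ =>
      sw (-q ^ 2) (τ 0) (τ (L + 1)) * PhiV (-q ^ 2) L Ψ (fun k => τ (k + 1)) := by
    funext τ
    exact PhiV_mapDomain_cupO hs τ
  rw [h2] at h1
  have e1 : σ' L = true := by rw [hσ']; simp
  have e2 : σ' (L + 1) = false := by rw [hσ']; simp
  unfold eS at h1
  rw [e1, e2] at h1
  have e3 : sw (-q ^ 2) true false = -q ^ 2 := by simp [sw]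
  rw [e3, mul_comm (PhiV _ _ _ _)] at h1
  have h3 := mul_left_cancel₀ hκ0 h1
  have h4 : PhiV (-q ^ 2) L Ψ σ' = PhiV (-q ^ 2) L Ψ σ := by
    apply LimitA.PhiV_congr hs
    intro k hk
    rw [hσ', update_of_ne (by omega), update_of_ne (by omega)]
  rw [h4] at h3
  rw [← h3]
  unfold TL capS
  rw [hσ', LimitA.upd_upd, LimitA.upd_upd]

end Pool.Agent.Perc
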