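import Pool.Agent.Lib.MP_6bd702_perc.BoxDefs2
import Pool.Agent.Lib.MP_6bd702_pr_h23.Small

/-!
# All clusters are small with positive probability (RSW, helper23)
-/

set_option autoImplicit false

namespace Pool.Agent.Perc

open Finset

namespace SmallClusters

open Pool.Agent.MP_6bd702 Pool.Agent.MP_6bd702.H23

theorem tl_eq (e : Edg) : tl e = ea e := rfl
theorem hd_eq (e : Edg) : hd e = eb e := rfl

theorem boxE_eq (n : ℕ) : boxE n = EW 0 n 0 n := by
  ext e
  rw [mem_EW]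
  obtain ⟨x, y, t⟩ := e
  simp only [boxE, Box, mem_filter, mem_product, mem_Icc, mem_univ, and_true, mem_Rect, hd_eq,
    ea_mk]
  tauto

/-- The two descriptions of the uniform measure. -/
theorem prB_eq (n : ℕ) (A : Set (Finset Edg)) :
    prB n A = Pool.Agent.MP_6bd702.H23.pr (boxE n) {ω | ∃ T ∈ A, (T : Set Edg) = ω} := by
  classical
  unfold prB Pool.Agent.MP_6bd702.H23.pr
  rw [Pr_eq_card, Fintype.card_coe]
  congr 2
  refine Finset.card_bij' (i := fun T _ => (univ : Finset (boxE n)).filter fun e => (e : Edg) ∈ T)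
    (j := fun s _ => s.map (Function.Embedding.subtype _)) ?_ ?_ ?_ ?_
  · intro T hT
    rw [mem_filter, mem_powerset] at hT
    rw [mem_filter]
    refine ⟨mem_univ _, ?_⟩
    change _ ∈ {ω | ∃ T ∈ A, (T : Set Edg) = ω}
    refine ⟨T, hT.2, ?_⟩
    ext e
    simp only [mem_coe, H23.mem_cfg, mem_filter, mem_univ, true_and]
    exact ⟨fun h => ⟨hT.1 h, h⟩, fun ⟨_, h⟩ => h⟩
  · intro s hs
    rw [mem_filter] at hs
    obtain ⟨T, hT, hTs⟩ := hs.2
    rw [mem_filter, mem_powerset]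
    have : s.map (Function.Embedding.subtype _) = T := by
      ext e
      have h1 : e ∈ (T : Set Edg) ↔ e ∈ H23.cfg (boxE n) s := by rw [hTs]
      rw [mem_coe, H23.mem_cfg] at h1
      rw [h1]
      simp [Finset.mem_map]
    rw [this]
    refine ⟨?_, hT⟩
    intro e he
    have h1 : e ∈ (T : Set Edg) := he
    rw [hTs] at h1
    exact H23.cfg_sub h1
  · intro T hT
    rw [mem_filter, mem_powerset] at hT
    ext e
    simp only [Finset.mem_map, mem_filter, mem_univ, true_and, Function.Embedding.subtype_apply,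
      Subtype.exists, exists_and_left, exists_prop, exists_eq_right_right]
    exact ⟨fun h => h.1, fun h => ⟨h, hT.1 h⟩⟩
  · intro s hs
    ext e
    simp

theorem conn_of_clV {n : ℕ} {T : Finset Edg} (hT : T ⊆ boxE n) {u v : ℤ × ℤ} (hv : v ∈ clV T u) :
    Conn (T : Set Ed) (Rect 0 n 0 n) u v := by
  unfold clV at hv
  change Relation.ReflTransGen (AdjT T) u v at hv
  induction hv with
  | refl => exact .refl
  | @tail v w _ h2 ih =>
    obtain ⟨e, he, hh⟩ := h2
    have h3 := hT he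
    rw [boxE_eq, mem_EW] at h3
    refine ih.tail ⟨?_, ?_, e, he, hh⟩
    · rcases hh with ⟨h4, h5⟩ | ⟨h4, h5⟩
      · rw [← h4]; exact h3.1
      · rw [← h5]; exact h3.2
    · rcases hh with ⟨h4, h5⟩ | ⟨h4, h5⟩
      · rw [← h5]; exact h3.2
      · rw [← h4]; exact h3.1

theorem dist_toC (u v : ℤ × ℤ) : dist (toC u) (toC v) ^ 2 = ((u.1 - v.1 : ℤ) : ℝ) ^ 2 + ((u.2 - v.2 : ℤ) : ℝ) ^ 2 := by
  rw [Complex.dist_eq, ← Complex.normSq_eq_norm_sq, Complex.normSq_apply]
  simp [toC]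
  ring

theorem mem_clS {T : Finset Edg} {v : ℤ × ℤ} {p : ℂ} (hp : p ∈ clS T v) :
    ∃ a ∈ clV T v, ∃ b ∈ clV T v, p ∈ segment ℝ (toC a) (toC b) := by
  rcases hp with ⟨a, ha, rfl⟩ | hp
  · exact ⟨a, ha, a, ha, left_mem_segment ℝ _ _⟩
  · simp only [Set.mem_iUnion] at hp
    obtain ⟨e, he, h1, h2⟩ := hp
    refine ⟨tl e, h1, hd e, ?_, h2⟩
    change Relation.ReflTransGen (AdjT T) v (hd e)
    exact Relation.ReflTransGen.tail h1 ⟨e, he, Or.inl ⟨rfl, rfl⟩⟩

theorem small_of_Sm {n : ℕ} (hn : 0 < n) {T : Finset Edg} (hT : T ⊆ boxE n)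
    (h : (T : Set Ed) ∈ Sm 12 n) : Small n T := by
  intro v hv
  have hvR : v ∈ Rect 0 n 0 n := by
    simp only [Box, mem_product, mem_Icc] at hv
    exact ⟨hv.1.1, hv.1.2, hv.2.1, hv.2.2⟩
  set D : ℝ := n * (Real.sqrt 2 / 12) with hD
  have hD0 : 0 ≤ D := by positivity
  have h1 : ∀ a ∈ clV T v, ∀ b ∈ clV T v, dist (toC a) (toC b) ≤ D := by
    intro a ha b hb
    have ca := conn_of_clV hT ha
    have cb := conn_of_clV hT hb
    have hx := h a (ca.mem hvR) b (cb.mem hvR) (ca.symm.trans cb)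
    have h2 := dist_toC a b
    have h3 : (12 : ℝ) * |((a.1 - b.1 : ℤ) : ℝ)| ≤ n := by exact_mod_cast hx.1
    have h4 : (12 : ℝ) * |((a.2 - b.2 : ℤ) : ℝ)| ≤ n := by exact_mod_cast hx.2
    have h5 : ((a.1 - b.1 : ℤ) : ℝ) ^ 2 ≤ ((n : ℝ) / 12) ^ 2 := by
      rw [← sq_abs]
      exact pow_le_pow_left₀ (abs_nonneg _) (by linarith) 2
    have h6 : ((a.2 - b.2 : ℤ) : ℝ) ^ 2 ≤ ((n : ℝ) / 12) ^ 2 := by
      rw [← sq_abs]
      exact pow_le_pow_left₀ (abs_nonneg _) (by linarith) 2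
    have h7 : D ^ 2 = 2 * ((n : ℝ) / 12) ^ 2 := by
      rw [hD, mul_pow, div_pow, Real.sq_sqrt (by norm_num)]
      ring
    refine abs_le_of_sq_le_sq' ?_ hD0 |>.2
    rw [h2, h7]
    linarith
  have h8 : Metric.diam (clS T v) ≤ D := by
    refine Metric.diam_le_of_forall_dist_le hD0 fun p hp q hq => ?_
    obtain ⟨a, ha, b, hb, hp⟩ := mem_clS hp
    obtain ⟨a', ha', b', hb', hq⟩ := mem_clS hq
    have h9 : ∀ c ∈ clV T v, dist p (toC c) ≤ D := by
      intro c hc
      have h10 : segment ℝ (toC a) (toC b) ⊆ Metric.closedBall (toC c) D :=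
        (convex_closedBall _ _).segment_subset (Metric.mem_closedBall.2 (h1 a ha c hc))
          (Metric.mem_closedBall.2 (h1 b hb c hc))
      exact Metric.mem_closedBall.1 (h10 hp)
    have h11 : segment ℝ (toC a') (toC b') ⊆ Metric.closedBall p D := by
      refine (convex_closedBall _ _).segment_subset (Metric.mem_closedBall.2 ?_)
        (Metric.mem_closedBall.2 ?_)
      · rw [dist_comm]; exact h9 a' ha'
      · rw [dist_comm]; exact h9 b' hb'
    rw [dist_comm]
    exact Metric.mem_closedBall.1 (h11 hq)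
  refine lt_of_le_of_lt h8 ?_
  have h12 : Real.sqrt 2 < 3 / 2 := by
    rw [Real.sqrt_lt' (by norm_num)]
    norm_num
  have h13 : (0 : ℝ) < n := by exact_mod_cast hn
  rw [hD]
  nlinarith

end SmallClusters

open SmallClusters in
/-- All clusters are small with probability bounded below (RSW, helper23). -/
theorem prB_small_ge : ∃ c : ℝ, 0 < c ∧ ∀ n : ℕ, 0 < n → c ≤ prB n {T | Small n T} := by
  obtain ⟨c, hc, h⟩ := Pool.Agent.MP_6bd702.H23.small_clusters 12
  refine ⟨c, hc, fun n hn => ?_⟩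
  rw [prB_eq, boxE_eq]
  refine (h n (by positivity)).trans (Pool.Agent.MP_6bd702.H23.pr_mono' fun ω hω h1 => ?_)
  have hfin : ω.Finite := (Finset.finite_toSet _).subset hω
  refine ⟨hfin.toFinset, ?_, by simp⟩
  refine small_of_Sm hn ?_ (by simpa using h1)
  intro e he
  rw [boxE_eq]
  rw [Set.Finite.mem_toFinset] at he
  exact hω he

end Pool.Agent.Perc
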