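import Pool.Agent.Lib.MP_6bd702_perc.Box
import Pool.Agent.Lib.MP_6bd702_perc.Dict
import Pool.Agent.Lib.MP_6bd702_perc.TwoArm
import Pool.Agent.Lib.MP_6bd702_perc.SmallClusters

/-!
# The final theorem (task Main)
-/

set_option autoImplicit false

namespace Pool.Agent.Perc

open Finset

/-- The window of the two-arm event contains the faces of the edges of the box. -/
theorem Main.phiE_mem {n : ℕ} {v : ℤ × ℤ} (hv : v ∈ Box n) {e : Edg} (he : e ∈ boxE n) :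
    phiE e ∈ RF ((phiV v).1 - (2 * n + 1)) ((phiV v).1 + (2 * n + 1))
      ((phiV v).2 - (2 * n + 1)) ((phiV v).2 + (2 * n + 1)) := by
  obtain ⟨x, y, b⟩ := e
  obtain ⟨v1, v2⟩ := v
  simp only [Box, mem_product, mem_Icc] at hv
  simp only [boxE, mem_filter, mem_product, mem_Icc, mem_univ, and_true, Box, hd] at he
  simp only [RF, phiE, phiV, mem_product, mem_Ico]
  cases b with
  | true =>
    simp only [if_true] at he ⊢
    refine ⟨⟨?_, ?_⟩, ?_, ?_⟩ <;> omega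
  | false =>
    simp only [Bool.false_eq_true, if_false] at he ⊢
    refine ⟨⟨?_, ?_⟩, ?_, ?_⟩ <;> omega

/-- The event that `v` is next to the unbounded component of its cluster, of large diameter. -/
theorem Main.prB_ge {n : ℕ} (hn : 4 ≤ n) {v : ℤ × ℤ}
    (hv : v ∈ Icc ((n / 4 : ℕ) : ℤ) ((n : ℤ) - (n / 4 : ℕ)) ×ˢ
      Icc ((n / 4 : ℕ) : ℤ) ((n : ℤ) - (n / 4 : ℕ))) :
    p2 (2 * n + 1) ≤ prB n {T | (n : ℝ) / 8 ≤ Metric.diam (clS T v) ∧ Outer T v v} := by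
  rw [mem_product, mem_Icc, mem_Icc] at hv
  have hvB : v ∈ Box n := by
    simp only [Box, mem_product, mem_Icc]
    refine ⟨⟨?_, ?_⟩, ?_, ?_⟩ <;> omega
  set S := RF ((phiV v).1 - (2 * n + 1)) ((phiV v).1 + (2 * n + 1))
      ((phiV v).2 - (2 * n + 1)) ((phiV v).2 + (2 * n + 1)) with hS
  rw [← pr_twoArmAt (R := 2 * n + 1) v (S := S) (le_refl _),
    ← pr_cfgE n (S := S) (fun e he => Main.phiE_mem hvB he)]
  refine pr_mono S fun ω hω => ?_
  refine ⟨?_, outer_of_twoArmAt (by omega) hω hvB⟩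
  have h1 := diam_ge_of_twoArmAt (n := n) (d := n / 4) (by omega) hω hvB
    ⟨hv.1.1, by omega, hv.2.1, by omega⟩
  refine le_trans ?_ h1
  have h2 : n ≤ 8 * (n / 4) := by omega
  have h3 : (n : ℝ) ≤ 8 * ((n / 4 : ℕ) : ℝ) := by exact_mod_cast h2
  linarith

open Classical in
/-- Counting and expectation. -/
theorem Main.exB_card (n : ℕ) (s : Finset (ℤ × ℤ)) (A : ℤ × ℤ → Set (Finset Edg)) :
    exB n (fun T => ((s.filter fun v => T ∈ A v).card : ℝ)) = ∑ v ∈ s, prB n (A v) := by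
  simp only [exB, prB, card_eq_sum_ones, sum_filter, Nat.cast_sum, Nat.cast_ite, Nat.cast_one,
    Nat.cast_zero]
  rw [sum_comm, sum_div]

theorem Main.exB_mono {n : ℕ} {f g : Finset Edg → ℝ} (h : ∀ T ⊆ boxE n, f T ≤ g T) :
    exB n f ≤ exB n g := by
  unfold exB
  gcongr with T hT
  exact h T (mem_powerset.1 hT)

theorem exB_bigPerim_ge : ∃ c : ℝ, 0 < c ∧ ∃ n₀ : ℕ, ∀ n : ℕ, n₀ ≤ n →
    c * (n : ℝ) ^ (5 / 3 : ℝ) ≤ exB n (fun T => (bigPerim n T : ℝ)) := by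
  classical
  obtain ⟨c, hc, hp2⟩ := p2_ge
  refine ⟨c / 16, by positivity, 8, fun n hn => ?_⟩
  have hn8 : (8 : ℝ) ≤ n := by exact_mod_cast hn
  have hn0 : (0 : ℝ) < n := by linarith
  set s := Icc ((n / 4 : ℕ) : ℤ) ((n : ℤ) - (n / 4 : ℕ)) ×ˢ
      Icc ((n / 4 : ℕ) : ℤ) ((n : ℤ) - (n / 4 : ℕ)) with hs
  -- the number of vertices in the middle
  have hcard : (n : ℝ) ^ 2 / 4 ≤ (s.card : ℝ) := by
    have h1 : s.card = (n - 2 * (n / 4) + 1) ^ 2 := by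
      rw [hs, card_product, Int.card_Icc, sq]
      congr 1 <;> omega
    have h2 : n ≤ 2 * (n - 2 * (n / 4) + 1) := by omega
    have h3 : (n : ℝ) ≤ 2 * ((n - 2 * (n / 4) + 1 : ℕ) : ℝ) := by exact_mod_cast h2
    rw [h1]
    push_cast
    push_cast at h3
    nlinarith
  -- the two-arm probability
  have harm : c / 2 * (n : ℝ) ^ (-(1 / 3 : ℝ)) ≤ p2 (2 * n + 1) := by
    have h1 := hp2 (2 * n + 1) (by omega)
    push_cast at h1
    refine le_trans ?_ h1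
    have h2 : (8 * (n : ℝ)) ^ (-(1 / 3 : ℝ)) ≤ (2 * (n : ℝ) + 1) ^ (-(1 / 3 : ℝ)) := by
      apply Real.rpow_le_rpow_of_nonpos (by positivity) (by linarith) (by norm_num)
    have h3 : (8 * (n : ℝ)) ^ (-(1 / 3 : ℝ)) = 1 / 2 * (n : ℝ) ^ (-(1 / 3 : ℝ)) := by
      rw [Real.mul_rpow (by norm_num) hn0.le]
      congr 1
      rw [show (8 : ℝ) = 2 ^ (3 : ℝ) by norm_num, ← Real.rpow_mul (by norm_num)]
      norm_num
    rw [h3] at h2
    nlinarith
  have h1 : exB n (fun T => (((s.filter fun v => T ∈ {T | (n : ℝ) / 8 ≤ Metric.diam (clS T v) ∧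
      Outer T v v}).card : ℝ) / 2)) ≤ exB n (fun T => (bigPerim n T : ℝ)) := by
    apply Main.exB_mono
    intro T hT
    refine le_trans ?_ (bigPerim_ge n hn T hT)
    have h2 : (s.filter fun v => T ∈ {T | (n : ℝ) / 8 ≤ Metric.diam (clS T v) ∧ Outer T v v}) ⊆
        (Box n).filter fun v => (n : ℝ) / 8 ≤ Metric.diam (clS T v) ∧ Outer T v v := by
      intro v hv
      rw [mem_filter] at hv ⊢
      refine ⟨?_, hv.2⟩
      have h3 := hv.1
      rw [hs, mem_product, mem_Icc, mem_Icc] at h3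
      simp only [Box, mem_product, mem_Icc]
      refine ⟨⟨?_, ?_⟩, ?_, ?_⟩ <;> omega
    have h3 := card_le_card h2
    have h4 : ((s.filter fun v => T ∈ {T | (n : ℝ) / 8 ≤ Metric.diam (clS T v) ∧
      Outer T v v}).card : ℝ) ≤ (((Box n).filter fun v => (n : ℝ) / 8 ≤ Metric.diam (clS T v) ∧
        Outer T v v).card : ℝ) := by exact_mod_cast h3
    linarith
  refine le_trans ?_ h1
  have h2 : exB n (fun T => (((s.filter fun v => T ∈ {T | (n : ℝ) / 8 ≤ Metric.diam (clS T v) ∧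
      Outer T v v}).card : ℝ) / 2)) = (∑ v ∈ s, prB n {T | (n : ℝ) / 8 ≤ Metric.diam (clS T v) ∧
      Outer T v v}) / 2 := by
    rw [← Main.exB_card n s]
    unfold exB
    rw [← sum_div, div_right_comm]
    congr!
  rw [h2]
  have h3 : (s.card : ℝ) * (c / 2 * (n : ℝ) ^ (-(1 / 3 : ℝ))) ≤
      ∑ v ∈ s, prB n {T | (n : ℝ) / 8 ≤ Metric.diam (clS T v) ∧ Outer T v v} := by
    rw [← nsmul_eq_mul]
    apply card_nsmul_le_sum
    intro v hv
    exact harm.trans (Main.prB_ge (by omega) hv)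
  have h4 : (n : ℝ) ^ (5 / 3 : ℝ) = (n : ℝ) ^ 2 * (n : ℝ) ^ (-(1 / 3 : ℝ)) := by
    rw [← Real.rpow_natCast, ← Real.rpow_add hn0]
    norm_num
  have h5 : 0 < (n : ℝ) ^ (-(1 / 3 : ℝ)) := Real.rpow_pos_of_pos hn0 _
  have h6 : (n : ℝ) ^ 2 / 4 * (c / 2 * (n : ℝ) ^ (-(1 / 3 : ℝ))) ≤
      (s.card : ℝ) * (c / 2 * (n : ℝ) ^ (-(1 / 3 : ℝ))) :=
    mul_le_mul_of_nonneg_right hcard (by positivity)
  rw [h4]
  linarith

/-- Finitely many positive numbers. -/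
theorem Main.exists_small_const (f : ℕ → ℝ) (hf : ∀ n, 1 ≤ n → 0 < f n) (N : ℕ) :
    ∃ c : ℝ, 0 < c ∧ ∀ n, 1 ≤ n → n < N → c * (n : ℝ) ^ (5 / 3 : ℝ) ≤ f n := by
  induction N with
  | zero => exact ⟨1, one_pos, fun n _ h => absurd h (Nat.not_lt_zero n)⟩
  | succ N ih =>
    obtain ⟨c, hc, h⟩ := ih
    by_cases hN : 1 ≤ N
    · have hN0 : (0 : ℝ) < (N : ℝ) ^ (5 / 3 : ℝ) := Real.rpow_pos_of_pos (by exact_mod_cast hN) _
      refine ⟨min c (f N / (N : ℝ) ^ (5 / 3 : ℝ)), lt_min hc (div_pos (hf N hN) hN0),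
        fun n hn hnN => ?_⟩
      have hn0 : (0 : ℝ) < (n : ℝ) ^ (5 / 3 : ℝ) := Real.rpow_pos_of_pos (by exact_mod_cast hn) _
      rcases Nat.lt_succ_iff_lt_or_eq.1 hnN with h1 | h1
      · exact (mul_le_mul_of_nonneg_right (min_le_left _ _) hn0.le).trans (h n hn h1)
      · subst h1
        calc min c (f n / (n : ℝ) ^ (5 / 3 : ℝ)) * (n : ℝ) ^ (5 / 3 : ℝ)
            ≤ f n / (n : ℝ) ^ (5 / 3 : ℝ) * (n : ℝ) ^ (5 / 3 : ℝ) :=
              mul_le_mul_of_nonneg_right (min_le_right _ _) hn0.le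
          _ = f n := div_mul_cancel₀ _ hn0.ne'
    · refine ⟨c, hc, fun n hn hnN => h n hn ?_⟩
      omega

/-- The expected number of edges of the outer perimeter of the largest cluster of critical bond
percolation in the box `{0, …, n}²` is at least `c n ^ (5 / 3)`. -/
theorem main : ∃ c : ℝ, 0 < c ∧ ∀ n : ℕ, 1 ≤ n → ∀ sel : Finset Edg → ℤ × ℤ,
    (∀ T ⊆ boxE n, sel T ∈ Box n ∧
      ∀ v ∈ Box n, Metric.diam (clS T v) ≤ Metric.diam (clS T (sel T))) →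
    c * (n : ℝ) ^ (5 / 3 : ℝ) ≤ exB n (fun T => (perim T (sel T) : ℝ)) := by
  obtain ⟨c₀, hc₀, hsmall⟩ := prB_small_ge
  obtain ⟨c₁, hc₁, n₀, hbig⟩ := exB_bigPerim_ge
  obtain ⟨c₂, hc₂, hfin⟩ := Main.exists_small_const (fun n => 1 / 2 ^ (boxE n).card)
    (fun n _ => by positivity) n₀
  refine ⟨min (c₀ * c₁) c₂, lt_min (mul_pos hc₀ hc₁) hc₂, fun n hn sel hsel => ?_⟩
  have hn0 : (0 : ℝ) < (n : ℝ) ^ (5 / 3 : ℝ) := Real.rpow_pos_of_pos (by exact_mod_cast hn) _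
  by_cases h : n₀ ≤ n
  · have h1 := exB_perim_ge n sel hsel
    have h2 := hbig n h
    have h3 := hsmall n hn
    calc min (c₀ * c₁) c₂ * (n : ℝ) ^ (5 / 3 : ℝ)
        ≤ c₀ * c₁ * (n : ℝ) ^ (5 / 3 : ℝ) :=
          mul_le_mul_of_nonneg_right (min_le_left _ _) hn0.le
      _ = c₀ * (c₁ * (n : ℝ) ^ (5 / 3 : ℝ)) := by ring
      _ ≤ prB n {T | Small n T} * exB n (fun T => (bigPerim n T : ℝ)) :=
          mul_le_mul h3 h2 (by positivity) (hc₀.le.trans h3)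
      _ ≤ _ := h1
  · calc min (c₀ * c₁) c₂ * (n : ℝ) ^ (5 / 3 : ℝ)
        ≤ c₂ * (n : ℝ) ^ (5 / 3 : ℝ) := mul_le_mul_of_nonneg_right (min_le_right _ _) hn0.le
      _ ≤ 1 / 2 ^ (boxE n).card := hfin n hn (not_le.1 h)
      _ ≤ _ := exB_perim_pos n hn sel hsel

end Pool.Agent.Perc
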