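import Pool.Agent.Lib.MP_6bd702_perc.Main

/-!
# The final theorem with a general exponent (task MainGen)
-/

set_option autoImplicit false

namespace Pool.Agent.Perc

open Finset

theorem exB_bigPerim_ge_of_p2 {s : ℝ} (hs0 : 0 ≤ s) {c : ℝ} (hc : 0 < c)
    (hp2 : ∀ R : ℕ, 1 ≤ R → c * (R : ℝ) ^ (-s) ≤ p2 R) :
    ∃ c' : ℝ, 0 < c' ∧ ∃ n₀ : ℕ, ∀ n : ℕ, n₀ ≤ n →
    c' * (n : ℝ) ^ (2 - s) ≤ exB n (fun T => (bigPerim n T : ℝ)) := by
  classical
  have h3s : (0 : ℝ) < (3 : ℝ) ^ (-s) := Real.rpow_pos_of_pos (by norm_num) _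
  refine ⟨c * (3 : ℝ) ^ (-s) / 8, by positivity, 8, fun n hn => ?_⟩
  have hn8 : (8 : ℝ) ≤ n := by exact_mod_cast hn
  have hn0 : (0 : ℝ) < n := by linarith
  set S := Icc ((n / 4 : ℕ) : ℤ) ((n : ℤ) - (n / 4 : ℕ)) ×ˢ
      Icc ((n / 4 : ℕ) : ℤ) ((n : ℤ) - (n / 4 : ℕ)) with hS
  -- the number of vertices in the middle
  have hcard : (n : ℝ) ^ 2 / 4 ≤ (S.card : ℝ) := by
    have h1 : S.card = (n - 2 * (n / 4) + 1) ^ 2 := by
      rw [hS, card_product, Int.card_Icc, sq]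
      congr 1 <;> omega
    have h2 : n ≤ 2 * (n - 2 * (n / 4) + 1) := by omega
    have h3 : (n : ℝ) ≤ 2 * ((n - 2 * (n / 4) + 1 : ℕ) : ℝ) := by exact_mod_cast h2
    rw [h1]
    push_cast
    push_cast at h3
    nlinarith
  -- the two-arm probability
  have harm : c * (3 : ℝ) ^ (-s) * (n : ℝ) ^ (-s) ≤ p2 (2 * n + 1) := by
    have h1 := hp2 (2 * n + 1) (by omega)
    push_cast at h1
    refine le_trans ?_ h1
    have h2 : (3 * (n : ℝ)) ^ (-s) ≤ (2 * (n : ℝ) + 1) ^ (-s) := by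
      apply Real.rpow_le_rpow_of_nonpos (by positivity) (by linarith) (by linarith)
    rw [Real.mul_rpow (by norm_num) hn0.le] at h2
    rw [mul_assoc]
    exact mul_le_mul_of_nonneg_left h2 hc.le
  have h1 : exB n (fun T => (((S.filter fun v => T ∈ {T | (n : ℝ) / 8 ≤ Metric.diam (clS T v) ∧
      Outer T v v}).card : ℝ) / 2)) ≤ exB n (fun T => (bigPerim n T : ℝ)) := by
    apply Main.exB_mono
    intro T hT
    refine le_trans ?_ (bigPerim_ge n hn T hT)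
    have h2 : (S.filter fun v => T ∈ {T | (n : ℝ) / 8 ≤ Metric.diam (clS T v) ∧ Outer T v v}) ⊆
        (Box n).filter fun v => (n : ℝ) / 8 ≤ Metric.diam (clS T v) ∧ Outer T v v := by
      intro v hv
      rw [mem_filter] at hv ⊢
      refine ⟨?_, hv.2⟩
      have h3 := hv.1
      rw [hS, mem_product, mem_Icc, mem_Icc] at h3
      simp only [Box, mem_product, mem_Icc]
      refine ⟨⟨?_, ?_⟩, ?_, ?_⟩ <;> omega
    have h3 := card_le_card h2
    have h4 : ((S.filter fun v => T ∈ {T | (n : ℝ) / 8 ≤ Metric.diam (clS T v) ∧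
      Outer T v v}).card : ℝ) ≤ (((Box n).filter fun v => (n : ℝ) / 8 ≤ Metric.diam (clS T v) ∧
        Outer T v v).card : ℝ) := by exact_mod_cast h3
    linarith
  refine le_trans ?_ h1
  have h2 : exB n (fun T => (((S.filter fun v => T ∈ {T | (n : ℝ) / 8 ≤ Metric.diam (clS T v) ∧
      Outer T v v}).card : ℝ) / 2)) = (∑ v ∈ S, prB n {T | (n : ℝ) / 8 ≤ Metric.diam (clS T v) ∧
      Outer T v v}) / 2 := by
    rw [← Main.exB_card n S]
    unfold exB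
    rw [← sum_div, div_right_comm]
    congr!
  rw [h2]
  have h3 : (S.card : ℝ) * (c * (3 : ℝ) ^ (-s) * (n : ℝ) ^ (-s)) ≤
      ∑ v ∈ S, prB n {T | (n : ℝ) / 8 ≤ Metric.diam (clS T v) ∧ Outer T v v} := by
    rw [← nsmul_eq_mul]
    apply card_nsmul_le_sum
    intro v hv
    exact harm.trans (Main.prB_ge (by omega) hv)
  have h4 : (n : ℝ) ^ (2 - s) = (n : ℝ) ^ 2 * (n : ℝ) ^ (-s) := by
    rw [← Real.rpow_natCast, ← Real.rpow_add hn0]
    congr 1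
  have h5 : 0 < (n : ℝ) ^ (-s) := Real.rpow_pos_of_pos hn0 _
  have h6 : (n : ℝ) ^ 2 / 4 * (c * (3 : ℝ) ^ (-s) * (n : ℝ) ^ (-s)) ≤
      (S.card : ℝ) * (c * (3 : ℝ) ^ (-s) * (n : ℝ) ^ (-s)) :=
    mul_le_mul_of_nonneg_right hcard (by positivity)
  rw [h4]
  linarith

/-- Finitely many positive numbers. -/
theorem Main.exists_small_const_gen (f : ℕ → ℝ) (hf : ∀ n, 1 ≤ n → 0 < f n) (t : ℝ) (N : ℕ) :
    ∃ c : ℝ, 0 < c ∧ ∀ n, 1 ≤ n → n < N → c * (n : ℝ) ^ t ≤ f n := by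
  induction N with
  | zero => exact ⟨1, one_pos, fun n _ h => absurd h (Nat.not_lt_zero n)⟩
  | succ N ih =>
    obtain ⟨c, hc, h⟩ := ih
    by_cases hN : 1 ≤ N
    · have hN0 : (0 : ℝ) < (N : ℝ) ^ t := Real.rpow_pos_of_pos (by exact_mod_cast hN) _
      refine ⟨min c (f N / (N : ℝ) ^ t), lt_min hc (div_pos (hf N hN) hN0),
        fun n hn hnN => ?_⟩
      have hn0 : (0 : ℝ) < (n : ℝ) ^ t := Real.rpow_pos_of_pos (by exact_mod_cast hn) _
      rcases Nat.lt_succ_iff_lt_or_eq.1 hnN with h1 | h1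
      · exact (mul_le_mul_of_nonneg_right (min_le_left _ _) hn0.le).trans (h n hn h1)
      · subst h1
        calc min c (f n / (n : ℝ) ^ t) * (n : ℝ) ^ t
            ≤ f n / (n : ℝ) ^ t * (n : ℝ) ^ t :=
              mul_le_mul_of_nonneg_right (min_le_right _ _) hn0.le
          _ = f n := div_mul_cancel₀ _ hn0.ne'
    · refine ⟨c, hc, fun n hn hnN => h n hn ?_⟩
      omega

/-- From a lower bound for the two-arm probability of the box of radius `R` to the expected number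
of edges of the outer perimeter of the largest cluster of the box `{0, …, n}²`. -/
theorem main_of_p2 {s : ℝ} (hs0 : 0 ≤ s)
    (hp2 : ∃ c : ℝ, 0 < c ∧ ∀ R : ℕ, 1 ≤ R → c * (R : ℝ) ^ (-s) ≤ p2 R) :
    ∃ c : ℝ, 0 < c ∧ ∀ n : ℕ, 1 ≤ n → ∀ sel : Finset Edg → ℤ × ℤ,
    (∀ T ⊆ boxE n, sel T ∈ Box n ∧
      ∀ v ∈ Box n, Metric.diam (clS T v) ≤ Metric.diam (clS T (sel T))) →
    c * (n : ℝ) ^ (2 - s) ≤ exB n (fun T => (perim T (sel T) : ℝ)) := by
  obtain ⟨c₃, hc₃, hp2'⟩ := hp2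
  obtain ⟨c₀, hc₀, hsmall⟩ := prB_small_ge
  obtain ⟨c₁, hc₁, n₀, hbig⟩ := exB_bigPerim_ge_of_p2 hs0 hc₃ hp2'
  obtain ⟨c₂, hc₂, hfin⟩ := Main.exists_small_const_gen (fun n => 1 / 2 ^ (boxE n).card)
    (fun n _ => by positivity) (2 - s) n₀
  refine ⟨min (c₀ * c₁) c₂, lt_min (mul_pos hc₀ hc₁) hc₂, fun n hn sel hsel => ?_⟩
  have hn0 : (0 : ℝ) < (n : ℝ) ^ (2 - s) := Real.rpow_pos_of_pos (by exact_mod_cast hn) _
  by_cases h : n₀ ≤ n
  · have h1 := exB_perim_ge n sel hsel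
    have h2 := hbig n h
    have h3 := hsmall n hn
    calc min (c₀ * c₁) c₂ * (n : ℝ) ^ (2 - s)
        ≤ c₀ * c₁ * (n : ℝ) ^ (2 - s) :=
          mul_le_mul_of_nonneg_right (min_le_left _ _) hn0.le
      _ = c₀ * (c₁ * (n : ℝ) ^ (2 - s)) := by ring
      _ ≤ prB n {T | Small n T} * exB n (fun T => (bigPerim n T : ℝ)) :=
          mul_le_mul h3 h2 (by positivity) (hc₀.le.trans h3)
      _ ≤ _ := h1
  · calc min (c₀ * c₁) c₂ * (n : ℝ) ^ (2 - s)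
        ≤ c₂ * (n : ℝ) ^ (2 - s) := mul_le_mul_of_nonneg_right (min_le_right _ _) hn0.le
      _ ≤ 1 / 2 ^ (boxE n).card := hfin n hn (not_le.1 h)
      _ ≤ _ := exB_perim_pos n hn sel hsel

end Pool.Agent.Perc
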