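import Pool.Agent.Lib.MP_6bd702_perc.PatDefs

/-!
# Link patterns: insertion, deletion, rotation (task PatB)
-/

set_option autoImplicit false

namespace Pool.Agent.Perc

variable {N : ℕ} {p : ℕ → ℕ}

namespace PatB

/-- The shift of the sites from `i` on by two. -/
def sh (i x : ℕ) : ℕ := if x < i then x else x + 2

theorem cases_sh (i y : ℕ) : y = i ∨ y = i + 1 ∨ ∃ x, y = sh i x := by
  by_cases h1 : y = i
  · exact Or.inl h1
  · by_cases h2 : y = i + 1
    · exact Or.inr (Or.inl h2)
    · right; right
      by_cases h3 : y < i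
      · exact ⟨y, by unfold sh; rw [if_pos h3]⟩
      · exact ⟨y - 2, by unfold sh; rw [if_neg (by omega)]; omega⟩

theorem sh_lt {i x y : ℕ} : sh i x < sh i y ↔ x < y := by
  unfold sh; split_ifs <;> omega

theorem sh_inj {i x y : ℕ} : sh i x = sh i y ↔ x = y := by
  unfold sh; split_ifs <;> omega

theorem sh_ne {i x : ℕ} : sh i x ≠ i := by
  unfold sh; split_ifs <;> omega

theorem sh_ne' {i x : ℕ} : sh i x ≠ i + 1 := by
  unfold sh; split_ifs <;> omega

theorem sh_lt_iff {i x : ℕ} (hi : i ≤ N) : sh i x < N + 2 ↔ x < N := by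
  unfold sh; split_ifs <;> omega

theorem sh_succ {i x : ℕ} (hx : x ≠ i) : sh (i + 1) x = sh i x := by
  unfold sh; split_ifs <;> omega

theorem sh_self (i : ℕ) : sh i i = i + 2 := by
  unfold sh; split_ifs <;> omega

theorem sh_succ_self (i : ℕ) : sh (i + 1) i = i := by
  unfold sh; split_ifs <;> omega

theorem ins_left (i : ℕ) (p : ℕ → ℕ) : Perc.insArc i p i = i + 1 := by
  unfold Perc.insArc; rw [if_pos rfl]

theorem ins_right (i : ℕ) (p : ℕ → ℕ) : Perc.insArc i p (i + 1) = i := by
  unfold Perc.insArc; rw [if_neg (by omega), if_pos rfl]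

theorem ins_sh (i : ℕ) (p : ℕ → ℕ) (x : ℕ) : Perc.insArc i p (sh i x) = sh i (p x) := by
  unfold Perc.insArc
  rw [if_neg sh_ne, if_neg sh_ne']
  have : (if sh i x < i then sh i x else sh i x - 2) = x := by
    unfold sh; split_ifs <;> omega
  rw [this]
  rfl

theorem sh_del (h : NC (N + 2) p) {i : ℕ} (hp : p i = i + 1) (x : ℕ) :
    sh i (Perc.delArc i p x) = p (sh i x) := by
  have hp' : p (i + 1) = i := by rw [← hp, h.inv]
  have h1 : p (sh i x) ≠ i := by
    intro h1
    have := h.inv (sh i x)
    rw [h1, hp] at this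
    exact sh_ne' this.symm
  have h2 : p (sh i x) ≠ i + 1 := by
    intro h2
    have := h.inv (sh i x)
    rw [h2, hp'] at this
    exact sh_ne this.symm
  have e : Perc.delArc i p x = if p (sh i x) < i then p (sh i x) else p (sh i x) - 2 := rfl
  rw [e]
  generalize p (sh i x) = y at h1 h2 ⊢
  unfold sh
  by_cases hy : y < i
  · rw [if_pos hy, if_pos hy]
  · rw [if_neg hy, if_neg (by omega)]; omega

theorem eAct_self (i : ℕ) (p : ℕ → ℕ) : Perc.eAct i p i = i + 1 := by
  unfold Perc.eAct; rw [if_pos rfl]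

theorem eAct_succ (i : ℕ) (p : ℕ → ℕ) : Perc.eAct i p (i + 1) = i := by
  unfold Perc.eAct; rw [if_neg (by omega), if_pos rfl]

theorem eAct_ins {i j k : ℕ} (p : ℕ → ℕ) (h1 : sh k j = i) (h2 : sh k (j + 1) = i + 1) :
    Perc.eAct i (Perc.insArc k p) = Perc.insArc k (Perc.eAct j p) := by
  have hk1 : k ≠ i := by rw [← h1]; exact sh_ne.symm
  have hk2 : k ≠ i + 1 := by rw [← h2]; exact sh_ne.symm
  have hk3 : k + 1 ≠ i := by rw [← h1]; exact sh_ne'.symm
  have hk4 : k + 1 ≠ i + 1 := by rw [← h2]; exact sh_ne'.symm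
  funext x
  rcases cases_sh k x with rfl | rfl | ⟨a, rfl⟩
  · rw [ins_left]
    unfold Perc.eAct
    rw [if_neg hk1, if_neg hk2, ins_left, if_neg hk3, if_neg hk4]
  · rw [ins_right]
    unfold Perc.eAct
    rw [if_neg hk3, if_neg hk4, ins_right, if_neg hk1, if_neg hk2]
  · rw [ins_sh]
    unfold Perc.eAct
    rw [ins_sh]
    subst h1
    rw [← h2, ins_sh, ins_sh]
    simp only [sh_inj]
    split_ifs <;> rfl

end PatB

open PatB

theorem NC.insArc (h : NC N p) {i : ℕ} (hi : i ≤ N) : NC (N + 2) (insArc i p) := by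
  constructor
  · intro x hx
    rcases cases_sh i x with rfl | rfl | ⟨a, rfl⟩
    · rw [ins_left]; omega
    · rw [ins_right]; omega
    · rw [ins_sh, sh_lt_iff hi]
      rw [sh_lt_iff hi] at hx
      exact h.lt a hx
  · intro x
    rcases cases_sh i x with rfl | rfl | ⟨a, rfl⟩
    · rw [ins_left, ins_right]
    · rw [ins_right, ins_left]
    · rw [ins_sh, ins_sh, h.inv]
  · intro x hx
    rcases cases_sh i x with rfl | rfl | ⟨a, rfl⟩
    · rw [ins_left]; omega
    · rw [ins_right]; omega
    · rw [ins_sh, Ne, sh_inj]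
      rw [sh_lt_iff hi] at hx
      exact h.ne a hx
  · intro x hx
    rcases cases_sh i x with rfl | rfl | ⟨a, rfl⟩
    · omega
    · omega
    · rw [ins_sh, sh_inj]
      apply h.out
      by_contra hc
      have := (sh_lt_iff (N := N) hi (x := a)).mpr (by omega)
      omega
  · intro x y hxy hy
    rcases cases_sh i x with rfl | rfl | ⟨a, rfl⟩
    · rw [ins_left] at hy; omega
    · rw [ins_right] at hy; omega
    · rw [ins_sh] at hy ⊢
      have h1 := sh_ne (i := i) (x := a)
      have h2 := sh_ne' (i := i) (x := a)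
      have h3 := sh_ne (i := i) (x := p a)
      have h4 := sh_ne' (i := i) (x := p a)
      rcases cases_sh i y with rfl | rfl | ⟨b, rfl⟩
      · rw [ins_left]; omega
      · rw [ins_right]; omega
      · rw [ins_sh]
        rw [sh_lt] at hxy hy ⊢
        rw [sh_lt]
        exact h.nc a b hxy hy

theorem NC.delArc (h : NC (N + 2) p) {i : ℕ} (hi : i < N + 1) (hp : p i = i + 1) :
    NC N (delArc i p) := by
  have hs := sh_del h hp
  constructor
  · intro x hx
    rw [← sh_lt_iff (N := N) (i := i) (by omega), hs]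
    exact h.lt _ ((sh_lt_iff (by omega)).mpr hx)
  · intro x
    rw [← sh_inj (i := i), hs, hs, h.inv]
  · intro x hx
    rw [Ne, ← sh_inj (i := i), hs]
    exact h.ne _ ((sh_lt_iff (by omega)).mpr hx)
  · intro x hx
    rw [← sh_inj (i := i), hs]
    apply h.out
    by_contra hc
    have := (sh_lt_iff (N := N) (i := i) (x := x) (by omega)).mp (by omega)
    omega
  · intro x y hxy hy
    have h1 := h.nc (sh i x) (sh i y) (sh_lt.mpr hxy) (by rw [← hs]; exact sh_lt.mpr hy)
    rw [← hs, ← hs, sh_lt, sh_lt] at h1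
    exact h1

theorem insArc_delArc (h : NC (N + 2) p) {i : ℕ} (hi : i < N + 1) (hp : p i = i + 1) :
    Perc.insArc i (delArc i p) = p := by
  funext x
  rcases cases_sh i x with rfl | rfl | ⟨a, rfl⟩
  · rw [ins_left, hp]
  · rw [ins_right, ← hp, h.inv]
  · rw [ins_sh, sh_del h hp]

theorem delArc_insArc (h : NC N p) {i : ℕ} (hi : i ≤ N) : Perc.delArc i (insArc i p) = p := by
  funext x
  rw [← sh_inj (i := i), sh_del (h.insArc hi) (ins_left i p), ins_sh]

theorem NC.cupO (h : NC N p) : NC (N + 2) (cupO N p) := by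
  have e0 : Perc.cupO N p 0 = N + 1 := by unfold Perc.cupO; rw [if_pos rfl]
  have e1 : Perc.cupO N p (N + 1) = 0 := by
    unfold Perc.cupO; rw [if_neg (by omega), if_pos rfl]
  have e2 : ∀ x < N, Perc.cupO N p (x + 1) = p x + 1 := by
    intro x hx
    unfold Perc.cupO
    rw [if_neg (by omega), if_neg (by omega), if_pos (by omega)]
    rfl
  have e3 : ∀ x, N + 2 ≤ x → Perc.cupO N p x = x := by
    intro x hx
    unfold Perc.cupO
    rw [if_neg (by omega), if_neg (by omega), if_neg (by omega)]
  have hc : ∀ x, x = 0 ∨ x = N + 1 ∨ (∃ a, a < N ∧ x = a + 1) ∨ N + 2 ≤ x := by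
    intro x
    by_cases h1 : x = 0
    · exact Or.inl h1
    · by_cases h2 : x = N + 1
      · exact Or.inr (Or.inl h2)
      · by_cases h3 : x < N + 1
        · exact Or.inr (Or.inr (Or.inl ⟨x - 1, by omega, by omega⟩))
        · exact Or.inr (Or.inr (Or.inr (by omega)))
  constructor
  · intro x hx
    rcases hc x with rfl | rfl | ⟨a, ha, rfl⟩ | hx'
    · rw [e0]; omega
    · rw [e1]; omega
    · rw [e2 a ha]; have := h.lt a ha; omega
    · omega
  · intro x
    rcases hc x with rfl | rfl | ⟨a, ha, rfl⟩ | hx'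
    · rw [e0, e1]
    · rw [e1, e0]
    · rw [e2 a ha, e2 _ (h.lt a ha), h.inv]
    · rw [e3 x hx', e3 x hx']
  · intro x hx
    rcases hc x with rfl | rfl | ⟨a, ha, rfl⟩ | hx'
    · rw [e0]; omega
    · rw [e1]; omega
    · rw [e2 a ha]; have := h.ne a ha; omega
    · omega
  · intro x hx
    exact e3 x hx
  · intro x y hxy hy
    rcases hc x with rfl | rfl | ⟨a, ha, rfl⟩ | hx'
    · rw [e0] at hy ⊢
      rcases hc y with rfl | rfl | ⟨b, hb, rfl⟩ | hy'
      · omega
      · omega
      · rw [e2 b hb]; have := h.lt b hb; omega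
      · omega
    · rw [e1] at hy; omega
    · rw [e2 a ha] at hy ⊢
      rcases hc y with rfl | rfl | ⟨b, hb, rfl⟩ | hy'
      · omega
      · have := h.lt a ha; omega
      · rw [e2 b hb]
        have := h.nc a b (by omega) (by omega)
        omega
      · have := h.lt a ha; omega
    · rw [e3 x hx'] at hy; omega

namespace PatB

/-- The rotation of the sites. -/
def rh (N x : ℕ) : ℕ := if x = 0 then N - 1 else x - 1

/-- The inverse rotation of the sites. -/
def rh' (N x : ℕ) : ℕ := if x + 1 = N then 0 else x + 1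

theorem rh_lt {x : ℕ} (hx : x < N) : rh N x < N := by unfold rh; split_ifs <;> omega

theorem rh'_lt {x : ℕ} (hx : x < N) : rh' N x < N := by unfold rh'; split_ifs <;> omega

theorem rh_rh' {x : ℕ} (hx : x < N) : rh N (rh' N x) = x := by
  unfold rh rh'
  by_cases h : x + 1 = N
  · rw [if_pos h, if_pos rfl]; omega
  · rw [if_neg h, if_neg (by omega)]; omega

theorem rh'_rh {x : ℕ} (hx : x < N) : rh' N (rh N x) = x := by
  unfold rh rh'
  by_cases h : x = 0
  · rw [if_pos h, if_pos (by omega)]; omega
  · rw [if_neg h, if_neg (by omega)]; omega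

theorem sh_zero (y : ℕ) : sh 0 y = y + 2 := by
  unfold sh; rw [if_neg (by omega)]

theorem rh'_sh {j a : ℕ} (ha : a < N) (hj : j + 1 ≤ N) :
    rh' (N + 2) (sh j a) = sh (j + 1) (rh' N a) := by
  by_cases h : a + 1 = N
  · have e1 : rh' N a = 0 := by unfold rh'; rw [if_pos h]
    have e2 : sh j a = a + 2 := by unfold sh; rw [if_neg (by omega)]
    have e3 : sh (j + 1) 0 = 0 := by unfold sh; rw [if_pos (by omega)]
    rw [e1, e2, e3]
    unfold rh'; rw [if_pos (by omega)]
  · have e1 : rh' N a = a + 1 := by unfold rh'; rw [if_neg h]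
    rw [e1]
    by_cases h2 : a < j
    · have e2 : sh j a = a := by unfold sh; rw [if_pos h2]
      have e3 : sh (j + 1) (a + 1) = a + 1 := by unfold sh; rw [if_pos (by omega)]
      rw [e2, e3]
      unfold rh'; rw [if_neg (by omega)]
    · have e2 : sh j a = a + 2 := by unfold sh; rw [if_neg h2]
      have e3 : sh (j + 1) (a + 1) = a + 1 + 2 := by unfold sh; rw [if_neg (by omega)]
      rw [e2, e3]
      unfold rh'; rw [if_neg (by omega)]

theorem rh_sh {j y : ℕ} (hy : y < N) (hj : j + 1 ≤ N) :
    rh (N + 2) (sh (j + 1) y) = sh j (rh N y) := by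
  by_cases h : y = 0
  · subst h
    have e1 : rh N 0 = N - 1 := by unfold rh; rw [if_pos rfl]
    have e2 : sh (j + 1) 0 = 0 := by unfold sh; rw [if_pos (by omega)]
    have e3 : sh j (N - 1) = N - 1 + 2 := by unfold sh; rw [if_neg (by omega)]
    rw [e1, e2, e3]
    unfold rh; rw [if_pos rfl]; omega
  · have e1 : rh N y = y - 1 := by unfold rh; rw [if_neg h]
    rw [e1]
    by_cases h2 : y < j + 1
    · have e2 : sh (j + 1) y = y := by unfold sh; rw [if_pos h2]
      have e3 : sh j (y - 1) = y - 1 := by unfold sh; rw [if_pos (by omega)]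
      rw [e2, e3]
      unfold rh; rw [if_neg (by omega)]
    · have e2 : sh (j + 1) y = y + 2 := by unfold sh; rw [if_neg h2]
      have e3 : sh j (y - 1) = y - 1 + 2 := by unfold sh; rw [if_neg (by omega)]
      rw [e2, e3]
      unfold rh; rw [if_neg (by omega)]; omega

theorem rh_inj {x y : ℕ} (hx : x < N) (hy : y < N) (h : rh N x = rh N y) : x = y := by
  rw [← rh'_rh hx, ← rh'_rh hy, h]

theorem rot_of_lt {x : ℕ} (hx : x < N) : Perc.rotP N p x = rh N (p (rh' N x)) := by
  unfold Perc.rotP
  rw [if_pos hx]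
  rfl

theorem rot_of_ge {x : ℕ} (hx : N ≤ x) : Perc.rotP N p x = x := by
  unfold Perc.rotP
  rw [if_neg (by omega)]

theorem rot_rh {x : ℕ} (hx : x < N) : Perc.rotP N p (rh N x) = rh N (p x) := by
  rw [rot_of_lt (rh_lt hx), rh'_rh hx]

end PatB

theorem NC.rotP (h : NC N p) : NC N (rotP N p) := by
  constructor
  · intro x hx
    rw [rot_of_lt hx]
    exact rh_lt (h.lt _ (rh'_lt hx))
  · intro x
    by_cases hx : x < N
    · rw [rot_of_lt hx, rot_rh (h.lt _ (rh'_lt hx)), h.inv, rh_rh' hx]
    · rw [rot_of_ge (x := x) (by omega), rot_of_ge (x := x) (by omega)]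
  · intro x hx he
    rw [rot_of_lt hx] at he
    have h1 := rh'_lt hx
    have h2 := h.lt _ h1
    have h3 := congrArg (rh' N) he
    rw [rh'_rh h2] at h3
    exact h.ne _ h1 h3
  · intro x hx
    exact rot_of_ge hx
  · intro x y hxy hy
    by_cases hx : x < N
    · have hlt : Perc.rotP N p x < N := by
        rw [rot_of_lt hx]
        exact rh_lt (h.lt _ (rh'_lt hx))
      have hyN : y < N := by omega
      rw [rot_of_lt hx] at hy hlt ⊢
      rw [rot_of_lt hyN]
      have ex : rh' N x = x + 1 := by unfold rh'; rw [if_neg (by omega)]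
      have ey : rh' N y = y + 1 := by unfold rh'; rw [if_neg (by omega)]
      rw [ex] at hy hlt ⊢
      rw [ey]
      have h1 := h.lt (x + 1) (by omega)
      have h2 := h.lt (y + 1) (by omega)
      by_cases h0 : p (x + 1) = 0
      · have h00 : p 0 = x + 1 := by rw [← h0, h.inv]
        have h3 : p (y + 1) ≠ 0 := by
          intro h3
          have : p 0 = y + 1 := by rw [← h3, h.inv]
          omega
        have h4 : p (y + 1) ≠ x + 1 := by
          intro h4
          have : p (x + 1) = y + 1 := by rw [← h4, h.inv]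
          omega
        have h5 : ¬ p (y + 1) < x + 1 := by
          intro h5
          have := h.nc 0 (p (y + 1)) (by omega) (by omega)
          rw [h.inv] at this
          omega
        unfold rh
        rw [if_pos h0, if_neg h3]
        omega
      · have e3 : rh N (p (x + 1)) = p (x + 1) - 1 := by unfold rh; rw [if_neg h0]
        rw [e3] at hy ⊢
        have h3 := h.nc (x + 1) (y + 1) (by omega) (by omega)
        have e4 : rh N (p (y + 1)) = p (y + 1) - 1 := by unfold rh; rw [if_neg (by omega)]
        rw [e4]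
        omega
    · rw [rot_of_ge (by omega)] at hy; omega

theorem rotP_injOn : Set.InjOn (rotP N) {p | NC N p} := by
  intro p hp p' hp' he
  have hp : NC N p := hp
  have hp' : NC N p' := hp'
  funext x
  by_cases hx : x < N
  · have h1 := congrFun he (rh N x)
    rw [rot_rh hx, rot_rh hx] at h1
    exact rh_inj (hp.lt x hx) (hp'.lt x hx) h1
  · rw [hp.out x (by omega), hp'.out x (by omega)]

theorem rotP_insArc_zero (h : NC N p) : rotP (N + 2) (insArc 0 p) = cupO N p := by
  funext x
  by_cases hx : x < N + 2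
  · rw [rot_of_lt hx]
    unfold cupO
    by_cases h0 : x = 0
    · subst h0
      have : rh' (N + 2) 0 = 0 + 1 := by unfold rh'; rw [if_neg (by omega)]
      rw [this, ins_right, if_pos rfl]
      unfold rh; rw [if_pos rfl]; omega
    · rw [if_neg h0]
      by_cases h1 : x = N + 1
      · subst h1
        have : rh' (N + 2) (N + 1) = 0 := by unfold rh'; rw [if_pos (by omega)]
        rw [this, ins_left, if_pos rfl]
        unfold rh; rw [if_neg (by omega)]
      · rw [if_neg h1, if_pos (by omega)]
        have : rh' (N + 2) x = sh 0 (x - 1) := by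
          unfold rh' sh; rw [if_neg (by omega), if_neg (by omega)]; omega
        rw [this, ins_sh, sh_zero]
        unfold rh
        rw [if_neg (by omega)]; omega
  · rw [rot_of_ge (by omega)]
    unfold cupO
    rw [if_neg (by omega), if_neg (by omega), if_neg (by omega)]

theorem rotP_insArc (h : NC N p) {k : ℕ} (hk : 0 < k) (hkN : k ≤ N) :
    rotP (N + 2) (insArc k p) = insArc (k - 1) (rotP N p) := by
  obtain ⟨j, rfl⟩ : ∃ j, k = j + 1 := ⟨k - 1, by omega⟩
  have hj : j + 1 - 1 = j := rfl
  rw [hj]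
  funext x
  rcases cases_sh j x with rfl | rfl | ⟨a, rfl⟩
  · rw [ins_left, rot_of_lt (by omega)]
    have : rh' (N + 2) x = x + 1 := by unfold rh'; rw [if_neg (by omega)]
    rw [this, ins_left]
    unfold rh; rw [if_neg (by omega)]; omega
  · rw [ins_right, rot_of_lt (by omega)]
    have : rh' (N + 2) (j + 1) = j + 1 + 1 := by unfold rh'; rw [if_neg (by omega)]
    rw [this, ins_right]
    unfold rh; rw [if_neg (by omega)]; omega
  · rw [ins_sh]
    by_cases ha : a < N
    · have h1 : sh j a < N + 2 := (sh_lt_iff (by omega)).mpr ha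
      rw [rot_of_lt h1, rot_of_lt ha]
      rw [rh'_sh ha (by omega), ins_sh, rh_sh (h.lt _ (rh'_lt ha)) (by omega)]
    · have h1 : ¬ sh j a < N + 2 := by rw [sh_lt_iff (by omega)]; exact ha
      rw [rot_of_ge (by omega), rot_of_ge (by omega)]

theorem eAct_insArc_succ (h : NC N p) {i : ℕ} (hi : i + 1 ≤ N) :
    eAct i (insArc (i + 1) p) = insArc i p := by
  have hpi := h.ne i (by omega)
  funext x
  rcases cases_sh i x with rfl | rfl | ⟨a, rfl⟩
  · rw [ins_left, eAct_self]
  · rw [ins_right, eAct_succ]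
  · rw [ins_sh]
    unfold eAct
    rw [if_neg sh_ne, if_neg sh_ne']
    by_cases ha : a = i
    · subst ha
      rw [sh_self]
      have e1 : insArc (a + 1) p (a + 2) = a + 1 := ins_right (a + 1) p
      rw [e1, if_neg (by omega), if_pos rfl]
      have e2 : insArc (a + 1) p a = sh (a + 1) (p a) := by
        have := ins_sh (a + 1) p a
        rwa [sh_succ_self] at this
      rw [e2, sh_succ hpi]
    · rw [← sh_succ ha, ins_sh]
      by_cases hb : p a = i
      · rw [hb, sh_succ_self, if_pos rfl, ins_left, sh_self]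
      · rw [sh_succ hb, if_neg sh_ne, if_neg sh_ne']

theorem eAct_succ_insArc (h : NC N p) {i : ℕ} (hi : i + 1 ≤ N) :
    eAct (i + 1) (insArc i p) = insArc (i + 1) p := by
  have hpi := h.ne i (by omega)
  funext x
  rcases cases_sh (i + 1) x with rfl | rfl | ⟨a, rfl⟩
  · rw [ins_left, eAct_self]
  · rw [ins_right, eAct_succ]
  · rw [ins_sh]
    unfold eAct
    rw [if_neg sh_ne, if_neg sh_ne']
    by_cases ha : a = i
    · subst ha
      rw [sh_succ_self, ins_left, if_pos rfl]
      have e2 : insArc a p (a + 1 + 1) = sh a (p a) := by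
        have : a + 1 + 1 = sh a a := by rw [sh_self]
        rw [this, ins_sh]
      rw [e2, sh_succ hpi]
    · rw [sh_succ ha, ins_sh]
      by_cases hb : p a = i
      · rw [hb, sh_self, if_neg (by omega), if_pos rfl, ins_right, sh_succ_self]
      · rw [sh_succ hb, if_neg sh_ne', if_neg]
        rw [← sh_succ hb]
        exact sh_ne'

theorem eAct_insArc_of_le (h : NC N p) {i k : ℕ} (hik : k + 2 ≤ i) (hi : i + 1 < N + 2) :
    eAct i (insArc k p) = insArc k (eAct (i - 2) p) := by
  apply eAct_ins
  · unfold sh; rw [if_neg (by omega)]; omega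
  · unfold sh; rw [if_neg (by omega)]; omega

theorem eAct_insArc_of_lt (h : NC N p) {i k : ℕ} (hik : i + 1 < k) (hk : k ≤ N) :
    eAct i (insArc k p) = insArc k (eAct i p) := by
  apply eAct_ins
  · unfold sh; rw [if_pos (by omega)]
  · unfold sh; rw [if_pos (by omega)]

theorem nc_nest (m : ℕ) : NC (2 * m) (nest m) := by
  constructor
  · intro x hx; unfold nest; split_ifs; omega
  · intro x; unfold nest; split_ifs <;> omega
  · intro x hx; unfold nest; split_ifs; omega
  · intro x hx; unfold nest; split_ifs <;> omega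
  · intro x y hxy; unfold nest; split_ifs <;> omega

theorem rotP_nest (n : ℕ) : rotP (2 * n + 2) (nest (n + 1)) = insArc (2 * n) (nest n) := by
  funext x
  rcases cases_sh (2 * n) x with rfl | rfl | ⟨a, rfl⟩
  · rw [ins_left, rot_of_lt (by omega)]
    unfold rh rh' nest
    split_ifs <;> omega
  · rw [ins_right, rot_of_lt (by omega)]
    unfold rh rh' nest
    split_ifs <;> omega
  · rw [ins_sh]
    by_cases ha : sh (2 * n) a < 2 * n + 2
    · rw [rot_of_lt ha]
      unfold rh rh' nest sh at *
      split_ifs at * <;> omega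
    · rw [rot_of_ge (by omega)]
      unfold nest sh at *
      split_ifs at * <;> omega

theorem NC.resP {L : ℕ} (h : NC (L + 2) p) (hp : p L = L + 1) : NC L (resP L p) := by
  have hp' : p (L + 1) = L := by rw [← hp, h.inv]
  have e1 : ∀ x < L, Perc.resP L p x = p x := by
    intro x hx; unfold Perc.resP; rw [if_pos hx]
  have e2 : ∀ x, L ≤ x → Perc.resP L p x = x := by
    intro x hx; unfold Perc.resP; rw [if_neg (by omega)]
  have h1 : ∀ x < L, p x < L := by
    intro x hx
    have h2 := h.lt x (by omega)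
    have h3 : p x ≠ L := by
      intro h3
      have := h.inv x
      rw [h3, hp] at this
      omega
    have h4 : p x ≠ L + 1 := by
      intro h4
      have := h.inv x
      rw [h4, hp'] at this
      omega
    omega
  constructor
  · intro x hx; rw [e1 x hx]; exact h1 x hx
  · intro x
    by_cases hx : x < L
    · rw [e1 x hx, e1 _ (h1 x hx), h.inv]
    · rw [e2 x (by omega), e2 x (by omega)]
  · intro x hx; rw [e1 x hx]; exact h.ne x (by omega)
  · intro x hx; exact e2 x hx
  · intro x y hxy hy
    by_cases hx : x < L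
    · rw [e1 x hx] at hy ⊢
      have h2 := h1 x hx
      rw [e1 y (by omega)]
      exact h.nc x y hxy hy
    · rw [e2 x (by omega)] at hy; omega

end Pool.Agent.Perc
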