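import Mathlib

/-!
# Link patterns: definitions

A link pattern of the sites `0, …, N - 1` is a map `p : ℕ → ℕ` (partner of a site), the identity
outside. The gap `g` (`0 ≤ g ≤ N`) is between the sites `g - 1` and `g`.
-/

set_option autoImplicit false

namespace Pool.Agent.Perc

variable {N : ℕ} {p : ℕ → ℕ}

/-- The Temperley-Lieb generator at the sites `i`, `i + 1`. -/
def eAct (i : ℕ) (p : ℕ → ℕ) : ℕ → ℕ := fun x =>
  if x = i then i + 1 else if x = i + 1 then i
  else if p x = i then p (i + 1) else if p x = i + 1 then p i else p x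

/-- Noncrossing perfect matchings of the sites `0, …, N - 1`. -/
structure NC (N : ℕ) (p : ℕ → ℕ) : Prop where
  lt : ∀ x < N, p x < N
  inv : ∀ x, p (p x) = x
  ne : ∀ x < N, p x ≠ x
  out : ∀ x, N ≤ x → p x = x
  nc : ∀ x y, x < y → y < p x → x < p y ∧ p y < p x

/-- The gaps `g` and `g'` are in the same region: no arc separates them. -/
def Geq (N : ℕ) (p : ℕ → ℕ) (g g' : ℕ) : Prop :=
  ∀ x < N, ((x < g ↔ p x < g) ↔ (x < g' ↔ p x < g'))

/-- Add a small arc at the sites `i`, `i + 1` (the old sites from `i` on are shifted by two). -/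
def insArc (i : ℕ) (p : ℕ → ℕ) : ℕ → ℕ := fun x =>
  if x = i then i + 1 else if x = i + 1 then i
  else
    let y := p (if x < i then x else x - 2)
    if y < i then y else y + 2

/-- Remove the small arc at the sites `i`, `i + 1`. -/
def delArc (i : ℕ) (p : ℕ → ℕ) : ℕ → ℕ := fun x =>
  let y := p (if x < i then x else x + 2)
  if y < i then y else y - 2

/-- Add an outer arc from the new site `0` to the new site `N + 1`. -/
def cupO (N : ℕ) (p : ℕ → ℕ) : ℕ → ℕ := fun x =>
  if x = 0 then N + 1 else if x = N + 1 then 0 else if x < N + 1 then p (x - 1) + 1 else x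

/-- Rotation by one site to the left. -/
def rotP (N : ℕ) (p : ℕ → ℕ) : ℕ → ℕ := fun x =>
  if x < N then
    let y := p (if x + 1 = N then 0 else x + 1)
    if y = 0 then N - 1 else y - 1
  else x

/-- The nested pattern of `2 m` sites. -/
def nest (m : ℕ) : ℕ → ℕ := fun x => if x < 2 * m then 2 * m - 1 - x else x

/-- Restriction to the first `L` sites. -/
def resP (L : ℕ) (p : ℕ → ℕ) : ℕ → ℕ := fun x => if x < L then p x else x

/-- The flat pattern of `N` sites with the arc `d — N - 1` and small arcs elsewhere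
(`N` and `d` even). -/
def flatP (d N : ℕ) : ℕ → ℕ := fun x =>
  if N ≤ x then x else if x = d then N - 1 else if x = N - 1 then d
  else if x < d then (if x % 2 = 0 then x + 1 else x - 1)
  else (if x % 2 = 1 then x + 1 else x - 1)

/-- The pattern of `L` sites (`L` even) with the small arcs `(0, 1), (2, 3), …`. -/
def flatE (L : ℕ) : ℕ → ℕ := fun x =>
  if L ≤ x then x else if x % 2 = 0 then x + 1 else x - 1

theorem Geq.refl (N : ℕ) (p : ℕ → ℕ) (g : ℕ) : Geq N p g g := fun _ _ => Iff.rfl

theorem Geq.symm {g g' : ℕ} (h : Geq N p g g') : Geq N p g' g := fun x hx => (h x hx).symm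

theorem Geq.trans {g g' g'' : ℕ} (h : Geq N p g g') (h' : Geq N p g' g'') : Geq N p g g'' :=
  fun x hx => (h x hx).trans (h' x hx)

end Pool.Agent.Perc
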