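import Mathlib

/-!
# Uniform configurations on finite windows: definitions
-/

set_option autoImplicit false

namespace Pool.Agent.Perc

open Finset

/-- A configuration: one bit for every face. -/
abbrev Cfg := ℤ × ℤ → Bool

/-- The configuration with the value `true` exactly on `T`. -/
def cfg (T : Finset (ℤ × ℤ)) : Cfg := fun f => decide (f ∈ T)

/-- Expectation over the faces of the window `S` (all other faces are `false`). -/
noncomputable def ex (S : Finset (ℤ × ℤ)) (g : Cfg → ℂ) : ℂ :=
  (∑ T ∈ S.powerset, g (cfg T)) / 2 ^ S.card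

open Classical in
/-- Probability over the faces of the window `S`. -/
noncomputable def pr (S : Finset (ℤ × ℤ)) (A : Set Cfg) : ℝ :=
  ((S.powerset.filter fun T => cfg T ∈ A).card : ℝ) / 2 ^ S.card

/-- The event depends only on the faces of `S`. -/
def DepOn (S : Set (ℤ × ℤ)) (A : Set Cfg) : Prop :=
  ∀ ω ω' : Cfg, (∀ f ∈ S, ω f = ω' f) → (ω ∈ A ↔ ω' ∈ A)

/-- Flip the faces of `D`. -/
def flip (D : ℤ × ℤ → Bool) (ω : Cfg) : Cfg := fun f => xor (D f) (ω f)

/-- Increasing events with respect to the order in which the faces of `D` are flipped. -/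
def IncD (D : ℤ × ℤ → Bool) (A : Set Cfg) : Prop :=
  ∀ ω ω' : Cfg, (∀ f, flip D ω f = true → flip D ω' f = true) → ω ∈ A → ω' ∈ A

end Pool.Agent.Perc
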