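import Pool.Agent.Lib.MP_6bd702_perc.PsiDefs

/-!
# The qKZ solution: basics and exchange relation (task PsiA)
-/

set_option autoImplicit false

namespace Pool.Agent.Perc

open Finset MvPolynomial

variable {q : ℂ} {m : ℕ}

namespace PsiA

theorem wheel_zero (q : ℂ) (m : ℕ) : Wheel q m 0 where
  deg := by
    intro k _
    simp
  out := by
    intro k _
    simp
  wheel := by
    intro z i j k _ _ _ _ _
    exact map_zero _

theorem wheel_add {P Q : MvPolynomial ℕ ℂ} (hP : Wheel q m P) (hQ : Wheel q m Q) :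
    Wheel q m (P + Q) where
  deg := fun k hk => (degreeOf_add_le k P Q).trans (max_le (hP.deg k hk) (hQ.deg k hk))
  out := fun k hk => Nat.le_zero.mp
    ((degreeOf_add_le k P Q).trans (max_le (hP.out k hk).le (hQ.out k hk).le))
  wheel := by
    intro z i j k h1 h2 h3 h4 h5
    rw [map_add, hP.wheel z i j k h1 h2 h3 h4 h5, hQ.wheel z i j k h1 h2 h3 h4 h5, add_zero]

theorem degreeOf_C_mul_le (c : ℂ) (P : MvPolynomial ℕ ℂ) (k : ℕ) :
    (C c * P).degreeOf k ≤ P.degreeOf k := by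
  have := degreeOf_mul_le k (C c) P
  rwa [degreeOf_C, zero_add] at this

theorem wheel_C_mul {P : MvPolynomial ℕ ℂ} (c : ℂ) (hP : Wheel q m P) :
    Wheel q m (C c * P) where
  deg := fun k hk => (degreeOf_C_mul_le c P k).trans (hP.deg k hk)
  out := fun k hk => Nat.le_zero.mp ((degreeOf_C_mul_le c P k).trans (hP.out k hk).le)
  wheel := by
    intro z i j k h1 h2 h3 h4 h5
    rw [map_mul, hP.wheel z i j k h1 h2 h3 h4 h5, mul_zero]

theorem wheel_sum {ι : Type} (s : Finset ι) (f : ι → MvPolynomial ℕ ℂ)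
    (h : ∀ a ∈ s, Wheel q m (f a)) : Wheel q m (∑ a ∈ s, f a) := by
  classical
  induction s using Finset.induction_on with
  | empty => rw [Finset.sum_empty]; exact wheel_zero q m
  | insert a s ha ih =>
    rw [Finset.sum_insert ha]
    exact wheel_add (h a (Finset.mem_insert_self a s))
      (ih fun b hb => h b (Finset.mem_insert_of_mem hb))

theorem wheel_sub {P Q : MvPolynomial ℕ ℂ} (hP : Wheel q m P) (hQ : Wheel q m Q) :
    Wheel q m (P - Q) := by
  have h : P - Q = P + C (-1) * Q := by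
    rw [C_neg, C_1, neg_one_mul, sub_eq_add_neg]
  rw [h]
  exact wheel_add hP (wheel_C_mul _ hQ)

end PsiA

open PsiA

theorem wheel_Psi (hq : q ^ 2 + q + 1 = 0) (m : ℕ) (π : ℕ → ℕ) : Wheel q m (Psi q m π) := by
  classical
  unfold Psi
  split_ifs with h
  · exact (exists_dual h.1 h.2).choose_spec.1
  · exact wheel_zero q m

open Classical in
theorem eval_zpt_Psi (hq : q ^ 2 + q + 1 = 0) {π p : ℕ → ℕ} (hπ : NC (2 * m) π)
    (hp : NC (2 * m) p) : eval (zpt q p) (Psi q m π) = if p = π then 1 else 0 := by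
  unfold Psi
  rw [dif_pos ⟨hq, hπ⟩]
  exact (exists_dual hq hπ).choose_spec.2 p hp

/-- A wheel polynomial is determined by its values at the points of the link patterns. -/
theorem Wheel.eq_sum_Psi (hq : q ^ 2 + q + 1 = 0) {P : MvPolynomial ℕ ℂ} (h : Wheel q m P) :
    P = ∑ π ∈ pats (2 * m), C (eval (zpt q π) P) * Psi q m π := by
  classical
  rw [← sub_eq_zero]
  refine (wheel_sub h (wheel_sum _ _ fun π _ => wheel_C_mul _ (wheel_Psi hq m π))).eq_zero hq ?_
  intro p hp
  rw [map_sub, map_sum, Finset.sum_eq_single p]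
  · rw [map_mul, eval_C, eval_zpt_Psi hq hp hp, if_pos rfl, mul_one, sub_self]
  · intro π hπ hne
    rw [map_mul, eval_zpt_Psi hq (mem_pats.mp hπ) hp, if_neg (fun h => hne h.symm), mul_zero]
  · intro hp'
    exact absurd (mem_pats.mpr hp) hp'

theorem PsiV_apply (q : ℂ) (m : ℕ) (z : ℕ → ℂ) (π : ℕ → ℕ) (hπ : NC (2 * m) π) :
    PsiV q m z π = eval z (Psi q m π) := by
  classical
  unfold PsiV
  rw [Finsupp.finsetSum_apply, Finset.sum_eq_single π]
  · rw [Finsupp.single_eq_same]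
  · intro b _ hb
    rw [Finsupp.single_eq_of_ne (Ne.symm hb)]
  · intro h
    exact absurd (mem_pats.mpr hπ) h

theorem PsiV_apply_of_not (q : ℂ) (m : ℕ) (z : ℕ → ℂ) (π : ℕ → ℕ) (hπ : ¬ NC (2 * m) π) :
    PsiV q m z π = 0 := by
  classical
  unfold PsiV
  rw [Finsupp.finsetSum_apply]
  refine Finset.sum_eq_zero fun b hb => ?_
  rw [Finsupp.single_eq_of_ne]
  rintro rfl
  exact hπ (mem_pats.mp hb)

theorem PsiV_congr (hq : q ^ 2 + q + 1 = 0) {z w : ℕ → ℂ} (h : ∀ k < 2 * m, z k = w k) :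
    PsiV q m z = PsiV q m w := by
  unfold PsiV
  refine Finset.sum_congr rfl fun π _ => ?_
  rw [(wheel_Psi hq m π).eval_congr h]

namespace PsiA

/-- Coefficients of the push-forward. -/
theorem mapDomain_PsiV (q : ℂ) (m : ℕ) (z : ℕ → ℂ) (f : (ℕ → ℕ) → (ℕ → ℕ)) :
    (PsiV q m z).mapDomain f =
      ∑ π ∈ pats (2 * m), Finsupp.single (f π) (eval z (Psi q m π)) := by
  unfold PsiV
  rw [Finsupp.mapDomain_finsetSum]
  exact Finset.sum_congr rfl fun π _ => Finsupp.mapDomain_single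

open Classical in
theorem mapDomain_PsiV_apply (q : ℂ) (m : ℕ) (z : ℕ → ℂ) (f : (ℕ → ℕ) → (ℕ → ℕ))
    (π : ℕ → ℕ) : (PsiV q m z).mapDomain f π =
      ∑ p ∈ pats (2 * m), (if f p = π then eval z (Psi q m p) else 0) := by
  rw [mapDomain_PsiV, Finsupp.finsetSum_apply]
  refine Finset.sum_congr rfl fun p _ => ?_
  rw [Finsupp.single_apply]

end PsiA

/-- Exchange relation, for the polynomials. -/
theorem exchange_Psi (hq : q ^ 2 + q + 1 = 0) {i : ℕ} (hi : i + 1 < 2 * m) {π : ℕ → ℕ}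
    (hπ : NC (2 * m) π) (z : ℕ → ℂ) :
    (q * z (i + 1) - q ^ 2 * z i) * eval (swapV i z) (Psi q m π) =
      (q * z i - q ^ 2 * z (i + 1)) * eval z (Psi q m π) + (z i - z (i + 1)) *
        ((PsiV q m z).mapDomain (eAct i) π) := by
  classical
  obtain ⟨Q, hQ, h1, h2⟩ := (wheel_Psi hq m π).exists_E hq hi
  have h3 : eval z Q = (PsiV q m z).mapDomain (eAct i) π := by
    conv_lhs => rw [hQ.eq_sum_Psi hq]
    rw [map_sum, mapDomain_PsiV_apply]
    refine Finset.sum_congr rfl fun p hp => ?_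
    have hp' := mem_pats.mp hp
    rw [map_mul, eval_C, h2 p hp', eval_zpt_Psi hq hπ (hp'.eAct hi)]
    split_ifs <;> simp
  rw [← h3]
  have h4 := h1 z
  linear_combination -h4

/-- Exchange relation. -/
theorem exchange (hq : q ^ 2 + q + 1 = 0) {i : ℕ} (hi : i + 1 < 2 * m) (z : ℕ → ℂ) :
    (q * z (i + 1) - q ^ 2 * z i) • PsiV q m (swapV i z) =
      (q * z i - q ^ 2 * z (i + 1)) • PsiV q m z +
        (z i - z (i + 1)) • (PsiV q m z).mapDomain (eAct i) := by
  classical
  ext π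
  rw [Finsupp.add_apply, Finsupp.smul_apply, Finsupp.smul_apply, Finsupp.smul_apply,
    smul_eq_mul, smul_eq_mul, smul_eq_mul]
  by_cases hπ : NC (2 * m) π
  · rw [PsiV_apply q m _ π hπ, PsiV_apply q m _ π hπ]
    exact exchange_Psi hq hi hπ z
  · rw [PsiV_apply_of_not q m _ π hπ, PsiV_apply_of_not q m _ π hπ, mapDomain_PsiV_apply,
      Finset.sum_eq_zero]
    · ring
    · intro p hp
      rw [if_neg]
      rintro rfl
      exact hπ ((mem_pats.mp hp).eAct hi)

end Pool.Agent.Perc
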