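import Pool.Agent.Lib.MP_6bd702_perc.PsiDefs
import Pool.Agent.Lib.MP_6bd702_perc.PsiA

/-!
# The qKZ solution: rotation and recursion (task PsiB)
-/

set_option autoImplicit false

namespace Pool.Agent.Perc

open Finset MvPolynomial

variable {q : ℂ} {m : ℕ}

namespace PsiB

theorem q_ne_zero (hq : q ^ 2 + q + 1 = 0) : q ≠ 0 := by
  rintro rfl
  norm_num at hq

open Classical in
/-- A push-forward, evaluated by a wheel polynomial with prescribed values. -/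
theorem eval_eq_mapDomain (hq : q ^ 2 + q + 1 = 0) {Q : MvPolynomial ℕ ℂ} (hQ : Wheel q m Q)
    (f : (ℕ → ℕ) → (ℕ → ℕ)) (π : ℕ → ℕ) (c : ℂ)
    (h : ∀ p, NC (2 * m) p → eval (zpt q p) Q = if f p = π then c else 0) (z : ℕ → ℂ) :
    eval z Q = c * (PsiV q m z).mapDomain f π := by
  conv_lhs => rw [hQ.eq_sum_Psi hq]
  rw [map_sum, PsiA.mapDomain_PsiV_apply, Finset.mul_sum]
  refine Finset.sum_congr rfl fun p hp => ?_
  rw [map_mul, eval_C, h p (mem_pats.mp hp)]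
  split_ifs <;> simp

theorem mapDomain_apply_zero (z : ℕ → ℂ) (f : (ℕ → ℕ) → (ℕ → ℕ)) (π : ℕ → ℕ)
    (h : ∀ p, NC (2 * m) p → f p ≠ π) : (PsiV q m z).mapDomain f π = 0 := by
  classical
  rw [PsiA.mapDomain_PsiV_apply]
  refine Finset.sum_eq_zero fun p hp => ?_
  rw [if_neg (h p (mem_pats.mp hp))]

end PsiB

open PsiB

/-- Cyclic invariance. -/
theorem PsiV_rot (hq : q ^ 2 + q + 1 = 0) (z : ℕ → ℂ) :
    PsiV q m (rotV (2 * m) z) = (PsiV q m z).mapDomain (rotP (2 * m)) := by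
  classical
  ext π
  by_cases hπ : NC (2 * m) π
  · rw [PsiV_apply q m _ π hπ]
    obtain ⟨Q, hQ, h1, h2⟩ := (wheel_Psi hq m π).exists_rot hq
    rw [← h1 z, eval_eq_mapDomain hq hQ (rotP (2 * m)) π 1 (fun p hp => ?_) z, one_mul]
    rw [h2 p hp, eval_zpt_Psi hq hπ hp.rotP]
  · rw [PsiV_apply_of_not q m _ π hπ, mapDomain_apply_zero]
    rintro p hp rfl
    exact hπ hp.rotP

/-- Recursion at `z_i = q² z_{i+1}`. -/
theorem PsiV_insV (hq : q ^ 2 + q + 1 = 0) {i : ℕ} (hi : i ≤ 2 * m) (z : ℕ → ℂ) (v : ℂ) :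
    PsiV q (m + 1) (insV i (q ^ 2 * v) v z) =
      ((∏ k ∈ range (2 * m), (z k - q * v)) / (3 * q ^ 2) ^ m) •
        (PsiV q m z).mapDomain (insArc i) := by
  classical
  have hq0 := q_ne_zero hq
  have h3 : (3 * q ^ 2 : ℂ) ^ m ≠ 0 := pow_ne_zero _ (mul_ne_zero (by norm_num) (pow_ne_zero _ hq0))
  ext π
  rw [Finsupp.smul_apply, smul_eq_mul]
  by_cases hπ : NC (2 * (m + 1)) π
  · rw [PsiV_apply q (m + 1) _ π hπ]
    obtain ⟨R, hR, h1⟩ := (wheel_Psi hq (m + 1) π).restrict hq (i := i) (by omega)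
    rw [h1 z v, eval_eq_mapDomain hq hR (insArc i) π (1 / (3 * q ^ 2) ^ m) (fun p hp => ?_) z]
    · ring
    · have h4 := h1 (zpt q p) 1
      rw [mul_one, mul_one, insV_zpt hp hi, prod_zpt hq hp] at h4
      rw [eval_zpt_Psi hq hπ (hp.insArc hi)] at h4
      rw [eq_comm, mul_comm] at h4
      rw [eq_div_of_mul_eq h3 h4]
      split_ifs <;> simp
  · rw [PsiV_apply_of_not q (m + 1) _ π hπ, mapDomain_apply_zero, mul_zero]
    rintro p hp rfl
    exact hπ (hp.insArc hi)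

end Pool.Agent.Perc
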