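import Pool.Agent.Lib.MP_6bd702_perc.PsiDefs
import Pool.Agent.Lib.MP_6bd702_perc.PsiB

/-!
# The qKZ solution: the nested components (task PsiC)
-/

set_option autoImplicit false

namespace Pool.Agent.Perc

open Finset MvPolynomial

variable {q : ℂ} {m : ℕ}

/-- The component of the nested pattern. -/
theorem Psi_nest (hq : q ^ 2 + q + 1 = 0) (m : ℕ) :
    C ((-3 * q ^ 2) ^ (m * (m - 1) / 2)) * Psi q m (nest m) = nestPoly q m := by
  conv_rhs => rw [(wheel_nestPoly hq m).eq_sum_Psi hq]
  rw [Finset.sum_eq_single (nest m)]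
  · rw [eval_nestPoly_nest hq m]
  · intro π hπ hne
    rw [eval_nestPoly_of_ne hq (mem_pats.mp hπ) hne, C_0, zero_mul]
  · intro h
    exact absurd (mem_pats.mpr (nc_nest m)) h

namespace PsiC

theorem choose_aux (n : ℕ) : (n + 1) * (n + 1 - 1) / 2 = n * (n - 1) / 2 + n := by
  rcases n with _ | n
  · rfl
  · have h1 : (n + 1 + 1) * (n + 1 + 1 - 1) = (n + 1) * (n + 1 - 1) + 2 * (n + 1) := by
      simp only [Nat.add_sub_cancel]
      ring
    rw [h1, Nat.add_mul_div_left _ _ (by norm_num)]

/-- The value of the nested product. -/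
theorem eval_nestPoly (q : ℂ) (m : ℕ) (w : ℕ → ℂ) : eval w (nestPoly q m) =
    (∏ j ∈ range m, ∏ i ∈ range j, (q * w j - q ^ 2 * w i)) *
      ∏ j ∈ range m, ∏ i ∈ range j, (q * w (m + j) - q ^ 2 * w (m + i)) := by
  unfold nestPoly
  rw [map_mul, map_prod, map_prod]
  congr 1
  · refine Finset.prod_congr rfl fun j _ => ?_
    rw [map_prod]
    refine Finset.prod_congr rfl fun i _ => ?_
    rw [map_sub, map_mul, map_mul, eval_C, eval_C, eval_X, eval_X]
  · refine Finset.prod_congr rfl fun j _ => ?_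
    rw [map_prod]
    refine Finset.prod_congr rfl fun i _ => ?_
    rw [map_sub, map_mul, map_mul, eval_C, eval_C, eval_X, eval_X]

/-- The point `(x, z_0, …, z_{2n-1}, y)`. -/
def wpt (n : ℕ) (z : ℕ → ℂ) (y x : ℂ) : ℕ → ℂ := fun k =>
  if k = 0 then x else if k = 2 * n + 1 then y else z (k - 1)

theorem wpt_zero (n : ℕ) (z : ℕ → ℂ) (y x : ℂ) : wpt n z y x 0 = x := rfl

theorem wpt_succ {n : ℕ} {k : ℕ} (hk : k < 2 * n) (z : ℕ → ℂ) (y x : ℂ) :
    wpt n z y x (k + 1) = z k := by
  unfold wpt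
  rw [if_neg (by omega), if_neg (by omega), Nat.add_sub_cancel]

theorem wpt_last (n : ℕ) (z : ℕ → ℂ) (y x : ℂ) : wpt n z y x (2 * n + 1) = y := by
  unfold wpt
  rw [if_neg (by omega), if_pos rfl]

theorem eval_nest_wpt (q : ℂ) (n : ℕ) (z : ℕ → ℂ) (y x : ℂ) :
    eval (wpt n z y x) (nestPoly q (n + 1)) =
      (∏ j ∈ range n, (q * z j - q ^ 2 * x)) * (∏ j ∈ range n, (q * y - q ^ 2 * z (n + j))) *
        eval z (nestPoly q n) := by
  rw [eval_nestPoly, eval_nestPoly]
  have h1 : (∏ j ∈ range (n + 1), ∏ i ∈ range j,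
      (q * wpt n z y x j - q ^ 2 * wpt n z y x i)) =
      (∏ j ∈ range n, (q * z j - q ^ 2 * x)) *
        ∏ j ∈ range n, ∏ i ∈ range j, (q * z j - q ^ 2 * z i) := by
    rw [Finset.prod_range_succ', Finset.range_zero, Finset.prod_empty, mul_one,
      ← Finset.prod_mul_distrib]
    refine Finset.prod_congr rfl fun j hj => ?_
    have hj' := Finset.mem_range.mp hj
    rw [Finset.prod_range_succ', wpt_succ (by omega), wpt_zero, mul_comm]
    congr 1
    refine Finset.prod_congr rfl fun i hi => ?_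
    have hi' := Finset.mem_range.mp hi
    rw [wpt_succ (by omega)]
  have h2 : (∏ j ∈ range (n + 1), ∏ i ∈ range j,
      (q * wpt n z y x (n + 1 + j) - q ^ 2 * wpt n z y x (n + 1 + i))) =
      (∏ j ∈ range n, ∏ i ∈ range j, (q * z (n + j) - q ^ 2 * z (n + i))) *
        ∏ j ∈ range n, (q * y - q ^ 2 * z (n + j)) := by
    rw [Finset.prod_range_succ]
    congr 1
    · refine Finset.prod_congr rfl fun j hj => ?_
      have hj' := Finset.mem_range.mp hj
      refine Finset.prod_congr rfl fun i hi => ?_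
      have hi' := Finset.mem_range.mp hi
      rw [show n + 1 + j = (n + j) + 1 by ring, show n + 1 + i = (n + i) + 1 by ring,
        wpt_succ (by omega), wpt_succ (by omega)]
    · refine Finset.prod_congr rfl fun i hi => ?_
      have hi' := Finset.mem_range.mp hi
      rw [show n + 1 + n = 2 * n + 1 by ring, show n + 1 + i = (n + i) + 1 by ring,
        wpt_last, wpt_succ (by omega)]
  rw [h1, h2]
  ring

end PsiC

open PsiC in
/-- The component of the pattern `nest n` with an additional small arc at the end. -/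
theorem eval_Psi_nest_arc (hq : q ^ 2 + q + 1 = 0) (n : ℕ) (z : ℕ → ℂ) (y x : ℂ) :
    eval (insV (2 * n) y x z) (Psi q (n + 1) (insArc (2 * n) (nest n))) * (-3 * q ^ 2) ^ n =
      (∏ j ∈ range n, (q * z j - q ^ 2 * x)) * (∏ j ∈ range n, (q * y - q ^ 2 * z (n + j))) *
        eval z (Psi q n (nest n)) := by
  classical
  have hq0 := PsiB.q_ne_zero hq
  have h3 : (-3 * q ^ 2 : ℂ) ≠ 0 := mul_ne_zero (by norm_num) (pow_ne_zero _ hq0)
  have hN : 2 * (n + 1) = 2 * n + 2 := by ring
  -- rotation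
  have h4 : eval (insV (2 * n) y x z) (Psi q (n + 1) (insArc (2 * n) (nest n))) =
      eval (wpt n z y x) (Psi q (n + 1) (nest (n + 1))) := by
    have hNC : NC (2 * (n + 1)) (insArc (2 * n) (nest n)) := by
      rw [hN]
      exact (nc_nest n).insArc le_rfl
    have e1 : ∀ k < 2 * (n + 1), insV (2 * n) y x z k = rotV (2 * (n + 1)) (wpt n z y x) k := by
      intro k hk
      unfold rotV insV
      by_cases h1 : k < 2 * n
      · rw [if_pos h1, if_pos (by omega), wpt_succ h1]
      · by_cases h2 : k = 2 * n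
        · subst h2
          rw [if_neg (lt_irrefl _), if_pos rfl, if_pos (by omega), wpt_last]
        · have h3 : k = 2 * n + 1 := by omega
          subst h3
          rw [if_neg h1, if_neg h2, if_pos rfl, if_neg (by omega), if_pos (by omega), wpt_zero]
    rw [← PsiV_apply q (n + 1) _ _ hNC, PsiV_congr hq e1, PsiV_rot hq,
      PsiA.mapDomain_PsiV_apply, Finset.sum_eq_single (nest (n + 1))]
    · rw [if_pos]
      rw [hN]
      exact rotP_nest n
    · intro p hp hne
      rw [if_neg]
      intro h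
      apply hne
      refine rotP_injOn (N := 2 * (n + 1)) (mem_pats.mp hp) (nc_nest (n + 1)) ?_
      rw [h, hN]
      exact (rotP_nest n).symm
    · intro h
      exact absurd (mem_pats.mpr (nc_nest (n + 1))) h
  rw [h4]
  have h5 := congrArg (eval (wpt n z y x)) (Psi_nest hq (n + 1))
  have h6 := congrArg (eval z) (Psi_nest hq n)
  rw [map_mul, eval_C, eval_nest_wpt, choose_aux] at h5
  rw [map_mul, eval_C] at h6
  rw [← h6, pow_add] at h5
  have h7 : (-3 * q ^ 2 : ℂ) ^ (n * (n - 1) / 2) ≠ 0 := pow_ne_zero _ h3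
  apply mul_left_cancel₀ h7
  linear_combination h5

end Pool.Agent.Perc
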