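import Pool.Agent.Lib.MP_6bd702_perc.Wheel

/-!
# The polynomial solution of the qKZ equation: definitions
-/

set_option autoImplicit false

namespace Pool.Agent.Perc

open Finset MvPolynomial

open Classical in
/-- The component of the solution at the pattern `π` (zero if `π` is not a pattern). -/
noncomputable def Psi (q : ℂ) (m : ℕ) (π : ℕ → ℕ) : MvPolynomial ℕ ℂ :=
  if h : q ^ 2 + q + 1 = 0 ∧ NC (2 * m) π then (exists_dual h.1 h.2).choose else 0

/-- The finite set of link patterns. -/
noncomputable def pats (N : ℕ) : Finset (ℕ → ℕ) := (finite_nc N).toFinset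

theorem mem_pats {N : ℕ} {p : ℕ → ℕ} : p ∈ pats N ↔ NC N p := by
  rw [pats, Set.Finite.mem_toFinset]; rfl

/-- The vector `Ψ(z)`. -/
noncomputable def PsiV (q : ℂ) (m : ℕ) (z : ℕ → ℂ) : (ℕ → ℕ) →₀ ℂ :=
  ∑ π ∈ pats (2 * m), Finsupp.single π (eval z (Psi q m π))

end Pool.Agent.Perc
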