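import Mathlib

/-!
# Asymptotics of `A(2n) / A_HT(2n)^2` (real analysis)

`r1 k = 3^k k! (3k+1)! / ((2k)! (2k+1)!)`, `D1 n = ∏_{k<n} r1 k = 3^(n(n-1)/2) A(n)` (number of
alternating sign matrices), `D1 n * E1 n` its companion; `pv n = D1 (2n) / (3^n (D1 n ^ 2 E1 n)^2)`.
Result: `1 / (32 n) ≤ (pv n)^4 ≤ 1 / (2 n + 1)`.
-/

set_option autoImplicit false

namespace Pool.Agent.Perc.QAsym

open Finset Filter Topology

noncomputable def r1 (k : ℕ) : ℝ :=
  3 ^ k * (k.factorial : ℝ) * ((3 * k + 1).factorial : ℝ) /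
    (((2 * k).factorial : ℝ) * ((2 * k + 1).factorial : ℝ))

noncomputable def D1 (n : ℕ) : ℝ := ∏ k ∈ range n, r1 k

noncomputable def E1 (n : ℕ) : ℝ := ∏ k ∈ range n, ((3 * (k : ℝ) + 2) / (3 * k + 1))

noncomputable def pv (n : ℕ) : ℝ := D1 (2 * n) / (3 ^ n * (D1 n ^ 2 * E1 n) ^ 2)

noncomputable def rho (n : ℕ) : ℝ :=
  r1 (2 * n) * r1 (2 * n + 1) / (3 * r1 n ^ 4 * ((3 * n + 2) / (3 * n + 1)) ^ 2)

noncomputable def g (x : ℝ) : ℝ := 9 * (3 * x + 2) * (3 * x + 4) / (4 * (2 * x + 1) * (2 * x + 3))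

theorem r1_pos (k : ℕ) : 0 < r1 k := by
  unfold r1
  positivity

theorem r1_succ (k : ℕ) : r1 (k + 1) = r1 k * g k := by
  unfold r1 g
  have e1 : 3 * (k + 1) + 1 = (3 * k + 1) + 1 + 1 + 1 := by ring
  have e2 : 2 * (k + 1) = (2 * k) + 1 + 1 := by ring
  have e3 : 2 * (k + 1) + 1 = (2 * k + 1) + 1 + 1 := by ring
  rw [e3, e1, e2, Nat.factorial_succ k, Nat.factorial_succ (3 * k + 1 + 1 + 1),
    Nat.factorial_succ (3 * k + 1 + 1), Nat.factorial_succ (3 * k + 1),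
    Nat.factorial_succ (2 * k + 1 + 1), Nat.factorial_succ (2 * k + 1), Nat.factorial_succ (2 * k)]
  have h1 : (k.factorial : ℝ) ≠ 0 := by positivity
  have h2 : ((3 * k + 1).factorial : ℝ) ≠ 0 := by positivity
  have h3 : ((2 * k).factorial : ℝ) ≠ 0 := by positivity
  push_cast
  field_simp
  ring

theorem rho_pos (n : ℕ) : 0 < rho n := by
  unfold rho
  have h1 := r1_pos (2 * n)
  have h2 := r1_pos (2 * n + 1)
  have h3 := r1_pos n
  positivity

noncomputable def sig (n : ℝ) : ℝ :=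
  16 * (6 * n + 5) ^ 2 * (6 * n + 7) ^ 2 * (2 * n + 1) ^ 4 * (2 * n + 3) ^ 4 /
    ((4 * n + 1) * (4 * n + 3) ^ 3 * (4 * n + 5) ^ 3 * (4 * n + 7) * (3 * n + 1) * (3 * n + 2) *
      (3 * n + 4) * (3 * n + 5))

theorem rho_succ (n : ℕ) : rho (n + 1) = rho n * sig n := by
  have h1 : r1 (2 * n + 1) = r1 (2 * n) * g (2 * n) := by
    rw [r1_succ]; push_cast; rfl
  have h2 : r1 (2 * (n + 1)) = r1 (2 * n) * g (2 * n) * g (2 * n + 1) := by
    rw [show 2 * (n + 1) = 2 * n + 1 + 1 by ring, r1_succ, h1]; push_cast; rfl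
  have h3 : r1 (2 * (n + 1) + 1) = r1 (2 * n) * g (2 * n) * g (2 * n + 1) * g (2 * n + 2) := by
    rw [r1_succ, h2]; push_cast; ring_nf
  have h4 := r1_succ n
  unfold rho
  rw [h1, h2, h3, h4]
  have ha := (r1_pos (2 * n)).ne'
  have hb := (r1_pos n).ne'
  generalize r1 (2 * n) = a at *
  generalize r1 n = b at *
  unfold g sig
  push_cast
  field_simp
  ring

theorem pv_succ (n : ℕ) : pv (n + 1) = pv n * rho n := by
  unfold pv rho
  have h1 : D1 (2 * (n + 1)) = D1 (2 * n) * r1 (2 * n) * r1 (2 * n + 1) := by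
    unfold D1
    rw [show 2 * (n + 1) = 2 * n + 1 + 1 by ring, prod_range_succ, prod_range_succ]
  have h2 : D1 (n + 1) = D1 n * r1 n := by
    unfold D1
    rw [prod_range_succ]
  have h3 : E1 (n + 1) = E1 n * ((3 * (n : ℝ) + 2) / (3 * n + 1)) := by
    unfold E1
    rw [prod_range_succ]
  rw [h1, h2, h3, pow_succ]
  have h4 := (r1_pos n).ne'
  have h5 : D1 n ≠ 0 := (prod_pos fun k _ => r1_pos k).ne'
  have h6 : E1 n ≠ 0 := (prod_pos fun k _ => by positivity).ne'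
  field_simp

theorem pv_zero : pv 0 = 1 := by simp [pv, D1, E1]

theorem r1_zero : r1 0 = 1 := by simp [r1]

theorem r1_one : r1 1 = 6 := by
  have h := r1_succ 0
  rw [r1_zero, zero_add] at h
  rw [h]
  unfold g
  norm_num

theorem pv_one : pv 1 = 1 / 2 := by
  have h := pv_succ 0
  rw [pv_zero, zero_add] at h
  rw [h]
  unfold rho
  rw [show 2 * 0 + 1 = 1 from rfl, show 2 * 0 = 0 from rfl, r1_zero, r1_one]
  norm_num

theorem sig_le (n : ℝ) (hn : 1 ≤ n) :
    sig n ≤ (4 * n + 2) * (4 * n + 5) / ((4 * n + 6) * (4 * n + 1)) := by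
  obtain ⟨m, rfl⟩ : ∃ m, n = m + 1 := ⟨n - 1, by ring⟩
  have hm : 0 ≤ m := by linarith
  unfold sig
  rw [div_le_div_iff₀ (by positivity) (by positivity), ← sub_nonneg]
  ring_nf
  positivity

theorem le_sig (n : ℝ) (hn : 0 ≤ n) :
    (4 * n + 6) * (4 * n + 3) / ((4 * n + 7) * (4 * n + 2)) ≤ sig n := by
  unfold sig
  rw [div_le_div_iff₀ (by positivity) (by positivity), ← sub_nonneg]
  ring_nf
  positivity

/-- The ratio of factorials in terms of the Stirling sequence. -/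
theorem r1_stirling (k : ℕ) (hk : k ≠ 0) :
    r1 k = (81 / 16) ^ k * (Stirling.stirlingSeq k * Stirling.stirlingSeq (3 * k) /
      Stirling.stirlingSeq (2 * k) ^ 2) * (√3 / 2) * ((3 * k + 1) / (2 * k + 1)) := by
  have hk' : (0 : ℝ) < k := by exact_mod_cast Nat.pos_of_ne_zero hk
  have hx : 0 < ((k : ℝ) / Real.exp 1) ^ k := by positivity
  unfold r1 Stirling.stirlingSeq
  rw [Nat.factorial_succ, Nat.factorial_succ]
  push_cast
  have e3 : ((3 * (k : ℝ)) / Real.exp 1) ^ (3 * k) = 27 ^ k * (((k : ℝ) / Real.exp 1) ^ k) ^ 3 := by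
    rw [mul_div_assoc, mul_pow, pow_mul, ← pow_mul _ k 3, mul_comm k 3]
    norm_num
  have e2 : ((2 * (k : ℝ)) / Real.exp 1) ^ (2 * k) = 4 ^ k * (((k : ℝ) / Real.exp 1) ^ k) ^ 2 := by
    rw [mul_div_assoc, mul_pow, pow_mul, ← pow_mul _ k 2, mul_comm k 2]
    norm_num
  rw [e3, e2]
  have s1 : √(2 * (k : ℝ)) * √(2 * (3 * (k : ℝ))) = 2 * √3 * k := by
    rw [← Real.sqrt_mul (by positivity)]
    rw [show 2 * (k : ℝ) * (2 * (3 * (k : ℝ))) = 3 * (2 * k) ^ 2 by ring,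
      Real.sqrt_mul (by norm_num), Real.sqrt_sq (by positivity)]
    ring
  have s2 : √(2 * (2 * (k : ℝ))) ^ 2 = 4 * k := by
    rw [Real.sq_sqrt (by positivity)]
    ring
  have h1 : (k.factorial : ℝ) ≠ 0 := by positivity
  have h2 : ((3 * k).factorial : ℝ) ≠ 0 := by positivity
  have h3 : ((2 * k).factorial : ℝ) ≠ 0 := by positivity
  have h4 : √(2 * (k : ℝ)) ≠ 0 := by positivity
  have h5 : √(2 * (3 * (k : ℝ))) ≠ 0 := by positivity
  have h6 : √(2 * (2 * (k : ℝ))) ≠ 0 := by positivity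
  have h7 : (81 / 16 : ℝ) ^ k = 3 ^ k * 27 ^ k / (4 ^ k) ^ 2 := by
    rw [← mul_pow, ← pow_mul, mul_comm k 2, pow_mul, ← div_pow]
    norm_num
  rw [h7]
  set x := ((k : ℝ) / Real.exp 1) ^ k
  set a := √(2 * (k : ℝ))
  set b := √(2 * (3 * (k : ℝ)))
  set c := √(2 * (2 * (k : ℝ)))
  have h8 : (k.factorial : ℝ) / (a * x) * ((3 * k).factorial / (b * (27 ^ k * x ^ 3))) /
      ((2 * k).factorial / (c * (4 ^ k * x ^ 2))) ^ 2 * (√3 / 2) =
      (k.factorial : ℝ) * (3 * k).factorial / ((2 * k).factorial) ^ 2 * ((4 ^ k) ^ 2 / 27 ^ k) := by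
    have h9 : (k.factorial : ℝ) / (a * x) * ((3 * k).factorial / (b * (27 ^ k * x ^ 3))) /
      ((2 * k).factorial / (c * (4 ^ k * x ^ 2))) ^ 2 =
      (k.factorial : ℝ) * (3 * k).factorial / ((2 * k).factorial) ^ 2 * ((4 ^ k) ^ 2 / 27 ^ k) *
        (c ^ 2 / (a * b)) := by
      field_simp
    rw [h9, s1, s2]
    have h10 : √3 ≠ 0 := by positivity
    field_simp
    ring
  have h11 : ∀ A B C D : ℝ, A * B * C * D = A * (B * C) * D := fun _ _ _ _ => by ring
  rw [h11, h8]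
  field_simp

theorem tendsto_stirling_mul (a : ℕ) (ha : a ≠ 0) :
    Tendsto (fun k : ℕ => Stirling.stirlingSeq (a * k)) atTop (𝓝 √Real.pi) :=
  Stirling.tendsto_stirlingSeq_sqrt_pi.comp (tendsto_id.const_mul_atTop' (Nat.pos_of_ne_zero ha))

noncomputable def cc (k : ℕ) : ℝ := r1 k / (81 / 16) ^ k

theorem tendsto_cc : Tendsto cc atTop (𝓝 (√3 / 2 * (3 / 2))) := by
  have hpi : √Real.pi ≠ 0 := by positivity
  have h1 : Tendsto (fun k : ℕ => Stirling.stirlingSeq k * Stirling.stirlingSeq (3 * k) /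
      Stirling.stirlingSeq (2 * k) ^ 2) atTop (𝓝 (√Real.pi * √Real.pi / √Real.pi ^ 2)) :=
    ((Stirling.tendsto_stirlingSeq_sqrt_pi.mul (tendsto_stirling_mul 3 (by norm_num))).div
      ((tendsto_stirling_mul 2 (by norm_num)).pow 2) (by positivity))
  have h2 : √Real.pi * √Real.pi / √Real.pi ^ 2 = 1 := by field_simp
  rw [h2] at h1
  have h3 : Tendsto (fun k : ℕ => (3 * (k : ℝ) + 1) / (2 * k + 1)) atTop (𝓝 (3 / 2)) := by
    have h4 : Tendsto (fun k : ℕ => 3 / 2 - 1 / 2 * (1 / (2 * (k : ℝ) + 1))) atTop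
        (𝓝 (3 / 2 - 1 / 2 * 0)) := by
      refine tendsto_const_nhds.sub (tendsto_const_nhds.mul ?_)
      refine tendsto_const_nhds.div_atTop ?_
      refine tendsto_atTop_add_const_right _ _ ?_
      exact (tendsto_natCast_atTop_atTop).const_mul_atTop (by norm_num)
    rw [mul_zero, sub_zero] at h4
    refine h4.congr fun k => ?_
    have : (2 * (k : ℝ) + 1) ≠ 0 := by positivity
    field_simp
    ring
  have h4 := (h1.mul_const (√3 / 2)).mul h3
  rw [one_mul] at h4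
  refine h4.congr' ?_
  filter_upwards [eventually_ne_atTop 0] with k hk
  rw [cc, r1_stirling k hk, eq_div_iff (by positivity)]
  ring

theorem tendsto_rho : Tendsto rho atTop (𝓝 1) := by
  have h2 : Tendsto (fun n : ℕ => cc (2 * n)) atTop (𝓝 (√3 / 2 * (3 / 2))) :=
    tendsto_cc.comp (tendsto_id.const_mul_atTop' (by norm_num))
  have h3 : Tendsto (fun n : ℕ => cc (2 * n + 1)) atTop (𝓝 (√3 / 2 * (3 / 2))) :=
    (tendsto_cc.comp (tendsto_add_atTop_nat 1)).comp (tendsto_id.const_mul_atTop' (by norm_num))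
  have h4 : Tendsto (fun n : ℕ => ((3 * (n : ℝ) + 2) / (3 * n + 1)) ^ 2) atTop (𝓝 1) := by
    have h5 : Tendsto (fun k : ℕ => 1 + 1 / (3 * (k : ℝ) + 1)) atTop (𝓝 (1 + 0)) := by
      refine tendsto_const_nhds.add ?_
      refine tendsto_const_nhds.div_atTop ?_
      refine tendsto_atTop_add_const_right _ _ ?_
      exact (tendsto_natCast_atTop_atTop).const_mul_atTop (by norm_num)
    have h6 := h5.pow 2
    rw [add_zero, one_pow] at h6
    refine h6.congr fun k => ?_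
    have : (3 * (k : ℝ) + 1) ≠ 0 := by positivity
    congr 1
    field_simp
    ring
  have hs : (√3 : ℝ) ^ 2 = 3 := Real.sq_sqrt (by norm_num)
  have h5 : Tendsto (fun n : ℕ => 81 / 16 * (cc (2 * n) * cc (2 * n + 1)) /
      (3 * cc n ^ 4 * ((3 * (n : ℝ) + 2) / (3 * n + 1)) ^ 2)) atTop
      (𝓝 (81 / 16 * (√3 / 2 * (3 / 2) * (√3 / 2 * (3 / 2))) / (3 * (√3 / 2 * (3 / 2)) ^ 4 * 1))) :=
    (tendsto_const_nhds.mul (h2.mul h3)).div (((tendsto_cc.pow 4).const_mul 3).mul h4)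
      (by positivity)
  have h6 : 81 / 16 * (√3 / 2 * (3 / 2) * (√3 / 2 * (3 / 2))) / (3 * (√3 / 2 * (3 / 2)) ^ 4 * 1)
      = (1 : ℝ) := by
    have h7 : 3 * (√3 / 2 * (3 / 2)) ^ 4 * 1 = 3 * ((√3 ^ 2) ^ 2 * (81 / 256)) := by ring
    have h8 : 81 / 16 * (√3 / 2 * (3 / 2) * (√3 / 2 * (3 / 2))) = 81 / 16 * (√3 ^ 2 * (9 / 16)) := by
      ring
    rw [h7, h8, hs]
    norm_num
  rw [h6] at h5
  refine h5.congr fun n => ?_
  unfold rho cc
  have ha : (81 / 16 : ℝ) ^ (2 * n) = ((81 / 16) ^ n) ^ 2 := by rw [mul_comm, pow_mul]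
  rw [pow_succ (81 / 16 : ℝ) (2 * n), ha]
  have hb := (r1_pos (2 * n)).ne'
  have hc := (r1_pos (2 * n + 1)).ne'
  have hd := (r1_pos n).ne'
  field_simp

theorem tendsto_lin (a b c d : ℝ) (hc : 0 < c) (hd : 0 < d) (hac : a = c) :
    Tendsto (fun n : ℕ => (a * (n : ℝ) + b) / (c * n + d)) atTop (𝓝 1) := by
  subst hac
  have h5 : Tendsto (fun k : ℕ => 1 + (b - d) * (1 / (a * (k : ℝ) + d))) atTop
      (𝓝 (1 + (b - d) * 0)) := by
    refine tendsto_const_nhds.add (tendsto_const_nhds.mul ?_)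
    refine tendsto_const_nhds.div_atTop ?_
    refine tendsto_atTop_add_const_right _ _ ?_
    exact (tendsto_natCast_atTop_atTop).const_mul_atTop hc
  rw [mul_zero, add_zero] at h5
  refine h5.congr fun k => ?_
  have : (a * (k : ℝ) + d) ≠ 0 := by positivity
  field_simp
  ring

/-- `ρ n ≥ (4 n + 1) / (4 n + 2)` for `n ≥ 1`. -/
theorem rho_ge (n : ℕ) (hn : 1 ≤ n) : (4 * (n : ℝ) + 1) / (4 * n + 2) ≤ rho n := by
  let f : ℕ → ℝ := fun m => rho (m + 1) * ((4 * ((m + 1 : ℕ) : ℝ) + 2) / (4 * ((m + 1 : ℕ) : ℝ) + 1))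
  have hanti : Antitone f := by
    apply antitone_nat_of_succ_le
    intro m
    simp only [f]
    rw [rho_succ (m + 1), mul_assoc]
    apply mul_le_mul_of_nonneg_left _ (rho_pos _).le
    have h0 : (1 : ℝ) ≤ ((m + 1 : ℕ) : ℝ) := by exact_mod_cast Nat.succ_le_succ (Nat.zero_le m)
    have h1 := sig_le ((m + 1 : ℕ) : ℝ) h0
    have h3 : (((m + 1 + 1 : ℕ) : ℝ)) = ((m + 1 : ℕ) : ℝ) + 1 := by push_cast; ring
    rw [h3]
    generalize ((m + 1 : ℕ) : ℝ) = x at h1 h0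
    calc sig x * ((4 * (x + 1) + 2) / (4 * (x + 1) + 1)) ≤
        (4 * x + 2) * (4 * x + 5) / ((4 * x + 6) * (4 * x + 1)) *
          ((4 * (x + 1) + 2) / (4 * (x + 1) + 1)) := by
          apply mul_le_mul_of_nonneg_right h1
          positivity
      _ = (4 * x + 2) / (4 * x + 1) := by
          have a1 : (4 * x + 6) ≠ 0 := by positivity
          have a2 : (4 * x + 1) ≠ 0 := by positivity
          have a3 : (4 * (x + 1) + 1) ≠ 0 := by positivity
          field_simp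
          ring
  have hlim : Tendsto f atTop (𝓝 1) := by
    have h1 := (tendsto_rho.mul (tendsto_lin 4 2 4 1 (by norm_num) (by norm_num) rfl)).comp
      (tendsto_add_atTop_nat 1)
    rw [mul_one] at h1
    exact h1
  obtain ⟨m, rfl⟩ : ∃ m, n = m + 1 := ⟨n - 1, by omega⟩
  have h2 := hanti.le_of_tendsto hlim m
  simp only [f] at h2
  have h3 : (0 : ℝ) ≤ ((m + 1 : ℕ) : ℝ) := Nat.cast_nonneg _
  rw [div_le_iff₀ (by positivity)]
  have h4 : (0 : ℝ) < 4 * ((m + 1 : ℕ) : ℝ) + 1 := by positivity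
  rw [← mul_div_assoc, le_div_iff₀ h4, one_mul] at h2
  exact h2

/-- `ρ n ≤ (4 n + 2) / (4 n + 3)`. -/
theorem rho_le (n : ℕ) : rho n ≤ (4 * (n : ℝ) + 2) / (4 * n + 3) := by
  let f : ℕ → ℝ := fun m => rho m * ((4 * (m : ℝ) + 3) / (4 * (m : ℝ) + 2))
  have hmono : Monotone f := by
    apply monotone_nat_of_le_succ
    intro m
    simp only [f]
    rw [rho_succ m, mul_assoc]
    apply mul_le_mul_of_nonneg_left _ (rho_pos _).le
    have h0 : (0 : ℝ) ≤ (m : ℝ) := Nat.cast_nonneg m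
    have h1 := le_sig (m : ℝ) h0
    have h3 : (((m + 1 : ℕ) : ℝ)) = (m : ℝ) + 1 := by push_cast; ring
    rw [h3]
    generalize (m : ℝ) = x at h1 h0
    calc (4 * x + 3) / (4 * x + 2) = (4 * x + 6) * (4 * x + 3) / ((4 * x + 7) * (4 * x + 2)) *
          ((4 * (x + 1) + 3) / (4 * (x + 1) + 2)) := by
          have a1 : (4 * x + 7) ≠ 0 := by positivity
          have a2 : (4 * x + 2) ≠ 0 := by positivity
          have a3 : (4 * (x + 1) + 2) ≠ 0 := by positivity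
          field_simp
          ring
      _ ≤ sig x * ((4 * (x + 1) + 3) / (4 * (x + 1) + 2)) := by
          apply mul_le_mul_of_nonneg_right h1
          positivity
  have hlim : Tendsto f atTop (𝓝 1) := by
    have h1 := tendsto_rho.mul (tendsto_lin 4 3 4 2 (by norm_num) (by norm_num) rfl)
    rw [mul_one] at h1
    exact h1
  have h2 := hmono.ge_of_tendsto hlim n
  simp only [f] at h2
  have h3 : (0 : ℝ) ≤ (n : ℝ) := Nat.cast_nonneg _
  rw [le_div_iff₀ (by positivity)]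
  have h4 : (0 : ℝ) < 4 * (n : ℝ) + 2 := by positivity
  rw [← mul_div_assoc, div_le_iff₀ h4, one_mul] at h2
  exact h2

theorem pv_pos (n : ℕ) : 0 < pv n := by
  induction n with
  | zero => rw [pv_zero]; norm_num
  | succ n ih => rw [pv_succ]; exact mul_pos ih (rho_pos n)

/-- The lower bound. -/
theorem pv_lower (n : ℕ) (hn : 1 ≤ n) : 1 / (32 * (n : ℝ)) ≤ pv n ^ 4 := by
  have h : ∀ m : ℕ, 1 / (16 * (2 * (m : ℝ) + 1)) ≤ pv (m + 1) ^ 4 := by
    intro m
    induction m with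
    | zero =>
      rw [zero_add, pv_one]
      norm_num
    | succ m ih =>
      rw [pv_succ, mul_pow]
      have h1 := rho_ge (m + 1) (by omega)
      have h2 : (2 * (m : ℝ) + 1) / (2 * m + 3) ≤ rho (m + 1) ^ 4 := by
        have h3 : (4 * ((m + 1 : ℕ) : ℝ) + 1) / (4 * ((m + 1 : ℕ) : ℝ) + 2) =
            1 - 1 / (4 * m + 6) := by
          have : (4 * (m : ℝ) + 6) ≠ 0 := by positivity
          push_cast
          field_simp
          ring
        rw [h3] at h1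
        have h4 : 1 - 4 * (1 / (4 * (m : ℝ) + 6)) ≤ (1 - 1 / (4 * (m : ℝ) + 6)) ^ 4 := by
          have h5 := one_add_mul_le_pow (a := -(1 / (4 * (m : ℝ) + 6))) (by
            have : 1 / (4 * (m : ℝ) + 6) ≤ 1 := by
              rw [div_le_one (by positivity)]
              have : (0 : ℝ) ≤ m := Nat.cast_nonneg m
              linarith
            linarith) 4
          push_cast at h5
          calc 1 - 4 * (1 / (4 * (m : ℝ) + 6)) = 1 + 4 * -(1 / (4 * (m : ℝ) + 6)) := by ring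
            _ ≤ _ := h5
            _ = _ := by ring
        have h6 : 1 - 4 * (1 / (4 * (m : ℝ) + 6)) = (2 * (m : ℝ) + 1) / (2 * m + 3) := by
          have : (4 * (m : ℝ) + 6) ≠ 0 := by positivity
          have : (2 * (m : ℝ) + 3) ≠ 0 := by positivity
          field_simp
          ring
        rw [← h6]
        refine h4.trans (pow_le_pow_left₀ ?_ h1 4)
        rw [sub_nonneg, div_le_one (by positivity)]
        have : (0 : ℝ) ≤ m := Nat.cast_nonneg m
        linarith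
      calc 1 / (16 * (2 * ((m + 1 : ℕ) : ℝ) + 1)) =
          1 / (16 * (2 * (m : ℝ) + 1)) * ((2 * (m : ℝ) + 1) / (2 * m + 3)) := by
            have : (2 * (m : ℝ) + 1) ≠ 0 := by positivity
            have : (2 * (m : ℝ) + 3) ≠ 0 := by positivity
            push_cast
            field_simp
            ring
        _ ≤ _ := mul_le_mul ih h2 (by positivity) (by positivity)
  obtain ⟨m, rfl⟩ : ∃ m, n = m + 1 := ⟨n - 1, by omega⟩
  refine le_trans ?_ (h m)
  rw [div_le_div_iff₀ (by positivity) (by positivity)]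
  push_cast
  linarith

/-- The upper bound. -/
theorem pv_upper (n : ℕ) : pv n ^ 4 ≤ 1 / (2 * (n : ℝ) + 1) := by
  induction n with
  | zero => rw [pv_zero]; norm_num
  | succ n ih =>
    rw [pv_succ, mul_pow]
    have h1 := rho_le n
    have h2 : rho n ^ 4 ≤ (2 * (n : ℝ) + 1) / (2 * n + 3) := by
      refine (pow_le_pow_left₀ (rho_pos n).le h1 4).trans ?_
      have h3 : (2 * (n : ℝ) + 3) / (2 * n + 1) ≤ ((4 * (n : ℝ) + 3) / (4 * n + 2)) ^ 4 := by
        have h5 := one_add_mul_le_pow (a := 1 / (4 * (n : ℝ) + 2)) (by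
          have : 0 ≤ 1 / (4 * (n : ℝ) + 2) := by positivity
          linarith) 4
        push_cast at h5
        have h6 : (2 * (n : ℝ) + 3) / (2 * n + 1) = 1 + 4 * (1 / (4 * (n : ℝ) + 2)) := by
          field_simp
          ring
        have h7 : (4 * (n : ℝ) + 3) / (4 * n + 2) = 1 + 1 / (4 * (n : ℝ) + 2) := by
          field_simp
          ring
        rw [h6, h7]
        exact h5
      have h8 : ((4 * (n : ℝ) + 2) / (4 * n + 3)) ^ 4 = (((4 * (n : ℝ) + 3) / (4 * n + 2)) ^ 4)⁻¹ := by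
        rw [← inv_pow, inv_div]
      have h9 : (2 * (n : ℝ) + 1) / (2 * n + 3) = ((2 * (n : ℝ) + 3) / (2 * n + 1))⁻¹ := by
        rw [inv_div]
      rw [h8, h9]
      exact inv_anti₀ (by positivity) h3
    calc pv n ^ 4 * rho n ^ 4 ≤ 1 / (2 * (n : ℝ) + 1) * ((2 * (n : ℝ) + 1) / (2 * n + 3)) :=
          mul_le_mul ih h2 (by have := rho_pos n; positivity) (by positivity)
      _ = _ := by
          push_cast
          field_simp
          ring

theorem pv_lower_rpow (n : ℕ) (hn : 1 ≤ n) : 1 / 3 * (n : ℝ) ^ (-(1 / 4) : ℝ) ≤ pv n := by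
  have hn' : (0 : ℝ) < n := by exact_mod_cast hn
  have h1 := pv_lower n hn
  have h2 : (1 / 3 * (n : ℝ) ^ (-(1 / 4) : ℝ)) ^ 4 ≤ pv n ^ 4 := by
    refine le_trans ?_ h1
    rw [mul_pow, ← Real.rpow_natCast ((n : ℝ) ^ (-(1 / 4) : ℝ)) 4, ← Real.rpow_mul hn'.le]
    have h3 : (-(1 / 4) : ℝ) * ((4 : ℕ) : ℝ) = -1 := by norm_num
    rw [h3, Real.rpow_neg_one, one_div, inv_pow, one_div, mul_inv]
    apply mul_le_mul_of_nonneg_right _ (by positivity)
    norm_num
  exact le_of_pow_le_pow_left₀ (by norm_num) (pv_pos n).le h2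

theorem pv_upper_rpow (n : ℕ) (hn : 1 ≤ n) : pv n ≤ (n : ℝ) ^ (-(1 / 4) : ℝ) := by
  have hn' : (0 : ℝ) < n := by exact_mod_cast hn
  have h1 := pv_upper n
  have h2 : pv n ^ 4 ≤ ((n : ℝ) ^ (-(1 / 4) : ℝ)) ^ 4 := by
    refine h1.trans ?_
    rw [← Real.rpow_natCast ((n : ℝ) ^ (-(1 / 4) : ℝ)) 4, ← Real.rpow_mul hn'.le]
    have h3 : (-(1 / 4) : ℝ) * ((4 : ℕ) : ℝ) = -1 := by norm_num
    rw [h3, Real.rpow_neg_one, one_div]
    apply inv_anti₀ hn'
    linarith
  exact le_of_pow_le_pow_left₀ (by norm_num) (by positivity) h2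

end Pool.Agent.Perc.QAsym
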