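import Pool.Agent.Lib.MP_6bd702_perc.SumB

/-!
# The Schur polynomials of the punctured sum rule: recursions
-/

set_option autoImplicit false

namespace Pool.Agent.Perc

open Finset MvPolynomial

namespace QSchur

open SumB

variable {q : ℂ}

/-- Only the first `N` coordinates matter. -/
theorem eval_schur_congr (N : ℕ) (e : ℕ → ℕ) {z w : ℕ → ℂ} (h : ∀ k < N, z k = w k) :
    eval z (schur N e) = eval w (schur N e) := by
  unfold MvPolynomial.eval
  refine eval₂Hom_congr' rfl (fun k hk _ => ?_) rfl
  apply h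
  by_contra hcon
  exact mem_vars_iff_degreeOf_ne_zero.mp hk (degreeOf_schur_out _ _ (by omega))

/-- The recursion of the Schur polynomial of `(m, m, …, 0, 0)`, at any place. -/
theorem eS3_restrict (hq : q ^ 2 + q + 1 = 0) (m : ℕ) {i : ℕ} (hi : i ≤ 2 * m) (z : ℕ → ℂ)
    (v : ℂ) : eval (insV i (q ^ 2 * v) v z) (schur (2 * (m + 1)) eS3) =
      (∏ k ∈ range (2 * m), (z k - q * v)) * eval z (schur (2 * m) eS3) := by
  have h := SumA.eval_insV (2 * m) eS3 hi (q ^ 2 * v) v z
  rw [show 2 * (m + 1) = 2 * m + 2 from rfl, h]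
  exact SumA.schur_restrict hq m z v

/-- substitution of a variable -/
noncomputable def sub1 (N : ℕ) (z : ℕ → ℂ) : MvPolynomial ℕ ℂ →ₐ[ℂ] Polynomial ℂ :=
  aeval fun k => if k = N then (Polynomial.X : Polynomial ℂ) else Polynomial.C (z k)

theorem eval_sub1 (N : ℕ) (z : ℕ → ℂ) (P : MvPolynomial ℕ ℂ) (y : ℂ) :
    Polynomial.eval y (sub1 N z P) = eval (fun k => if k = N then y else z k) P := by
  induction P using MvPolynomial.induction_on with
  | C a => simp [sub1]
  | add p r hp hr => rw [map_add, Polynomial.eval_add, hp, hr, map_add]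
  | mul_X p k hp =>
    rw [map_mul, Polynomial.eval_mul, hp, map_mul, sub1, aeval_X, eval_X]
    congr 1
    split_ifs <;> simp

theorem natDegree_sub1_le (N : ℕ) (z : ℕ → ℂ) (P : MvPolynomial ℕ ℂ) :
    (sub1 N z P).natDegree ≤ P.degreeOf N := by
  rw [sub1, aeval_def, eval₂_eq]
  refine Polynomial.natDegree_sum_le_of_forall_le _ _ fun e he => ?_
  refine le_trans (Polynomial.natDegree_mul_le) ?_
  have h1 : (algebraMap ℂ (Polynomial ℂ) (coeff e P)).natDegree = 0 := Polynomial.natDegree_C _
  rw [h1, zero_add]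
  refine (Polynomial.natDegree_prod_le _ _).trans ?_
  refine le_trans ?_ (monomial_le_degreeOf N he)
  calc ∑ k ∈ e.support, ((if k = N then (Polynomial.X : Polynomial ℂ) else
        Polynomial.C (z k)) ^ e k).natDegree ≤ ∑ k ∈ e.support, (if k = N then e k else 0) := by
        refine Finset.sum_le_sum fun k _ => ?_
        split_ifs with h
        · refine (Polynomial.natDegree_pow_le).trans ?_
          simp
        · rw [← Polynomial.C_pow, Polynomial.natDegree_C]
    _ ≤ e N := by
        rw [Finset.sum_ite_eq' e.support N]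
        split_ifs
        · exact le_rfl
        · exact Nat.zero_le _

/-- the Schur polynomial of `eP` by top coefficient and value at zero -/
theorem coeff_sub1_schur (n : ℕ) (z : ℕ → ℂ) (hz : z (2 * n) = 0) :
    Polynomial.coeff (sub1 (2 * n + 1) z (schur (2 * n + 2) eS3)) n =
      eval z (schur (2 * n) eP) := by
  have h1 := top_schur (2 * n + 1) n SumB.strictMono_eS3 (by unfold eS3; omega) z
  have h2 := zero_schur (2 * n) SumB.strictMono_eS3 (by simp [eS3]) z hz
  rw [show 2 * n + 2 = 2 * n + 1 + 1 from rfl, sub1, h1, h2]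
  rfl

theorem eP_restrict (hq : q ^ 2 + q + 1 = 0) (m : ℕ) {i : ℕ} (hi : i ≤ 2 * m) (z : ℕ → ℂ)
    (v : ℂ) : eval (insV i (q ^ 2 * v) v z) (schur (2 * (m + 1)) eP) =
      -q * v * (∏ k ∈ range (2 * m), (z k - q * v)) * eval z (schur (2 * m) eP) := by
  -- the vector with the value zero at `2 m`
  set ζ : ℕ → ℂ := fun k => if k = 2 * m then 0 else z k with hζ
  have hζz : ∀ k < 2 * m, ζ k = z k := fun k hk => by rw [hζ]; simp only; rw [if_neg (by omega)]
  have hins : ∀ k < 2 * (m + 1), insV i (q ^ 2 * v) v z k = insV i (q ^ 2 * v) v ζ k := by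
    intro k hk
    unfold insV
    split_ifs with h1 h2 h3
    · rw [hζz k (by omega)]
    · rfl
    · rfl
    · rw [hζz (k - 2) (by omega)]
  rw [eval_schur_congr _ _ hins, ← eval_schur_congr (2 * m) eP hζz]
  have h1 := coeff_sub1_schur (m + 1) (insV i (q ^ 2 * v) v ζ) (by
    unfold insV
    rw [if_neg (by omega), if_neg (by omega), if_neg (by omega)]
    simp [hζ, show 2 * (m + 1) - 2 = 2 * m by omega])
  have h2 := coeff_sub1_schur m ζ (by simp [hζ])
  rw [← h1, ← h2]
  set F := sub1 (2 * m + 1) ζ (schur (2 * m + 2) eS3) with hF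
  set c := (∏ k ∈ range (2 * m), (z k - q * v)) with hc
  have h3 : sub1 (2 * (m + 1) + 1) (insV i (q ^ 2 * v) v ζ) (schur (2 * (m + 1) + 2) eS3) =
      Polynomial.C (-q * v * c) * ((Polynomial.X - Polynomial.C (q * v)) * F) := by
    apply Polynomial.funext
    intro y
    rw [eval_sub1]
    have h4 : (fun k => if k = 2 * (m + 1) + 1 then y else insV i (q ^ 2 * v) v ζ k) =
        insV i (q ^ 2 * v) v (fun k => if k = 2 * m + 1 then y else ζ k) := by
      funext k
      unfold insV
      by_cases h5 : k = 2 * (m + 1) + 1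
      · subst h5
        rw [if_pos rfl, if_neg (by omega), if_neg (by omega), if_neg (by omega)]
        simp only
        rw [if_pos (by omega)]
      · rw [if_neg h5]
        by_cases h6 : k < i
        · rw [if_pos h6, if_pos h6]
          exact (if_neg (by omega)).symm
        · by_cases h7 : k = i
          · rw [if_neg h6, if_neg h6, if_pos h7, if_pos h7]
          · by_cases h8 : k = i + 1
            · rw [if_neg h6, if_neg h6, if_neg h7, if_neg h7, if_pos h8, if_pos h8]
            · rw [if_neg h6, if_neg h6, if_neg h7, if_neg h7, if_neg h8, if_neg h8]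
              exact (if_neg (by omega)).symm
    have h5 := eS3_restrict hq (m + 1) (i := i) (by omega)
      (fun k => if k = 2 * m + 1 then y else ζ k) v
    rw [h4, show 2 * (m + 1) + 2 = 2 * (m + 1 + 1) from rfl, h5]
    rw [Polynomial.eval_mul, Polynomial.eval_mul, Polynomial.eval_C, Polynomial.eval_sub,
      Polynomial.eval_X, Polynomial.eval_C, hF, eval_sub1]
    rw [show 2 * (m + 1) = 2 * m + 1 + 1 from rfl, prod_range_succ, prod_range_succ]
    have h6 : ∏ x ∈ range (2 * m), ((if x = 2 * m + 1 then y else ζ x) - q * v) = c := by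
      rw [hc]
      refine Finset.prod_congr rfl fun k hk => ?_
      rw [mem_range] at hk
      rw [if_neg (by omega), hζz k hk]
    rw [h6, if_neg (by omega), if_pos rfl, hζ]
    simp only [if_true]
    ring
  rw [h3, Polynomial.coeff_C_mul, sub_mul, Polynomial.coeff_sub, Polynomial.coeff_X_mul,
    Polynomial.coeff_C_mul, Polynomial.coeff_eq_zero_of_natDegree_lt (n := m + 1)]
  · ring
  · refine lt_of_le_of_lt (natDegree_sub1_le _ _ _) ?_
    have h7 := degreeOf_schur_le (2 * m + 2) eS3 (d := m) (by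
      intro j hj
      unfold eS3
      omega) (2 * m + 1)
    omega

/-- `F_{2n}`: the candidate for the sum of the components of the punctured solution. -/
noncomputable def FS (n : ℕ) : MvPolynomial ℕ ℂ := schur (2 * n) eS3 * schur (2 * n) eP

theorem FS_restrict (hq : q ^ 2 + q + 1 = 0) (m : ℕ) {i : ℕ} (hi : i ≤ 2 * m) (z : ℕ → ℂ)
    (v : ℂ) : eval (insV i (q ^ 2 * v) v z) (FS (m + 1)) =
      -q * v * (∏ k ∈ range (2 * m), (z k - q * v)) ^ 2 * eval z (FS m) := by
  unfold FS
  rw [map_mul, map_mul, eS3_restrict hq m hi, eP_restrict hq m hi]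
  ring

theorem FS_zero : FS 0 = 1 := by
  have h : ∀ e : ℕ → ℕ, schur 0 e = 1 := by
    intro e
    have h := vdm_mul_schur 0 e
    have h1 : vdm 0 = 1 := by simp [vdm]
    have h2 : alt 0 e = 1 := by simp [alt]
    rw [h1, h2, one_mul] at h
    exact h
  unfold FS
  rw [mul_zero, h, h, one_mul]

theorem degreeOf_FS_le (n k : ℕ) : (FS n).degreeOf k ≤ 2 * n - 1 := by
  rcases Nat.eq_zero_or_pos n with rfl | hn
  · rw [FS_zero]; simp
  unfold FS
  refine (degreeOf_mul_le k _ _).trans ?_
  have h1 := degreeOf_schur_le (2 * n) eS3 (d := n - 1) (by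
    intro j hj
    unfold eS3
    omega) k
  have h2 := degreeOf_schur_le (2 * n) eP (d := n) (by
    intro j hj
    unfold eP eS3
    omega) k
  omega

theorem degreeOf_FS_out (n : ℕ) {k : ℕ} (hk : 2 * n ≤ k) : (FS n).degreeOf k = 0 := by
  unfold FS
  have h := degreeOf_mul_le k (schur (2 * n) eS3) (schur (2 * n) eP)
  rw [degreeOf_schur_out _ _ hk, degreeOf_schur_out _ _ hk] at h
  omega

theorem FS_perm (n : ℕ) (π : Equiv.Perm ℕ) (hπ : ∀ k, 2 * n ≤ k → π k = k) (z : ℕ → ℂ) :
    eval (fun k => z (π k)) (FS n) = eval z (FS n) := by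
  unfold FS
  rw [map_mul, map_mul, schur_perm _ _ π hπ, schur_perm _ _ π hπ]

theorem eP_zero_zero (n : ℕ) (z : ℕ → ℂ) (h0 : z (2 * n) = 0) (h1 : z (2 * n + 1) = 0) :
    eval z (schur (2 * (n + 1)) eP) = 0 := by
  have h2 := zero_schur (2 * n + 1) strictMono_eP (by simp [eP, eS3]) z h1
  have h3 : (fun j => eP (j + 1) - 1) = fun j => (fun j => eP (j + 1) - 2) j + 1 := by
    funext j
    simp only [eP, eS3]
    omega
  rw [show 2 * (n + 1) = 2 * n + 1 + 1 from rfl, h2, h3, SumA.schur_add_one, map_mul, map_prod,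
    Finset.prod_eq_zero (i := 2 * n) (by simp) (by rw [eval_X, h0]), zero_mul]

/-- Both variables zero. -/
theorem FS_zero_zero (n : ℕ) {i j : ℕ} (hij : i ≠ j) (hi : i < 2 * n) (hj : j < 2 * n)
    (z : ℕ → ℂ) (h0 : z i = 0) (h1 : z j = 0) : eval z (FS n) = 0 := by
  obtain ⟨m, rfl⟩ : ∃ m, n = m + 1 := ⟨n - 1, by omega⟩
  set j' := Equiv.swap (2 * m + 1) i j with hj'
  have hjj : j' = if j = 2 * m + 1 then i else if j = i then 2 * m + 1 else j := by
    rw [hj', Equiv.swap_apply_def]
  set σ : Equiv.Perm ℕ := Equiv.swap (2 * m + 1) i * Equiv.swap (2 * m) j' with hσ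
  have hj2 : j' ≠ 2 * m + 1 := by
    rw [hjj]
    split_ifs <;> omega
  have hj3 : j' < 2 * (m + 1) := by
    rw [hjj]
    split_ifs <;> omega
  have e1 : σ (2 * m + 1) = i := by
    rw [hσ, Equiv.Perm.mul_apply, Equiv.swap_apply_of_ne_of_ne (by omega) (Ne.symm hj2),
      Equiv.swap_apply_left]
  have e2 : σ (2 * m) = j := by
    rw [hσ, Equiv.Perm.mul_apply, Equiv.swap_apply_left, hj', Equiv.swap_apply_self]
  have hfix : ∀ k, 2 * (m + 1) ≤ k → σ k = k := by
    intro k hk
    rw [hσ, Equiv.Perm.mul_apply, Equiv.swap_apply_of_ne_of_ne (a := 2 * m) (by omega) (by omega),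
      Equiv.swap_apply_of_ne_of_ne (by omega) (by omega)]
  rw [← FS_perm (m + 1) σ hfix z, FS, map_mul, eP_zero_zero m _ (by rw [e2, h1]) (by rw [e1, h0]),
    mul_zero]

/-- Doubled variables: `s(z_0, z_0, z_1, z_1, …)`, `L` variables. -/
noncomputable def SD (L : ℕ) : MvPolynomial ℕ ℂ := rename (fun k => k / 2) (schur (2 * L) eS3)

theorem eval_SD (L : ℕ) (z : ℕ → ℂ) : eval z (SD L) = eval (fun k => z (k / 2)) (schur (2 * L) eS3) := by
  rw [SD, eval_rename]
  rfl

theorem SD_restrict (hq : q ^ 2 + q + 1 = 0) (L : ℕ) {i : ℕ} (hi : i ≤ L) (z : ℕ → ℂ)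
    (v : ℂ) : eval (insV i (q ^ 2 * v) v z) (SD (L + 2)) =
      3 * q ^ 2 * v ^ 2 * (∏ k ∈ range L, (z k - q * v)) ^ 4 * eval z (SD L) := by
  have h1 : (fun k => insV i (q ^ 2 * v) v z (k / 2)) =
      insV (2 * i + 1) (q ^ 2 * v) v (insV (2 * i) (q ^ 2 * v) v fun k => z (k / 2)) := by
    funext k
    unfold insV
    by_cases h2 : k < 2 * i
    · rw [if_pos (by omega), if_pos (by omega), if_pos h2]
    by_cases h3 : k = 2 * i
    · rw [if_neg (by omega), if_pos (by omega), if_pos (by omega), if_neg h2, if_pos h3]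
    by_cases h4 : k = 2 * i + 1
    · rw [if_neg (by omega), if_pos (by omega), if_neg (by omega), if_pos h4]
    by_cases h5 : k = 2 * i + 2
    · rw [if_neg (by omega), if_neg (by omega), if_pos (by omega), if_neg (by omega),
        if_neg (by omega), if_pos (by omega)]
    by_cases h6 : k = 2 * i + 3
    · rw [if_neg (by omega), if_neg (by omega), if_pos (by omega), if_neg (by omega),
        if_neg (by omega), if_neg (by omega), if_neg (by omega), if_neg (by omega),
        if_pos (by omega)]
    · rw [if_neg (by omega), if_neg (by omega), if_neg (by omega), if_neg (by omega),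
        if_neg (by omega), if_neg (by omega), if_neg (by omega), if_neg (by omega),
        if_neg (by omega)]
      congr 1
      omega
  rw [eval_SD, h1, show 2 * (L + 2) = 2 * (L + 1 + 1) by ring,
    eS3_restrict hq (L + 1) (by omega), eS3_restrict hq L (by omega), ← eval_SD]
  have h2 : ∏ k ∈ range (2 * L), (z (k / 2) - q * v) = (∏ k ∈ range L, (z k - q * v)) ^ 2 := by
    rw [prod_two (fun k => z (k / 2) - q * v) L, ← Finset.prod_pow]
    refine Finset.prod_congr rfl fun k _ => ?_
    rw [show 2 * k / 2 = k by omega, show (2 * k + 1) / 2 = k by omega, sq]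
  have h3 : ∏ k ∈ range (2 * (L + 1)), (insV (2 * i) (q ^ 2 * v) v (fun k => z (k / 2)) k - q * v) =
      (q ^ 2 * v - q * v) * (v - q * v) * ∏ k ∈ range (2 * L), (z (k / 2) - q * v) := by
    have h4 : ∏ k ∈ range (2 * (L + 1)), (insV (2 * i) (q ^ 2 * v) v (fun k => z (k / 2)) k - q * v) =
        (∏ k ∈ range (2 * i), (z (k / 2) - q * v)) * ((q ^ 2 * v - q * v) * (v - q * v)) *
        ∏ k ∈ range (2 * L - 2 * i), (z ((2 * i + k) / 2) - q * v) := by
      rw [show 2 * (L + 1) = 2 * i + (2 + (2 * L - 2 * i)) by omega, prod_range_add,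
        prod_range_add, ← mul_assoc]
      congr 1
      · congr 1
        · refine Finset.prod_congr rfl fun k hk => ?_
          rw [mem_range] at hk
          unfold insV
          rw [if_pos hk]
        · rw [prod_range_succ, prod_range_one]
          unfold insV
          rw [if_neg (by omega), if_pos (by omega), if_neg (by omega), if_neg (by omega),
            if_pos rfl]
      · refine Finset.prod_congr rfl fun k hk => ?_
        unfold insV
        rw [if_neg (by omega), if_neg (by omega), if_neg (by omega)]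
        congr 2
        omega
    have h5 : ∏ k ∈ range (2 * L), (z (k / 2) - q * v) =
        (∏ k ∈ range (2 * i), (z (k / 2) - q * v)) *
        ∏ k ∈ range (2 * L - 2 * i), (z ((2 * i + k) / 2) - q * v) := by
      rw [← prod_range_add, show 2 * i + (2 * L - 2 * i) = 2 * L by omega]
    rw [h4, h5]
    ring
  rw [h3, h2]
  linear_combination (-q * v ^ 2 * (∏ k ∈ range L, (z k - q * v)) ^ 4 * eval z (SD L)) * hq

end QSchur

end Pool.Agent.Perc
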