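import Pool.Agent.Lib.MP_6bd702_perc.TjA

/-!
# Matrix elements of the current: defects (task TjB)
-/

set_option autoImplicit false

namespace Pool.Agent.Perc

open Finset Function

variable {q : ℂ} {N : ℕ} {α β : ℕ → ℕ}

namespace TjB

/-- Moving generators at disjoint places into a pattern. -/
theorem moves {M : ℕ} {P : (ℕ → ℕ) → Prop} {S : ℕ → Prop}
    (hP : ∀ (p : ℕ → ℕ) (i : ℕ), NC M p → S i → P p → P (eAct i p))
    (hS : ∀ i, S i → i + 1 < M) (hS2 : ∀ i, S i → ¬ S (i + 1)) {p : ℕ → ℕ} (h : NC M p)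
    (hp : P p) : ∃ p', NC M p' ∧ P p' ∧ ∀ i, S i → p' i = i + 1 := by
  have key : ∀ k : ℕ, ∃ p', NC M p' ∧ P p' ∧ ∀ i < k, S i → p' i = i + 1 := by
    intro k
    induction k with
    | zero => exact ⟨p, h, hp, fun i hi => absurd hi (Nat.not_lt_zero i)⟩
    | succ k ih =>
      obtain ⟨p', h1, h2, h3⟩ := ih
      by_cases hk : S k
      · refine ⟨eAct k p', h1.eAct (hS k hk), hP p' k h1 hk h2, fun i hi hSi => ?_⟩
        rcases Nat.lt_succ_iff_lt_or_eq.mp hi with hi' | hi'
        · have h4 := h3 i hi' hSi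
          have h5 : i + 1 ≠ k := by
            rintro rfl
            exact hS2 i hSi hk
          unfold eAct
          rw [if_neg (by omega), if_neg (by omega), h4, if_neg h5, if_neg (by omega)]
        · subst hi'
          unfold eAct
          rw [if_pos rfl]
      · refine ⟨p', h1, h2, fun i hi hSi => ?_⟩
        rcases Nat.lt_succ_iff_lt_or_eq.mp hi with hi' | hi'
        · exact h3 i hi' hSi
        · subst hi'; exact absurd hSi hk
  obtain ⟨p', h1, h2, h3⟩ := key M
  exact ⟨p', h1, h2, fun i hi => h3 i (by have := hS i hi; omega) hi⟩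

/-- Positions of the small arcs of the flat pattern. -/
def Small (N d i : ℕ) : Prop :=
  i + 1 < N ∧ i ≠ d ∧ i + 1 ≠ d ∧ ((i < d ∧ i % 2 = 0) ∨ (d < i ∧ i % 2 = 1))

theorem flatP_small {d i : ℕ} (h : Small N d i) :
    flatP d (N + 1) i = i + 1 := by
  obtain ⟨h1, h2, h3, h4⟩ := h
  unfold flatP
  rw [if_neg (by omega), if_neg h2, if_neg (by omega)]
  rcases h4 with h4 | h4
  · rw [if_pos h4.1, if_pos h4.2]
  · rw [if_neg (by omega), if_pos h4.2]

theorem not_small_succ {d i : ℕ} (h : Small N d i) : ¬ Small N d (i + 1) := by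
  unfold Small at *
  omega

/-- A pattern with all small arcs of the flat pattern is the flat pattern. -/
theorem eq_flatP {d : ℕ} {p : ℕ → ℕ} (h : NC (N + 1) p) (hd : d % 2 = 0) (hdN : d < N)
    (hs : ∀ i, Small N d i → p i = i + 1) : p = flatP d (N + 1) := by
  have hN : (N + 1) % 2 = 0 := h.even
  have hs' : ∀ i, Small N d i → p (i + 1) = i := by
    intro i hi
    rw [← hs i hi, h.inv]
  have hne : ∀ k, k < N + 1 → k ≠ d → k ≠ N → p d ≠ k := by
    intro k hk hkd hkN hpd
    have hpk : p k = d := by rw [← hpd, h.inv]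
    by_cases h1 : k < d
    · by_cases h2 : k % 2 = 0
      · have := hs k (by unfold Small; omega)
        omega
      · obtain ⟨j, rfl⟩ : ∃ j, k = j + 1 := ⟨k - 1, by omega⟩
        have := hs' j (by unfold Small; omega)
        omega
    · by_cases h2 : k % 2 = 1
      · have := hs k (by unfold Small; omega)
        omega
      · obtain ⟨j, rfl⟩ : ∃ j, k = j + 1 := ⟨k - 1, by omega⟩
        have := hs' j (by unfold Small; omega)
        omega
  have hpd : p d = N := by
    by_contra hc
    have h1 := h.lt d (by omega)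
    have h2 := h.ne d (by omega)
    exact hne (p d) h1 h2 hc rfl
  have hpN : p N = d := by rw [← hpd, h.inv]
  funext k
  unfold flatP
  by_cases h1 : N + 1 ≤ k
  · rw [if_pos h1, h.out k h1]
  · rw [if_neg h1]
    by_cases h2 : k = d
    · rw [if_pos h2, h2, hpd]; omega
    · rw [if_neg h2]
      by_cases h3 : k = N + 1 - 1
      · rw [if_pos h3, h3]
        have : N + 1 - 1 = N := by omega
        rw [this, hpN]
      · rw [if_neg h3]
        by_cases h4 : k < d
        · rw [if_pos h4]
          by_cases h5 : k % 2 = 0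
          · rw [if_pos h5]
            exact hs k (by unfold Small; omega)
          · rw [if_neg h5]
            obtain ⟨j, rfl⟩ : ∃ j, k = j + 1 := ⟨k - 1, by omega⟩
            rw [hs' j (by unfold Small; omega)]; omega
        · rw [if_neg h4]
          by_cases h5 : k % 2 = 1
          · rw [if_pos h5]
            exact hs k (by unfold Small; omega)
          · rw [if_neg h5]
            obtain ⟨j, rfl⟩ : ∃ j, k = j + 1 := ⟨k - 1, by omega⟩
            rw [hs' j (by unfold Small; omega)]; omega

theorem sumS_succ (F : (ℕ → Bool) → ℂ) :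
    sumS (N + 1) F = sumS N (fun σ => F (update σ N true)) + sumS N (fun σ => F (update σ N false)) := by
  unfold sumS
  rw [Finset.range_add_one, Finset.sum_powerset_insert (by simp)]
  rw [add_comm]
  congr 1
  · refine Finset.sum_congr rfl fun T hT => ?_
    congr 1
    funext k
    by_cases hk : k = N
    · subst hk; simp
    · rw [update_of_ne hk]; simp [hk]
  · refine Finset.sum_congr rfl fun T hT => ?_
    congr 1
    funext k
    by_cases hk : k = N
    · subst hk
      rw [Finset.mem_powerset] at hT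
      have : k ∉ T := fun h => by simpa using hT h
      simp [this]
    · rw [update_of_ne hk]

theorem sw_sq (κ : ℂ) (a b : Bool) : sw (κ ^ 2) a b = sw κ a b * sw κ a b := by
  unfold sw
  split_ifs <;> ring

theorem Phi_sq (κ : ℂ) (M : ℕ) (p : ℕ → ℕ) (σ : ℕ → Bool) :
    Phi (κ ^ 2) M p σ = Phi κ M p σ * Phi κ M p σ := by
  unfold Phi
  rw [← Finset.prod_mul_distrib]
  refine Finset.prod_congr rfl fun x _ => ?_
  split_ifs
  · exact sw_sq κ _ _
  · ring

/-- The total spin difference vanishes at the defect. -/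
theorem Sj_defect {κ : ℂ} {p : ℕ → ℕ} {d : ℕ} (h : NC (N + 1) p) (hd : p d = N) (hdN : d < N)
    {σ : ℕ → Bool} (hσ : Phi κ (N + 1) p σ ≠ 0) (τ : ℕ → Bool)
    (hτ : ∀ k < N, k ≠ d → τ k = σ k) : Sj N d τ = 0 := by
  have hpN : p N = d := by rw [← hd, h.inv]
  have h1 := h.geq_partner (s := d) (by omega)
  rw [hd] at h1
  have h2 := h.geq_partner (s := N) (by omega)
  rw [hpN] at h2
  have h3 := h.geq_zero
  have h4 := sum_sgn_of_geq h hσ (by omega) (by omega) (h3.trans h1.symm)
  have h5 := sum_sgn_of_geq h hσ (by omega) (by omega) h2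
  unfold Sj
  have e1 : ∑ k ∈ range d, sgn (τ k) = 0 := by
    have e0 : ∑ k ∈ range d, sgn (τ k) = ∑ k ∈ range d, sgn (σ k) := by
      refine Finset.sum_congr rfl fun k hk => ?_
      rw [mem_range] at hk
      rw [hτ k (by omega) (by omega)]
    rw [e0, ← h4]
    simp
  have e2 : ∑ k ∈ Ico (d + 1) N, sgn (τ k) = 0 := by
    have e3 : ∑ k ∈ Ico (d + 1) N, sgn (τ k) = ∑ k ∈ Ico (d + 1) N, sgn (σ k) := by
      refine Finset.sum_congr rfl fun k hk => ?_
      rw [mem_Ico] at hk
      rw [hτ k (by omega) (by omega)]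
    rw [e3]
    rw [Finset.range_eq_Ico, Finset.range_eq_Ico,
      ← Finset.sum_Ico_consecutive (fun k => sgn (σ k)) (Nat.zero_le (d + 1)) (by omega : d + 1 ≤ N)]
      at h5
    omega
  rw [e1, e2]; ring

/-- The diagonal matrix element. -/
theorem Tj_self (hq : q ^ 2 + q + 1 = 0) {p : ℕ → ℕ} {d : ℕ} (h : NC (N + 1) p) (hd : p d = N)
    (hdN : d < N) : Tj q N d p p = 1 := by
  have hκ := TjA.kappa hq
  have hκ0 := TjA.kappa_ne hq
  have hpN : p N = d := by rw [← hd, h.inv]
  set κ := -q ^ 2 with hκd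
  have hκ1 : 1 + κ ^ 2 = κ := by rw [hκ]; ring
  have hdne : d ≠ N := by omega
  -- the full sum
  have h1 : sumS (N + 1) (Phi (κ ^ 2) (N + 1) p) = κ ^ ((N + 1) / 2) := by
    rw [sumS_Phi h, hκ1]
  rw [sumS_succ] at h1
  -- the second half is `κ ^ 2` times the first half
  have h2 : sumS N (fun σ => Phi (κ ^ 2) (N + 1) p (update σ N false)) =
      κ ^ 2 * sumS N (fun σ => Phi (κ ^ 2) (N + 1) p (update σ N true)) := by
    rw [← TjA.sumS_flip (A := {d}) (by simp [hdN]), ← TjA.sumS_mul_left]
    refine TjA.sumS_congr' fun σ => ?_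
    by_cases hs : σ d = true
    · rw [TjA.Phi_zero_of_eq h (x := d) (by omega), TjA.Phi_zero_of_eq h (x := d) (by omega),
        mul_zero]
      · rw [hd, update_self, update_of_ne hdne, hs]
      · rw [hd, update_self, update_of_ne hdne]; simp [TjA.flip, hs]
    · simp only [Bool.not_eq_true] at hs
      refine TjA.Phi_arc h (x := d) (by omega) (by omega) ?_ ?_ ?_ ?_ ?_
      · intro k hk1 hk2
        rw [hd] at hk2
        rw [update_of_ne hk2, update_of_ne hk2]
        simp [TjA.flip, hk1]
      · rw [update_of_ne hdne]; simp [TjA.flip, hs]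
      · rw [hd, update_self]
      · rw [update_of_ne hdne, hs]
      · rw [hd, update_self]
  have h3 : sumS N (fun σ => Phi (κ ^ 2) (N + 1) p (update σ N true)) * κ =
      κ ^ ((N + 1) / 2) := by
    rw [← h1, h2]
    linear_combination (- sumS N (fun σ => Phi (κ ^ 2) (N + 1) p (update σ N true))) * hκ1
  unfold Tj
  rw [← hκd, div_eq_one_iff_eq (pow_ne_zero _ hκ0), ← h3, mul_comm, ← TjA.sumS_mul_left]
  refine TjA.sumS_congr' fun σ => ?_
  by_cases hs : σ d = true
  · rw [if_pos hs, TjA.Phi_zero_of_eq h (x := d) (by omega), mul_zero]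
    rw [hd, update_self, update_of_ne hdne, hs]
  · rw [if_neg hs]
    simp only [Bool.not_eq_true] at hs
    have e1 : Phi κ (N + 1) p (update (update σ d true) N false) =
        κ * Phi κ (N + 1) p (update σ N true) := by
      refine TjA.Phi_arc h (x := d) (by omega) (by omega) ?_ ?_ ?_ ?_ ?_
      · intro k hk1 hk2
        rw [hd] at hk2
        rw [update_of_ne hk2, update_of_ne hk2, update_of_ne hk1]
      · rw [update_of_ne hdne, update_self]
      · rw [hd, update_self]
      · rw [update_of_ne hdne, hs]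
      · rw [hd, update_self]
    rw [Phi_sq, e1]
    by_cases h0 : Phi κ (N + 1) p (update σ N true) = 0
    · rw [h0]; ring
    · rw [Sj_defect h hd hdN h0 σ (fun k hk hkd => by rw [update_of_ne (by omega : k ≠ N)])]
      simp only [zpow_zero]
      ring

end TjB

/-- The value at the defect of `β`. -/
theorem Tj_defect_right (hq : q ^ 2 + q + 1 = 0) (hα : NC (N + 1) α) (hβ : NC (N + 1) β) {d : ℕ}
    (hd : β d = N) (hdN : d < N) : Tj q N d α β = 1 := by
  have hN : (N + 1) % 2 = 0 := hβ.even
  have hd2 : d % 2 = 0 := by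
    have := hβ.parity (x := d) (by omega)
    rw [hd] at this
    omega
  have key : ∀ γ, NC (N + 1) γ → Tj q N d γ β = 1 := by
    refine NC.induction_flat (N := N + 1) (p := β) (d := d)
      (C := fun p => ∀ γ, NC (N + 1) γ → Tj q N d γ p = 1) (by omega) ?_ ?_ hβ (by rw [hd]; rfl)
    · intro γ hγ
      have hF : NC (N + 1) (flatP d (N + 1)) := nc_flatP hN hd2 (by omega)
      obtain ⟨p', h1, h2, h3⟩ := TjB.moves (M := N + 1)
        (P := fun p' => Tj q N d p' (flatP d (N + 1)) = Tj q N d γ (flatP d (N + 1)))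
        (S := TjB.Small N d) (by
          intro p i hp hi hPp
          rw [Tj_eAct hq hp hF hi.1 hi.2.1.symm hi.2.2.1.symm,
            eAct_of_eq hF (by have := hi.1; omega) (TjB.flatP_small hi)]
          exact hPp)
        (fun i hi => by have := hi.1; omega) (fun i hi => TjB.not_small_succ hi) hγ rfl
      rw [← h2, TjB.eq_flatP h1 hd2 hdN h3]
      refine TjB.Tj_self hq hF ?_ hdN
      unfold flatP
      rw [if_neg (by omega), if_pos rfl]; rfl
    · intro p i hp hpd hi hid hid1 ih γ hγ
      rw [← Tj_eAct hq hγ hp (by omega) hid.symm hid1.symm]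
      exact ih _ (hγ.eAct (by omega))
  exact key α hα

/-- The value at the defect of `α`. -/
theorem Tj_defect_left (hq : q ^ 2 + q + 1 = 0) (hα : NC (N + 1) α) (hβ : NC (N + 1) β) {d : ℕ}
    (hd : α d = N) (hdN : d < N) : Tj q N d α β = 1 := by
  have hN : (N + 1) % 2 = 0 := hα.even
  have hd2 : d % 2 = 0 := by
    have := hα.parity (x := d) (by omega)
    rw [hd] at this
    omega
  have key : ∀ γ, NC (N + 1) γ → Tj q N d α γ = 1 := by
    refine NC.induction_flat (N := N + 1) (p := α) (d := d)
      (C := fun p => ∀ γ, NC (N + 1) γ → Tj q N d p γ = 1) (by omega) ?_ ?_ hα (by rw [hd]; rfl)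
    · intro γ hγ
      have hF : NC (N + 1) (flatP d (N + 1)) := nc_flatP hN hd2 (by omega)
      obtain ⟨p', h1, h2, h3⟩ := TjB.moves (M := N + 1)
        (P := fun p' => Tj q N d (flatP d (N + 1)) p' = Tj q N d (flatP d (N + 1)) γ)
        (S := TjB.Small N d) (by
          intro p i hp hi hPp
          rw [← Tj_eAct hq hF hp hi.1 hi.2.1.symm hi.2.2.1.symm,
            eAct_of_eq hF (by have := hi.1; omega) (TjB.flatP_small hi)]
          exact hPp)
        (fun i hi => by have := hi.1; omega) (fun i hi => TjB.not_small_succ hi) hγ rfl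
      rw [← h2, TjB.eq_flatP h1 hd2 hdN h3]
      refine TjB.Tj_self hq hF ?_ hdN
      unfold flatP
      rw [if_neg (by omega), if_pos rfl]; rfl
    · intro p i hp hpd hi hid hid1 ih γ hγ
      rw [Tj_eAct hq hp hγ (by omega) hid.symm hid1.symm]
      exact ih _ (hγ.eAct (by omega))
  exact key β hβ

end Pool.Agent.Perc
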