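import Pool.Agent.Lib.MP_6bd702_perc.TjB

/-!
# Matrix elements of the current: paths (task TjC)
-/

set_option autoImplicit false

namespace Pool.Agent.Perc

open Finset Function

variable {q : ℂ} {N : ℕ} {α β : ℕ → ℕ}

namespace TjC

theorem injective_of_nc {M : ℕ} {p : ℕ → ℕ} (h : NC M p) : Injective p := by
  intro a b hab
  rw [← h.inv a, ← h.inv b, hab]

theorem iter_lt {M : ℕ} (hα : NC M α) (hβ : NC M β) {j : ℕ} (hj : j < M) (k : ℕ) :
    (α ∘ β)^[k] j < M := by
  induction k with
  | zero => simpa using hj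
  | succ k ih =>
    rw [iterate_succ_apply']
    exact hα.lt _ (hβ.lt _ ih)

/-- The orbit returns. -/
theorem exists_return {M : ℕ} (hα : NC M α) (hβ : NC M β) {j : ℕ} (hj : j < M) :
    ∃ k, (α ∘ β)^[k + 1] j = j := by
  have hinj : Injective (α ∘ β) := (injective_of_nc hα).comp (injective_of_nc hβ)
  obtain ⟨a, b, hab, he⟩ := Finite.exists_ne_map_eq_of_infinite
    (fun k : ℕ => (⟨(α ∘ β)^[k] j, iter_lt hα hβ hj k⟩ : Fin M))
  have he' : (α ∘ β)^[a] j = (α ∘ β)^[b] j := by simpa using he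
  have key : ∀ a b : ℕ, a < b → (α ∘ β)^[a] j = (α ∘ β)^[b] j → ∃ k, (α ∘ β)^[k + 1] j = j := by
    intro a b hab he
    refine ⟨b - a - 1, ?_⟩
    have h1 : b = a + (b - a - 1 + 1) := by omega
    rw [h1, iterate_add_apply] at he
    exact ((hinj.iterate a) he).symm
  rcases lt_or_gt_of_ne hab with h | h
  · exact key a b h he'
  · exact key b a h he'.symm

end TjC

/-- If the path through `j` does not contain the defects then the matrix element is zero. -/
theorem Tj_eq_zero (hq : q ^ 2 + q + 1 = 0) (hα : NC (N + 1) α) (hβ : NC (N + 1) β) {j : ℕ}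
    (hj : j < N) (h : ∀ k, (α ∘ β)^[k] j ≠ N ∧ β ((α ∘ β)^[k] j) ≠ N) : Tj q N j α β = 0 := by
  have key : ∀ σ : ℕ → Bool, (if σ j then 0 else
      Phi (-q ^ 2) (N + 1) α (update σ N true) * q ^ (Sj N j σ) *
      Phi (-q ^ 2) (N + 1) β (update (update σ j true) N false)) = 0 := by
    intro σ
    by_contra hne
    have hσ : ¬ (σ j = true) := by
      intro hs; rw [if_pos hs] at hne; exact hne rfl
    rw [if_neg hσ] at hne
    have ha : Phi (-q ^ 2) (N + 1) α (update σ N true) ≠ 0 := by
      intro h0; rw [h0] at hne; simp at hne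
    have hb : Phi (-q ^ 2) (N + 1) β (update (update σ j true) N false) ≠ 0 := by
      intro h0; rw [h0] at hne; simp at hne
    have hjN : j ≠ N := by omega
    -- the spins along the path
    have hstep : ∀ x, x < N + 1 → x ≠ N → β x ≠ N → α (β x) ≠ N →
        update (update σ j true) N false x = true → σ (α (β x)) = true := by
      intro x hx hxN hbx habx hs
      have h1 := ne_of_Phi_ne_zero hβ hb hx
      rw [hs] at h1
      rw [update_of_ne hbx] at h1
      have hbj : β x ≠ j := by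
        intro hbj
        rw [hbj, update_self] at h1
        simp at h1
      rw [update_of_ne hbj] at h1
      have h2 := ne_of_Phi_ne_zero hα ha (hβ.lt x hx)
      rw [update_of_ne hbx, update_of_ne habx, h1] at h2
      simpa using h2
    have hall : ∀ k, update (update σ j true) N false ((α ∘ β)^[k] j) = true := by
      intro k
      induction k with
      | zero => simp [hjN]
      | succ k ih =>
        have h1 := h k
        have h2 := h (k + 1)
        rw [iterate_succ_apply'] at h2 ⊢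
        have h3 := hstep _ (TjC.iter_lt hα hβ (by omega) k) h1.1 h1.2 h2.1 ih
        rw [update_of_ne h2.1]
        by_cases h4 : (α ∘ β) ((α ∘ β)^[k] j) = j
        · rw [h4, update_self]
        · rw [update_of_ne h4]; exact h3
    obtain ⟨k, hk⟩ := TjC.exists_return hα hβ (j := j) (by omega)
    have h1 := h k
    have h2 := h (k + 1)
    rw [iterate_succ_apply'] at h2 hk
    have h3 := hstep _ (TjC.iter_lt hα hβ (by omega) k) h1.1 h1.2 h2.1 (hall k)
    have h4 : α (β ((α ∘ β)^[k] j)) = j := hk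
    rw [h4] at h3
    exact hσ h3
  unfold Tj
  rw [TjA.sumS_congr' key]
  unfold sumS
  rw [Finset.sum_const_zero, zero_div]

namespace TjC

/-- The first time when the path meets a defect. -/
theorem exists_first (hq : q ^ 2 + q + 1 = 0) (hα : NC (N + 1) α) (hβ : NC (N + 1) β) {j : ℕ}
    (hj : j < N) (hT : Tj q N j α β ≠ 0) :
    ∃ k, ((α ∘ β)^[k] j = N ∨ β ((α ∘ β)^[k] j) = N) ∧
      ∀ i < k, (α ∘ β)^[i] j ≠ N ∧ β ((α ∘ β)^[i] j) ≠ N := by
  classical
  have h1 : ∃ k, (α ∘ β)^[k] j = N ∨ β ((α ∘ β)^[k] j) = N := by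
    by_contra hc
    push Not at hc
    exact hT (Tj_eq_zero hq hα hβ hj hc)
  refine ⟨Nat.find h1, Nat.find_spec h1, fun i hi => ?_⟩
  have := Nat.find_min h1 hi
  push Not at this
  exact this

theorem norm_q (hq : q ^ 2 + q + 1 = 0) : ‖q‖ = 1 := by
  have h3 : q ^ 3 = 1 := by linear_combination (q - 1) * hq
  have h4 : ‖q‖ ^ 3 = 1 := by rw [← norm_pow, h3, norm_one]
  exact (pow_eq_one_iff_of_nonneg (norm_nonneg q) (by norm_num)).mp h4

theorem norm_right (hq : q ^ 2 + q + 1 = 0) (hα : NC (N + 1) α) (hβ : NC (N + 1) β) {x : ℕ}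
    (hx : x < N) (hbx : β x ≠ N) : ‖Tj q N (β x) α β‖ = ‖Tj q N x α β‖ := by
  have hlt := hβ.lt x (by omega)
  have hne := hβ.ne x (by omega)
  have hn : ‖-q ^ 2‖ = 1 := by rw [norm_neg, norm_pow, norm_q hq, one_pow]
  rcases lt_or_gt_of_ne hne with h | h
  · have h1 := Tj_arc_right hq hα hβ (x := β x) (by rw [hβ.inv]; exact h) (by rw [hβ.inv]; exact hx)
    rw [hβ.inv] at h1
    rw [h1, norm_mul, hn, one_mul]
  · rw [Tj_arc_right hq hα hβ h (by omega), norm_mul, hn, one_mul]

theorem norm_left (hq : q ^ 2 + q + 1 = 0) (hα : NC (N + 1) α) (hβ : NC (N + 1) β) {x : ℕ}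
    (hx : x < N) (hax : α x ≠ N) : ‖Tj q N (α x) α β‖ = ‖Tj q N x α β‖ := by
  have hlt := hα.lt x (by omega)
  have hne := hα.ne x (by omega)
  have hn : ‖-q‖ = 1 := by rw [norm_neg, norm_q hq]
  rcases lt_or_gt_of_ne hne with h | h
  · have h1 := Tj_arc_left hq hα hβ (x := α x) (by rw [hα.inv]; exact h) (by rw [hα.inv]; exact hx)
    rw [hα.inv] at h1
    rw [h1, norm_mul, hn, one_mul]
  · rw [Tj_arc_left hq hα hβ h (by omega), norm_mul, hn, one_mul]

end TjC

theorem norm_Tj_le (hq : q ^ 2 + q + 1 = 0) (hα : NC (N + 1) α) (hβ : NC (N + 1) β) {j : ℕ}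
    (hj : j < N) : ‖Tj q N j α β‖ ≤ 1 := by
  by_cases hT : Tj q N j α β = 0
  · rw [hT, norm_zero]; exact zero_le_one
  obtain ⟨k, hk, hmin⟩ := TjC.exists_first hq hα hβ hj hT
  have htr : ∀ i, i ≤ k → (i = k → (α ∘ β)^[i] j ≠ N) →
      ‖Tj q N ((α ∘ β)^[i] j) α β‖ = ‖Tj q N j α β‖ := by
    intro i
    induction i with
    | zero => intro _ _; rfl
    | succ i ih =>
      intro hik hne
      have h1 := hmin i (by omega)
      have h2 : (α ∘ β)^[i + 1] j ≠ N := by
        by_cases h : i + 1 = k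
        · exact hne h
        · exact (hmin (i + 1) (by omega)).1
      have h3 := ih (by omega) (fun h => by omega)
      have h4 := TjC.iter_lt hα hβ (j := j) (by omega) i
      have h5 := hβ.lt _ h4
      rw [iterate_succ_apply'] at h2 ⊢
      rw [← h3]
      show ‖Tj q N (α (β ((α ∘ β)^[i] j))) α β‖ = _
      rw [TjC.norm_left hq hα hβ (by have := h1.2; omega) h2,
        TjC.norm_right hq hα hβ (by have := h1.1; omega) h1.2]
  by_cases hkN : (α ∘ β)^[k] j = N
  · obtain ⟨i, rfl⟩ : ∃ i, k = i + 1 := by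
      cases k with
      | zero => exfalso; simp at hkN; omega
      | succ i => exact ⟨i, rfl⟩
    have h1 := hmin i (by omega)
    have h4 := TjC.iter_lt hα hβ (j := j) (by omega) i
    have h5 := hβ.lt _ h4
    rw [iterate_succ_apply'] at hkN
    have h6 : α (β ((α ∘ β)^[i] j)) = N := hkN
    rw [← htr i (by omega) (fun h => by omega),
      ← TjC.norm_right hq hα hβ (by have := h1.1; omega) h1.2,
      Tj_defect_left hq hα hβ h6 (by have := h1.2; omega), norm_one]
  · have h4 := TjC.iter_lt hα hβ (j := j) (by omega) k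
    rw [← htr k le_rfl (fun _ => hkN)]
    rcases hk with hk | hk
    · exact absurd hk hkN
    · rw [Tj_defect_right hq hα hβ hk (by omega), norm_one]

/-- If the matrix element is not zero then the two gaps at `j` are joined to the defects. -/
theorem Tj_reach (hq : q ^ 2 + q + 1 = 0) (hα : NC (N + 1) α) (hβ : NC (N + 1) β) {j : ℕ}
    (hj : j < N) {r : ℕ → ℕ → Prop} (hr : Equivalence r) (h1 : ∀ s ≤ N, r s (α s + 1))
    (h2 : ∀ s ≤ N, r s (β s + 1)) (hT : Tj q N j α β ≠ 0) :
    (r j N ∨ r j (N + 1)) ∧ (r (j + 1) N ∨ r (j + 1) (N + 1)) := by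
  obtain ⟨k, hk, -⟩ := TjC.exists_first hq hα hβ hj hT
  have htr : ∀ i, r j ((α ∘ β)^[i] j) ∧ r (j + 1) ((α ∘ β)^[i] j + 1) := by
    intro i
    induction i with
    | zero => exact ⟨hr.refl _, hr.refl _⟩
    | succ i ih =>
      have h4 := TjC.iter_lt hα hβ (j := j) (by omega) i
      rw [iterate_succ_apply']
      show r j (α (β ((α ∘ β)^[i] j))) ∧ r (j + 1) (α (β ((α ∘ β)^[i] j)) + 1)
      set x := (α ∘ β)^[i] j
      have h5 := hβ.lt x h4
      have h6 := hα.lt (β x) h5
      have e1 : r x (β x + 1) := h2 x (by omega)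
      have e2 : r (β x) (x + 1) := by
        have := h2 (β x) (by omega)
        rwa [hβ.inv] at this
      have e3 : r (β x) (α (β x) + 1) := h1 (β x) (by omega)
      have e4 : r (α (β x)) (β x + 1) := by
        have := h1 (α (β x)) (by omega)
        rwa [hα.inv] at this
      exact ⟨hr.trans ih.1 (hr.trans e1 (hr.symm e4)),
        hr.trans ih.2 (hr.trans (hr.symm e2) e3)⟩
  obtain ⟨h3, h4⟩ := htr k
  rcases hk with hk | hk
  · rw [hk] at h3 h4
    exact ⟨Or.inl h3, Or.inr h4⟩
  · have h5 := TjC.iter_lt hα hβ (j := j) (by omega) k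
    set x := (α ∘ β)^[k] j
    have e1 : r x (β x + 1) := h2 x (by omega)
    have e2 : r (β x) (x + 1) := by
      have := h2 (β x) (by have := hβ.lt x h5; omega)
      rwa [hβ.inv] at this
    rw [hk] at e1 e2
    exact ⟨Or.inr (hr.trans h3 e1), Or.inl (hr.trans h4 (hr.symm e2))⟩

end Pool.Agent.Perc
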