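import Pool.Agent.Lib.MP_6bd702_perc.TjB

/-!
# Matrix elements of the current: flat side (task TjD)
-/

set_option autoImplicit false

namespace Pool.Agent.Perc

open Finset Function

variable {q : ℂ} {N : ℕ} {α β : ℕ → ℕ}

namespace TjD

/-- A pattern which has all small arcs of `flatP W` except the one at `x`. -/
theorem cases_flat {W x : ℕ} {p : ℕ → ℕ} (h : NC (N + 1) p) (hN : N % 2 = 1) (hW : W % 2 = 0)
    (hWN : W < N) (hx : x % 2 = 0) (hxW : x < W)
    (hs : ∀ i, TjB.Small N W i → i ≠ x → p i = i + 1) :
    p x = N ∨ p = flatP W (N + 1) := by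
  have hs' : ∀ i, TjB.Small N W i → i ≠ x → p (i + 1) = i := by
    intro i hi hix
    rw [← hs i hi hix, h.inv]
  have hsm : TjB.Small N W x := by unfold TjB.Small; omega
  have hne : ∀ k, k < N + 1 → k ≠ x → k ≠ x + 1 → k ≠ W → k ≠ N → p x ≠ k := by
    intro k hk hkx hkx1 hkd hkN hpd
    have hpk : p k = x := by rw [← hpd, h.inv]
    by_cases h1 : k < W
    · by_cases h2 : k % 2 = 0
      · have := hs k (by unfold TjB.Small; omega) hkx
        omega
      · obtain ⟨j, rfl⟩ : ∃ j, k = j + 1 := ⟨k - 1, by omega⟩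
        have := hs' j (by unfold TjB.Small; omega) (by omega)
        omega
    · by_cases h2 : k % 2 = 1
      · have := hs k (by unfold TjB.Small; omega) hkx
        omega
      · obtain ⟨j, rfl⟩ : ∃ j, k = j + 1 := ⟨k - 1, by omega⟩
        have := hs' j (by unfold TjB.Small; omega) (by omega)
        omega
  have hlt := h.lt x (by omega)
  have hpne := h.ne x (by omega)
  by_cases h1 : p x = N
  · exact Or.inl h1
  right
  by_cases h2 : p x = x + 1
  · apply TjB.eq_flatP h hW hWN
    intro i hi
    by_cases hix : i = x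
    · rw [hix, h2]
    · exact hs i hi hix
  · exfalso
    by_cases h3 : p x = W
    · -- parity
      have := h.parity (x := x) (by omega)
      omega
    · exact hne (p x) hlt hpne h2 h3 h1 rfl

end TjD

/-- Flat lower side: the matrix elements at the even sites are `0` or `1`. -/
theorem Tj_flat {W : ℕ} (hq : q ^ 2 + q + 1 = 0) (hN : N % 2 = 1) (hW : W % 2 = 0) (hWN : W < N)
    (hβ : NC (N + 1) β) {x : ℕ} (hx : x % 2 = 0) (hxW : x < W) :
    (Tj q N x (flatP W (N + 1)) β = 0 ∨ Tj q N x (flatP W (N + 1)) β = 1) ∧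
      Tj q N (x + 1) (flatP W (N + 1)) β = -q * Tj q N x (flatP W (N + 1)) β ∧
      (Geq (N + 1) β (x + 1) N → Tj q N x (flatP W (N + 1)) β = 1) := by
  have hF : NC (N + 1) (flatP W (N + 1)) := nc_flatP (by omega) hW (by omega)
  have hsm : TjB.Small N W x := by unfold TjB.Small; omega
  have hFx := TjB.flatP_small hsm
  have hFx1 : flatP W (N + 1) (x + 1) = x := by rw [← hFx, hF.inv]
  have h1 : Tj q N (x + 1) (flatP W (N + 1)) β = -q * Tj q N x (flatP W (N + 1)) β := by
    have := Tj_arc_left hq hF hβ (x := x) (by rw [hFx]; omega) (by rw [hFx]; omega)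
    rwa [hFx] at this
  obtain ⟨p', hp1, hp2, hp3⟩ := TjB.moves (M := N + 1)
    (P := fun p' => Tj q N x (flatP W (N + 1)) p' = Tj q N x (flatP W (N + 1)) β ∧
      (Geq (N + 1) β (x + 1) N → Geq (N + 1) p' (x + 1) N))
    (S := fun i => TjB.Small N W i ∧ i ≠ x) (by
      intro p i hp hi hPp
      have hi1 := hi.1.1
      have hix1 : i + 1 ≠ x := by
        have := hi.1
        unfold TjB.Small at this
        omega
      refine ⟨?_, fun hg => ?_⟩
      · rw [← Tj_eAct hq hF hp hi1 hi.2.symm hix1.symm,
          eAct_of_eq hF (by omega) (TjB.flatP_small hi.1)]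
        exact hPp.1
      · exact Geq.eAct hp (by omega) (by have := hi.2; omega) (by omega) (hPp.2 hg))
    (fun i hi => by have := hi.1.1; omega)
    (fun i hi hi' => TjB.not_small_succ hi.1 hi'.1) hβ ⟨rfl, fun h => h⟩
  rcases TjD.cases_flat hp1 hN hW hWN hx hxW (fun i hi hix => hp3 i ⟨hi, hix⟩) with h2 | h2
  · have h3 := Tj_defect_right hq hF hp1 h2 (by omega)
    rw [hp2.1] at h3
    exact ⟨Or.inr h3, h1, fun _ => h3⟩
  · have h3 : Tj q N x (flatP W (N + 1)) β = 0 := by
      rw [← hp2.1, h2]
      unfold Tj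
      rw [TjA.sumS_congr' (Y := fun _ => 0)]
      · unfold sumS
        rw [Finset.sum_const_zero, zero_div]
      · intro σ
        by_cases hs : σ x = true
        · rw [if_pos hs]
        · rw [if_neg hs]
          by_cases hs1 : σ (x + 1) = true
          · rw [TjA.Phi_zero_of_eq hF (x := x) (by omega)
              (σ := update (update σ x true) N false), mul_zero]
            rw [hFx, update_of_ne (by omega), update_of_ne (by omega), update_of_ne (by omega),
              update_self, hs1]
          · simp only [Bool.not_eq_true] at hs hs1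
            rw [TjA.Phi_zero_of_eq hF (x := x) (by omega) (σ := update σ N true), zero_mul,
              zero_mul]
            rw [hFx, update_of_ne (by omega), update_of_ne (by omega), hs1, hs]
    refine ⟨Or.inl h3, h1, fun hg => ?_⟩
    exfalso
    have h4 := hp2.2 hg x (by omega)
    rw [h2, hFx] at h4
    have h5 : (x < x + 1 ↔ x + 1 < x + 1) ↔ (x < N ↔ x + 1 < N) := h4
    omega

end Pool.Agent.Perc
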