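import Pool.Agent.Lib.MP_6bd702_perc.SchurDefs

/-!
# Schur polynomials: symmetry and degrees (task SchurA)
-/

set_option autoImplicit false

namespace Pool.Agent.Perc

open Finset MvPolynomial

theorem alt_id (N : ℕ) : alt N (fun j => j) = vdm N := by
  have h : alt N (fun j => j) =
      (Matrix.vandermonde fun i : Fin N => (X (i : ℕ) : MvPolynomial ℕ ℂ)).det := rfl
  rw [h, Matrix.det_vandermonde, SchurDefs.vdm_eq_prs, Finset.prod_sigma']
  refine Finset.prod_bij' (fun p _ => ((p.2 : ℕ), (p.1 : ℕ)))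
    (fun p hp => (⟨⟨p.2, ((SchurDefs.mem_prs.1 hp).2.trans (SchurDefs.mem_prs.1 hp).1)⟩,
      ⟨p.1, (SchurDefs.mem_prs.1 hp).1⟩⟩ : (_ : Fin N) × Fin N)) ?_ ?_ ?_ ?_ ?_
  · rintro ⟨a, b⟩ hp
    rw [SchurDefs.mem_prs]
    simp only [mem_sigma, mem_univ, mem_Ioi, true_and] at hp
    exact ⟨b.2, hp⟩
  · intro p hp
    simp only [mem_sigma, mem_univ, mem_Ioi, true_and]
    exact (SchurDefs.mem_prs.1 hp).2
  · rintro ⟨a, b⟩ _; rfl
  · rintro ⟨a, b⟩ _; rfl
  · rintro ⟨a, b⟩ _; rfl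

namespace SchurA

/-- The permutation of `Fin N` induced by a permutation of `ℕ` fixing `k ≥ N`. -/
theorem exists_fin_perm (N : ℕ) (π : Equiv.Perm ℕ) (hπ : ∀ k, N ≤ k → π k = k) :
    ∃ σ : Equiv.Perm (Fin N), ∀ i : Fin N, ((σ i : Fin N) : ℕ) = π i := by
  have hlt : ∀ k, k < N → π k < N := by
    intro k hk
    by_contra h
    have h1 := hπ _ (not_lt.1 h)
    have h2 : π k = k := π.injective h1
    omega
  have hlt' : ∀ k, k < N → π.symm k < N := by
    intro k hk
    by_contra h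
    have h1 := hπ _ (not_lt.1 h)
    rw [Equiv.apply_symm_apply] at h1
    omega
  refine ⟨⟨fun i => ⟨π i, hlt _ i.2⟩, fun i => ⟨π.symm i, hlt' _ i.2⟩, ?_, ?_⟩, ?_⟩
  · intro i; simp
  · intro i; simp
  · intro i; rfl

theorem rename_alt (N : ℕ) (e : ℕ → ℕ) (π : Equiv.Perm ℕ) (σ : Equiv.Perm (Fin N))
    (hσ : ∀ i : Fin N, ((σ i : Fin N) : ℕ) = π i) :
    rename π (alt N e) = ((Equiv.Perm.sign σ : ℤ) : MvPolynomial ℕ ℂ) * alt N e := by
  rw [alt, AlgHom.map_det, ← Matrix.det_permute σ]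
  congr 1
  ext1 i j
  simp [hσ]

end SchurA

open SchurA in
theorem rename_schur (N : ℕ) (e : ℕ → ℕ) (π : Equiv.Perm ℕ) (hπ : ∀ k, N ≤ k → π k = k) :
    rename π (schur N e) = schur N e := by
  obtain ⟨σ, hσ⟩ := exists_fin_perm N π hπ
  have h1 := congrArg (rename π) (vdm_mul_schur N e)
  rw [map_mul, rename_alt N e π σ hσ, ← alt_id, rename_alt N _ π σ hσ, alt_id,
    ← vdm_mul_schur N e, mul_assoc] at h1
  have hs : ((Equiv.Perm.sign σ : ℤ) : MvPolynomial ℕ ℂ) ≠ 0 := by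
    rcases Int.units_eq_one_or (Equiv.Perm.sign σ) with h | h <;> simp [h]
  exact mul_left_cancel₀ (SchurDefs.vdm_ne_zero N) (mul_left_cancel₀ hs h1)

theorem schur_perm (N : ℕ) (e : ℕ → ℕ) (π : Equiv.Perm ℕ) (hπ : ∀ k, N ≤ k → π k = k)
    (z : ℕ → ℂ) : eval (fun k => z (π k)) (schur N e) = eval z (schur N e) := by
  conv_rhs => rw [← rename_schur N e π hπ]
  rw [eval_rename]
  rfl

namespace SchurA

theorem degreeOf_X_sub_X {j i k : ℕ} (hij : i < j) :
    (X j - X i : MvPolynomial ℕ ℂ).degreeOf k = (if k = j then 1 else 0) + if k = i then 1 else 0 := by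
  have hne : Finsupp.single j 1 ≠ (Finsupp.single i 1 : ℕ →₀ ℕ) := by
    intro h
    have := (Finsupp.single_left_injective (one_ne_zero (α := ℕ))) h
    omega
  have hle := degreeOf_sub_le k (X j : MvPolynomial ℕ ℂ) (X i)
  rw [degreeOf_X, degreeOf_X] at hle
  have hj : Finsupp.single j 1 ∈ (X j - X i : MvPolynomial ℕ ℂ).support := by
    rw [mem_support_iff, coeff_sub, coeff_X, coeff_X, if_neg hne.symm]
    simp
  have hi : Finsupp.single i 1 ∈ (X j - X i : MvPolynomial ℕ ℂ).support := by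
    rw [mem_support_iff, coeff_sub, coeff_X, coeff_X, if_neg hne]
    simp
  by_cases h1 : k = j
  · subst h1
    have := monomial_le_degreeOf k hj
    rw [Finsupp.single_eq_same] at this
    rw [if_pos rfl, if_neg hij.ne'] at hle ⊢
    simp at hle ⊢
    omega
  · by_cases h2 : k = i
    · subst h2
      have := monomial_le_degreeOf k hi
      rw [Finsupp.single_eq_same] at this
      rw [if_neg h1, if_pos rfl] at hle ⊢
      simp at hle ⊢
      omega
    · rw [if_neg h1, if_neg h2] at hle ⊢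
      simpa using hle

theorem degreeOf_vdm {N k : ℕ} (hk : k < N) : (vdm N).degreeOf k = N - 1 := by
  rw [SchurDefs.vdm_eq_prs, degreeOf_prod_eq _ _ fun p hp =>
    (SchurDefs.prime_X_sub_X (SchurDefs.mem_prs.1 hp).2.ne').ne_zero,
    Finset.sum_congr rfl fun p hp => degreeOf_X_sub_X (SchurDefs.mem_prs.1 hp).2]
  have h := SchurDefs.prod_prs (M := Multiplicative ℕ) N
    (fun j i => Multiplicative.ofAdd ((if k = j then 1 else 0) + if k = i then 1 else 0))
  have h' : ∑ p ∈ SchurDefs.prs N, ((if k = p.1 then 1 else 0) + if k = p.2 then 1 else 0) =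
      ∑ j ∈ range N, ∑ i ∈ range j, ((if k = j then 1 else 0) + if k = i then 1 else 0) := h
  rw [h']
  have h2 : ∀ j ∈ range N, ∑ i ∈ range j, ((if k = j then 1 else 0) + if k = i then 1 else 0) =
      (if k = j then k else 0) + if k < j then 1 else 0 := by
    intro j _
    rw [Finset.sum_add_distrib, Finset.sum_const, Finset.sum_ite_eq, card_range]
    by_cases h : k = j
    · subst h; simp
    · simp [h]
  rw [Finset.sum_congr rfl h2, Finset.sum_add_distrib, Finset.sum_ite_eq, if_pos (mem_range.2 hk),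
    ← Finset.sum_filter, Finset.sum_const, smul_eq_mul, mul_one]
  have h3 : (range N).filter (fun j => k < j) = Ioo k N := by
    ext j; simp [and_comm]
  rw [h3, Nat.card_Ioo]
  omega

theorem degreeOf_term (N : ℕ) (e : ℕ → ℕ) (σ : Equiv.Perm (Fin N)) (k : ℕ) :
    (∏ i : Fin N, (X ((σ i : Fin N) : ℕ) : MvPolynomial ℕ ℂ) ^ e i).degreeOf k =
      ∑ i : Fin N, if k = (σ i : Fin N) then e i else 0 := by
  rw [degreeOf_prod_eq _ _ fun i _ => pow_ne_zero _ (MvPolynomial.X_ne_zero _)]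
  refine Finset.sum_congr rfl fun i _ => ?_
  rw [degreeOf_pow_eq _ _ _ (MvPolynomial.X_ne_zero _), degreeOf_X]
  split_ifs <;> simp

theorem degreeOf_sign_smul (u : ℤˣ) (p : MvPolynomial ℕ ℂ) (k : ℕ) :
    (u • p).degreeOf k = p.degreeOf k := by
  rcases Int.units_eq_one_or u with h | h
  · rw [h, one_smul]
  · rw [h, Units.neg_smul, one_smul, degreeOf_neg]

theorem degreeOf_alt_le' (N : ℕ) (e : ℕ → ℕ) (k D : ℕ)
    (h : ∀ σ : Equiv.Perm (Fin N), ∑ i : Fin N, (if k = (σ i : Fin N) then e i else 0) ≤ D) :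
    (alt N e).degreeOf k ≤ D := by
  rw [alt, Matrix.det_apply]
  refine (degreeOf_sum_le k _ _).trans (Finset.sup_le fun σ _ => ?_)
  rw [degreeOf_sign_smul]
  simp only [Matrix.of_apply]
  rw [degreeOf_term]
  exact h σ

theorem degreeOf_alt_le (N : ℕ) (e : ℕ → ℕ) {D : ℕ} (he : ∀ j < N, e j ≤ D) (k : ℕ) :
    (alt N e).degreeOf k ≤ D := by
  refine degreeOf_alt_le' N e k D fun σ => ?_
  by_cases hk : k < N
  · have h1 : ∀ i : Fin N, (if k = (σ i : Fin N) then e i else 0) =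
        if i = σ.symm ⟨k, hk⟩ then e i else 0 := by
      intro i
      have : k = (σ i : Fin N) ↔ i = σ.symm ⟨k, hk⟩ := by
        rw [Equiv.eq_symm_apply, Fin.ext_iff, eq_comm]
      simp only [this]
    rw [Finset.sum_congr rfl fun i _ => h1 i, Finset.sum_ite_eq', if_pos (mem_univ _)]
    exact he _ (σ.symm ⟨k, hk⟩).2
  · rw [Finset.sum_eq_zero]
    · exact Nat.zero_le _
    · intro i _
      rw [if_neg]
      have := (σ i).2
      omega

theorem degreeOf_alt_out (N : ℕ) (e : ℕ → ℕ) {k : ℕ} (hk : N ≤ k) :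
    (alt N e).degreeOf k = 0 := by
  refine Nat.le_zero.1 (degreeOf_alt_le' N e k 0 fun σ => ?_)
  rw [Finset.sum_eq_zero]
  intro i _
  rw [if_neg]
  have := (σ i).2
  omega

end SchurA

open SchurA in
theorem degreeOf_schur_out (N : ℕ) (e : ℕ → ℕ) {k : ℕ} (hk : N ≤ k) :
    (schur N e).degreeOf k = 0 := by
  by_cases h0 : schur N e = 0
  · rw [h0, degreeOf_zero]
  have h1 := degreeOf_mul_eq (n := k) (SchurDefs.vdm_ne_zero N) h0
  rw [vdm_mul_schur, degreeOf_alt_out N e hk] at h1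
  omega

open SchurA in
theorem degreeOf_schur_le (N : ℕ) (e : ℕ → ℕ) {d : ℕ} (he : ∀ j < N, e j ≤ d + (N - 1)) (k : ℕ) :
    (schur N e).degreeOf k ≤ d := by
  by_cases h0 : schur N e = 0
  · rw [h0, degreeOf_zero]; exact Nat.zero_le _
  rcases le_or_gt N k with hk | hk
  · rw [degreeOf_schur_out N e hk]; exact Nat.zero_le _
  have h1 := degreeOf_mul_eq (n := k) (SchurDefs.vdm_ne_zero N) h0
  rw [vdm_mul_schur, degreeOf_vdm hk] at h1
  have h2 := degreeOf_alt_le N e he k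
  omega

end Pool.Agent.Perc
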