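import Mathlib

/-!
# Schur polynomials as quotients of alternants: definitions and divisibility (task SchurDefs)
-/

set_option autoImplicit false

namespace Pool.Agent.Perc

open Finset MvPolynomial

/-- The alternant `det (z_i ^ e_j)`, `i, j < N`. -/
noncomputable def alt (N : ℕ) (e : ℕ → ℕ) : MvPolynomial ℕ ℂ :=
  (Matrix.of fun i j : Fin N => (X (i : ℕ) : MvPolynomial ℕ ℂ) ^ e j).det

/-- The Vandermonde product `∏_{i < j < N} (z_j - z_i)`. -/
noncomputable def vdm (N : ℕ) : MvPolynomial ℕ ℂ := ∏ j ∈ range N, ∏ i ∈ range j, (X j - X i)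

namespace SchurDefs

/-- The pairs `i < j < N`. -/
def prs (N : ℕ) : Finset (ℕ × ℕ) := (range N ×ˢ range N).filter fun p => p.2 < p.1

theorem mem_prs {N : ℕ} {p : ℕ × ℕ} : p ∈ prs N ↔ p.1 < N ∧ p.2 < p.1 := by
  simp only [prs, mem_filter, mem_product, mem_range]
  constructor
  · rintro ⟨⟨h1, h2⟩, h3⟩; exact ⟨h1, h3⟩
  · rintro ⟨h1, h3⟩; exact ⟨⟨h1, h3.trans h1⟩, h3⟩

theorem prod_prs {M : Type*} [CommMonoid M] (N : ℕ) (f : ℕ → ℕ → M) :
    ∏ p ∈ prs N, f p.1 p.2 = ∏ j ∈ range N, ∏ i ∈ range j, f j i := by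
  rw [Finset.prod_sigma']
  refine Finset.prod_bij' (fun p _ => (⟨p.1, p.2⟩ : (_ : ℕ) × ℕ)) (fun p _ => (p.1, p.2))
    ?_ ?_ ?_ ?_ ?_
  · intro p hp
    rw [mem_prs] at hp
    simpa using hp
  · intro p hp
    rw [mem_prs]
    simpa using hp
  · intro p _; rfl
  · intro p _; rfl
  · intro p _; rfl

theorem vdm_eq_prs (N : ℕ) : vdm N = ∏ p ∈ prs N, (X p.1 - X p.2 : MvPolynomial ℕ ℂ) := by
  rw [prod_prs N (fun j i => (X j - X i : MvPolynomial ℕ ℂ)), vdm]

/-- The shear `X j ↦ X j + X i`. -/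
noncomputable def shear (j i : ℕ) (hji : j ≠ i) : MvPolynomial ℕ ℂ ≃ₐ[ℂ] MvPolynomial ℕ ℂ :=
  AlgEquiv.ofAlgHom (aeval fun k => if k = j then X j + X i else X k)
    (aeval fun k => if k = j then X j - X i else X k)
    (by
      apply MvPolynomial.algHom_ext
      intro k
      by_cases h : k = j
      · simp [h, hji.symm]
      · simp [h])
    (by
      apply MvPolynomial.algHom_ext
      intro k
      by_cases h : k = j
      · simp [h, hji.symm]
      · simp [h])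

theorem prime_X_sub_X {j i : ℕ} (hji : j ≠ i) : Prime (X j - X i : MvPolynomial ℕ ℂ) := by
  rw [← MulEquiv.prime_iff (shear j i hji).toMulEquiv]
  have : (shear j i hji).toMulEquiv (X j - X i : MvPolynomial ℕ ℂ) = X j := by
    show (aeval fun k => if k = j then (X j + X i : MvPolynomial ℕ ℂ) else X k)
      (X j - X i : MvPolynomial ℕ ℂ) = X j
    simp [hji.symm]
  rw [this]
  exact MvPolynomial.X_prime

theorem vdm_ne_zero (N : ℕ) : vdm N ≠ 0 := by
  rw [vdm_eq_prs, Finset.prod_ne_zero_iff]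
  intro p hp
  exact (prime_X_sub_X (mem_prs.1 hp).2.ne').ne_zero

theorem not_dvd {j i j' i' : ℕ} (h : i < j) (h' : i' < j') (hne : (j, i) ≠ (j', i')) :
    ¬ (X j - X i : MvPolynomial ℕ ℂ) ∣ X j' - X i' := by
  rintro ⟨q, hq⟩
  have key : ∀ m : ℕ, m ≠ i → m ≠ j → m = i' ∨ m = j' → False := by
    intro m hmi hmj hm
    have := congrArg (eval fun k => if k = m then (1 : ℂ) else 0) hq
    rcases hm with rfl | rfl
    · simp [hmi.symm, hmj.symm, h'.ne'] at this
    · simp [hmi.symm, hmj.symm, h'.ne] at this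
  by_cases h1 : i' = i
  · by_cases h2 : j' = j
    · exact hne (by rw [h1, h2])
    · exact key j' (by omega) h2 (Or.inr rfl)
  · by_cases h2 : i' = j
    · exact key j' (by omega) (by omega) (Or.inr rfl)
    · exact key i' h1 h2 (Or.inl rfl)

theorem dvd_alt {N : ℕ} (e : ℕ → ℕ) {j i : ℕ} (hj : j < N) (hij : i < j) :
    (X j - X i : MvPolynomial ℕ ℂ) ∣ alt N e := by
  rw [← Ideal.mem_span_singleton, ← Ideal.Quotient.eq_zero_iff_mem, alt,
    RingHom.map_det (Ideal.Quotient.mk (Ideal.span {(X j - X i : MvPolynomial ℕ ℂ)}))]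
  refine Matrix.det_zero_of_row_eq (i := (⟨j, hj⟩ : Fin N)) (j := ⟨i, hij.trans hj⟩) ?_ ?_
  · simpa using hij.ne'
  · funext k
    simp only [RingHom.mapMatrix_apply, Matrix.map_apply, Matrix.of_apply, map_pow]
    congr 1
    rw [Ideal.Quotient.eq, Ideal.mem_span_singleton]

end SchurDefs

open SchurDefs in
theorem vdm_dvd_alt (N : ℕ) (e : ℕ → ℕ) : vdm N ∣ alt N e := by
  rw [vdm_eq_prs]
  refine Finset.prod_dvd_of_isRelPrime ?_ ?_
  · intro p hp q hq hpq
    have hp' := mem_prs.1 (Finset.mem_coe.1 hp)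
    have hq' := mem_prs.1 (Finset.mem_coe.1 hq)
    exact (prime_X_sub_X hp'.2.ne').irreducible.isRelPrime_iff_not_dvd.2
      (not_dvd hp'.2 hq'.2 (fun h => hpq (Prod.ext (congrArg Prod.fst h) (congrArg Prod.snd h))))
  · intro p hp
    exact dvd_alt e (mem_prs.1 hp).1 (mem_prs.1 hp).2

/-- The Schur polynomial with exponents `e 0 < e 1 < …`. -/
noncomputable def schur (N : ℕ) (e : ℕ → ℕ) : MvPolynomial ℕ ℂ := (vdm_dvd_alt N e).choose

theorem vdm_mul_schur (N : ℕ) (e : ℕ → ℕ) : vdm N * schur N e = alt N e :=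
  (vdm_dvd_alt N e).choose_spec.symm

end Pool.Agent.Perc
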