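import Pool.Agent.Lib.MP_6bd702_perc.SpinDefs

/-!
# Spin embedding: intertwining (task SpinA)
-/

set_option autoImplicit false

namespace Pool.Agent.Perc

open Finset Function

variable {κ : ℂ} {N : ℕ} {p : ℕ → ℕ}

/-- Only the first `N` spins matter. -/
theorem Phi_congr (h : NC N p) {σ τ : ℕ → Bool} (hst : ∀ k < N, σ k = τ k) :
    Phi κ N p σ = Phi κ N p τ := by
  unfold Phi
  refine Finset.prod_congr rfl fun x hx => ?_
  have hx' := Finset.mem_range.1 hx
  rw [hst x hx', hst (p x) (h.lt x hx')]

/-- The spins of an arc are opposite. -/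
theorem ne_of_Phi_ne_zero (h : NC N p) {σ : ℕ → Bool} (hσ : Phi κ N p σ ≠ 0) {x : ℕ} (hx : x < N) :
    σ (p x) = !(σ x) := by
  by_contra hne
  have heq : σ (p x) = σ x := by
    cases h1 : σ (p x) <;> cases h2 : σ x <;> simp_all
  apply hσ
  unfold Phi
  rcases lt_or_gt_of_ne (h.ne x hx) with h1 | h1
  · refine Finset.prod_eq_zero (Finset.mem_range.2 (h.lt x hx)) ?_
    rw [h.inv, if_pos h1]
    unfold sw
    rw [if_pos heq]
  · refine Finset.prod_eq_zero (Finset.mem_range.2 hx) ?_
    rw [if_pos h1]
    unfold sw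
    rw [if_pos heq.symm]

namespace SpinA

/-- Weight of the arc joining `x` and `y`. -/
def W (κ : ℂ) (σ : ℕ → Bool) (x y : ℕ) : ℂ :=
  if x < y then sw κ (σ x) (σ y) else sw κ (σ y) (σ x)

/-- The factor of the site `x`. -/
def F (κ : ℂ) (p : ℕ → ℕ) (σ : ℕ → Bool) (x : ℕ) : ℂ :=
  if x < p x then sw κ (σ x) (σ (p x)) else 1

lemma F_mul (h : NC N p) (σ : ℕ → Bool) {x : ℕ} (hx : x < N) :
    F κ p σ x * F κ p σ (p x) = W κ σ x (p x) := by
  unfold F W
  rw [h.inv]
  rcases lt_or_gt_of_ne (h.ne x hx) with h1 | h1
  · rw [if_neg (not_lt.2 h1.le), if_pos h1, if_neg (not_lt.2 h1.le), one_mul]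
  · rw [if_pos h1, if_neg (not_lt.2 h1.le), if_pos h1, mul_one]

/-- Splitting off two arcs. -/
lemma split (h : NC N p) {x y : ℕ} (hx : x < N) (hy : y < N) (hxy : x ≠ y) (hp : p x ≠ y)
    (σ : ℕ → Bool) : Phi κ N p σ =
      (∏ z ∈ range N \ {x, y, p x, p y}, F κ p σ z) * (W κ σ x (p x) * W κ σ y (p y)) := by
  have hS : ({x, y, p x, p y} : Finset ℕ) ⊆ range N := by
    intro z hz
    simp only [Finset.mem_insert, Finset.mem_singleton] at hz
    rcases hz with rfl | rfl | rfl | rfl
    · exact Finset.mem_range.2 hx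
    · exact Finset.mem_range.2 hy
    · exact Finset.mem_range.2 (h.lt _ hx)
    · exact Finset.mem_range.2 (h.lt _ hy)
  have h1 : p y ≠ x := fun h0 => hp (by rw [← h0, h.inv])
  have h2 : p x ≠ p y := fun h0 => hxy (by rw [← h.inv x, h0, h.inv])
  have h3 := h.ne x hx
  have h4 := h.ne y hy
  change ∏ z ∈ range N, F κ p σ z = _
  rw [← Finset.prod_sdiff hS, ← F_mul h σ hx, ← F_mul h σ hy]
  congr 1
  rw [Finset.prod_insert (by simp; exact ⟨hxy, h3.symm, h1.symm⟩),
    Finset.prod_insert (by simp; exact ⟨fun h0 => hp h0.symm, h4.symm⟩),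
    Finset.prod_insert (by simp; exact h2), Finset.prod_singleton]
  ring

/-- Splitting off one arc. -/
lemma split1 (h : NC N p) {x : ℕ} (hx : x < N) (σ : ℕ → Bool) : Phi κ N p σ =
      (∏ z ∈ range N \ {x, p x}, F κ p σ z) * W κ σ x (p x) := by
  have hS : ({x, p x} : Finset ℕ) ⊆ range N := by
    intro z hz
    simp only [Finset.mem_insert, Finset.mem_singleton] at hz
    rcases hz with rfl | rfl
    · exact Finset.mem_range.2 hx
    · exact Finset.mem_range.2 (h.lt _ hx)
  change ∏ z ∈ range N, F κ p σ z = _
  rw [← Finset.prod_sdiff hS, ← F_mul h σ hx]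
  congr 1
  rw [Finset.prod_insert (by simp; exact (h.ne x hx).symm), Finset.prod_singleton]

lemma F_congr {p' : ℕ → ℕ} {σ τ : ℕ → Bool} {x : ℕ} (h1 : p x = p' x) (h2 : σ x = τ x)
    (h3 : σ (p x) = τ (p x)) : F κ p σ x = F κ p' τ x := by
  unfold F
  rw [← h1, h2, h3]

end SpinA

open SpinA in
/-- The spin embedding intertwines the Temperley-Lieb generators. -/
theorem eS_Phi (hκ : κ ^ 2 = κ - 1) (h : NC N p) {i : ℕ} (hi : i + 1 < N) (σ : ℕ → Bool) :
    eS κ i (Phi κ N p) σ = Phi κ N (eAct i p) σ := by
  have hinv : κ⁻¹ = 1 - κ := by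
    apply inv_eq_of_mul_eq_one_right
    linear_combination -hκ
  have hi0 : i < N := by omega
  unfold eS capS
  rw [hinv]
  by_cases ha : p i = i + 1
  · rw [eAct_of_eq h hi ha]
    have key : ∀ τ : ℕ → Bool, (∀ k, k ≠ i → k ≠ i + 1 → τ k = σ k) →
        Phi κ N p τ = (∏ z ∈ range N \ {i, p i}, F κ p σ z) * sw κ (τ i) (τ (i + 1)) := by
      intro τ hτ
      rw [split1 h hi0]
      congr 1
      · refine Finset.prod_congr rfl fun z hz => ?_
        simp only [Finset.mem_sdiff, Finset.mem_insert, Finset.mem_singleton, not_or] at hz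
        obtain ⟨_, h1, h2⟩ := hz
        refine F_congr rfl (hτ z h1 (ha ▸ h2)) (hτ _ ?_ ?_)
        · intro h0
          apply h2
          rw [← h0, h.inv]
        · intro h0
          apply h1
          rw [← h.inv z, h0, ← ha, h.inv]
      · unfold W
        rw [ha, if_pos (Nat.lt_succ_self i)]
    rw [key σ (fun _ _ _ => rfl), key _ (fun k h1 h2 => by
      rw [update_of_ne h2, update_of_ne h1]), key _ (fun k h1 h2 => by
      rw [update_of_ne h2, update_of_ne h1])]
    have hne : i ≠ i + 1 := by omega
    simp only [update_self, update_of_ne hne]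
    simp only [sw, if_true, Bool.false_eq_true, if_false, reduceCtorEq]
    ring
  · have hb : p (i + 1) ≠ i := by
      intro h0
      apply ha
      have h1 := h.inv (i + 1)
      rwa [h0] at h1
    have hne : i ≠ i + 1 := by omega
    set a := p i with hadef
    set b := p (i + 1) with hbdef
    have hai : a ≠ i := h.ne i hi0
    have hbi : b ≠ i + 1 := h.ne (i + 1) hi
    have hpa : p a = i := by rw [hadef, h.inv]
    have hpb : p b = i + 1 := by rw [hbdef, h.inv]
    have hab : a ≠ b := by
      intro h0
      rw [h0, hpb] at hpa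
      omega
    have haN : a < N := h.lt i hi0
    have hbN : b < N := h.lt (i + 1) hi
    have hE := NC.eAct h hi
    have hEi : eAct i p i = i + 1 := by simp [eAct]
    have hEa : eAct i p a = b := by
      unfold eAct
      rw [if_neg hai, if_neg ha, if_pos hpa]
    have key : ∀ τ : ℕ → Bool, (∀ k, k ≠ i → k ≠ i + 1 → τ k = σ k) →
        Phi κ N p τ = (∏ z ∈ range N \ {i, i + 1, a, b}, F κ p σ z) *
          (W κ τ i a * W κ τ (i + 1) b) := by
      intro τ hτ
      rw [split h hi0 hi hne ha]
      congr 1
      refine Finset.prod_congr rfl fun z hz => ?_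
      simp only [Finset.mem_sdiff, Finset.mem_insert, Finset.mem_singleton, not_or] at hz
      obtain ⟨_, h1, h2, h3, h4⟩ := hz
      refine F_congr rfl (hτ z h1 h2) (hτ _ ?_ ?_)
      · intro h0
        apply h3
        change z = p i
        rw [← h0, h.inv]
      · intro h0
        apply h4
        change z = p (i + 1)
        rw [← h0, h.inv]
    have key2 : Phi κ N (eAct i p) σ = (∏ z ∈ range N \ {i, i + 1, a, b}, F κ p σ z) *
          (W κ σ i (i + 1) * W κ σ a b) := by
      have h5 := split (κ := κ) hE hi0 haN hai.symm (by rw [hEi]; exact fun h0 => ha h0.symm) σ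
      rw [hEi, hEa] at h5
      rw [h5]
      have hset : ({i, a, i + 1, b} : Finset ℕ) = {i, i + 1, a, b} := by
        ext z
        simp only [Finset.mem_insert, Finset.mem_singleton]
        tauto
      rw [hset]
      congr 1
      refine Finset.prod_congr rfl fun z hz => ?_
      simp only [Finset.mem_sdiff, Finset.mem_insert, Finset.mem_singleton, not_or] at hz
      obtain ⟨_, h1, h2, h3, h4⟩ := hz
      have hz : eAct i p z = p z := by
        unfold eAct
        rw [if_neg h1, if_neg h2, if_neg, if_neg]
        · intro h0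
          apply h4
          change z = p (i + 1)
          rw [← h0, h.inv]
        · intro h0
          apply h3
          change z = p i
          rw [← h0, h.inv]
      exact F_congr hz rfl rfl
    rw [key2, key _ (fun k h1 h2 => by
      rw [update_of_ne h2, update_of_ne h1]), key _ (fun k h1 h2 => by
      rw [update_of_ne h2, update_of_ne h1])]
    have e1 : ∀ s t : Bool, update (update σ i s) (i + 1) t i = s := by
      intro s t
      rw [update_of_ne hne, update_self]
    have e2 : ∀ s t : Bool, update (update σ i s) (i + 1) t (i + 1) = t := by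
      intro s t
      rw [update_self]
    have e3 : ∀ s t : Bool, update (update σ i s) (i + 1) t a = σ a := by
      intro s t
      rw [update_of_ne ha, update_of_ne hai]
    have e4 : ∀ s t : Bool, update (update σ i s) (i + 1) t b = σ b := by
      intro s t
      rw [update_of_ne hbi, update_of_ne hb]
    have hord : (i < a ∧ i + 1 < b ∧ b < a) ∨ (a < i ∧ i + 1 < b ∧ a < b) ∨
        (a < i ∧ b < i + 1 ∧ b < a) := by
      rcases lt_or_gt_of_ne hai with h1 | h1
      · rcases lt_or_gt_of_ne hbi with h2 | h2
        · refine Or.inr (Or.inr ⟨h1, h2, ?_⟩)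
          by_contra h3
          have h4 : a < b := by omega
          have h5 := h.nc a b h4 (by rw [hpa]; omega)
          rw [hpa, hpb] at h5
          omega
        · exact Or.inr (Or.inl ⟨h1, h2, by omega⟩)
      · rcases lt_or_gt_of_ne hbi with h2 | h2
        · exfalso
          have h5 := h.nc b i (by omega) (by rw [hpb]; omega)
          rw [hpb] at h5
          omega
        · refine Or.inl ⟨h1, h2, ?_⟩
          have h5 := h.nc i (i + 1) (by omega) (by omega)
          omega
    unfold W
    simp only [e1, e2, e3, e4, if_pos (Nat.lt_succ_self i)]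
    generalize (∏ z ∈ range N \ {i, i + 1, a, b}, F κ p σ z) = K
    generalize sw κ (σ i) (σ (i + 1)) = G
    rcases hord with ⟨h1, h2, h3⟩ | ⟨h1, h2, h3⟩ | ⟨h1, h2, h3⟩
    · simp only [if_pos h1, if_pos h2, if_neg (not_lt.2 h3.le)]
      cases σ a <;> cases σ b <;> simp only [sw, if_true, Bool.false_eq_true, if_false,
        reduceCtorEq] <;> first | ring1 | linear_combination (-(G * K)) * hκ |
          linear_combination (-(G * K * κ)) * hκ
    · simp only [if_neg (not_lt.2 h1.le), if_pos h2, if_pos h3]
      cases σ a <;> cases σ b <;> simp only [sw, if_true, Bool.false_eq_true, if_false,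
        reduceCtorEq] <;> first | ring1 | linear_combination (-(G * K)) * hκ |
          linear_combination (-(G * K * κ)) * hκ
    · simp only [if_neg (not_lt.2 h1.le), if_neg (not_lt.2 h2.le),
        if_neg (not_lt.2 h3.le)]
      cases σ a <;> cases σ b <;> simp only [sw, if_true, Bool.false_eq_true, if_false,
        reduceCtorEq] <;> first | ring1 | linear_combination (-(G * K)) * hκ |
          linear_combination (-(G * K * κ)) * hκ

end Pool.Agent.Perc
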