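import Pool.Agent.Lib.MP_6bd702_perc.SpinDefs

/-!
# Sums over spins (task SpinC)
-/

set_option autoImplicit false

namespace Pool.Agent.Perc

open Finset Function

variable {κ : ℂ} {N : ℕ} {p : ℕ → ℕ}

theorem sumS_congr {X Y : (ℕ → Bool) → ℂ} (h : ∀ σ, (∀ k, N ≤ k → σ k = false) → X σ = Y σ) :
    sumS N X = sumS N Y := by
  unfold sumS
  refine Finset.sum_congr rfl fun T hT => h _ fun k hk => ?_
  rw [Finset.mem_powerset] at hT
  rw [decide_eq_false_iff_not]
  intro h1
  have := Finset.mem_range.1 (hT h1)
  omega

namespace SpinC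

/-- The configuration of a set. -/
def conf (T : Finset ℕ) : ℕ → Bool := fun k => decide (k ∈ T)

/-- Toggle the site `i`. -/
def tog (i : ℕ) (T : Finset ℕ) : Finset ℕ := if i ∈ T then T.erase i else insert i T

lemma tog_tog (i : ℕ) (T : Finset ℕ) : tog i (tog i T) = T := by
  unfold tog
  by_cases h : i ∈ T
  · rw [if_pos h, if_neg (Finset.notMem_erase i T), Finset.insert_erase h]
  · rw [if_neg h, if_pos (Finset.mem_insert_self i T), Finset.erase_insert h]

lemma tog_mem {i : ℕ} (hi : i < N) {T : Finset ℕ} (hT : T ∈ (range N).powerset) :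
    tog i T ∈ (range N).powerset := by
  rw [Finset.mem_powerset] at hT ⊢
  unfold tog
  split_ifs with h
  · exact (Finset.erase_subset i T).trans hT
  · exact Finset.insert_subset (Finset.mem_range.2 hi) hT

lemma sum_pair (i : ℕ) (X : (ℕ → Bool) → ℂ) (T : Finset ℕ) :
    X (conf T) + X (conf (tog i T)) = ∑ a : Bool, X (update (conf T) i a) := by
  rw [Fintype.sum_bool]
  by_cases h : i ∈ T
  · have h1 : conf T = update (conf T) i true := by
      rw [eq_comm, Function.update_eq_self_iff]
      exact (decide_eq_true h).symm
    have h2 : conf (tog i T) = update (conf T) i false := by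
      funext k
      unfold conf tog
      rw [if_pos h]
      by_cases hk : k = i
      · subst hk
        simp
      · rw [update_of_ne hk]
        simp [hk]
    rw [h2, ← h1]
  · have h1 : conf T = update (conf T) i false := by
      rw [eq_comm, Function.update_eq_self_iff]
      exact (decide_eq_false h).symm
    have h2 : conf (tog i T) = update (conf T) i true := by
      funext k
      unfold conf tog
      rw [if_neg h]
      by_cases hk : k = i
      · subst hk
        simp
      · rw [update_of_ne hk]
        simp [hk]
    rw [h2, ← h1, add_comm]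

lemma split_one {i : ℕ} (hi : i < N) (X : (ℕ → Bool) → ℂ) :
    sumS N X = (∑ a : Bool, sumS N (fun σ => X (update σ i a))) / 2 := by
  have h1 : ∑ T ∈ (range N).powerset, X (conf (tog i T)) =
      ∑ T ∈ (range N).powerset, X (conf T) := by
    refine Finset.sum_nbij' (tog i) (tog i) ?_ ?_ ?_ ?_ ?_
    · exact fun T hT => tog_mem hi hT
    · exact fun T hT => tog_mem hi hT
    · exact fun T _ => tog_tog i T
    · exact fun T _ => tog_tog i T
    · exact fun T _ => rfl
  have h2 : ∑ a : Bool, sumS N (fun σ => X (update σ i a)) =
      ∑ T ∈ (range N).powerset, ∑ a : Bool, X (update (conf T) i a) := by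
    rw [Finset.sum_comm]
    rfl
  rw [h2, Finset.sum_congr rfl fun T _ => (sum_pair i X T).symm, Finset.sum_add_distrib, h1]
  change ∑ T ∈ (range N).powerset, X (conf T) = _
  ring

end SpinC

/-- Splitting the sum at two neighbouring spins. -/
theorem sumS_split {i : ℕ} (hi : i + 1 < N) (X : (ℕ → Bool) → ℂ) :
    sumS N X = (∑ a : Bool, ∑ b : Bool,
      sumS N (fun σ => X (update (update σ i a) (i + 1) b))) / 4 := by
  rw [SpinC.split_one hi X]
  have h1 : ∀ b : Bool, sumS N (fun σ => X (update σ (i + 1) b)) =
      (∑ a : Bool, sumS N (fun σ => X (update (update σ i a) (i + 1) b))) / 2 := fun b =>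
    SpinC.split_one (by omega) (fun σ => X (update σ (i + 1) b))
  simp only [h1, Fintype.sum_bool]
  ring

/-- `e_i` is symmetric for the bilinear form. -/
theorem sumS_eS (hκ : κ ≠ 0) {i : ℕ} (hi : i + 1 < N) (A X : (ℕ → Bool) → ℂ) :
    sumS N (fun σ => A σ * eS κ i X σ) = sumS N (fun σ => eS κ i A σ * X σ) := by
  have hne : i ≠ i + 1 := by omega
  have hc : ∀ (Z : (ℕ → Bool) → ℂ) (σ : ℕ → Bool) (a b : Bool),
      capS κ i Z (update (update σ i a) (i + 1) b) = capS κ i Z σ := by
    intro Z σ a b
    have hu : ∀ s t : Bool, update (update (update (update σ i a) (i + 1) b) i s) (i + 1) t =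
        update (update σ i s) (i + 1) t := by
      intro s t
      funext k
      by_cases h1 : k = i + 1
      · subst h1
        simp
      · rw [update_of_ne h1, update_of_ne h1]
        by_cases h2 : k = i
        · subst h2
          simp
        · rw [update_of_ne h2, update_of_ne h1, update_of_ne h2, update_of_ne h2]
    unfold capS
    rw [hu, hu]
  have hs : ∀ (σ : ℕ → Bool) (a b : Bool),
      sw κ (update (update σ i a) (i + 1) b i) (update (update σ i a) (i + 1) b (i + 1)) =
        sw κ a b := by
    intro σ a b
    rw [update_self, update_of_ne hne, update_self]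
  rw [sumS_split hi (fun σ => A σ * eS κ i X σ), sumS_split hi (fun σ => eS κ i A σ * X σ)]
  congr 1
  simp only [eS, hc, hs, Fintype.sum_bool]
  unfold sumS
  simp only [← Finset.sum_add_distrib]
  refine Finset.sum_congr rfl fun T _ => ?_
  simp only [sw, capS, if_true, Bool.false_eq_true, if_false, reduceCtorEq]
  field_simp
  ring

end Pool.Agent.Perc
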