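import Pool.Agent.Lib.MP_6bd702_perc.SpinDefs
import Pool.Agent.Lib.MP_6bd702_perc.SpinA
import Pool.Agent.Lib.MP_6bd702_perc.SpinC

/-!
# Spin embedding: further properties (task SpinB)
-/

set_option autoImplicit false

namespace Pool.Agent.Perc

open Finset Function

variable {κ : ℂ} {N : ℕ} {p : ℕ → ℕ}

theorem Phi_cupO (h : NC N p) (σ : ℕ → Bool) :
    Phi κ (N + 2) (cupO N p) σ = sw κ (σ 0) (σ (N + 1)) * Phi κ N p (fun k => σ (k + 1)) := by
  unfold Phi
  rw [Finset.prod_range_succ, Finset.prod_range_succ']
  have h0 : cupO N p 0 = N + 1 := by simp [cupO]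
  have h1 : cupO N p (N + 1) = 0 := by simp [cupO]
  have h2 : ∀ x ∈ range N, (if x + 1 < cupO N p (x + 1) then
      sw κ (σ (x + 1)) (σ (cupO N p (x + 1))) else 1) =
      if x < p x then sw κ (σ (x + 1)) (σ (p x + 1)) else 1 := by
    intro x hx
    have hx' := Finset.mem_range.1 hx
    have h3 : cupO N p (x + 1) = p x + 1 := by
      unfold cupO
      rw [if_neg (by omega), if_neg (by omega), if_pos (by omega), Nat.add_sub_cancel]
    rw [h3]
    by_cases h4 : x < p x
    · rw [if_pos h4, if_pos (by omega)]
    · rw [if_neg h4, if_neg (by omega)]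
  rw [Finset.prod_congr rfl h2, h0, h1, if_pos (by omega), if_neg (by omega), mul_one, mul_comm]

namespace SpinB

lemma aux {L : ℕ} {p' : ℕ → ℕ} (h1 : p' L = L + 1) (h2 : p' (L + 1) = L)
    (h3 : ∀ x < L, p' x = p x) (σ : ℕ → Bool) :
    Phi κ (L + 2) p' σ = Phi κ L p σ * sw κ (σ L) (σ (L + 1)) := by
  unfold Phi
  rw [Finset.prod_range_succ, Finset.prod_range_succ, h1, h2, if_pos (by omega),
    if_neg (by omega), mul_one]
  congr 1
  refine Finset.prod_congr rfl fun x hx => ?_
  rw [h3 x (Finset.mem_range.1 hx)]

end SpinB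

theorem Phi_insArc_last (h : NC N p) (σ : ℕ → Bool) :
    Phi κ (N + 2) (insArc N p) σ = Phi κ N p σ * sw κ (σ N) (σ (N + 1)) := by
  refine SpinB.aux (by simp [insArc]) (by simp [insArc]) ?_ σ
  intro x hx
  have h1 := h.lt x hx
  unfold insArc
  rw [if_neg (by omega), if_neg (by omega)]
  simp only [if_pos hx, if_pos h1]

theorem Phi_resP {L : ℕ} (h : NC (L + 2) p) (hp : p L = L + 1) (σ : ℕ → Bool) :
    Phi κ (L + 2) p σ = Phi κ L (resP L p) σ * sw κ (σ L) (σ (L + 1)) := by
  refine SpinB.aux hp (by rw [← hp, h.inv]) ?_ σ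
  intro x hx
  unfold resP
  rw [if_pos hx]

namespace SpinB

open SpinA SpinC

lemma conf_congr {T T' : Finset ℕ} {x : ℕ} (h : x ∈ T ↔ x ∈ T') : conf T x = conf T' x := by
  unfold conf
  by_cases h1 : x ∈ T
  · rw [decide_eq_true h1, decide_eq_true (h.1 h1)]
  · rw [decide_eq_false h1, decide_eq_false (fun h2 => h1 (h.2 h2))]

lemma sum_set (hinv : ∀ x, p (p x) = x) (n : ℕ) : ∀ S : Finset ℕ, S.card = n →
    (∀ x ∈ S, p x ∈ S) → (∀ x ∈ S, p x ≠ x) →
    ∑ T ∈ S.powerset, ∏ x ∈ S, F κ p (conf T) x = (1 + κ) ^ (S.card / 2) := by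
  induction n using Nat.strong_induction_on with
  | _ n ih =>
    intro S hn hS hS'
    rcases S.eq_empty_or_nonempty with rfl | ⟨x, hx⟩
    · simp
    · set y := p x with hy
      have hyS : y ∈ S := hS x hx
      have hyx : y ≠ x := hS' x hx
      have hpy : p y = x := hinv x
      set S' := (S.erase x).erase y with hS'def
      have hxS' : x ∉ S' := fun h0 => by
        rw [hS'def, Finset.mem_erase] at h0
        exact Finset.notMem_erase x S h0.2
      have hyS' : y ∉ S' := Finset.notMem_erase y _
      have hins : S = insert x (insert y S') := by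
        rw [hS'def, Finset.insert_erase (Finset.mem_erase.2 ⟨hyx, hyS⟩), Finset.insert_erase hx]
      have hcard : S.card = S'.card + 2 := by
        rw [hins, Finset.card_insert_of_notMem, Finset.card_insert_of_notMem hyS']
        rw [Finset.mem_insert, not_or]
        exact ⟨hyx.symm, hxS'⟩
      have hxi : x ∉ insert y S' := by
        rw [Finset.mem_insert, not_or]
        exact ⟨hyx.symm, hxS'⟩
      have hcl : ∀ z ∈ S', p z ∈ S' := by
        intro z hz
        rw [hS'def, Finset.mem_erase, Finset.mem_erase] at hz ⊢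
        refine ⟨?_, ?_, hS z hz.2.2⟩
        · intro h0
          apply hz.2.1
          rw [← hinv z, h0, hpy]
        · intro h0
          apply hz.1
          rw [← hinv z, h0]
      have hsub : S' ⊆ S := (Finset.erase_subset _ _).trans (Finset.erase_subset _ _)
      have hmain := ih S'.card (by omega) S' rfl hcl (fun z hz => hS' z (hsub hz))
      have hprod : ∀ T : Finset ℕ, ∏ z ∈ S, F κ p (conf T) z =
          W κ (conf T) x y * ∏ z ∈ S', F κ p (conf T) z := by
        intro T
        rw [hins, Finset.prod_insert hxi, Finset.prod_insert hyS', ← mul_assoc]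
        congr 1
        unfold F W
        rw [hpy, ← hy]
        rcases lt_or_gt_of_ne hyx with h1 | h1
        · rw [if_neg (not_lt.2 h1.le), if_pos h1, if_neg (not_lt.2 h1.le), one_mul]
        · rw [if_pos h1, if_neg (not_lt.2 h1.le), if_pos h1, mul_one]
      have hrest : ∀ T T' : Finset ℕ, (∀ z ∈ S', z ∈ T ↔ z ∈ T') →
          ∏ z ∈ S', F κ p (conf T) z = ∏ z ∈ S', F κ p (conf T') z := by
        intro T T' hT
        refine Finset.prod_congr rfl fun z hz => F_congr rfl (conf_congr (hT z hz))
          (conf_congr (hT _ (hcl z hz)))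
      have hW : ∀ T : Finset ℕ, x ∉ T → y ∉ T →
          W κ (conf T) x y + W κ (conf (insert y T)) x y +
          (W κ (conf (insert x T)) x y + W κ (conf (insert x (insert y T))) x y) = 1 + κ := by
        intro T hxT hyT
        unfold W conf
        simp only [Finset.mem_insert, hyx, hyx.symm, hxT, hyT, decide_true, decide_false, or_false,
          true_or, or_true, false_or]
        by_cases hxy : x < y
        · simp [hxy, sw, add_comm]
        · simp [hxy, sw, add_comm]
      rw [hcard, Nat.add_div_right _ (by norm_num : 0 < 2), pow_succ, ← hmain, Finset.sum_mul]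
      have hpow : ∀ f : Finset ℕ → ℂ, ∑ T ∈ S.powerset, f T = ∑ T ∈ S'.powerset,
          (f T + f (insert y T) + (f (insert x T) + f (insert x (insert y T)))) := by
        intro f
        rw [hins, Finset.sum_powerset_insert hxi, Finset.sum_powerset_insert hyS',
          Finset.sum_powerset_insert hyS']
        simp only [Finset.sum_add_distrib]
      rw [hpow]
      refine Finset.sum_congr rfl fun T hT => ?_
      rw [Finset.mem_powerset] at hT
      have hxT : x ∉ T := fun h0 => hxS' (hT h0)
      have hyT : y ∉ T := fun h0 => hyS' (hT h0)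
      rw [hprod, hprod, hprod, hprod]
      rw [hrest (insert y T) T, hrest (insert x T) T, hrest (insert x (insert y T)) T]
      · rw [← hW T hxT hyT]
        ring
      · intro z hz
        rw [Finset.mem_insert, Finset.mem_insert]
        constructor
        · rintro (rfl | rfl | h0)
          · exact absurd hz hxS'
          · exact absurd hz hyS'
          · exact h0
        · exact fun h0 => Or.inr (Or.inr h0)
      · intro z hz
        rw [Finset.mem_insert]
        constructor
        · rintro (rfl | h0)
          · exact absurd hz hxS'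
          · exact h0
        · exact fun h0 => Or.inr h0
      · intro z hz
        rw [Finset.mem_insert]
        constructor
        · rintro (rfl | h0)
          · exact absurd hz hyS'
          · exact h0
        · exact fun h0 => Or.inr h0

end SpinB

/-- The sum of all components. -/
theorem sumS_Phi (h : NC N p) : sumS N (Phi κ N p) = (1 + κ) ^ (N / 2) := by
  have h1 := SpinB.sum_set (κ := κ) h.inv N (range N) (Finset.card_range N)
    (fun x hx => Finset.mem_range.2 (h.lt x (Finset.mem_range.1 hx)))
    (fun x hx => h.ne x (Finset.mem_range.1 hx))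
  rw [Finset.card_range] at h1
  exact h1

namespace SpinB

lemma sum_sgn_aux (h : NC N p) {σ : ℕ → Bool} (hσ : Phi κ N p σ ≠ 0) {g g' : ℕ}
    (hg' : g' ≤ N) (hgg : Geq N p g g') (hlt : g ≤ g') :
    ∑ k ∈ range g, sgn (σ k) = ∑ k ∈ range g', sgn (σ k) := by
  have h1 : ∑ k ∈ Finset.Ico g g', sgn (σ k) = 0 := by
    refine Finset.sum_involution (fun x _ => p x) ?_ ?_ ?_ ?_
    · intro x hx
      have hx' := Finset.mem_Ico.1 hx
      rw [ne_of_Phi_ne_zero h hσ (by omega : x < N)]
      cases σ x <;> simp [sgn]
    · intro x hx _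
      have hx' := Finset.mem_Ico.1 hx
      exact h.ne x (by omega)
    · intro x hx
      have hx' := Finset.mem_Ico.1 hx
      have h2 := hgg x (by omega)
      rw [Finset.mem_Ico]
      by_cases h3 : p x < g
      · exfalso
        have h4 : p x < g' := by omega
        have h5 : ¬ x < g := by omega
        simp only [h5, h3, h4, hx'.2, iff_true, iff_self] at h2
      · by_cases h4 : p x < g'
        · omega
        · exfalso
          have h5 : ¬ x < g := by omega
          simp only [h5, h3, h4, hx'.2, iff_self, true_iff, iff_false, not_true_eq_false] at h2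
    · intro x hx
      exact h.inv x
  rw [← Finset.sum_range_add_sum_Ico _ hlt, h1, add_zero]

end SpinB

/-- The total spin to the left of two gaps of the same region is the same. -/
theorem sum_sgn_of_geq (h : NC N p) {σ : ℕ → Bool} (hσ : Phi κ N p σ ≠ 0) {g g' : ℕ} (hg : g ≤ N)
    (hg' : g' ≤ N) (hgg : Geq N p g g') :
    ∑ k ∈ range g, sgn (σ k) = ∑ k ∈ range g', sgn (σ k) := by
  rcases le_total g g' with h1 | h1
  · exact SpinB.sum_sgn_aux h hσ hg' hgg h1
  · exact (SpinB.sum_sgn_aux h hσ hg hgg.symm h1).symm

end Pool.Agent.Perc
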