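import Pool.Agent.Lib.MP_6bd702_perc.SpinDefs
import Pool.Agent.Lib.MP_6bd702_perc.SpinB

/-!
# Linear extension of the spin embedding (task SpinD)
-/

set_option autoImplicit false

namespace Pool.Agent.Perc

open Finset Function

variable {κ : ℂ} {N : ℕ} {p : ℕ → ℕ}

namespace SpinD

lemma PhiV_mapDomain {M : ℕ} (g : (ℕ → ℕ) → (ℕ → ℕ)) (f : (ℕ → ℕ) →₀ ℂ) (σ : ℕ → Bool) :
    PhiV κ M (f.mapDomain g) σ = f.sum fun p c => c * Phi κ M (g p) σ := by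
  unfold PhiV
  rw [Finsupp.sum_mapDomain_index]
  · intro p
    rw [zero_mul]
  · intro p c c'
    rw [add_mul]

end SpinD

theorem PhiV_mapDomain_eAct (hκ : κ ^ 2 = κ - 1) {f : (ℕ → ℕ) →₀ ℂ} (hf : SuppNC N f) {i : ℕ}
    (hi : i + 1 < N) (σ : ℕ → Bool) :
    PhiV κ N (f.mapDomain (eAct i)) σ = eS κ i (PhiV κ N f) σ := by
  rw [SpinD.PhiV_mapDomain]
  have h1 : (f.sum fun p c => c * Phi κ N (eAct i p) σ) =
      f.sum fun p c => c * eS κ i (Phi κ N p) σ := by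
    refine Finset.sum_congr rfl fun p hp => ?_
    simp only
    rw [eS_Phi hκ (hf p hp) hi]
  rw [h1]
  unfold eS capS PhiV Finsupp.sum
  rw [Finset.mul_sum, ← Finset.sum_add_distrib, Finset.mul_sum]
  refine Finset.sum_congr rfl fun p _ => ?_
  ring

theorem PhiV_add (f g : (ℕ → ℕ) →₀ ℂ) (σ : ℕ → Bool) :
    PhiV κ N (f + g) σ = PhiV κ N f σ + PhiV κ N g σ := by
  classical
  unfold PhiV
  rw [Finsupp.sum_add_index']
  · intro p
    rw [zero_mul]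
  · intro p c c'
    rw [add_mul]

theorem PhiV_smul (c : ℂ) (f : (ℕ → ℕ) →₀ ℂ) (σ : ℕ → Bool) :
    PhiV κ N (c • f) σ = c * PhiV κ N f σ := by
  unfold PhiV
  rw [Finsupp.sum_smul_index' (fun p => by rw [zero_mul]), Finsupp.mul_sum]
  refine Finset.sum_congr rfl fun p _ => ?_
  simp only [smul_eq_mul]
  ring

theorem PhiV_mapDomain_cupO {f : (ℕ → ℕ) →₀ ℂ} (hf : SuppNC N f) (σ : ℕ → Bool) :
    PhiV κ (N + 2) (f.mapDomain (cupO N)) σ =
      sw κ (σ 0) (σ (N + 1)) * PhiV κ N f (fun k => σ (k + 1)) := by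
  rw [SpinD.PhiV_mapDomain]
  unfold PhiV
  rw [Finsupp.mul_sum]
  refine Finset.sum_congr rfl fun p hp => ?_
  simp only
  rw [Phi_cupO (hf p hp)]
  ring

theorem PhiV_mapDomain_insArc_last {f : (ℕ → ℕ) →₀ ℂ} (hf : SuppNC N f) (σ : ℕ → Bool) :
    PhiV κ (N + 2) (f.mapDomain (insArc N)) σ = PhiV κ N f σ * sw κ (σ N) (σ (N + 1)) := by
  rw [SpinD.PhiV_mapDomain]
  unfold PhiV
  rw [Finsupp.sum_mul]
  refine Finset.sum_congr rfl fun p hp => ?_
  simp only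
  rw [Phi_insArc_last (hf p hp)]
  ring

end Pool.Agent.Perc
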