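import Pool.Agent.Lib.MP_6bd702_perc.Pat

/-!
# Spin embedding of link patterns: definitions

`κ + κ⁻¹ = 1` is written as `κ ^ 2 = κ - 1`. A spin configuration is `σ : ℕ → Bool` (only the first
`N` spins matter), `true` is spin up.
-/

set_option autoImplicit false

namespace Pool.Agent.Perc

open Finset Function

/-- Weight of an arc from the left spin `s` to the right spin `s'`. -/
def sw (κ : ℂ) (s s' : Bool) : ℂ := if s = s' then 0 else if s then κ else 1

/-- Spin vector of a link pattern of `N` sites. -/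
def Phi (κ : ℂ) (N : ℕ) (p : ℕ → ℕ) (σ : ℕ → Bool) : ℂ :=
  ∏ x ∈ range N, if x < p x then sw κ (σ x) (σ (p x)) else 1

/-- Contraction of the spins `i`, `i + 1`. -/
noncomputable def capS (κ : ℂ) (i : ℕ) (X : (ℕ → Bool) → ℂ) (σ : ℕ → Bool) : ℂ :=
  X (update (update σ i true) (i + 1) false) + κ⁻¹ * X (update (update σ i false) (i + 1) true)

/-- The Temperley-Lieb generator on spin vectors. -/
noncomputable def eS (κ : ℂ) (i : ℕ) (X : (ℕ → Bool) → ℂ) (σ : ℕ → Bool) : ℂ :=
  sw κ (σ i) (σ (i + 1)) * capS κ i X σ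

/-- The face operator `(1 + e_i) / 2` on spin vectors. -/
noncomputable def rS (κ : ℂ) (i : ℕ) (X : (ℕ → Bool) → ℂ) (σ : ℕ → Bool) : ℂ :=
  (X σ + eS κ i X σ) / 2

/-- Sum over the spins of the sites `0, …, N - 1`, all other spins are down. -/
def sumS (N : ℕ) (X : (ℕ → Bool) → ℂ) : ℂ := ∑ T ∈ (range N).powerset, X fun k => decide (k ∈ T)

/-- `+ 1` for up, `- 1` for down. -/
def sgn (b : Bool) : ℤ := if b then 1 else -1

/-- Linear extension of `Phi`. -/
noncomputable def PhiV (κ : ℂ) (N : ℕ) (f : (ℕ → ℕ) →₀ ℂ) (σ : ℕ → Bool) : ℂ :=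
  f.sum fun p c => c * Phi κ N p σ

/-- The vector is supported on link patterns of `N` sites. -/
def SuppNC (N : ℕ) (f : (ℕ → ℕ) →₀ ℂ) : Prop := ∀ p ∈ f.support, NC N p

end Pool.Agent.Perc
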