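import Pool.Agent.Lib.MP_6bd702_perc.Flux

/-!
# Matrix elements of the current: transport (task TjA)
-/

set_option autoImplicit false

namespace Pool.Agent.Perc

open Finset Function

variable {q : ℂ} {N : ℕ} {α β : ℕ → ℕ}

namespace TjA

theorem kappa (hq : q ^ 2 + q + 1 = 0) : (-q ^ 2) ^ 2 = (-q ^ 2) - 1 := by
  have h3 : q ^ 4 = q := by linear_combination (q ^ 2 - q) * hq
  linear_combination h3 - (-1 : ℂ) * hq * 0 - hq * (-1)

theorem q_ne (hq : q ^ 2 + q + 1 = 0) : q ≠ 0 := by
  rintro rfl; norm_num at hq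

theorem kappa_ne (hq : q ^ 2 + q + 1 = 0) : (-q ^ 2) ≠ 0 :=
  neg_ne_zero.mpr (pow_ne_zero _ (q_ne hq))

/-- The total spin `Sj` is not changed by exchanging two neighbouring opposite spins. -/
theorem Sj_swap {i j : ℕ} (hi : i + 1 < N) (h1 : j ≠ i) (h2 : j ≠ i + 1) (σ : ℕ → Bool)
    (a : Bool) (hσ : σ (i + 1) = !(σ i)) :
    Sj N j (update (update σ i a) (i + 1) (!a)) = Sj N j σ := by
  unfold Sj
  set τ := update (update σ i a) (i + 1) (!a) with hτ
  have hτi : τ i = a := by simp [hτ]
  have hτi1 : τ (i + 1) = !a := by simp [hτ]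
  have hτk : ∀ k, k ≠ i → k ≠ i + 1 → τ k = σ k := by
    intro k hk hk1; simp [hτ, hk, hk1]
  have hs : sgn (τ i) + sgn (τ (i + 1)) = sgn (σ i) + sgn (σ (i + 1)) := by
    rw [hτi, hτi1, hσ]; cases a <;> cases σ i <;> rfl
  have key : ∀ s : Finset ℕ, (i ∈ s ↔ i + 1 ∈ s) → ∑ k ∈ s, sgn (τ k) = ∑ k ∈ s, sgn (σ k) := by
    intro s hs'
    by_cases his : i ∈ s
    · have hi1s := hs'.mp his
      rw [← Finset.add_sum_erase s _ his, ← Finset.add_sum_erase s _ his,
        ← Finset.add_sum_erase (s.erase i) _ (Finset.mem_erase.mpr ⟨by omega, hi1s⟩),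
        ← Finset.add_sum_erase (s.erase i) (fun k => sgn (σ k))
          (Finset.mem_erase.mpr ⟨by omega, hi1s⟩), ← add_assoc, ← add_assoc, hs]
      congr 1
      refine Finset.sum_congr rfl fun k hk => ?_
      rw [Finset.mem_erase, Finset.mem_erase] at hk
      rw [hτk k hk.2.1 hk.1]
    · have hi1s : i + 1 ∉ s := fun h => his (hs'.mpr h)
      refine Finset.sum_congr rfl fun k hk => ?_
      rw [hτk k (fun h => his (h ▸ hk)) (fun h => hi1s (h ▸ hk))]
  rw [key _ (by simp only [mem_range]; omega), key _ (by simp only [mem_Ico]; omega)]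

theorem eS_congr_left {i j : ℕ} {κ : ℂ} (hi : i + 1 < N) (h1 : j ≠ i) (h2 : j ≠ i + 1)
    (A : (ℕ → Bool) → ℂ) (q : ℂ) (σ : ℕ → Bool) :
    eS κ i (fun τ => if τ j then 0 else A τ * q ^ (Sj N j τ)) σ =
      if σ j then 0 else eS κ i A σ * q ^ (Sj N j σ) := by
  unfold eS capS
  by_cases hs : σ (i + 1) = !(σ i)
  · have e1 := Sj_swap hi h1 h2 σ true hs
    have e2 := Sj_swap hi h1 h2 σ false hs
    simp only [Bool.not_true, Bool.not_false] at e1 e2
    have e3 : update (update σ i true) (i + 1) false j = σ j := by simp [h1, h2]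
    have e4 : update (update σ i false) (i + 1) true j = σ j := by simp [h1, h2]
    simp only [e1, e2, e3, e4]
    by_cases hj : σ j
    · simp [hj]
    · simp only [hj]
      simp only [Bool.false_eq_true, ↓reduceIte]
      ring
  · have : σ i = σ (i + 1) := by
      revert hs; cases σ i <;> cases σ (i + 1) <;> simp
    simp [sw, this]

/-- The generator commutes with fixing other spins. -/
theorem eS_update {i j : ℕ} {κ : ℂ} (h1 : j ≠ i) (h2 : j ≠ i + 1) (A : (ℕ → Bool) → ℂ) (b : Bool)
    (σ : ℕ → Bool) : eS κ i (fun τ => A (update τ j b)) σ = eS κ i A (update σ j b) := by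
  unfold eS capS
  have e1 : update σ j b i = σ i := by simp [h1.symm]
  have e2 : update σ j b (i + 1) = σ (i + 1) := by simp [h2.symm]
  rw [e1, e2]
  have e3 : ∀ a c : Bool, update (update (update σ i a) (i + 1) c) j b =
      update (update (update σ j b) i a) (i + 1) c := by
    intro a c
    rw [update_comm h2.symm, update_comm h1.symm]
  simp only [e3]

/-- Flip of the spins in `A`. -/
def flip (A : Finset ℕ) (σ : ℕ → Bool) : ℕ → Bool := fun k => if k ∈ A then !(σ k) else σ k

theorem sumS_flip {A : Finset ℕ} (hA : A ⊆ range N) (X : (ℕ → Bool) → ℂ) :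
    sumS N (fun σ => X (flip A σ)) = sumS N X := by
  unfold sumS
  refine Finset.sum_bij' (fun T _ => symmDiff T A) (fun T _ => symmDiff T A) ?_ ?_ ?_ ?_ ?_
  · intro T hT
    rw [Finset.mem_powerset] at hT ⊢
    intro k hk
    rw [Finset.mem_symmDiff] at hk
    rcases hk with hk | hk
    · exact hT hk.1
    · exact hA hk.1
  · intro T hT
    rw [Finset.mem_powerset] at hT ⊢
    intro k hk
    rw [Finset.mem_symmDiff] at hk
    rcases hk with hk | hk
    · exact hT hk.1
    · exact hA hk.1
  · intro T _
    simp [symmDiff_symmDiff_cancel_right]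
  · intro T _
    simp [symmDiff_symmDiff_cancel_right]
  · intro T _
    show X (flip A fun k => decide (k ∈ T)) = X fun k => decide (k ∈ symmDiff T A)
    congr 1
    funext k
    unfold flip
    by_cases h1 : k ∈ A <;> by_cases h2 : k ∈ T <;> simp [Finset.mem_symmDiff, h1, h2]

theorem sumS_mul_left (c : ℂ) (X : (ℕ → Bool) → ℂ) :
    sumS N (fun σ => c * X σ) = c * sumS N X := by
  unfold sumS
  rw [Finset.mul_sum]

/-- Exchange of the two spins of an arc. -/
theorem Phi_arc {M : ℕ} {κ : ℂ} {p : ℕ → ℕ} (h : NC M p) {x : ℕ} (hx : x < p x) (hxM : p x < M)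
    {σ τ : ℕ → Bool} (h1 : ∀ k, k ≠ x → k ≠ p x → σ k = τ k) (hσx : σ x = true)
    (hσy : σ (p x) = false) (hτx : τ x = false) (hτy : τ (p x) = true) :
    Phi κ M p σ = κ * Phi κ M p τ := by
  unfold Phi
  have hxM' : x ∈ range M := by rw [mem_range]; omega
  rw [← Finset.mul_prod_erase _ _ hxM', ← Finset.mul_prod_erase (range M) _ hxM', if_pos hx,
    if_pos hx, hσx, hσy, hτx, hτy]
  have e : sw κ true false = κ * sw κ false true := by simp [sw]
  rw [e, mul_assoc]
  congr 2
  refine Finset.prod_congr rfl fun k hk => ?_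
  rw [Finset.mem_erase, mem_range] at hk
  by_cases hkp : k < p k
  · rw [if_pos hkp, if_pos hkp]
    have h2 : k ≠ p x := by
      intro h3
      rw [h3, h.inv x] at hkp
      omega
    have h3 : p k ≠ x := by
      intro h3
      apply h2
      rw [← h3, h.inv]
    have h4 : p k ≠ p x := by
      intro h4
      exact hk.1 ((h.inv k).symm.trans ((congrArg p h4).trans (h.inv x)))
    rw [h1 k hk.1 h2, h1 (p k) h3 h4]
  · rw [if_neg hkp, if_neg hkp]

theorem Phi_zero_of_eq {M : ℕ} {κ : ℂ} {p : ℕ → ℕ} (h : NC M p) {x : ℕ} (hxM : x < M)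
    {σ : ℕ → Bool} (he : σ (p x) = σ x) : Phi κ M p σ = 0 := by
  by_contra hne
  have := ne_of_Phi_ne_zero h hne hxM
  rw [he] at this
  revert this
  cases σ x <;> simp

/-- The spins strictly inside an arc have sum zero. -/
theorem sum_inside {M : ℕ} {κ : ℂ} {p : ℕ → ℕ} (h : NC M p) {x : ℕ} (hx : x < p x) (hxM : p x < M)
    {σ : ℕ → Bool} (hσ : Phi κ M p σ ≠ 0) : ∑ k ∈ Ico (x + 1) (p x), sgn (σ k) = 0 := by
  have h1 := h.geq_partner hxM
  rw [h.inv] at h1
  have h2 := sum_sgn_of_geq h hσ (by omega) (by omega) h1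
  rw [Finset.range_eq_Ico, Finset.range_eq_Ico,
    ← Finset.sum_Ico_consecutive (fun k => sgn (σ k)) (Nat.zero_le (x + 1)) hx] at h2
  omega

theorem sumS_congr' {X Y : (ℕ → Bool) → ℂ} (h : ∀ σ, X σ = Y σ) :
    sumS N X = sumS N Y := by
  unfold sumS
  exact Finset.sum_congr rfl fun T _ => h _

/-- `Sj` at the two ends of an interval. -/
theorem Sj_sub {x y : ℕ} (hxy : x < y) (hy : y < N) (σ : ℕ → Bool) :
    Sj N y σ = Sj N x σ + sgn (σ x) + sgn (σ y) + 2 * ∑ k ∈ Ico (x + 1) y, sgn (σ k) := by
  unfold Sj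
  have e1 : ∑ k ∈ range y, sgn (σ k) =
      ∑ k ∈ range x, sgn (σ k) + sgn (σ x) + ∑ k ∈ Ico (x + 1) y, sgn (σ k) := by
    rw [← Finset.sum_range_succ, Finset.range_eq_Ico, Finset.range_eq_Ico,
      Finset.sum_Ico_consecutive _ (by omega) (by omega)]
  have e2 : ∑ k ∈ Ico (x + 1) N, sgn (σ k) =
      ∑ k ∈ Ico (x + 1) y, sgn (σ k) + sgn (σ y) + ∑ k ∈ Ico (y + 1) N, sgn (σ k) := by
    rw [← Finset.sum_Ico_succ_top (by omega : x + 1 ≤ y),
      Finset.sum_Ico_consecutive _ (by omega) (by omega)]
  rw [e1, e2]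
  ring

end TjA

/-- Moving a generator which does not touch `j`. -/
theorem Tj_eAct (hq : q ^ 2 + q + 1 = 0) (hα : NC (N + 1) α) (hβ : NC (N + 1) β) {i j : ℕ}
    (hi : i + 1 < N) (h1 : j ≠ i) (h2 : j ≠ i + 1) :
    Tj q N j (eAct i α) β = Tj q N j α (eAct i β) := by
  have hk := TjA.kappa hq
  have hk0 := TjA.kappa_ne hq
  unfold Tj
  congr 1
  have e1 : ∀ σ : ℕ → Bool, Phi (-q ^ 2) (N + 1) (eAct i α) (update σ N true) =
      eS (-q ^ 2) i (fun τ => Phi (-q ^ 2) (N + 1) α (update τ N true)) σ := by
    intro σ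
    rw [TjA.eS_update (by omega) (by omega), eS_Phi hk hα (by omega)]
  have e2 : ∀ σ : ℕ → Bool, Phi (-q ^ 2) (N + 1) (eAct i β) (update (update σ j true) N false) =
      eS (-q ^ 2) i (fun τ => Phi (-q ^ 2) (N + 1) β (update (update τ j true) N false)) σ := by
    intro σ
    rw [TjA.eS_update (A := fun ρ => Phi (-q ^ 2) (N + 1) β (update ρ N false)) h1 h2,
      TjA.eS_update (by omega) (by omega), eS_Phi hk hβ (by omega)]
  have e3 := sumS_eS hk0 hi
    (fun τ => if τ j then 0 else Phi (-q ^ 2) (N + 1) α (update τ N true) * q ^ (Sj N j τ))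
    (fun τ => Phi (-q ^ 2) (N + 1) β (update (update τ j true) N false))
  calc sumS N (fun σ => if σ j then 0 else Phi (-q ^ 2) (N + 1) (eAct i α) (update σ N true) *
        q ^ (Sj N j σ) * Phi (-q ^ 2) (N + 1) β (update (update σ j true) N false))
      = sumS N (fun σ => eS (-q ^ 2) i (fun τ => if τ j then 0 else
          Phi (-q ^ 2) (N + 1) α (update τ N true) * q ^ (Sj N j τ)) σ *
          Phi (-q ^ 2) (N + 1) β (update (update σ j true) N false)) := by
        refine TjA.sumS_congr' fun σ => ?_
        rw [TjA.eS_congr_left hi h1 h2 (fun τ => Phi (-q ^ 2) (N + 1) α (update τ N true)), e1]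
        by_cases hj : σ j
        · simp [hj]
        · simp [hj]
    _ = sumS N (fun σ => (if σ j then 0 else
          Phi (-q ^ 2) (N + 1) α (update σ N true) * q ^ (Sj N j σ)) *
          eS (-q ^ 2) i (fun τ => Phi (-q ^ 2) (N + 1) β (update (update τ j true) N false)) σ) :=
        e3.symm
    _ = _ := by
        refine TjA.sumS_congr' fun σ => ?_
        rw [e2]
        by_cases hj : σ j
        · simp [hj]
        · simp [hj]

/-- Transport along an arc of `β`. -/
theorem Tj_arc_right (hq : q ^ 2 + q + 1 = 0) (hα : NC (N + 1) α) (hβ : NC (N + 1) β) {x : ℕ}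
    (hx : x < β x) (hxN : β x < N) : Tj q N (β x) α β = -q ^ 2 * Tj q N x α β := by
  have hq0 := TjA.q_ne hq
  unfold Tj
  rw [← mul_div_assoc, ← TjA.sumS_mul_left]
  congr 1
  refine TjA.sumS_congr' fun σ => ?_
  set y := β x with hy
  have hyx : β y = x := hβ.inv x
  have hNx : x ≠ N := by omega
  have hNy : y ≠ N := by omega
  have hxy : x ≠ y := by omega
  by_cases hsx : σ x = true
  · rw [if_pos hsx, mul_zero]
    by_cases hsy : σ y = true
    · rw [if_pos hsy]
    · rw [if_neg hsy, TjA.Phi_zero_of_eq hβ (x := x) (by omega), mul_zero]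
      rw [← hy, update_of_ne hNy, update_of_ne hNx, update_self, update_of_ne hxy, hsx]
  · rw [if_neg hsx]
    by_cases hsy : σ y = true
    · rw [if_pos hsy, TjA.Phi_zero_of_eq hβ (x := x) (by omega), mul_zero, mul_zero]
      rw [← hy, update_of_ne hNy, update_of_ne hNx, update_self, update_of_ne hxy.symm, hsy]
    · rw [if_neg hsy]
      simp only [Bool.not_eq_true] at hsx hsy
      have e1 : Phi (-q ^ 2) (N + 1) β (update (update σ x true) N false) =
          (-q ^ 2) * Phi (-q ^ 2) (N + 1) β (update (update σ y true) N false) := by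
        refine TjA.Phi_arc hβ (x := x) hx (by omega) ?_ ?_ ?_ ?_ ?_
        · intro k hk1 hk2
          by_cases hkN : k = N
          · subst hkN; simp
          · rw [update_of_ne hkN, update_of_ne hkN, update_of_ne hk1, update_of_ne hk2]
        · rw [update_of_ne hNx, update_self]
        · rw [← hy, update_of_ne hNy, update_of_ne hxy.symm, hsy]
        · rw [update_of_ne hNx, update_of_ne hxy, hsx]
        · rw [← hy, update_of_ne hNy, update_self]
      by_cases h0 : Phi (-q ^ 2) (N + 1) β (update (update σ x true) N false) = 0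
      · have h0' : Phi (-q ^ 2) (N + 1) β (update (update σ y true) N false) = 0 := by
          rw [h0] at e1
          rcases mul_eq_zero.mp e1.symm with h | h
          · exact absurd h (TjA.kappa_ne hq)
          · exact h
        rw [h0, h0']; ring
      · have h3 := TjA.sum_inside hβ hx (by omega) h0
        have h4 : ∑ k ∈ Ico (x + 1) y, sgn (σ k) = 0 := by
          rw [← h3]
          refine Finset.sum_congr rfl fun k hk => ?_
          rw [mem_Ico] at hk
          rw [update_of_ne (by omega : k ≠ N), update_of_ne (by omega : k ≠ x)]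
        have h5 := TjA.Sj_sub hx hxN σ
        rw [h4, hsx, hsy] at h5
        have h6 : Sj N y σ = Sj N x σ + (-2) := by
          rw [h5]; simp [sgn]; ring
        rw [h6, zpow_add₀ hq0, e1]
        have h7 : q ^ (-2 : ℤ) = q := by
          rw [zpow_neg, inv_eq_iff_eq_inv]
          have : q ^ (2 : ℤ) = q ^ 2 := by norm_cast
          rw [this]
          refine eq_inv_of_mul_eq_one_left ?_
          linear_combination (q - 1) * hq
        rw [h7]
        have h8 : q = (-q ^ 2) * (-q ^ 2) := by linear_combination (-(q ^ 2 - q)) * hq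
        have h9 : ∀ a b c : ℂ, a * (b * q) * c = -q ^ 2 * (a * b * (-q ^ 2 * c)) := by
          intro a b c
          linear_combination (a * b * c) * h8
        exact h9 _ _ _

/-- Transport along an arc of `α`. -/
theorem Tj_arc_left (hq : q ^ 2 + q + 1 = 0) (hα : NC (N + 1) α) (hβ : NC (N + 1) β) {x : ℕ}
    (hx : x < α x) (hxN : α x < N) : Tj q N (α x) α β = -q * Tj q N x α β := by
  have hq0 := TjA.q_ne hq
  unfold Tj
  rw [← mul_div_assoc, ← TjA.sumS_mul_left]
  congr 1
  set y := α x with hy
  have hyx : α y = x := hα.inv x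
  have hNx : x ≠ N := by omega
  have hNy : y ≠ N := by omega
  have hxy : x ≠ y := by omega
  rw [← TjA.sumS_flip (A := {x, y}) (by
    intro k hk
    rw [Finset.mem_insert, Finset.mem_singleton] at hk
    rw [mem_range]; omega)]
  refine TjA.sumS_congr' fun σ => ?_
  have hfx : TjA.flip {x, y} σ x = !(σ x) := by simp [TjA.flip]
  have hfy : TjA.flip {x, y} σ y = !(σ y) := by simp [TjA.flip]
  have hfk : ∀ k, k ≠ x → k ≠ y → TjA.flip {x, y} σ k = σ k := by
    intro k hk1 hk2; simp [TjA.flip, hk1, hk2]
  set τ := TjA.flip {x, y} σ with hτ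
  by_cases hsx : σ x = true
  · rw [if_pos hsx, mul_zero]
    by_cases hsy : σ y = true
    · have hty : ¬ (τ y = true) := by rw [hfy, hsy]; simp
      rw [if_neg hty, TjA.Phi_zero_of_eq hα (x := x) (by omega), zero_mul, zero_mul]
      rw [← hy, update_of_ne hNy, update_of_ne hNx, hfx, hfy, hsx, hsy]
    · simp only [Bool.not_eq_true] at hsy
      have hty : τ y = true := by rw [hfy, hsy]; simp
      rw [if_pos hty]
  · rw [if_neg hsx]
    simp only [Bool.not_eq_true] at hsx
    by_cases hsy : σ y = true
    · have hty : τ y = false := by rw [hfy, hsy]; simp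
      have htx : τ x = true := by rw [hfx, hsx]; simp
      rw [if_neg (by simp [hty])]
      have e1 : Phi (-q ^ 2) (N + 1) α (update τ N true) =
          (-q ^ 2) * Phi (-q ^ 2) (N + 1) α (update σ N true) := by
        refine TjA.Phi_arc hα (x := x) hx (by omega) ?_ ?_ ?_ ?_ ?_
        · intro k hk1 hk2
          by_cases hkN : k = N
          · subst hkN; simp
          · rw [update_of_ne hkN, update_of_ne hkN, hfk k hk1 hk2]
        · rw [update_of_ne hNx, htx]
        · rw [← hy, update_of_ne hNy, hty]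
        · rw [update_of_ne hNx, hsx]
        · rw [← hy, update_of_ne hNy, hsy]
      have e2 : update (update τ y true) N false = update (update σ x true) N false := by
        funext k
        by_cases hkN : k = N
        · subst hkN; simp
        · rw [update_of_ne hkN, update_of_ne hkN]
          by_cases hkx : k = x
          · subst hkx; rw [update_of_ne hxy, update_self, htx]
          · by_cases hky : k = y
            · subst hky; rw [update_self, update_of_ne hkx, hsy]
            · rw [update_of_ne hkx, update_of_ne hky, hfk k hkx hky]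
      by_cases h0 : Phi (-q ^ 2) (N + 1) α (update σ N true) = 0
      · rw [e1, h0]; ring
      · have h3 := TjA.sum_inside hα hx (by omega) h0
        have h4 : ∑ k ∈ Ico (x + 1) y, sgn (σ k) = 0 := by
          rw [← h3]
          refine Finset.sum_congr rfl fun k hk => ?_
          rw [mem_Ico] at hk
          rw [update_of_ne (by omega : k ≠ N)]
        have h5 := TjA.Sj_sub hx hxN σ
        rw [h4, hsx, hsy] at h5
        have h5' : Sj N y τ = Sj N y σ + 2 := by
          unfold Sj
          have e3 : ∑ k ∈ range y, sgn (τ k) = ∑ k ∈ range y, sgn (σ k) + 2 := by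
            have hxr : x ∈ range y := by rw [mem_range]; exact hx
            rw [← Finset.add_sum_erase _ _ hxr, ← Finset.add_sum_erase (range y)
              (fun k => sgn (σ k)) hxr, htx, hsx]
            have : ∑ k ∈ (range y).erase x, sgn (τ k) = ∑ k ∈ (range y).erase x, sgn (σ k) := by
              refine Finset.sum_congr rfl fun k hk => ?_
              rw [Finset.mem_erase, mem_range] at hk
              rw [hfk k hk.1 (by omega)]
            rw [this]; simp [sgn]; ring
          have e4 : ∑ k ∈ Ico (y + 1) N, sgn (τ k) = ∑ k ∈ Ico (y + 1) N, sgn (σ k) := by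
            refine Finset.sum_congr rfl fun k hk => ?_
            rw [mem_Ico] at hk
            rw [hfk k (by omega) (by omega)]
          rw [e3, e4]; ring
        have h6 : Sj N y τ = Sj N x σ + 2 := by
          rw [h5', h5]; simp [sgn]
        rw [h6, zpow_add₀ hq0, e1, e2]
        have h7 : q ^ (2 : ℤ) = q ^ 2 := by norm_cast
        rw [h7]
        have h8 : q ^ 4 = q := by linear_combination (q ^ 2 - q) * hq
        have h9 : ∀ a b c : ℂ, (-q ^ 2 * a) * (b * q ^ 2) * c = -q * (a * b * c) := by
          intro a b c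
          linear_combination (-(a * b * c)) * h8
        exact h9 _ _ _
    · simp only [Bool.not_eq_true] at hsy
      have hty : τ y = true := by rw [hfy, hsy]; simp
      rw [if_pos hty, TjA.Phi_zero_of_eq hα (x := x) (by omega)]
      · ring
      · rw [← hy, update_of_ne hNy, update_of_ne hNx, hsx, hsy]

end Pool.Agent.Perc
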