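import Pool.Agent.Lib.MP_6bd702_perc.WheelDefs

/-!
# Wheel polynomials: evaluation points (task WheelB)
-/

set_option autoImplicit false

namespace Pool.Agent.Perc

open Finset MvPolynomial

variable {q : ℂ} {m : ℕ} {P : MvPolynomial ℕ ℂ}

theorem insV_zpt {p : ℕ → ℕ} {i : ℕ} (hp : NC (2 * m) p) (hi : i ≤ 2 * m) :
    insV i (q ^ 2) 1 (zpt q p) = zpt q (insArc i p) := by
  funext k
  unfold insV zpt insArc
  by_cases h1 : k < i
  · have h2 : k ≠ i := by omega
    have h3 : k ≠ i + 1 := by omega
    simp only [h1, if_true, h2, h3, if_false]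
    by_cases h4 : p k < i
    · simp only [h4, if_true]
    · have h5 : k < p k := by omega
      have h6 : k < p k + 2 := by omega
      simp only [h4, if_false, h5, h6, if_true]
  · by_cases h2 : k = i
    · subst h2
      simp
    · by_cases h3 : k = i + 1
      · subst h3
        have h4 : ¬ (i + 1 < i) := by omega
        simp [h4]
      · simp only [h1, h2, h3, if_false]
        by_cases h4 : p (k - 2) < i
        · have h5 : ¬ (k - 2 < p (k - 2)) := by omega
          have h6 : ¬ (k < p (k - 2)) := by omega
          simp only [h4, if_true, h5, h6, if_false]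
        · simp only [h4, if_false]
          by_cases h5 : k - 2 < p (k - 2)
          · have h6 : k < p (k - 2) + 2 := by omega
            simp only [h5, h6, if_true]
          · have h6 : ¬ (k < p (k - 2) + 2) := by omega
            simp only [h5, h6, if_false]

/-- There are `m` openings and `m` closings. -/
theorem prod_zpt (hq : q ^ 2 + q + 1 = 0) {p : ℕ → ℕ} (hp : NC (2 * m) p) :
    ∏ k ∈ range (2 * m), (zpt q p k - q) = (3 * q ^ 2) ^ m := by
  have h1 : ∀ k, zpt q p k - q = if k < p k then q ^ 2 - q else 1 - q := by
    intro k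
    unfold zpt
    split_ifs <;> rfl
  simp only [h1]
  rw [Finset.prod_ite, Finset.prod_const, Finset.prod_const]
  have hab : ((range (2 * m)).filter fun k => k < p k).card =
      ((range (2 * m)).filter fun k => ¬ k < p k).card := by
    refine Finset.card_nbij' p p ?_ ?_ ?_ ?_
    · intro k hk
      rw [Finset.mem_coe, Finset.mem_filter, Finset.mem_range] at hk ⊢
      rw [hp.inv]
      exact ⟨hp.lt k hk.1, by omega⟩
    · intro k hk
      rw [Finset.mem_coe, Finset.mem_filter, Finset.mem_range] at hk ⊢
      rw [hp.inv]
      have := hp.ne k hk.1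
      exact ⟨hp.lt k hk.1, by omega⟩
    · intro k _; exact hp.inv k
    · intro k _; exact hp.inv k
  have hs := Finset.card_filter_add_card_filter_not (s := range (2 * m)) (fun k => k < p k)
  rw [Finset.card_range] at hs
  have ha : ((range (2 * m)).filter fun k => k < p k).card = m := by omega
  have hb : ((range (2 * m)).filter fun k => ¬ k < p k).card = m := by omega
  rw [ha, hb, ← mul_pow]
  congr 1
  have h3 : q ^ 3 = 1 := by
    have h : q ^ 3 - 1 = (q - 1) * (q ^ 2 + q + 1) := by ring
    rw [hq, mul_zero] at h
    exact sub_eq_zero.mp h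
  linear_combination (-1 : ℂ) * h3 - hq

end Pool.Agent.Perc
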