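import Pool.Agent.Lib.MP_6bd702_perc.WheelDefs

/-!
# Wheel polynomials: restriction (task WheelA)
-/

set_option autoImplicit false

namespace Pool.Agent.Perc

open Finset MvPolynomial

variable {q : ℂ} {m : ℕ} {P : MvPolynomial ℕ ℂ}

namespace WheelA

/-- Degree of a substitution into a polynomial ring in one variable. -/
theorem natDegree_aeval_le (P : MvPolynomial ℕ ℂ) (s : ℕ → Polynomial (MvPolynomial ℕ ℂ)) (D : ℕ)
    (h : ∀ e ∈ P.support, ∑ k ∈ e.support, e k * (s k).natDegree ≤ D) :
    (aeval s P).natDegree ≤ D := by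
  rw [aeval_def, eval₂_eq]
  refine Polynomial.natDegree_sum_le_of_forall_le _ _ fun e he => ?_
  refine le_trans ?_ (h e he)
  refine le_trans (Polynomial.natDegree_mul_le) ?_
  have h1 : ((algebraMap ℂ (Polynomial (MvPolynomial ℕ ℂ))) (coeff e P)).natDegree = 0 := by
    rw [Polynomial.algebraMap_apply, Polynomial.natDegree_C]
  rw [h1, zero_add]
  refine le_trans (Polynomial.natDegree_prod_le _ _) ?_
  exact Finset.sum_le_sum fun k _ => Polynomial.natDegree_pow_le

/-- Degree of a substitution. -/
theorem degreeOf_aeval_le (P : MvPolynomial ℕ ℂ) (t : ℕ → MvPolynomial ℕ ℂ) (n D : ℕ)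
    (h : ∀ e ∈ P.support, ∑ k ∈ e.support, e k * degreeOf n (t k) ≤ D) :
    degreeOf n (aeval t P) ≤ D := by
  rw [aeval_def, eval₂_eq]
  refine le_trans (degreeOf_sum_le _ _ _) (Finset.sup_le fun e he => ?_)
  refine le_trans ?_ (h e he)
  refine le_trans (degreeOf_mul_le _ _ _) ?_
  have h1 : degreeOf n ((algebraMap ℂ (MvPolynomial ℕ ℂ)) (coeff e P)) = 0 := by
    rw [MvPolynomial.algebraMap_eq, degreeOf_C]
  rw [h1, zero_add]
  refine le_trans (degreeOf_prod_le _ _ _) ?_
  exact Finset.sum_le_sum fun k _ => degreeOf_pow_le _ _ _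

theorem eval_eval_aeval (P : MvPolynomial ℕ ℂ) (s : ℕ → Polynomial (MvPolynomial ℕ ℂ))
    (a : MvPolynomial ℕ ℂ) (z : ℕ → ℂ) :
    eval z (Polynomial.eval a (aeval s P)) = eval (fun k => eval z (Polynomial.eval a (s k))) P := by
  have h : ((eval z).comp ((Polynomial.evalRingHom a).comp
      (aeval s : MvPolynomial ℕ ℂ →ₐ[ℂ] _).toRingHom)) =
      eval (fun k => eval z (Polynomial.eval a (s k))) := by
    apply MvPolynomial.ringHom_ext
    · intro c
      simp [Polynomial.algebraMap_apply, MvPolynomial.algebraMap_eq]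
    · intro k
      simp
  exact congrArg (fun f => f P) h

theorem eval_aeval (P : MvPolynomial ℕ ℂ) (t : ℕ → MvPolynomial ℕ ℂ) (z : ℕ → ℂ) :
    eval z (aeval t P) = eval (fun k => eval z (t k)) P := by
  have h : ((eval z).comp (aeval t : MvPolynomial ℕ ℂ →ₐ[ℂ] _).toRingHom) =
      eval (fun k => eval z (t k)) := by
    apply MvPolynomial.ringHom_ext
    · intro c
      simp
    · intro k
      simp
  exact congrArg (fun f => f P) h

theorem le_degreeOf {e : ℕ →₀ ℕ} (he : e ∈ P.support) (k : ℕ) : e k ≤ degreeOf k P :=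
  monomial_le_degreeOf k he

theorem sum_mul_le_of_two {e : ℕ →₀ ℕ} {f : ℕ → ℕ} {i j : ℕ} (hij : i ≠ j)
    (hi : f i ≤ 1) (hj : f j ≤ 1) (h : ∀ k, k ≠ i → k ≠ j → f k = 0) :
    ∑ k ∈ e.support, e k * f k ≤ e i + e j := by
  have h1 : ∑ k ∈ e.support, e k * f k ≤ ∑ k ∈ ({i, j} : Finset ℕ), e k * f k := by
    have h2 : ∑ k ∈ e.support, e k * f k = ∑ k ∈ e.support ∩ {i, j}, e k * f k := by
      symm
      apply Finset.sum_subset Finset.inter_subset_left
      intro k hk hk'
      have h3 : k ∉ ({i, j} : Finset ℕ) := fun h4 => hk' (Finset.mem_inter.2 ⟨hk, h4⟩)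
      have h5 : k ≠ i ∧ k ≠ j := by
        constructor
        · rintro rfl
          exact h3 (by simp)
        · rintro rfl
          exact h3 (by simp)
      rw [h k h5.1 h5.2, mul_zero]
    rw [h2]
    exact Finset.sum_le_sum_of_subset Finset.inter_subset_right
  refine le_trans h1 ?_
  rw [Finset.sum_pair hij]
  exact Nat.add_le_add (by nlinarith [Nat.zero_le (e i)]) (by nlinarith [Nat.zero_le (e j)])

theorem sum_mul_le_of_one {e : ℕ →₀ ℕ} {f : ℕ → ℕ} {i : ℕ}
    (hi : f i ≤ 1) (h : ∀ k, k ≠ i → f k = 0) :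
    ∑ k ∈ e.support, e k * f k ≤ e i := by
  by_cases hmem : i ∈ e.support
  · rw [Finset.sum_eq_single_of_mem i hmem (fun k _ hk => by rw [h k hk, mul_zero])]
    nlinarith [Nat.zero_le (e i)]
  · rw [Finset.sum_eq_zero]
    · exact Nat.zero_le _
    · intro k hk
      have : k ≠ i := fun h => hmem (h ▸ hk)
      rw [h k this, mul_zero]

/-- The old index of a place different from `i`, `i + 1`. -/
def sh (i k : ℕ) : ℕ := if k < i then k else k + 2

theorem sh_strictMono (i : ℕ) : StrictMono (sh i) := by
  intro a b hab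
  unfold sh
  split_ifs <;> omega

theorem insV_sh (i : ℕ) (u v : ℂ) (z : ℕ → ℂ) (k : ℕ) : insV i u v z (sh i k) = z k := by
  unfold insV sh
  split_ifs <;> first | rfl | omega

theorem insV_self (i : ℕ) (u v : ℂ) (z : ℕ → ℂ) : insV i u v z i = u := by
  simp [insV]

theorem insV_succ (i : ℕ) (u v : ℂ) (z : ℕ → ℂ) : insV i u v z (i + 1) = v := by
  simp [insV]

theorem q_cube (hq : q ^ 2 + q + 1 = 0) : q ^ 3 = 1 := by linear_combination (q - 1) * hq

theorem q_ne_zero (hq : q ^ 2 + q + 1 = 0) : q ≠ 0 := by
  rintro rfl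
  norm_num at hq

/-- A linear factorisation over a domain. -/
theorem exists_factor {R : Type} [CommRing R] [IsDomain R] [DecidableEq R] (F : Polynomial R) {n : ℕ}
    (a : ℕ → R) (ha : Set.InjOn a (Set.Iio n)) (hF : F.natDegree ≤ n)
    (hroot : ∀ k < n, F.eval (a k) = 0) :
    ∃ r : R, F = (∏ k ∈ range n, (Polynomial.X - Polynomial.C (a k))) * Polynomial.C r := by
  by_cases h0 : F = 0
  · exact ⟨0, by rw [h0]; simp⟩
  set S : Finset R := (range n).image a with hS
  have hcard : S.card = n := by
    rw [hS, Finset.card_image_of_injOn, card_range]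
    intro x hx y hy hxy
    exact ha (by simpa using hx) (by simpa using hy) hxy
  have hprod : ∏ k ∈ range n, (Polynomial.X - Polynomial.C (a k)) =
      ∏ b ∈ S, (Polynomial.X - Polynomial.C b) := by
    rw [hS, Finset.prod_image]
    intro x hx y hy hxy
    exact ha (by simpa using hx) (by simpa using hy) hxy
  have hdvd : (∏ b ∈ S, (Polynomial.X - Polynomial.C b)) ∣ F := by
    have h1 : (S.val.map fun b => Polynomial.X - Polynomial.C b).prod ∣ F := by
      rw [Multiset.prod_X_sub_C_dvd_iff_le_roots h0]
      rw [Finset.val_le_iff_val_subset]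
      intro b hb
      rw [Polynomial.mem_roots h0]
      have hb' : b ∈ S := hb
      rw [hS, Finset.mem_image] at hb'
      obtain ⟨k, hk, rfl⟩ := hb'
      exact hroot k (by simpa using hk)
    exact h1
  rw [hprod]
  obtain ⟨G, hG⟩ := hdvd
  have hG0 : G ≠ 0 := by
    rintro rfl
    rw [mul_zero] at hG
    exact h0 hG
  have hmon : (∏ b ∈ S, (Polynomial.X - Polynomial.C b)).Monic :=
    Polynomial.monic_prod_of_monic _ _ fun b _ => Polynomial.monic_X_sub_C b
  have hdeg : (∏ b ∈ S, (Polynomial.X - Polynomial.C b)).natDegree = n := by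
    rw [Polynomial.natDegree_prod_of_monic _ _ fun b _ => Polynomial.monic_X_sub_C b]
    simp [hcard]
  have h2 : F.natDegree = n + G.natDegree := by
    rw [hG, hmon.natDegree_mul' hG0, hdeg]
  have h3 : G.natDegree = 0 := by omega
  refine ⟨G.coeff 0, ?_⟩
  rw [← Polynomial.eq_C_of_natDegree_eq_zero h3]
  exact hG

end WheelA

open WheelA

/-- Only the first `2 m` coordinates matter. -/
theorem Wheel.eval_congr (h : Wheel q m P) {z w : ℕ → ℂ} (hzw : ∀ k < 2 * m, z k = w k) :
    eval z P = eval w P := by
  rw [eval_eq, eval_eq]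
  refine Finset.sum_congr rfl fun e he => ?_
  congr 1
  refine Finset.prod_congr rfl fun k hk => ?_
  by_cases hk' : k < 2 * m
  · rw [hzw k hk']
  · have h1 := le_degreeOf he k
    rw [h.out k (by omega)] at h1
    have h2 : e k = 0 := by omega
    rw [h2, pow_zero, pow_zero]

/-- W1: restriction to `z_i = q² z_{i+1}`. -/
theorem Wheel.restrict (hq : q ^ 2 + q + 1 = 0) (h : Wheel q (m + 1) P) {i : ℕ}
    (hi : i + 1 < 2 * (m + 1)) : ∃ R, Wheel q m R ∧ ∀ (z : ℕ → ℂ) (v : ℂ),
      eval (insV i (q ^ 2 * v) v z) P = (∏ k ∈ range (2 * m), (z k - q * v)) * eval z R := by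
  classical
  have hq3 := q_cube hq
  have hq0 := q_ne_zero hq
  set s : ℕ → Polynomial (MvPolynomial ℕ ℂ) := fun k =>
    if k < i then Polynomial.C (X k) else if k = i then Polynomial.C (C (q ^ 2)) * Polynomial.X
    else if k = i + 1 then Polynomial.X else Polynomial.C (X (k - 2)) with hs
  have hpt : ∀ (a : MvPolynomial ℕ ℂ) (z : ℕ → ℂ),
      (fun k => eval z (Polynomial.eval a (s k))) = insV i (q ^ 2 * eval z a) (eval z a) z := by
    intro a z
    funext k
    simp only [hs, insV]
    split_ifs <;> simp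
  set F := aeval s P with hF
  have hdegF : F.natDegree ≤ 2 * m := by
    refine natDegree_aeval_le P s _ fun e he => ?_
    refine le_trans (sum_mul_le_of_two (i := i) (j := i + 1) (by omega) ?_ ?_ ?_) ?_
    · simp only [hs, lt_irrefl, if_false, if_true]
      refine le_trans Polynomial.natDegree_mul_le ?_
      simp
    · simp only [hs]
      rw [if_neg (by omega), if_neg (by omega)]
      simp
    · intro k hk hk'
      simp only [hs]
      split_ifs
      all_goals simp_all
    · have h1 := le_degreeOf he i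
      have h2 := le_degreeOf he (i + 1)
      have h3 := h.deg i (by omega)
      have h4 := h.deg (i + 1) hi
      omega
  have hroot : ∀ k < 2 * m, F.eval (C (q ^ 2) * X k) = 0 := by
    intro k hk
    apply MvPolynomial.funext
    intro z
    rw [hF, eval_eval_aeval, hpt, map_zero]
    have hv : eval z (C (q ^ 2) * X k : MvPolynomial ℕ ℂ) = q ^ 2 * z k := by simp
    rw [hv]
    by_cases hki : k < i
    · refine h.wheel _ k i (i + 1) hki (by omega) hi ?_ ?_
      · rw [insV_self]
        have : insV i (q ^ 2 * (q ^ 2 * z k)) (q ^ 2 * z k) z k = z k := by simp [insV, hki]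
        rw [this]
        linear_combination (-(q ^ 3 + 1) * z k) * hq3
      · rw [insV_self, insV_succ]
    · refine h.wheel _ i (i + 1) (k + 2) (by omega) (by omega) (by omega) ?_ ?_
      · rw [insV_self, insV_succ]
      · rw [insV_succ]
        have h1 := insV_sh i (q ^ 2 * (q ^ 2 * z k)) (q ^ 2 * z k) z k
        rw [sh, if_neg hki] at h1
        rw [h1]
  obtain ⟨r, hr⟩ := exists_factor F (fun k => (C (q ^ 2) * X k : MvPolynomial ℕ ℂ)) (n := 2 * m) (by
    intro a _ b _ hab
    have h1 : (C (q ^ 2) : MvPolynomial ℕ ℂ) ≠ 0 := by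
      rw [Ne, C_eq_zero]
      exact pow_ne_zero _ hq0
    have h2 := mul_left_cancel₀ h1 hab
    exact X_injective h2) hdegF hroot
  have hev : ∀ (z : ℕ → ℂ) (v : ℂ), eval (insV i (q ^ 2 * v) v z) P =
      (∏ k ∈ range (2 * m), (v - q ^ 2 * z k)) * eval z r := by
    intro z v
    have h1 := eval_eval_aeval P s (C v) z
    rw [hpt, eval_C] at h1
    rw [← h1, ← hF, hr]
    rw [Polynomial.eval_mul, Polynomial.eval_prod, Polynomial.eval_C, map_mul, map_prod]
    congr 1
    refine Finset.prod_congr rfl fun k _ => ?_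
    simp
  refine ⟨C (q ^ m) * r, ?_, ?_⟩
  swap
  · intro z v
    rw [hev, map_mul, eval_C]
    have h1 : ∏ k ∈ range (2 * m), (z k - q * v) = (∏ k ∈ range (2 * m), (-q)) *
        ∏ k ∈ range (2 * m), (v - q ^ 2 * z k) := by
      rw [← Finset.prod_mul_distrib]
      refine Finset.prod_congr rfl fun k _ => ?_
      linear_combination (- z k) * hq3
    rw [h1, Finset.prod_const, card_range]
    have h2 : (-q) ^ (2 * m) * q ^ m = 1 := by
      rw [pow_mul, ← mul_pow]
      have : (-q) ^ 2 * q = 1 := by rw [neg_sq]; linear_combination hq3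
      rw [this, one_pow]
    linear_combination (-(∏ k ∈ range (2 * m), (v - q ^ 2 * z k)) * eval z r) * h2
  · -- the wheel properties
    have h0 : Polynomial.eval 0 F = (∏ k ∈ range (2 * m), (- (C (q ^ 2) * X k))) * r := by
      rw [hr, Polynomial.eval_mul, Polynomial.eval_prod, Polynomial.eval_C]
      congr 1
      refine Finset.prod_congr rfl fun k _ => ?_
      simp
    have h0' : Polynomial.eval 0 F = aeval (fun k => Polynomial.eval 0 (s k)) P := by
      apply MvPolynomial.funext
      intro z
      rw [hF, eval_eval_aeval, eval_aeval]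
    have hdeg0 : ∀ k, degreeOf k (Polynomial.eval 0 F) ≤ degreeOf (sh i k) P := by
      intro k
      rw [h0']
      refine degreeOf_aeval_le P _ k _ fun e he => ?_
      refine le_trans (sum_mul_le_of_one (i := sh i k) ?_ ?_) (le_degreeOf he _)
      · simp only [hs, sh]
        split_ifs <;> first | omega | simp
        all_goals (try split_ifs) <;> simp
      · intro j hj
        simp only [hs]
        split_ifs with h1 h2 h3
        · simp only [Polynomial.eval_C, degreeOf_X]
          rw [if_neg]
          rintro rfl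
          exact hj (by simp [sh, h1])
        · simp
        · simp
        · simp only [Polynomial.eval_C, degreeOf_X]
          rw [if_neg]
          rintro rfl
          apply hj
          unfold sh
          rw [if_neg (by omega)]
          omega
    have hdr : ∀ k, degreeOf k (C (q ^ m) * r) ≤ degreeOf (sh i k) P - (if k < 2 * m then 1 else 0) := by
      intro k
      by_cases hr0 : r = 0
      · rw [hr0, mul_zero]; simp
      have h1 := hdeg0 k
      rw [h0] at h1
      have h2 : (∏ k ∈ range (2 * m), (- (C (q ^ 2) * X k : MvPolynomial ℕ ℂ))) ≠ 0 := by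
        rw [Finset.prod_ne_zero_iff]
        intro a _
        rw [neg_ne_zero]
        refine mul_ne_zero ?_ (X_ne_zero a)
        rw [Ne, C_eq_zero]
        exact pow_ne_zero _ hq0
      rw [degreeOf_mul_eq h2 hr0] at h1
      have h3 : degreeOf k (C (q ^ m) * r) ≤ degreeOf k r := degreeOf_C_mul_le _ _ _
      have h4 : (if k < 2 * m then 1 else 0) ≤
          degreeOf k (∏ k ∈ range (2 * m), (- (C (q ^ 2) * X k : MvPolynomial ℕ ℂ))) := by
        split_ifs with hk
        · rw [← Finset.mul_prod_erase _ _ (Finset.mem_range.2 hk)]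
          rw [degreeOf_mul_eq]
          · have h5 : degreeOf k (-(C (q ^ 2) * X k : MvPolynomial ℕ ℂ)) = 1 := by
              have h6 : (-(C (q ^ 2) * X k : MvPolynomial ℕ ℂ)) = C (-q ^ 2) * X k := by
                simp
              rw [h6, degreeOf_mul_eq]
              · rw [degreeOf_C, degreeOf_X]; simp
              · rw [Ne, C_eq_zero, neg_eq_zero]; exact pow_ne_zero _ hq0
              · exact X_ne_zero k
            omega
          · rw [neg_ne_zero]
            refine mul_ne_zero ?_ (X_ne_zero k)
            rw [Ne, C_eq_zero]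
            exact pow_ne_zero _ hq0
          · rw [Finset.prod_ne_zero_iff]
            intro a _
            rw [neg_ne_zero]
            refine mul_ne_zero ?_ (X_ne_zero a)
            rw [Ne, C_eq_zero]
            exact pow_ne_zero _ hq0
        · exact Nat.zero_le _
      omega
    refine ⟨?_, ?_, ?_⟩
    · intro k hk
      have h1 := hdr k
      rw [if_pos hk] at h1
      have h2 := h.deg (sh i k) (by unfold sh; split_ifs <;> omega)
      omega
    · intro k hk
      have h1 := hdr k
      rw [if_neg (by omega)] at h1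
      have h2 := h.out (sh i k) (by unfold sh; split_ifs <;> omega)
      omega
    · intro z a b c hab hbc hc hza hzb
      rw [map_mul, eval_C]
      obtain ⟨v, hv⟩ := Infinite.exists_notMem_finset ((range (2 * m)).image fun k => q ^ 2 * z k)
      have h1 := hev z v
      rw [h.wheel _ (sh i a) (sh i b) (sh i c) (sh_strictMono i hab) (sh_strictMono i hbc)
        (by unfold sh; split_ifs <;> omega) (by rw [insV_sh, insV_sh]; exact hza)
        (by rw [insV_sh, insV_sh]; exact hzb)] at h1
      have h2 : ∏ k ∈ range (2 * m), (v - q ^ 2 * z k) ≠ 0 := by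
        rw [Finset.prod_ne_zero_iff]
        intro k hk h3
        exact hv (Finset.mem_image.2 ⟨k, hk, (sub_eq_zero.1 h3).symm⟩)
      rcases mul_eq_zero.1 h1.symm with h3 | h3
      · exact absurd h3 h2
      · rw [h3, mul_zero]

end Pool.Agent.Perc
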