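import Pool.Agent.Lib.MP_6bd702_perc.WheelDefs
import Pool.Agent.Lib.MP_6bd702_perc.WheelA
import Pool.Agent.Lib.MP_6bd702_perc.WheelB

/-!
# Wheel polynomials: injectivity of the evaluations (task WheelC)
-/

set_option autoImplicit false

namespace Pool.Agent.Perc

open Finset MvPolynomial

variable {q : ℂ} {m : ℕ} {P : MvPolynomial ℕ ℂ}

namespace WheelC

open WheelA

/-- A wheel polynomial in no variables is constant. -/
theorem eval_eq_of_zero (h : Wheel q 0 P) (z w : ℕ → ℂ) : eval z P = eval w P :=
  h.eval_congr fun k hk => absurd hk (by omega)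

/-- Every point with `z_i = q² z_{i+1}` is an insertion. -/
theorem eq_insV {i : ℕ} {z : ℕ → ℂ} (hz : z i = q ^ 2 * z (i + 1)) :
    z = insV i (q ^ 2 * z (i + 1)) (z (i + 1)) (fun k => z (sh i k)) := by
  funext k
  unfold insV
  beta_reduce
  split_ifs with h1 h2 h3
  · rw [sh, if_pos h1]
  · rw [h2, hz]
  · rw [h3]
  · rw [sh, if_neg (by omega)]
    congr 1; omega

theorem q_ne_one (hq : q ^ 2 + q + 1 = 0) : q ≠ 1 := by
  rintro rfl
  norm_num at hq

/-- Linear monomials. -/
theorem C_mul_X_inj {a b : ℂ} {k l : ℕ} (ha : a ≠ 0)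
    (h : (C a * X k : MvPolynomial ℕ ℂ) = C b * X l) : k = l ∧ a = b := by
  have h1 := congrArg (eval (fun n => if n = k then (1 : ℂ) else 0)) h
  simp only [map_mul, eval_C, eval_X, if_true] at h1
  by_cases hkl : l = k
  · subst hkl
    simp only [if_true, mul_one] at h1
    exact ⟨rfl, h1⟩
  · rw [if_neg hkl, mul_one, mul_zero] at h1
    exact absurd h1 ha

/-- The polynomial vanishes at `z_i = q² z_j`. -/
theorem eval_eq_zero_of_adj (hq : q ^ 2 + q + 1 = 0) (h : Wheel q (m + 1) P)
    (h1 : ∀ i, i + 1 < 2 * (m + 1) → ∀ z : ℕ → ℂ, z i = q ^ 2 * z (i + 1) → eval z P = 0) :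
    ∀ d i : ℕ, 0 < d → i + d < 2 * (m + 1) → ∀ z : ℕ → ℂ, z i = q ^ 2 * z (i + d) →
      eval z P = 0 := by
  classical
  have hq3 := q_cube hq
  have hq0 := q_ne_zero hq
  intro d
  induction d using Nat.strong_induction_on with
  | _ d ih =>
  intro i hd hid z hz
  by_cases hd1 : d = 1
  · subst hd1
    exact h1 i hid z hz
  set j := i + d with hj
  have hij : i ≠ j := by omega
  set s : ℕ → Polynomial (MvPolynomial ℕ ℂ) := fun k =>
    if k = i then Polynomial.C (C (q ^ 2)) * Polynomial.X
    else if k = j then Polynomial.X else Polynomial.C (X k) with hs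
  have hpt : ∀ (a : MvPolynomial ℕ ℂ) (z : ℕ → ℂ),
      (fun k => eval z (Polynomial.eval a (s k))) =
        fun k => if k = i then q ^ 2 * eval z a else if k = j then eval z a else z k := by
    intro a z
    funext k
    simp only [hs]
    split_ifs <;> simp
  set F := aeval s P with hF
  have hdegF : F.natDegree ≤ 2 * m := by
    refine natDegree_aeval_le P s _ fun e he => ?_
    refine le_trans (sum_mul_le_of_two (i := i) (j := j) hij ?_ ?_ ?_) ?_
    · simp only [hs, if_true]
      refine le_trans Polynomial.natDegree_mul_le ?_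
      simp
    · simp only [hs]
      rw [if_neg (by omega)]
      simp
    · intro k hk hk'
      simp only [hs]
      rw [if_neg hk, if_neg hk', Polynomial.natDegree_C]
    · have h1 := le_degreeOf he i
      have h2 := le_degreeOf he j
      have h3 := h.deg i (by omega)
      have h4 := h.deg j hid
      omega
  set f : ℕ → MvPolynomial ℕ ℂ := fun k => if k = i then C q * X (i + 1) else
    if k < i ∨ j < k then C (q ^ 2) * X k else C 1 * X k with hf
  have hroot : ∀ k < 2 * (m + 1), k ≠ j → F.eval (f k) = 0 := by
    intro k hk hkj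
    apply MvPolynomial.funext
    intro z
    rw [hF, eval_eval_aeval, hpt, map_zero]
    by_cases hki : k = i
    · have hv : eval z (f k) = q * z (i + 1) := by
        simp only [hf]
        rw [if_pos hki]
        simp
      rw [hv]
      refine ih (d - 1) (by omega) (i + 1) (by omega) (by omega) _ ?_
      have e1 : i + 1 + (d - 1) = j := by omega
      rw [e1]
      rw [if_neg (by omega), if_neg (by omega), if_neg (by omega), if_pos rfl]
      linear_combination (-z (i + 1)) * hq3
    by_cases hk1 : k < i
    · have hv : eval z (f k) = q ^ 2 * z k := by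
        simp only [hf]
        rw [if_neg hki, if_pos (Or.inl hk1)]
        simp
      rw [hv]
      refine h.wheel _ k i j hk1 (by omega) hid ?_ ?_
      · rw [if_neg hki, if_neg hkj, if_pos rfl]
        linear_combination (-(q ^ 3 + 1) * z k) * hq3
      · rw [if_pos rfl, if_neg (by omega), if_pos rfl]
    by_cases hk2 : j < k
    · have hv : eval z (f k) = q ^ 2 * z k := by
        simp only [hf]
        rw [if_neg hki, if_pos (Or.inr hk2)]
        simp
      rw [hv]
      refine h.wheel _ i j k (by omega) hk2 hk ?_ ?_
      · rw [if_pos rfl, if_neg (by omega), if_pos rfl]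
      · rw [if_neg (by omega), if_pos rfl, if_neg hki, if_neg hkj]
    · have hv : eval z (f k) = z k := by
        simp only [hf]
        rw [if_neg hki, if_neg (by omega)]
        simp
      rw [hv]
      refine ih (k - i) (by omega) i (by omega) (by omega) _ ?_
      have e1 : i + (k - i) = k := by omega
      rw [e1]
      rw [if_pos rfl, if_neg hki, if_neg hkj]
  have hinj : Set.InjOn f (((range (2 * (m + 1))).erase j : Finset ℕ) : Set ℕ) := by
    intro a ha b hb hab
    have ha' : a ≠ j := by
      have := Finset.mem_coe.1 ha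
      exact (Finset.mem_erase.1 this).1
    have hb' : b ≠ j := by
      have := Finset.mem_coe.1 hb
      exact (Finset.mem_erase.1 this).1
    have q2 : q ^ 2 ≠ 0 := pow_ne_zero _ hq0
    have q1 := q_ne_one hq
    simp only [hf] at hab
    split_ifs at hab with c1 c2 c3 c4 c5 c6 c7
    · omega
    · have := (C_mul_X_inj hq0 hab).1
      omega
    · exact absurd (C_mul_X_inj hq0 hab).2 q1
    · have := (C_mul_X_inj q2 hab).1
      omega
    · exact (C_mul_X_inj q2 hab).1
    · exact (C_mul_X_inj q2 hab).1
    · exact absurd (C_mul_X_inj one_ne_zero hab).2.symm q1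
    · exact (C_mul_X_inj one_ne_zero hab).1
    · exact (C_mul_X_inj one_ne_zero hab).1
  have hF0 : F = 0 := by
    refine Polynomial.eq_zero_of_natDegree_lt_card_of_eval_eq_zero' F
      (((range (2 * (m + 1))).erase j).image f) ?_ ?_
    · intro a ha
      obtain ⟨k, hk, rfl⟩ := Finset.mem_image.1 ha
      have hk' := Finset.mem_erase.1 hk
      exact hroot k (Finset.mem_range.1 hk'.2) hk'.1
    · rw [Finset.card_image_of_injOn hinj, Finset.card_erase_of_mem (Finset.mem_range.2 hid),
        card_range]
      omega
  have h2 := eval_eval_aeval P s (C (z j)) z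
  rw [hpt, ← hF, hF0, Polynomial.eval_zero, map_zero, eval_C] at h2
  have h3 : (fun k => if k = i then q ^ 2 * z j else if k = j then z j else z k) = z := by
    funext k
    split_ifs with c1 c2
    · rw [c1, hz]
    · rw [c2]
    · rfl
  rw [h3] at h2
  exact h2.symm

/-- The last step. -/
theorem eq_zero_of_pairs (hq : q ^ 2 + q + 1 = 0) (h : Wheel q (m + 1) P)
    (h1 : ∀ j, 0 < j → j < 2 * (m + 1) → ∀ z : ℕ → ℂ, z 0 = q ^ 2 * z j → eval z P = 0) :
    P = 0 := by
  classical
  have hq0 := q_ne_zero hq
  set s : ℕ → Polynomial (MvPolynomial ℕ ℂ) := fun k =>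
    if k = 0 then Polynomial.X else Polynomial.C (X k) with hs
  have hpt : ∀ (a : MvPolynomial ℕ ℂ) (z : ℕ → ℂ),
      (fun k => eval z (Polynomial.eval a (s k))) =
        fun k => if k = 0 then eval z a else z k := by
    intro a z
    funext k
    simp only [hs]
    split_ifs <;> simp
  set F := aeval s P with hF
  have hdegF : F.natDegree ≤ m := by
    refine natDegree_aeval_le P s _ fun e he => ?_
    refine le_trans (sum_mul_le_of_one (i := 0) ?_ ?_) ?_
    · simp only [hs, if_true]
      simp
    · intro k hk
      simp only [hs]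
      rw [if_neg hk, Polynomial.natDegree_C]
    · have h1 := le_degreeOf he 0
      have h3 := h.deg 0 (by omega)
      omega
  set f : ℕ → MvPolynomial ℕ ℂ := fun k => C (q ^ 2) * X (k + 1) with hf
  have hroot : ∀ k < 2 * m + 1, F.eval (f k) = 0 := by
    intro k hk
    apply MvPolynomial.funext
    intro z
    rw [hF, eval_eval_aeval, hpt, map_zero]
    refine h1 (k + 1) (by omega) (by omega) _ ?_
    simp [hf]
  have hinj : Function.Injective f := by
    intro a b hab
    have := (C_mul_X_inj (pow_ne_zero _ hq0) hab).1
    omega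
  have hF0 : F = 0 := by
    refine Polynomial.eq_zero_of_natDegree_lt_card_of_eval_eq_zero' F
      ((range (2 * m + 1)).image f) ?_ ?_
    · intro a ha
      obtain ⟨k, hk, rfl⟩ := Finset.mem_image.1 ha
      exact hroot k (Finset.mem_range.1 hk)
    · rw [Finset.card_image_of_injective _ hinj, card_range]
      omega
  apply MvPolynomial.funext
  intro z
  have h2 := eval_eval_aeval P s (C (z 0)) z
  rw [hpt, ← hF, hF0, Polynomial.eval_zero, map_zero, eval_C] at h2
  have h3 : (fun k => if k = 0 then z 0 else z k) = z := by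
    funext k
    split_ifs with c1
    · rw [c1]
    · rfl
  rw [h3] at h2
  rw [← h2, map_zero]

theorem nc_zero : NC 0 (fun x => x) where
  lt := fun x hx => absurd hx (by omega)
  inv := fun _ => rfl
  ne := fun x hx => absurd hx (by omega)
  out := fun _ _ => rfl
  nc := fun x y h1 h2 => absurd h2 (by omega)

end WheelC

open WheelA WheelC

/-- W2: a wheel polynomial which vanishes at all the points of link patterns is zero. -/
theorem Wheel.eq_zero (hq : q ^ 2 + q + 1 = 0) (h : Wheel q m P)
    (h0 : ∀ p, NC (2 * m) p → eval (zpt q p) P = 0) : P = 0 := by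
  induction m generalizing P with
  | zero =>
    apply MvPolynomial.funext
    intro z
    rw [eval_eq_of_zero h z (zpt q fun x => x), map_zero]
    exact h0 _ nc_zero
  | succ m ih =>
    have h1 : ∀ i, i + 1 < 2 * (m + 1) → ∀ z : ℕ → ℂ, z i = q ^ 2 * z (i + 1) → eval z P = 0 := by
      intro i hi z hz
      obtain ⟨R, hR, hPR⟩ := h.restrict hq hi
      have hR0 : R = 0 := by
        apply ih hR
        intro p hp
        have h2 := hPR (zpt q p) 1
        simp only [mul_one] at h2
        rw [insV_zpt hp (by omega), h0 _ (hp.insArc (by omega)), prod_zpt hq hp] at h2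
        rcases mul_eq_zero.1 h2.symm with h3 | h3
        · exfalso
          have h4 : (3 * q ^ 2) ≠ 0 := mul_ne_zero (by norm_num) (pow_ne_zero _ (q_ne_zero hq))
          exact pow_ne_zero _ h4 h3
        · exact h3
      have h2 := hPR (fun k => z (sh i k)) (z (i + 1))
      rw [← eq_insV hz, hR0, map_zero, mul_zero] at h2
      exact h2
    apply eq_zero_of_pairs hq h
    intro j hj hj2 z hz
    refine eval_eq_zero_of_adj hq h h1 j 0 hj (by omega) z ?_
    rw [zero_add]
    exact hz

end Pool.Agent.Perc
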