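import Pool.Agent.Lib.MP_6bd702_perc.WheelDefs
import Pool.Agent.Lib.MP_6bd702_perc.WheelA
import Pool.Agent.Lib.MP_6bd702_perc.WheelB

/-!
# Wheel polynomials: rotation (task WheelD)
-/

set_option autoImplicit false

namespace Pool.Agent.Perc

open Finset MvPolynomial

variable {q : ℂ} {m : ℕ} {P : MvPolynomial ℕ ℂ}

namespace WheelD

open WheelA

/-- The index map of the rotation. -/
def rotI (N : ℕ) (k : ℕ) : ℕ := if k + 1 < N then k + 1 else if k + 1 = N then 0 else k

theorem rotV_eq (N : ℕ) (z : ℕ → ℂ) : rotV N z = z ∘ rotI N := by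
  funext k
  show rotV N z k = z (rotI N k)
  simp only [rotV, rotI]
  split_ifs <;> rfl

theorem rotI_injective (N : ℕ) : Function.Injective (rotI N) := by
  intro a b hab
  unfold rotI at hab
  split_ifs at hab <;> omega

/-- The inverse of the index map. -/
def rotJ (N : ℕ) (k : ℕ) : ℕ := if N ≤ k then k else if k = 0 then N - 1 else k - 1

theorem rotI_rotJ (N k : ℕ) : rotI N (rotJ N k) = k := by
  unfold rotI rotJ
  split_ifs <;> omega

theorem rotV_insV {N k : ℕ} (hk : 0 < k) (hkN : k ≤ N) (u v : ℂ) (z : ℕ → ℂ) {x : ℕ}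
    (hx : x < N + 2) : rotV (N + 2) (insV k u v z) x = insV (k - 1) u v (rotV N z) x := by
  simp only [rotV, insV]
  split_ifs <;> first | omega | rfl | (congr 1; omega)

/-- The product over the sites is invariant under the rotation. -/
theorem prod_rotV (N : ℕ) (z : ℕ → ℂ) (g : ℂ → ℂ) :
    ∏ k ∈ range N, g (rotV N z k) = ∏ k ∈ range N, g (z k) := by
  cases N with
  | zero => rfl
  | succ n =>
    rw [Finset.prod_range_succ, Finset.prod_range_succ']
    congr 1
    · refine Finset.prod_congr rfl fun k hk => ?_
      have hk' := Finset.mem_range.1 hk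
      unfold rotV
      rw [if_pos (by omega)]
    · unfold rotV
      rw [if_neg (by omega), if_pos rfl]

/-- The value at the rotated point. -/
theorem eval_rotV_zpt (hq : q ^ 2 + q + 1 = 0) (m : ℕ) (P : MvPolynomial ℕ ℂ) (h : Wheel q m P)
    (p : ℕ → ℕ) (hp : NC (2 * m) p) :
    eval (rotV (2 * m) (zpt q p)) P = eval (zpt q (rotP (2 * m) p)) P := by
  induction m generalizing P p with
  | zero => exact h.eval_congr fun k hk => absurd hk (by omega)
  | succ m ih =>
    by_cases hm : m = 0
    · subst hm
      rw [eval_eq, eval_eq]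
      refine Finset.sum_congr rfl fun e he => ?_
      congr 1
      refine Finset.prod_congr rfl fun k _ => ?_
      have h1 := le_degreeOf he k
      have h2 : e k = 0 := by
        by_cases hk : k < 2 * (0 + 1)
        · have := h.deg k hk
          omega
        · have := h.out k (by omega)
          omega
      rw [h2, pow_zero, pow_zero]
    · have hN : 2 * (m + 1) = 2 * m + 2 := by ring
      rw [hN] at hp ⊢
      obtain ⟨k, hk, hkN, hpk⟩ := hp.exists_small_pos (by omega)
      set p₁ := delArc k p with hp₁
      have hp1 : NC (2 * m) p₁ := hp.delArc (by omega) hpk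
      have hins : insArc k p₁ = p := insArc_delArc hp (by omega) hpk
      obtain ⟨R, hR, hPR⟩ := h.restrict hq (i := k - 1) (by omega)
      have e1 : eval (rotV (2 * m + 2) (zpt q p)) P =
          eval (insV (k - 1) (q ^ 2 * 1) 1 (rotV (2 * m) (zpt q p₁))) P := by
        refine h.eval_congr fun x hx => ?_
        rw [← hins, ← insV_zpt hp1 (by omega), mul_one]
        exact rotV_insV hk (by omega) _ _ _ (by omega)
      have e2 : eval (zpt q (rotP (2 * m + 2) p)) P =
          eval (insV (k - 1) (q ^ 2 * 1) 1 (zpt q (rotP (2 * m) p₁))) P := by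
        rw [← hins, rotP_insArc hp1 hk (by omega), mul_one, insV_zpt hp1.rotP (by omega)]
      rw [e1, e2, hPR, hPR, ih R hR p₁ hp1]
      congr 1
      simp only [mul_one]
      rw [prod_rotV (2 * m) (zpt q p₁) (fun x => x - q), prod_zpt hq hp1, prod_zpt hq hp1.rotP]

end WheelD

open WheelA WheelD

/-- W4': cyclic rotation. -/
theorem Wheel.exists_rot (hq : q ^ 2 + q + 1 = 0) (h : Wheel q m P) :
    ∃ Q, Wheel q m Q ∧ (∀ z, eval z Q = eval (rotV (2 * m) z) P) ∧
      ∀ p, NC (2 * m) p → eval (zpt q p) Q = eval (zpt q (rotP (2 * m) p)) P := by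
  have hq3 := q_cube hq
  have hev : ∀ z, eval z (rename (rotI (2 * m)) P) = eval (rotV (2 * m) z) P := by
    intro z
    rw [eval_rename, rotV_eq]
  have hdeg : ∀ k, degreeOf k (rename (rotI (2 * m)) P) = degreeOf (rotJ (2 * m) k) P := by
    intro k
    have h1 := degreeOf_rename_of_injective (p := P) (rotI_injective (2 * m)) (rotJ (2 * m) k)
    rw [rotI_rotJ] at h1
    exact h1
  refine ⟨rename (rotI (2 * m)) P, ⟨?_, ?_, ?_⟩, hev, ?_⟩
  · intro k hk
    rw [hdeg]
    exact h.deg _ (by unfold rotJ; split_ifs <;> omega)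
  · intro k hk
    rw [hdeg]
    exact h.out _ (by unfold rotJ; split_ifs <;> omega)
  · intro z i j k hij hjk hk h1 h2
    rw [hev]
    have hr : ∀ x, 0 < x → x < 2 * m → rotV (2 * m) z (x - 1) = z x := by
      intro x hx hx2
      unfold rotV
      rw [if_pos (by omega)]
      congr 1
      omega
    by_cases hi : i = 0
    · have hr0 : rotV (2 * m) z (2 * m - 1) = z 0 := by
        unfold rotV
        rw [if_neg (by omega), if_pos (by omega)]
      subst hi
      refine h.wheel _ (j - 1) (k - 1) (2 * m - 1) (by omega) (by omega) (by omega) ?_ ?_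
      · rw [hr j (by omega) (by omega), hr k (by omega) hk, h2]
      · rw [hr k (by omega) hk, hr0, h1, h2]
        linear_combination (-(q ^ 3 + 1) * z k) * hq3
    · refine h.wheel _ (i - 1) (j - 1) (k - 1) (by omega) (by omega) (by omega) ?_ ?_
      · rw [hr i (by omega) (by omega), hr j (by omega) (by omega), h1]
      · rw [hr j (by omega) (by omega), hr k (by omega) hk, h2]
  · intro p hp
    rw [hev]
    exact eval_rotV_zpt hq m P h p hp

end Pool.Agent.Perc
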