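import Pool.Agent.Lib.MP_6bd702_perc.WheelDefs

/-!
# Wheel polynomials: the nested product (task WheelF)
-/

set_option autoImplicit false

namespace Pool.Agent.Perc

open Finset MvPolynomial

variable {q : ℂ} {m : ℕ} {P : MvPolynomial ℕ ℂ}

namespace WheelF

lemma q3 (hq : q ^ 2 + q + 1 = 0) : q ^ 3 = 1 := by
  have : q ^ 3 - 1 = (q - 1) * (q ^ 2 + q + 1) := by ring
  rw [hq, mul_zero] at this
  exact sub_eq_zero.mp this

lemma q4 (hq : q ^ 2 + q + 1 = 0) : q ^ 4 = q := by
  have : q ^ 4 = q ^ 3 * q := by ring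
  rw [this, q3 hq, one_mul]

/-- one half of the nested product -/
noncomputable def half (q : ℂ) (s m : ℕ) : MvPolynomial ℕ ℂ :=
  ∏ j ∈ range m, ∏ i ∈ range j, (C q * X (s + j) - C (q ^ 2) * X (s + i))

lemma nestPoly_eq (q : ℂ) (m : ℕ) : nestPoly q m = half q 0 m * half q m m := by
  simp only [nestPoly, half, zero_add]

lemma degreeOf_factor (q : ℂ) (s j i k : ℕ) :
    (C q * X (s + j) - C (q ^ 2) * X (s + i) : MvPolynomial ℕ ℂ).degreeOf k ≤
      if k = s + j ∨ k = s + i then 1 else 0 := by
  refine (degreeOf_sub_le _ _ _).trans (max_le ?_ ?_)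
  · refine (degreeOf_C_mul_le _ _ _).trans ?_
    rw [degreeOf_X]
    split_ifs <;> omega
  · refine (degreeOf_C_mul_le _ _ _).trans ?_
    rw [degreeOf_X]
    split_ifs <;> omega

lemma degreeOf_row (q : ℂ) (s m k : ℕ) :
    (∏ i ∈ range m, (C q * X (s + m) - C (q ^ 2) * X (s + i) : MvPolynomial ℕ ℂ)).degreeOf k ≤
      if k = s + m then m else if s ≤ k ∧ k < s + m then 1 else 0 := by
  refine (degreeOf_prod_le _ _ _).trans ?_
  refine (Finset.sum_le_sum fun i _ => degreeOf_factor q s m i k).trans ?_
  by_cases h1 : k = s + m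
  · simp [h1]
  · by_cases h2 : s ≤ k ∧ k < s + m
    · rw [if_neg h1, if_pos h2]
      have h3 : ∀ i ∈ range m, (if k = s + m ∨ k = s + i then 1 else 0) =
          if k - s = i then 1 else 0 := by
        intro i _
        by_cases h4 : k - s = i
        · have : k = s + m ∨ k = s + i := by omega
          simp [h4, this]
        · have : ¬ (k = s + m ∨ k = s + i) := by omega
          simp [h4, this]
      rw [Finset.sum_congr rfl h3, Finset.sum_ite_eq]
      split_ifs <;> omega
    · rw [if_neg h1, if_neg h2]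
      have h3 : ∀ i ∈ range m, (if k = s + m ∨ k = s + i then 1 else 0) = 0 := by
        intro i hi
        rw [Finset.mem_range] at hi
        have : ¬ (k = s + m ∨ k = s + i) := by omega
        simp [this]
      rw [Finset.sum_congr rfl h3]
      simp

lemma degreeOf_half (q : ℂ) (s m k : ℕ) :
    (half q s m).degreeOf k ≤ if s ≤ k ∧ k < s + m then m - 1 else 0 := by
  induction m with
  | zero => simp [half]
  | succ m ih =>
    have h1 : half q s (m + 1) = half q s m *
        ∏ i ∈ range m, (C q * X (s + m) - C (q ^ 2) * X (s + i)) := by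
      rw [half, Finset.prod_range_succ, half]
    rw [h1]
    refine (degreeOf_mul_le _ _ _).trans ?_
    have h2 := degreeOf_row q s m k
    refine (add_le_add ih h2).trans ?_
    split_ifs <;> omega

lemma eval_half_eq_zero (q : ℂ) (s m : ℕ) (z : ℕ → ℂ) {i j : ℕ} (hij : i < j) (hj : j < m)
    (h : q * z (s + j) - q ^ 2 * z (s + i) = 0) : eval z (half q s m) = 0 := by
  rw [half, map_prod]
  refine Finset.prod_eq_zero (Finset.mem_range.mpr hj) ?_
  rw [map_prod]
  refine Finset.prod_eq_zero (Finset.mem_range.mpr hij) ?_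
  simp only [map_sub, map_mul, eval_C, eval_X]
  exact h

lemma eval_half_const (q a : ℂ) (s m : ℕ) (z : ℕ → ℂ) (h : ∀ j < m, z (s + j) = a) :
    eval z (half q s m) = (q * a - q ^ 2 * a) ^ (m * (m - 1) / 2) := by
  rw [half, map_prod, ← Finset.sum_range_id, ← Finset.prod_pow_eq_pow_sum]
  refine Finset.prod_congr rfl fun j hj => ?_
  rw [Finset.mem_range] at hj
  rw [map_prod]
  rw [Finset.prod_congr rfl (g := fun _ => q * a - q ^ 2 * a), Finset.prod_const,
    Finset.card_range]
  intro i hi
  rw [Finset.mem_range] at hi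
  simp only [map_sub, map_mul, eval_C, eval_X]
  rw [h j hj, h i (by omega)]

lemma eq_nest {p : ℕ → ℕ} (hp : NC (2 * m) p) (h : ∀ j < m, j < p j) : p = nest m := by
  have h1 : ∀ x < m, m ≤ p x := by
    intro x hx
    by_contra h2
    have h3 := h (p x) (by omega)
    rw [hp.inv] at h3
    have h4 := h x hx
    omega
  have h2 : ∀ x y, x < y → y < m → p y < p x := by
    intro x y hxy hy
    have h3 := h1 x (by omega)
    exact (hp.nc x y hxy (by omega)).2
  have h3 : ∀ x, x < m → p x + x + 1 ≤ 2 * m := by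
    intro x
    induction x with
    | zero =>
      intro h4
      have := hp.lt 0 (by omega)
      omega
    | succ x ih =>
      intro h4
      have h5 := ih (by omega)
      have h6 := h2 x (x + 1) (by omega) h4
      omega
  have h4 : ∀ j, j < m → m + j ≤ p (m - 1 - j) := by
    intro j
    induction j with
    | zero =>
      intro h5
      have := h1 (m - 1 - 0) (by omega)
      omega
    | succ j ih =>
      intro h5
      have h6 := ih (by omega)
      have h7 := h2 (m - 1 - (j + 1)) (m - 1 - j) (by omega) (by omega)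
      omega
  have h5 : ∀ x < m, p x = 2 * m - 1 - x := by
    intro x hx
    have h6 := h3 x hx
    have h7 := h4 (m - 1 - x) (by omega)
    have h8 : m - 1 - (m - 1 - x) = x := by omega
    rw [h8] at h7
    omega
  funext x
  unfold nest
  by_cases hx : x < m
  · rw [if_pos (by omega), h5 x hx]
  by_cases hx2 : x < 2 * m
  · rw [if_pos hx2]
    have h6 := h5 (2 * m - 1 - x) (by omega)
    have h7 : 2 * m - 1 - (2 * m - 1 - x) = x := by omega
    rw [h7] at h6
    have h8 := hp.inv (2 * m - 1 - x)
    rw [h6] at h8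
    exact h8
  · rw [if_neg hx2]
    exact hp.out x (by omega)

end WheelF

theorem wheel_nestPoly (hq : q ^ 2 + q + 1 = 0) (m : ℕ) : Wheel q m (nestPoly q m) := by
  rw [WheelF.nestPoly_eq]
  refine ⟨?_, ?_, ?_⟩
  · intro k hk
    refine (degreeOf_mul_le _ _ _).trans ?_
    refine (add_le_add (WheelF.degreeOf_half q 0 m k) (WheelF.degreeOf_half q m m k)).trans ?_
    split_ifs <;> omega
  · intro k hk
    rw [← Nat.le_zero]
    refine (degreeOf_mul_le _ _ _).trans ?_
    refine (add_le_add (WheelF.degreeOf_half q 0 m k) (WheelF.degreeOf_half q m m k)).trans ?_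
    split_ifs <;> omega
  · intro z i j k hij hjk hk h1 h2
    have h4 := WheelF.q4 hq
    rw [map_mul]
    by_cases hj : j < m
    · rw [WheelF.eval_half_eq_zero q 0 m z hij hj, zero_mul]
      rw [zero_add, zero_add, h1]
      linear_combination (-z j) * h4
    · rw [WheelF.eval_half_eq_zero q m m z (i := j - m) (j := k - m) (by omega) (by omega),
        mul_zero]
      have e1 : m + (k - m) = k := by omega
      have e2 : m + (j - m) = j := by omega
      rw [e1, e2, h2]
      linear_combination (-z k) * h4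

theorem eval_nestPoly_of_ne (hq : q ^ 2 + q + 1 = 0) {p : ℕ → ℕ} (hp : NC (2 * m) p)
    (hne : p ≠ nest m) : eval (zpt q p) (nestPoly q m) = 0 := by
  have h1 : ∃ j, j < m ∧ ¬ j < p j := by
    by_contra h
    refine hne (WheelF.eq_nest hp fun j hj => ?_)
    by_contra h5
    exact h ⟨j, hj, h5⟩
  obtain ⟨j, hj, hpj⟩ := h1
  have h2 := hp.ne j (by omega)
  have h3 : p j < j := by omega
  rw [WheelF.nestPoly_eq, map_mul, WheelF.eval_half_eq_zero q 0 m _ h3 hj, zero_mul]
  have e1 : zpt q p j = 1 := by simp [zpt, hpj]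
  have e2 : zpt q p (p j) = q ^ 2 := by simp [zpt, hp.inv, h3]
  rw [zero_add, zero_add, e1, e2]
  have h4 := WheelF.q4 hq
  linear_combination (-1 : ℂ) * h4

theorem eval_nestPoly_nest (hq : q ^ 2 + q + 1 = 0) (m : ℕ) :
    eval (zpt q (nest m)) (nestPoly q m) = (-3 * q ^ 2) ^ (m * (m - 1) / 2) := by
  rw [WheelF.nestPoly_eq, map_mul, WheelF.eval_half_const q (q ^ 2) 0 m,
    WheelF.eval_half_const q 1 m m, ← mul_pow]
  · congr 1
    have h3 := WheelF.q3 hq
    linear_combination (q - 2 * q ^ 2 + q ^ 3 + 1) * h3 + hq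
  · intro j hj
    have h1 : ¬ (m + j < nest m (m + j)) := by
      unfold nest; split_ifs <;> omega
    simp [zpt, h1]
  · intro j hj
    have h1 : 0 + j < nest m (0 + j) := by
      unfold nest; split_ifs <;> omega
    simp only [zpt, h1, if_true]

end Pool.Agent.Perc
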