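import Pool.Agent.Lib.MP_6bd702_perc.WheelDefs
import Pool.Agent.Lib.MP_6bd702_perc.WheelE
import Pool.Agent.Lib.MP_6bd702_perc.WheelF
import Pool.Agent.Lib.MP_6bd702_perc.WheelC

/-!
# Wheel polynomials: the dual basis (task WheelG)
-/

set_option autoImplicit false

namespace Pool.Agent.Perc

open Finset MvPolynomial

variable {q : ℂ} {m : ℕ} {P : MvPolynomial ℕ ℂ}

namespace WheelG

/-! ### the sum of the positions of the openings -/

/-- sum of the positions of the openings -/
def mu (N : ℕ) (p : ℕ → ℕ) : ℕ := ∑ x ∈ range N, if x < p x then x else 0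

lemma eAct_fst (i : ℕ) (p : ℕ → ℕ) : eAct i p i = i + 1 := by simp [eAct]

lemma eAct_snd (i : ℕ) (p : ℕ → ℕ) : eAct i p (i + 1) = i := by simp [eAct]

lemma eAct_left {i x : ℕ} {p : ℕ → ℕ} (h1 : x ≠ i) (h2 : x ≠ i + 1) (h : p x = i) :
    eAct i p x = p (i + 1) := by
  unfold eAct
  rw [if_neg h1, if_neg h2, if_pos h]

lemma eAct_right {i x : ℕ} {p : ℕ → ℕ} (h1 : x ≠ i) (h2 : x ≠ i + 1) (h : p x = i + 1) :
    eAct i p x = p i := by
  unfold eAct
  rw [if_neg h1, if_neg h2, if_neg (by omega), if_pos h]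

lemma eAct_other {i x : ℕ} {p : ℕ → ℕ} (h1 : x ≠ i) (h2 : x ≠ i + 1) (h3 : p x ≠ i)
    (h4 : p x ≠ i + 1) : eAct i p x = p x := by
  unfold eAct
  rw [if_neg h1, if_neg h2, if_neg h3, if_neg h4]

/-- a valley of the word of `p` -/
def valley (i : ℕ) (p : ℕ → ℕ) : Prop := p i < i ∧ i + 1 < p (i + 1)

lemma mu_eAct {N : ℕ} {p : ℕ → ℕ} (h : NC N p) {i : ℕ} (hi : i + 1 < N) :
    (valley i p ∧ mu N (eAct i p) + 1 = mu N p) ∨ (¬ valley i p ∧ mu N p ≤ mu N (eAct i p)) := by
  by_cases hs : p i = i + 1
  · right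
    refine ⟨fun hv => ?_, le_of_eq (by rw [eAct_of_eq h hi hs])⟩
    have := hv.1
    omega
  · set a := p i with ha
    set b := p (i + 1) with hb
    have pa : p a = i := h.inv i
    have pb : p b = i + 1 := h.inv (i + 1)
    have haN : a < N := h.lt i (by omega)
    have hbN : b < N := h.lt (i + 1) hi
    have hai : a ≠ i := h.ne i (by omega)
    have hbi1 : b ≠ i + 1 := h.ne (i + 1) hi
    have hbi : b ≠ i := by
      intro e
      rw [e] at pb
      exact hs (by rw [ha, pb])
    have hab : a ≠ b := by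
      intro e
      rw [e, pb] at pa
      omega
    have hsub : ({i, i + 1, a, b} : Finset ℕ) ⊆ range N := by
      intro x hx
      simp only [mem_insert, mem_singleton] at hx
      rw [mem_range]
      rcases hx with rfl | rfl | rfl | rfl <;> omega
    have hrest : ∑ x ∈ range N \ {i, i + 1, a, b}, (if x < p x then x else 0)
        = ∑ x ∈ range N \ {i, i + 1, a, b}, (if x < eAct i p x then x else 0) := by
      refine sum_congr rfl fun x hx => ?_
      rw [mem_sdiff] at hx
      simp only [mem_insert, mem_singleton, not_or] at hx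
      obtain ⟨_, h1, h2, h3, h4⟩ := hx
      rw [eAct_other h1 h2 (fun e => h3 (by rw [← e, h.inv] at ha; exact ha ▸ rfl))
        (fun e => h4 (by rw [← e, h.inv] at hb; exact hb ▸ rfl))]
    have e1 : mu N p = ∑ x ∈ range N \ {i, i + 1, a, b}, (if x < p x then x else 0)
        + ((if i < a then i else 0) + ((if i + 1 < b then i + 1 else 0)
          + ((if a < i then a else 0) + (if b < i + 1 then b else 0)))) := by
      unfold mu
      rw [← sum_sdiff hsub]
      congr 1
      rw [sum_insert (by simp; omega), sum_insert (by simp; omega), sum_insert (by simpa using hab),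
        sum_singleton, ← ha, ← hb, pa, pb]
    have e2 : mu N (eAct i p) = ∑ x ∈ range N \ {i, i + 1, a, b}, (if x < p x then x else 0)
        + (i + (0 + ((if a < b then a else 0) + (if b < a then b else 0)))) := by
      unfold mu
      rw [hrest, ← sum_sdiff hsub]
      congr 1
      rw [sum_insert (by simp; omega), sum_insert (by simp; omega), sum_insert (by simpa using hab),
        sum_singleton, eAct_fst, eAct_snd, eAct_left hai hs pa, eAct_right hbi hbi1 pb, ← ha, ← hb,
        if_pos (by omega : i < i + 1), if_neg (by omega : ¬ (i + 1 < i))]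
    rw [e1, e2]
    unfold valley
    rw [← ha, ← hb]
    rcases Nat.lt_or_ge i a with h1 | h1
    · -- `i` is an opening
      have h2 := h.nc i (i + 1) (by omega) (by omega)
      rw [← ha, ← hb] at h2
      right
      refine ⟨by omega, ?_⟩
      rw [if_pos h1, if_pos (by omega : i + 1 < b), if_neg (by omega : ¬ a < i),
        if_neg (by omega : ¬ b < i + 1), if_neg (by omega : ¬ a < b), if_pos h2.2]
      omega
    · have h1' : a < i := by omega
      rcases Nat.lt_or_ge (i + 1) b with h3 | h3
      · left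
        refine ⟨⟨h1', h3⟩, ?_⟩
        rw [if_neg (by omega : ¬ i < a), if_pos h3, if_pos h1', if_neg (by omega : ¬ b < i + 1),
          if_pos (by omega : a < b), if_neg (by omega : ¬ b < a)]
        omega
      · right
        refine ⟨by omega, ?_⟩
        have hba : b < a := by
          by_contra hlt
          have h5 := h.nc a b (by omega) (by omega)
          omega
        rw [if_neg (by omega : ¬ i < a), if_neg (by omega : ¬ i + 1 < b), if_pos h1',
          if_pos (by omega : b < i + 1), if_neg (by omega : ¬ a < b), if_pos hba]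
        omega

lemma valley_le {N : ℕ} {p p' : ℕ → ℕ} (h : NC N p) (h' : NC N p') {i : ℕ} (hi : i + 1 < N)
    (hv : valley i p) (hv' : valley i p') (he : eAct i p = eAct i p') : p' i ≤ p i := by
  by_contra hlt
  have hlt : p i < p' i := by omega
  have h1 := h.nc (p i) (p' i) hlt (by rw [h.inv]; exact hv'.1)
  rw [h.inv] at h1
  have hv1 := hv'.1
  have hv2 := hv'.2
  -- the value of the common image at `p' i`
  have e1 : eAct i p' (p' i) = p' (i + 1) :=
    eAct_left (by omega) (by omega) (h'.inv i)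
  have e2 : eAct i p (p' i) = p (p' i) := by
    refine eAct_other (by omega) (by omega) (by omega) (by omega)
  rw [he, e1] at e2
  omega

lemma valley_unique {N : ℕ} {p p' : ℕ → ℕ} (h : NC N p) (h' : NC N p') {i : ℕ} (hi : i + 1 < N)
    (hv : valley i p) (hv' : valley i p') (he : eAct i p = eAct i p') : p = p' := by
  have ha : p i = p' i := le_antisymm (valley_le h' h hi hv' hv he.symm) (valley_le h h' hi hv hv' he)
  have hb : p (i + 1) = p' (i + 1) := by
    have e1 : eAct i p (p i) = p (i + 1) :=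
      eAct_left (by have := hv.1; omega) (by have := hv.1; omega) (h.inv i)
    have e2 : eAct i p' (p' i) = p' (i + 1) :=
      eAct_left (by have := hv'.1; omega) (by have := hv'.1; omega) (h'.inv i)
    rw [← e1, ← e2, ha, he]
  funext x
  by_cases h1 : x = i
  · rw [h1, ha]
  by_cases h2 : x = i + 1
  · rw [h2, hb]
  by_cases h3 : x = p i
  · rw [h3, h.inv, ha, h'.inv]
  by_cases h4 : x = p (i + 1)
  · rw [h4, h.inv, hb, h'.inv]
  have k1 : p x ≠ i := fun e => h3 (by rw [← e, h.inv])
  have k2 : p x ≠ i + 1 := fun e => h4 (by rw [← e, h.inv])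
  have k3 : p' x ≠ i := fun e => h3 (by rw [ha, ← e, h'.inv])
  have k4 : p' x ≠ i + 1 := fun e => h4 (by rw [hb, ← e, h'.inv])
  rw [← eAct_other h1 h2 k1 k2, he, eAct_other h1 h2 k3 k4]

lemma eq_nest {p : ℕ → ℕ} (h : NC (2 * m) p) (hno : ∀ i, i + 1 < 2 * m → ¬ valley i p) :
    p = nest m := by
  have key : ∀ x, x < m → p x = 2 * m - 1 - x := by
    intro x
    induction x using Nat.strong_induction_on with
    | _ x ih =>
    intro hx
    have hN : p x < 2 * m := h.lt x (by omega)
    have hne : p x ≠ x := h.ne x (by omega)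
    -- `p x > x`
    have h1 : x < p x := by
      by_contra hlt
      have hlt : p x < x := by omega
      have h2 := ih (p x) hlt (by omega)
      rw [h.inv] at h2
      omega
    have h3 : p x ≤ 2 * m - 1 - x := by
      by_contra hgt
      set y := 2 * m - 1 - p x with hy
      have hyx : y < x := by omega
      have h4 := ih y hyx (by omega)
      have h5 : p y = p x := by rw [h4]; omega
      have h6 : y = x := by rw [← h.inv y, h5, h.inv]
      omega
    by_contra hcon
    have h4 : p x < 2 * m - 1 - x := by omega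
    set c := p x with hc
    have hpc : p c = x := h.inv x
    -- the partner of `c + 1`
    have hc1N : p (c + 1) < 2 * m := h.lt _ (by omega)
    have hc1ne : p (c + 1) ≠ c + 1 := h.ne _ (by omega)
    refine hno c (by omega) ⟨by omega, ?_⟩
    by_contra hle
    have hlt : p (c + 1) < c + 1 := by omega
    have hinv : p (p (c + 1)) = c + 1 := h.inv _
    rcases Nat.lt_trichotomy (p (c + 1)) x with h5 | h5 | h5
    · have h6 := ih _ h5 (by omega)
      rw [hinv] at h6
      omega
    · rw [h5, ← hc] at hinv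
      omega
    · rcases Nat.lt_or_ge (p (c + 1)) c with h6 | h6
      · have h7 := h.nc x (p (c + 1)) h5 h6
        rw [hinv] at h7
        omega
      · have h7 : p (c + 1) = c := by omega
        rw [h7] at hinv
        omega
  funext x
  unfold nest
  by_cases hx : x < 2 * m
  · rw [if_pos hx]
    rcases Nat.lt_or_ge x m with h1 | h1
    · exact key x h1
    · have h2 := key (2 * m - 1 - x) (by omega)
      have h3 : 2 * m - 1 - (2 * m - 1 - x) = x := by omega
      rw [h3] at h2
      have h4 := h.inv (2 * m - 1 - x)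
      rw [h2] at h4
      exact h4
  · rw [if_neg hx]
    exact h.out x (by omega)

/-! ### representable functions of the pattern -/

/-- the function `f` of the pattern is given by the evaluations of a wheel polynomial -/
def Rep (q : ℂ) (m : ℕ) (f : (ℕ → ℕ) → ℂ) : Prop :=
  ∃ P, Wheel q m P ∧ ∀ p, NC (2 * m) p → eval (zpt q p) P = f p

lemma Rep.zero : Rep q m (fun _ => 0) :=
  ⟨0, ⟨fun k _ => by simp, fun k _ => by simp, fun z i j k _ _ _ _ _ => by simp⟩,
    fun p _ => by simp⟩

lemma Rep.add {f g : (ℕ → ℕ) → ℂ} (hf : Rep q m f) (hg : Rep q m g) :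
    Rep q m (fun p => f p + g p) := by
  obtain ⟨P, hP, hPf⟩ := hf
  obtain ⟨Q, hQ, hQg⟩ := hg
  refine ⟨P + Q, ⟨fun k hk => (degreeOf_add_le _ _ _).trans (max_le (hP.deg k hk) (hQ.deg k hk)),
    fun k hk => ?_, fun z i j k h1 h2 h3 h4 h5 => ?_⟩, fun p hp => ?_⟩
  · have h1 := degreeOf_add_le k P Q
    rw [hP.out k hk, hQ.out k hk] at h1
    simpa using h1
  · rw [map_add, hP.wheel z i j k h1 h2 h3 h4 h5, hQ.wheel z i j k h1 h2 h3 h4 h5, add_zero]
  · rw [map_add, hPf p hp, hQg p hp]

lemma Rep.smul {f : (ℕ → ℕ) → ℂ} (c : ℂ) (hf : Rep q m f) : Rep q m (fun p => c * f p) := by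
  obtain ⟨P, hP, hPf⟩ := hf
  refine ⟨C c * P, ⟨fun k hk => (degreeOf_C_mul_le _ _ _).trans (hP.deg k hk),
    fun k hk => ?_, fun z i j k h1 h2 h3 h4 h5 => ?_⟩, fun p hp => ?_⟩
  · have h1 := degreeOf_C_mul_le P k c
    rw [hP.out k hk] at h1
    simpa using h1
  · rw [map_mul, hP.wheel z i j k h1 h2 h3 h4 h5, mul_zero]
  · rw [map_mul, hPf p hp, eval_C]

lemma Rep.sum {ι : Type*} (s : Finset ι) {f : ι → (ℕ → ℕ) → ℂ} (hf : ∀ x ∈ s, Rep q m (f x)) :
    Rep q m (fun p => ∑ x ∈ s, f x p) := by
  classical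
  induction s using Finset.induction_on with
  | empty => simpa using Rep.zero
  | insert a s ha ih =>
    have h1 := (hf a (mem_insert_self a s)).add (ih fun x hx => hf x (mem_insert_of_mem hx))
    simpa only [sum_insert ha] using h1

lemma Rep.congr {f g : (ℕ → ℕ) → ℂ} (hf : Rep q m f) (hfg : ∀ p, NC (2 * m) p → f p = g p) :
    Rep q m g := by
  obtain ⟨P, hP, hPf⟩ := hf
  exact ⟨P, hP, fun p hp => by rw [hPf p hp, hfg p hp]⟩

lemma Rep.comp_eAct (hq : q ^ 2 + q + 1 = 0) {f : (ℕ → ℕ) → ℂ} (hf : Rep q m f) {i : ℕ}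
    (hi : i + 1 < 2 * m) : Rep q m (fun p => f (eAct i p)) := by
  obtain ⟨P, hP, hPf⟩ := hf
  obtain ⟨Q, hQ, -, hQP⟩ := hP.exists_E hq hi
  exact ⟨Q, hQ, fun p hp => by rw [hQP p hp, hPf _ (hp.eAct hi)]⟩

open Classical in
lemma rep_delta (hq : q ^ 2 + q + 1 = 0) : ∀ (n : ℕ) {π : ℕ → ℕ}, NC (2 * m) π →
    mu (2 * m) π = n → Rep q m (fun p => if p = π then 1 else 0) := by
  intro n
  induction n using Nat.strong_induction_on with
  | _ n ih =>
  intro π hπ hn
  by_cases hv : ∃ i, i + 1 < 2 * m ∧ valley i π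
  · obtain ⟨i, hi, hv⟩ := hv
    have h1 : mu (2 * m) (eAct i π) + 1 = mu (2 * m) π := by
      rcases mu_eAct hπ hi with h | h
      · exact h.2
      · exact absurd hv h.1
    have hf := (ih _ (by omega) (hπ.eAct hi) rfl).comp_eAct hq hi
    -- the other preimages
    set S : Finset (ℕ → ℕ) := (finite_nc (2 * m)).toFinset.filter
      (fun p' => p' ≠ π ∧ eAct i p' = eAct i π) with hS
    have hrest : ∀ p' ∈ S, Rep q m (fun p => if p = p' then 1 else 0) := by
      intro p' hp'
      rw [hS, mem_filter, Set.Finite.mem_toFinset] at hp'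
      obtain ⟨hnc, hne, he⟩ := hp'
      have hnc : NC (2 * m) p' := hnc
      have hle : mu (2 * m) p' ≤ mu (2 * m) (eAct i p') := by
        rcases mu_eAct hnc hi with h | h
        · exact absurd (valley_unique hnc hπ hi h.1 hv he) hne
        · exact h.2
      rw [he] at hle
      exact ih _ (by omega) hnc rfl
    refine (hf.add ((Rep.sum S hrest).smul (-1))).congr fun p hp => ?_
    by_cases hpp : p = π
    · subst hpp
      have h0 : ∑ x ∈ S, (if p = x then (1 : ℂ) else 0) = 0 := by
        refine sum_eq_zero fun x hx => ?_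
        rw [hS, mem_filter] at hx
        rw [if_neg (fun e => hx.2.1 e.symm)]
      simp [h0]
    · by_cases he : eAct i p = eAct i π
      · have hmem : p ∈ S := by
          rw [hS, mem_filter, Set.Finite.mem_toFinset]
          exact ⟨hp, hpp, he⟩
        have h0 : ∑ x ∈ S, (if p = x then (1 : ℂ) else 0) = 1 := by
          rw [sum_ite_eq, if_pos hmem]
        simp [h0, he, hpp]
      · have hmem : p ∉ S := by
          rw [hS, mem_filter]
          exact fun h => he h.2.2
        have h0 : ∑ x ∈ S, (if p = x then (1 : ℂ) else 0) = 0 := by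
          rw [sum_ite_eq, if_neg hmem]
        simp [h0, he, hpp]
  · have hno : ∀ i, i + 1 < 2 * m → ¬ valley i π := fun i hi hvi => hv ⟨i, hi, hvi⟩
    have he := eq_nest hπ hno
    have hq0 : q ≠ 0 := by
      rintro rfl
      norm_num at hq
    have hc : (-3 * q ^ 2) ^ (m * (m - 1) / 2) ≠ 0 :=
      pow_ne_zero _ (mul_ne_zero (by norm_num) (pow_ne_zero _ hq0))
    have h1 : Rep q m (fun p => eval (zpt q p) (nestPoly q m)) :=
      ⟨nestPoly q m, wheel_nestPoly hq m, fun p _ => rfl⟩
    refine (h1.smul ((-3 * q ^ 2) ^ (m * (m - 1) / 2))⁻¹).congr fun p hp => ?_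
    by_cases hpp : p = π
    · rw [if_pos hpp, hpp, he, eval_nestPoly_nest hq, inv_mul_cancel₀ hc]
    · rw [if_neg hpp, eval_nestPoly_of_ne hq hp (by rw [← he]; exact hpp), mul_zero]

end WheelG

open Classical in
/-- W5: the dual basis. -/
theorem exists_dual (hq : q ^ 2 + q + 1 = 0) {π : ℕ → ℕ} (hπ : NC (2 * m) π) :
    ∃ P, Wheel q m P ∧ ∀ p, NC (2 * m) p → eval (zpt q p) P = if p = π then 1 else 0 :=
  WheelG.rep_delta hq _ hπ rfl

end Pool.Agent.Perc
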