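import Pool.Agent.Lib.MP_6bd702_perc.WheelA
import Pool.Agent.Lib.MP_6bd702_perc.WheelB
import Pool.Agent.Lib.MP_6bd702_perc.WheelC
import Pool.Agent.Lib.MP_6bd702_perc.WheelD
import Pool.Agent.Lib.MP_6bd702_perc.WheelE
import Pool.Agent.Lib.MP_6bd702_perc.WheelF
import Pool.Agent.Lib.MP_6bd702_perc.WheelG
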