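import Pool.Agent.Lib.MP_6bd702_perc.Pat

/-!
# Wheel polynomials: definitions

`q ^ 2 + q + 1 = 0` throughout. The number of variables is `2 m`.
-/

set_option autoImplicit false

namespace Pool.Agent.Perc

open Finset MvPolynomial

/-- The space of wheel polynomials: degree at most `m - 1` in each of the `2 m` variables, zero at
`z_i = q² z_j = q⁴ z_k` for `i < j < k`. -/
structure Wheel (q : ℂ) (m : ℕ) (P : MvPolynomial ℕ ℂ) : Prop where
  deg : ∀ k < 2 * m, P.degreeOf k ≤ m - 1
  out : ∀ k, 2 * m ≤ k → P.degreeOf k = 0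
  wheel : ∀ (z : ℕ → ℂ) (i j k : ℕ), i < j → j < k → k < 2 * m → z i = q ^ 2 * z j →
    z j = q ^ 2 * z k → eval z P = 0

/-- Insert the values `u`, `v` at the places `i`, `i + 1`. -/
def insV (i : ℕ) (u v : ℂ) (z : ℕ → ℂ) : ℕ → ℂ := fun k =>
  if k < i then z k else if k = i then u else if k = i + 1 then v else z (k - 2)

/-- The evaluation point of a link pattern: `q²` at openings, `1` at closings. -/
def zpt (q : ℂ) (p : ℕ → ℕ) : ℕ → ℂ := fun k => if k < p k then q ^ 2 else 1

/-- Exchange of two neighbouring coordinates. -/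
def swapV (i : ℕ) (z : ℕ → ℂ) : ℕ → ℂ := fun k => z (Equiv.swap i (i + 1) k)

/-- Rotation of the first `N` coordinates. -/
def rotV (N : ℕ) (z : ℕ → ℂ) : ℕ → ℂ := fun k => if k + 1 < N then z (k + 1) else if k + 1 = N then z 0 else z k

/-- The product polynomial of the nested pattern. -/
noncomputable def nestPoly (q : ℂ) (m : ℕ) : MvPolynomial ℕ ℂ :=
  (∏ j ∈ range m, ∏ i ∈ range j, (C q * X j - C (q ^ 2) * X i)) *
    ∏ j ∈ range m, ∏ i ∈ range j, (C q * X (m + j) - C (q ^ 2) * X (m + i))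

end Pool.Agent.Perc
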